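import Pool.Agent.W_7742p_h74.KStm
import Pool.Agent.W_7742w_h74.Dens

/-! # Arithmetic and geometric means, densities

* `amgm`: for `0 ≠ z ∈ O_E` the norm `∏_τ τ z` is a nonzero integer, so `∏_τ ‖τ z‖² ≥ 1` and the
  arithmetic mean of the `‖τ z‖²` is `≥ 1` (`Real.inner_le_nnorm_mul_nnorm` is not needed; use
  `Real.inner_le...` or `Real.geom_mean_le_arith_mean_weighted`, or a lemma in W_7742c_h74.Arith such
  as the nonnegativity of `excess`); the number of `τ : E →+* ℂ` is `[E : ℚ]`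
  (`NumberField.Embeddings.card`).
* `dens_of_le`: `primeSum (fun _ => True) s ≥ log (1 / (s - 1)) - C₀` (`neg_log_le_primes`, as used
  in W_7742w_h74.Dens; `SatakeSystem.primeSum` and `Maass74.primeSum` are the same sum), which
  tends to infinity for `s → 1+`.
* `dens_ge`: for the complement. -/

set_option autoImplicit false

noncomputable section

namespace Pool.Agent.H74V

open Filter Topology ComplexConjugate

namespace SatakeSystem

open H74E.SatakeSystem in
lemma pS_eq (P : ℕ → Prop) (s : ℝ) : primeSum P s =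
    ∑' p : Nat.Primes, ind P p * ((p : ℕ) : ℝ) ^ (-s) := by
  have h : primeSum P s = H74E.SatakeSystem.primeSum P s := rfl
  rw [h, primeSum_eq]

open H74E.SatakeSystem in
lemma ind_summable (P : ℕ → Prop) {s : ℝ} (hs : 1 < s) :
    Summable fun p : Nat.Primes => ind P p * ((p : ℕ) : ℝ) ^ (-s) := by
  refine Summable.of_nonneg_of_le (fun p => mul_nonneg (ind_nonneg _ _) (by positivity))
    (fun p => ?_) (Nat.Primes.summable_rpow.2 (by linarith : -s < -1))
  exact mul_le_of_le_one_left (by positivity) (ind_le_one _ _)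

open H74E.SatakeSystem in
lemma pS_true (s : ℝ) : primeSum (fun _ => True) s =
    ∑' p : Nat.Primes, ((p : ℕ) : ℝ) ^ (-s) := by
  rw [pS_eq]
  exact tsum_congr fun p => by rw [ind_pos (P := fun _ => True) trivial, one_mul]

open H74E.SatakeSystem in
lemma pS_mono {P Q : ℕ → Prop} (h : ∀ p, P p → Q p) {s : ℝ} (hs : 1 < s) :
    primeSum P s ≤ primeSum Q s := by
  rw [pS_eq, pS_eq]
  refine (ind_summable P hs).tsum_le_tsum (fun p => ?_) (ind_summable Q hs)
  refine mul_le_mul_of_nonneg_right ?_ (by positivity)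
  by_cases hp : P p
  · rw [ind_pos hp, ind_pos (h _ hp)]
  · rw [ind_neg hp]
    exact ind_nonneg _ _

lemma pS_large (C : ℝ) : ∀ᶠ s in 𝓝[>] (1 : ℝ), C ≤ primeSum (fun _ => True) s := by
  obtain ⟨C0, hC0⟩ := Maass74.neg_log_le_primes
  filter_upwards [hC0, Maass74.tendsto_neg_log.eventually_ge_atTop (C + C0)] with s h1 h2
  rw [pS_true]
  linarith

lemma lt_two : ∀ᶠ s in 𝓝[>] (1 : ℝ), s < 2 :=
  (eventually_lt_nhds (by norm_num : (1 : ℝ) < 2)).filter_mono nhdsWithin_le_nhds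

theorem amgm {E : Type} [Field E] [NumberField E] {z : E} (hz : IsIntegral ℤ z) (h0 : z ≠ 0) :
    (Module.finrank ℚ E : ℝ) ≤ ∑ τ : E →+* ℂ, ‖τ z‖ ^ 2 := by
  classical
  have hpos : ∀ τ : E →+* ℂ, 0 < ‖τ z‖ ^ 2 := by
    intro τ
    have : τ z ≠ 0 := (map_ne_zero τ).2 h0
    positivity
  have hnorm : 1 ≤ ∏ τ : E →+* ℂ, ‖τ z‖ := by
    obtain ⟨m, hm⟩ : ∃ m : ℤ, (m : ℚ) = Algebra.norm ℚ z := by
      have h1 : IsIntegral ℤ (Algebra.norm ℚ z) := Algebra.isIntegral_norm ℚ hz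
      obtain ⟨m, hm⟩ := IsIntegrallyClosed.isIntegral_iff.1 h1
      exact ⟨m, by simpa using hm⟩
    have hm0 : m ≠ 0 := by
      intro h
      rw [h, Int.cast_zero] at hm
      exact h0 (Algebra.norm_eq_zero_iff.1 hm.symm)
    have h2 : ∏ τ : E →+* ℂ, τ z = (m : ℂ) := by
      have h3 := Algebra.norm_eq_prod_embeddings ℚ ℂ z
      rw [← hm] at h3
      have h4 : ∏ τ : E →+* ℂ, τ z = ∏ σ : E →ₐ[ℚ] ℂ, σ z :=
        Fintype.prod_equiv (RingHom.equivRatAlgHom E ℂ) _ _ fun τ => rfl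
      rw [h4, ← h3]
      simp
    rw [← norm_prod, h2, Complex.norm_intCast]
    exact_mod_cast Int.one_le_abs hm0
  have hlog : 0 ≤ ∑ τ : E →+* ℂ, Real.log (‖τ z‖ ^ 2) := by
    rw [← Real.log_prod (fun τ _ => (hpos τ).ne'), Finset.prod_pow]
    exact Real.log_nonneg (one_le_pow₀ hnorm)
  have hle : ∑ τ : E →+* ℂ, Real.log (‖τ z‖ ^ 2) ≤ ∑ τ : E →+* ℂ, (‖τ z‖ ^ 2 - 1) :=
    Finset.sum_le_sum fun τ _ => Real.log_le_sub_one_of_pos (hpos τ)
  rw [Finset.sum_sub_distrib, Finset.sum_const, Finset.card_univ, NumberField.Embeddings.card,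
    nsmul_eq_mul, mul_one] at hle
  linarith

theorem dens_of_le {P : ℕ → Prop} {θ C : ℝ} (hθ : 0 ≤ θ) (h : ∀ s : ℝ, 1 < s → s ≤ 2 →
    primeSum P s ≤ θ * Real.log (1 / (s - 1)) + C) : DensityLE P θ := by
  intro ε hε
  obtain ⟨C0, hC0⟩ := Maass74.neg_log_le_primes
  filter_upwards [hC0, pS_large ((θ * C0 + C) / ε), lt_two, self_mem_nhdsWithin] with s h1 h2 h3 h4
  have hs : (1 : ℝ) < s := h4
  have h5 := h s hs h3.le
  rw [one_div, Real.log_inv] at h5
  rw [← pS_true] at h1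
  have h6 : θ * -Real.log (s - 1) ≤ θ * (primeSum (fun _ => True) s + C0) :=
    mul_le_mul_of_nonneg_left h1 hθ
  have h7 : θ * C0 + C ≤ ε * primeSum (fun _ => True) s := by
    have := mul_le_mul_of_nonneg_left h2 hε.le
    rwa [mul_div_cancel₀ _ hε.ne'] at this
  linarith

theorem dens_mono {P Q : ℕ → Prop} {θ : ℝ} (h : ∀ p, P p → Q p) (hQ : DensityLE Q θ) :
    DensityLE P θ := by
  intro ε hε
  filter_upwards [hQ ε hε, self_mem_nhdsWithin] with s h1 h2
  exact (pS_mono h h2).trans h1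

open H74E.SatakeSystem in
/-- If all primes outside a finite set have one of the properties `P₁, P₂, P₃` and `P₂`, `P₃` have
small upper densities then `P₁` has large lower density. -/
theorem dens_ge {P₁ P₂ P₃ : ℕ → Prop} {θ₂ θ₃ : ℝ} {N : ℕ} (hN : 0 < N)
    (h : ∀ p : ℕ, p.Prime → ¬ p ∣ N → P₁ p ∨ P₂ p ∨ P₃ p) (h₂ : DensityLE P₂ θ₂)
    (h₃ : DensityLE P₃ θ₃) : DensityGE P₁ (1 - θ₂ - θ₃) := by
  intro ε hε
  have hBad : ∀ s : ℝ, 1 < s → primeSum (fun p => p ∣ N) s ≤ (N.primeFactors.card : ℝ) := by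
    intro s hs
    have hset : {p : ℕ | p.Prime ∧ p ∣ N} = (N.primeFactors : Set ℕ) := by
      ext p
      simp [Nat.mem_primeFactors, hN.ne']
    have e1 : primeSum (fun p => p ∣ N) s =
        ∑' p : (N.primeFactors : Set ℕ), ((p : ℕ) : ℝ) ^ (-s) := by
      rw [← hset]
      rfl
    rw [e1, Finset.tsum_subtype' N.primeFactors (fun p : ℕ => (p : ℝ) ^ (-s)),
      Finset.card_eq_sum_ones]
    push_cast
    refine Finset.sum_le_sum fun p hp => ?_
    have h1p : (1 : ℝ) ≤ (p : ℝ) := by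
      exact_mod_cast (Nat.prime_of_mem_primeFactors hp).one_lt.le
    exact Real.rpow_le_one_of_one_le_of_nonpos h1p (by linarith)
  have hcov : ∀ s : ℝ, 1 < s → primeSum (fun _ => True) s ≤ primeSum (fun p => p ∣ N) s +
      primeSum P₁ s + primeSum P₂ s + primeSum P₃ s := by
    intro s hs
    have hsN := ind_summable (fun p => p ∣ N) hs
    have hs1 := ind_summable P₁ hs
    have hs2 := ind_summable P₂ hs
    have hs3 := ind_summable P₃ hs
    rw [pS_true, pS_eq, pS_eq, pS_eq, pS_eq, ← hsN.tsum_add hs1, ← (hsN.add hs1).tsum_add hs2,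
      ← ((hsN.add hs1).add hs2).tsum_add hs3]
    refine (Nat.Primes.summable_rpow.2 (by linarith : -s < -1)).tsum_le_tsum (fun p => ?_) (((hsN.add hs1).add hs2).add hs3)
    have hpos : (0 : ℝ) ≤ ((p : ℕ) : ℝ) ^ (-s) := by positivity
    have n0 := mul_nonneg (ind_nonneg (fun p => p ∣ N) p) hpos
    have n1 := mul_nonneg (ind_nonneg P₁ p) hpos
    have n2 := mul_nonneg (ind_nonneg P₂ p) hpos
    have n3 := mul_nonneg (ind_nonneg P₃ p) hpos
    by_cases hpN : (p : ℕ) ∣ N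
    · rw [ind_pos (P := fun p => p ∣ N) hpN] at n0 ⊢
      linarith
    · rcases h p p.2 hpN with h1 | h1 | h1
      · rw [ind_pos h1] at n1 ⊢
        linarith
      · rw [ind_pos h1] at n2 ⊢
        linarith
      · rw [ind_pos h1] at n3 ⊢
        linarith
  filter_upwards [h₂ (ε / 3) (by positivity), h₃ (ε / 3) (by positivity),
    pS_large ((N.primeFactors.card : ℝ) / (ε / 3)), self_mem_nhdsWithin] with s e2 e3 e4 e5
  have hs : (1 : ℝ) < s := e5
  have f1 := hBad s hs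
  have f2 := hcov s hs
  have f3 : (N.primeFactors.card : ℝ) ≤ ε / 3 * primeSum (fun _ => True) s := by
    have h3 : (0 : ℝ) < ε / 3 := by positivity
    have := mul_le_mul_of_nonneg_left e4 h3.le
    rwa [mul_div_cancel₀ _ h3.ne'] at this
  linarith

end SatakeSystem

end Pool.Agent.H74V
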