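import Pool.Agent.W_7742x_h74.QDef

/-! The Whittaker functions of functions on `GL_n (ℝ)^+`. -/

set_option autoImplicit false

noncomputable section

namespace Pool.Agent.GLForm74

open MeasureTheory ComplexConjugate

variable {n : ℕ}

/-- The lower triangular matrix with diagonal entries `1` and the entries of `B` below the
diagonal. -/
def unip (B : Fin n → Fin n → ℝ) : Matrix (Fin n) (Fin n) ℝ :=
  Matrix.of fun i j => if i = j then 1 else if j < i then B i j else 0

/-- The Whittaker function of `f` with parameters `m 0, ..., m (n - 2)`: the integral of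
`exp (-2 π i (m 0 u_10 + m 1 u_21 + ...)) f (u g)` over the lower unipotent matrices `u` with
entries in `[0, 1]` below the diagonal. -/
def whittaker (f : Matrix (Fin n) (Fin n) ℝ → ℂ) (m : ℕ → ℤ) (g : Matrix (Fin n) (Fin n) ℝ) : ℂ :=
  ∫ B in Set.Icc (0 : Fin n → Fin n → ℝ) 1,
    Complex.exp (-(2 * Real.pi * Complex.I *
      ∑ i : Fin n, ∑ j : Fin n, if (i : ℕ) = (j : ℕ) + 1 then (m (j : ℕ) : ℂ) * (B i j : ℂ) else 0)) *
      f (unip B * g)

end Pool.Agent.GLForm74
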