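import Pool.Agent.W_7742w_h74.Stm
import Pool.Agent.W_7742p_h74.KWdf

/-! Definitions for the statement: families of cusp forms for the conjugates, upper densities. -/

set_option autoImplicit false

noncomputable section

namespace Pool.Agent.H74V

open Filter Topology ComplexConjugate

namespace SatakeSystem

variable {K : Type} [Field K] [NumberField K] {n : ℕ} (π : SatakeSystem K n)

/-- For every embedding `σ` there is a nonzero cusp form `f σ` on `GL_n` of level `level` and some
character `χ σ` with the system `σ (A)` of Satake classes (see `IsCuspidal`), and the Whittaker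
functions of `f σ` with nonzero parameters `m` composed of primes dividing the level do not depend
on `σ`. -/
def IsCuspidalFamily : Prop :=
  ∃ (χ : (K →+* ℂ) → DirichletCharacter ℂ π.level)
    (f : (K →+* ℂ) → Matrix (Fin n) (Fin n) ℝ → ℂ),
    (∀ σ, GLForm74.IsCuspForm π.level (χ σ) (f σ) ∧ (∃ g, 0 < g.det ∧ f σ g ≠ 0) ∧
      ∀ p : ℕ, p.Prime → ¬ p ∣ π.level → ∀ k : ℕ, 1 ≤ k → k ≤ n → ∀ g, 0 < g.det →
        GLForm74.hecke (χ σ) p k (f σ) g = (Real.sqrt p : ℂ) ^ (k * (n - k)) *
          ((-1) ^ k * ((π.A p).charpoly.map σ).coeff (n - k)) * f σ g) ∧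
    ∀ (σ τ : K →+* ℂ) (m : ℕ → ℤ),
      (∀ j, j + 1 < n → m j ≠ 0 ∧ ∀ p : ℕ, p.Prime → (p : ℤ) ∣ m j → p ∣ π.level) →
        ∀ g, 0 < g.det → GLForm74.whittaker (f σ) m g = GLForm74.whittaker (f τ) m g

/-- The field `K` is generated by the coefficients of the characteristic polynomials of the
Satake classes. -/
def GeneratedByCoeffs : Prop :=
  IntermediateField.adjoin ℚ {x : K | ∃ p i, π.Good p ∧ x = (π.A p).charpoly.coeff i} = ⊤

/-- The upper Dirichlet density of the primes with the property `P` is at most `θ`. -/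
def DensityLE (P : ℕ → Prop) (θ : ℝ) : Prop :=
  ∀ ε : ℝ, 0 < ε → ∀ᶠ s in 𝓝[>] (1 : ℝ), primeSum P s ≤ (θ + ε) * primeSum (fun _ => True) s

/-- The lower Dirichlet density of the primes with the property `P` is at least `θ`. -/
def DensityGE (P : ℕ → Prop) (θ : ℝ) : Prop :=
  ∀ ε : ℝ, 0 < ε → ∀ᶠ s in 𝓝[>] (1 : ℝ), (θ - ε) * primeSum (fun _ => True) s ≤ primeSum P s

end SatakeSystem

end Pool.Agent.H74V
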