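import Pool.Agent.W_7742p_h74.KDef
import Pool.Agent.W_7742c_h74.Pos

/-! # Divergence

* `exists_trace_ge`: let `β_i` be the eigenvalues (roots of the characteristic polynomial,
  `tr (A ^ k) = ∑ β_i ^ k`, `det A = ∏ β_i`; e.g. `exists_roots` in W_7742x_h74.SMat, or
  `Matrix.trace_eq_sum_roots_charpoly`, ...).  If `|tr A^k| < 1` for `1 ≤ k ≤ n` then Newton's
  identities (`MvPolynomial.mul_esymm_eq_sum`) give by induction `|e_j| < 1` for `1 ≤ j ≤ n`
  (`j |e_j| ≤ ∑_{k=1}^j |e_{j-k}| |p_k| < j`, `e_0 = 1`), but `|e_n| = |det A| = 1`.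
* `exists_trace_pair`: the block matrix `A ⊕ A'` (`Matrix.fromBlocks`, reindexed).
* `div_single`: for a good prime `p` some `k ≤ n` has `‖tin‖² pk s ≥ p^{-k s} / k ≥ p^{-n s} / n`;
  take `s = 1 / n`: `∑ 1 / p` over the primes not dividing `N` diverges
  (`Nat.Primes.not_summable_one_div` or `not_summable_one_div_on_primes`).
* `div_pair`: the same with `2 n`. -/

set_option autoImplicit false

noncomputable section

namespace Pool.Agent.GL74

open MeasureTheory ComplexConjugate Set
open Pool.Agent.H74E (pk)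

open Classical in
/-- The traces of the powers of the inverse. -/
def tin {n : ℕ} (good : ℕ → Prop) (B : ℕ → Matrix (Fin n) (Fin n) ℂ) (x : Nat.Primes × ℕ) : ℂ :=
  if good x.1 then ((B x.1)⁻¹ ^ (x.2 + 1)).trace else 0

open Polynomial in
/-- A monic polynomial over `ℂ` whose degree is the cardinality of `ι` is `∏ (X - β_i)`. -/
theorem kb_exists_prod_roots {ι : Type} [Fintype ι] (q : ℂ[X]) (hq : q.Monic)
    (hn : q.natDegree = Fintype.card ι) :
    ∃ β : ι → ℂ, q = ∏ i, (X - C (β i)) := by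
  have h1 : q.Splits := IsAlgClosed.splits q
  have h2 : q = (q.roots.map fun a => X - C a).prod := by
    have := h1.eq_prod_roots
    rwa [hq.leadingCoeff, C_1, one_mul] at this
  have h3 : Multiset.card q.roots = Fintype.card ι := by
    rw [← hn]
    exact h1.natDegree_eq_card_roots.symm
  have h4 : q.roots.toList.length = Fintype.card ι := by
    rw [Multiset.length_toList, h3]
  have e := Fintype.equivFin ι
  refine ⟨fun i => q.roots.toList.get ((e i).cast h4.symm), ?_⟩
  have h5 : q.roots = Multiset.map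
      (fun i : Fin (Fintype.card ι) => q.roots.toList.get (i.cast h4.symm))
      (Finset.univ : Finset (Fin (Fintype.card ι))).val := by
    have h6 : (List.ofFn fun i : Fin (Fintype.card ι) => q.roots.toList.get (i.cast h4.symm)) =
        q.roots.toList := by
      refine List.ext_get ?_ ?_
      · rw [List.length_ofFn, h4]
      · intro m h7 h8
        simp
    conv_lhs => rw [← Multiset.coe_toList q.roots, ← h6]
    rw [List.ofFn_eq_map]
    rw [← Multiset.map_coe]
    congr 1
  have h7 : ∀ (s : Multiset ℂ) (f : Fin (Fintype.card ι) → ℂ),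
      s = Multiset.map f (Finset.univ : Finset (Fin (Fintype.card ι))).val →
      (s.map fun a => X - C a).prod = ∏ i, (X - C (f i)) := by
    rintro s f rfl
    rw [Multiset.map_map]
    rfl
  refine (h2.trans (h7 _ _ h5)).trans ?_
  exact (Fintype.prod_equiv e _ _ fun i => rfl).symm

open Polynomial in
/-- The determinant of a polynomial in `B`. -/
theorem kb_det_aeval {ι : Type} [Fintype ι] [DecidableEq ι] (B : Matrix ι ι ℂ) (β : ι → ℂ)
    (h : B.charpoly = ∏ i, (X - C (β i))) (p : ℂ[X]) :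
    (aeval B p).det = ∏ i, p.eval (β i) := by
  have h1 : p.Splits := IsAlgClosed.splits p
  have h2 := h1.eq_prod_roots
  have h3 : ∀ s : Multiset ℂ, (aeval B (s.map fun a => X - C a).prod).det =
      ∏ i, ((s.map fun a => X - C a).prod : ℂ[X]).eval (β i) := by
    intro s
    induction s using Multiset.induction with
    | empty => simp
    | cons r s ih =>
      rw [Multiset.map_cons, Multiset.prod_cons, map_mul, Matrix.det_mul, ih]
      have h4 : (aeval B (X - C r)).det = ∏ i, (X - C r : ℂ[X]).eval (β i) := by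
        have h5 : aeval B (X - C r) = -(Matrix.scalar ι r - B) := by
          rw [map_sub, aeval_X, aeval_C, neg_sub]
          rfl
        rw [h5, Matrix.det_neg, ← Matrix.eval_charpoly, h, eval_prod]
        have h6 : ((-1 : ℂ)) ^ Fintype.card ι = ∏ _i : ι, (-1 : ℂ) := by
          rw [Finset.prod_const, Finset.card_univ]
        rw [h6, ← Finset.prod_mul_distrib]
        refine Finset.prod_congr rfl fun i _ => ?_
        simp
      rw [h4, ← Finset.prod_mul_distrib]
      refine Finset.prod_congr rfl fun i _ => ?_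
      rw [eval_mul]
  rw [h2, map_mul, Matrix.det_mul, h3, aeval_C]
  have h7 : (algebraMap ℂ (Matrix ι ι ℂ) p.leadingCoeff).det =
      ∏ _i : ι, p.leadingCoeff := by
    rw [Finset.prod_const, Finset.card_univ, Algebra.algebraMap_eq_smul_one,
      Matrix.det_smul, Matrix.det_one, mul_one]
  rw [h7, ← Finset.prod_mul_distrib]
  refine Finset.prod_congr rfl fun i _ => ?_
  rw [eval_mul, eval_C]

open Polynomial in
/-- Eigenvalues: traces of powers and determinant. -/
theorem kb_exists_roots {ι : Type} [Fintype ι] [DecidableEq ι] (B : Matrix ι ι ℂ) :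
    ∃ β : ι → ℂ, B.det = ∏ i, β i ∧ ∀ k : ℕ, (B ^ k).trace = ∑ i, β i ^ k := by
  obtain ⟨β, hβ⟩ := kb_exists_prod_roots (ι := ι) B.charpoly B.charpoly_monic
    B.charpoly_natDegree_eq_dim
  refine ⟨β, ?_, fun k => ?_⟩
  · have h := kb_det_aeval B β hβ X
    rw [aeval_X] at h
    rw [h]
    exact Finset.prod_congr rfl fun i _ => eval_X
  · have h1 : (B ^ k).charpoly = ∏ i, (X - C (β i ^ k)) := by
      refine Polynomial.funext fun t => ?_
      rw [Matrix.eval_charpoly, eval_prod]
      have h2 : Matrix.scalar ι t - B ^ k = aeval B (C t - X ^ k) := by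
        rw [map_sub, aeval_C, map_pow, aeval_X]
        rfl
      rw [h2, kb_det_aeval B β hβ]
      refine Finset.prod_congr rfl fun i _ => ?_
      simp
    have h3 : (∏ i, (X - C (β i ^ k)) : ℂ[X]) =
        (((Finset.univ : Finset ι).val.map fun i => β i ^ k).map fun r => X - C r).prod := by
      rw [Multiset.map_map]
      rfl
    rw [Matrix.trace_eq_sum_roots_charpoly, h1, h3, Polynomial.roots_multiset_prod_X_sub_C]
    rfl

open MvPolynomial in
theorem exists_trace_ge {ι : Type} [Fintype ι] [DecidableEq ι] [Nonempty ι] (A : Matrix ι ι ℂ)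
    (h : ‖A.det‖ = 1) : ∃ k : ℕ, 1 ≤ k ∧ k ≤ Fintype.card ι ∧ 1 ≤ ‖(A ^ k).trace‖ := by
  by_contra hcon
  push Not at hcon
  obtain ⟨β, hdet, htr⟩ := kb_exists_roots A
  have hp : ∀ k : ℕ, aeval β (psum ι ℂ k) = (A ^ k).trace := by
    intro k
    rw [htr, psum, map_sum]
    refine Finset.sum_congr rfl fun i _ => ?_
    rw [map_pow, aeval_X]
  have key : ∀ j : ℕ, j ≤ Fintype.card ι → ‖aeval β (esymm ι ℂ j)‖ ≤ 1 ∧
      (1 ≤ j → ‖aeval β (esymm ι ℂ j)‖ < 1) := by
    intro j
    induction j using Nat.strong_induction_on with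
    | _ j ih =>
      intro hj
      rcases Nat.eq_zero_or_pos j with rfl | hj0
      · refine ⟨?_, fun h => absurd h (by norm_num)⟩
        rw [esymm_zero, map_one, norm_one]
      · have hN := congrArg (fun q => ‖aeval β q‖) (mul_esymm_eq_sum ι ℂ j)
        simp only [map_mul, map_sum, map_pow, map_neg, map_one, map_natCast, norm_mul,
          norm_pow, norm_neg, norm_one, one_pow, one_mul] at hN
        have hsum : ‖∑ a ∈ Finset.HasAntidiagonal.antidiagonal j with a.1 < j,
            (-1 : ℂ) ^ a.1 * aeval β (esymm ι ℂ a.1) * aeval β (psum ι ℂ a.2)‖ < j := by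
          have h1 : ∑ a ∈ Finset.HasAntidiagonal.antidiagonal j with a.1 < j,
              (-1 : ℂ) ^ a.1 * aeval β (esymm ι ℂ a.1) * aeval β (psum ι ℂ a.2) =
              ∑ i ∈ Finset.range j,
                (-1 : ℂ) ^ i * aeval β (esymm ι ℂ i) * aeval β (psum ι ℂ (j - i)) := by
            rw [Finset.sum_filter, Finset.Nat.sum_antidiagonal_eq_sum_range_succ_mk,
              Finset.sum_range_succ, if_neg (lt_irrefl j), add_zero]
            exact Finset.sum_congr rfl fun i hi => if_pos (Finset.mem_range.1 hi)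
          rw [h1]
          refine (norm_sum_le _ _).trans_lt ?_
          have h2 : ∀ i ∈ Finset.range j,
              ‖(-1 : ℂ) ^ i * aeval β (esymm ι ℂ i) * aeval β (psum ι ℂ (j - i))‖ < 1 := by
            intro i hi
            have hi' := Finset.mem_range.1 hi
            rw [norm_mul, norm_mul, norm_pow, norm_neg, norm_one, one_pow, one_mul, hp]
            have h3 := (ih i hi' (by omega)).1
            have h4 := hcon (j - i) (by omega) (by omega)
            have h5 := norm_nonneg (aeval β (esymm ι ℂ i))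
            have h6 := norm_nonneg ((A ^ (j - i)).trace)
            nlinarith
          have h7 := Finset.sum_lt_sum_of_nonempty (s := Finset.range j)
            (Finset.nonempty_range_iff.2 (by omega)) h2
          simpa using h7
        have hjpos : (0 : ℝ) < j := by exact_mod_cast hj0
        have h8 : (j : ℝ) * ‖aeval β (esymm ι ℂ j)‖ < j := by
          have h9 : ‖(j : ℂ)‖ = (j : ℝ) := by simp
          rw [h9] at hN
          rw [hN]
          exact hsum
        have h10 : ‖aeval β (esymm ι ℂ j)‖ < 1 := by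
          by_contra h11
          push Not at h11
          nlinarith
        exact ⟨h10.le, fun _ => h10⟩
  have h1 := (key (Fintype.card ι) le_rfl).2 Fintype.card_pos
  have h2 : aeval β (esymm ι ℂ (Fintype.card ι)) = A.det := by
    rw [hdet, esymm, map_sum]
    have h3 : Finset.powersetCard (Fintype.card ι) (Finset.univ : Finset ι) = {Finset.univ} := by
      rw [← Finset.card_univ, Finset.powersetCard_self]
    rw [h3, Finset.sum_singleton, map_prod]
    exact Finset.prod_congr rfl fun i _ => aeval_X _ _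
  rw [h2, h] at h1
  exact lt_irrefl _ h1

theorem exists_trace_pair {n : ℕ} (hn : 0 < n) (A A' : Matrix (Fin n) (Fin n) ℂ)
    (h : ‖A.det‖ = 1) (h' : ‖A'.det‖ = 1) :
    ∃ k : ℕ, 1 ≤ k ∧ k ≤ 2 * n ∧ 1 ≤ ‖(A ^ k).trace + (A' ^ k).trace‖ := by
  have : Nonempty (Fin n ⊕ Fin n) := ⟨Sum.inl ⟨0, hn⟩⟩
  have hpow : ∀ k : ℕ, Matrix.fromBlocks A 0 0 A' ^ k = Matrix.fromBlocks (A ^ k) 0 0 (A' ^ k) := by
    intro k
    induction k with
    | zero => rw [pow_zero, pow_zero, pow_zero, Matrix.fromBlocks_one]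
    | succ k ih =>
      rw [pow_succ, ih, Matrix.fromBlocks_multiply, pow_succ, pow_succ]
      simp
  obtain ⟨k, h1, h2, h3⟩ := exists_trace_ge (Matrix.fromBlocks A 0 0 A') (by
    rw [Matrix.det_fromBlocks_zero₂₁, norm_mul, h, h', one_mul])
  refine ⟨k, h1, ?_, ?_⟩
  · rw [Fintype.card_sum, Fintype.card_fin] at h2
    omega
  · have h4 : (Matrix.fromBlocks (A ^ k) 0 0 (A' ^ k)).trace = (A ^ k).trace + (A' ^ k).trace := by
      simp [Matrix.trace, Fintype.sum_sum_type]
    rw [hpow, h4] at h3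
    exact h3

/-- A system with a coefficient of size at least `1` at some bounded power of every good prime
diverges. -/
theorem kb_div {m N : ℕ} (hm : 0 < m) (hN : 0 < N) (t : Nat.Primes × ℕ → ℂ)
    (h : ∀ p : Nat.Primes, ¬ (p : ℕ) ∣ N → ∃ k : ℕ, 1 ≤ k ∧ k ≤ m ∧ 1 ≤ ‖t (p, k - 1)‖) :
    Diverg t := by
  intro hs
  have hm' : (0 : ℝ) < m := by exact_mod_cast hm
  have h1 := hs (1 / m) (by positivity)
  have h2 : ∀ p : Nat.Primes, ∃ k : ℕ, ¬ (p : ℕ) ∣ N → 1 ≤ k ∧ k ≤ m ∧ 1 ≤ ‖t (p, k - 1)‖ := by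
    intro p
    by_cases hp : (p : ℕ) ∣ N
    · exact ⟨0, fun h => absurd hp h⟩
    · obtain ⟨k, hk⟩ := h p hp
      exact ⟨k, fun _ => hk⟩
  choose k hk using h2
  have hinj : Function.Injective (fun p : Nat.Primes => (p, k p - 1)) := by
    intro p q hpq
    exact (Prod.ext_iff.1 hpq).1
  have h3 := h1.comp_injective hinj
  have h4 : Summable fun p : Nat.Primes => if (p : ℕ) ∣ N then (0 : ℝ) else 1 / (m * (p : ℕ)) := by
    refine Summable.of_nonneg_of_le (fun p => ?_) (fun p => ?_) h3
    · split_ifs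
      · exact le_rfl
      · positivity
    · simp only [Function.comp]
      have hpk := Pool.Agent.H74E.pk_nonneg (1 / (m : ℝ)) (p, k p - 1)
      split_ifs with hp
      · positivity
      · obtain ⟨ha, hb, hc⟩ := hk p hp
        have hp0 : (0 : ℝ) < ((p : ℕ) : ℝ) := by exact_mod_cast p.2.pos
        have hlog : 0 ≤ Real.log ((p : ℕ) : ℝ) :=
          Real.log_nonneg (by exact_mod_cast p.2.one_lt.le)
        have h5 : 1 / ((m : ℝ) * (p : ℕ)) ≤ pk (1 / (m : ℝ)) (p, k p - 1) := by
          unfold pk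
          have h6 : (((k p - 1 : ℕ) : ℝ) + 1) = (k p : ℝ) := by
            have : (((k p - 1 : ℕ) : ℝ) + 1) = (((k p - 1) + 1 : ℕ) : ℝ) := by push_cast; ring
            rw [this, Nat.sub_add_cancel ha]
          simp only
          rw [h6]
          have hk0 : (0 : ℝ) < (k p : ℝ) := by exact_mod_cast ha
          have hkm : (k p : ℝ) ≤ m := by exact_mod_cast hb
          have h7 : (m : ℝ)⁻¹ ≤ (k p : ℝ)⁻¹ := inv_anti₀ hk0 hkm
          have h8 : ((p : ℕ) : ℝ)⁻¹ ≤
              Real.exp (-(1 / (m : ℝ) * ((k p : ℝ) * Real.log ((p : ℕ) : ℝ)))) := by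
            rw [← Real.exp_log hp0, ← Real.exp_neg, Real.exp_log hp0]
            refine Real.exp_le_exp.2 (neg_le_neg ?_)
            have h9 : 1 / (m : ℝ) * ((k p : ℝ) * Real.log ((p : ℕ) : ℝ)) =
                ((k p : ℝ) / m) * Real.log ((p : ℕ) : ℝ) := by ring
            rw [h9]
            have h10 : (k p : ℝ) / m ≤ 1 := by
              rw [div_le_one hm']
              exact hkm
            nlinarith
          have h11 : 1 / ((m : ℝ) * (p : ℕ)) = (m : ℝ)⁻¹ * ((p : ℕ) : ℝ)⁻¹ := by
            rw [one_div, mul_inv]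
          rw [h11]
          exact mul_le_mul h7 h8 (by positivity) (by positivity)
        have h12 : (1 : ℝ) ≤ ‖t (p, k p - 1)‖ ^ 2 := by nlinarith
        calc 1 / ((m : ℝ) * (p : ℕ)) ≤ 1 * pk (1 / (m : ℝ)) (p, k p - 1) := by
              rw [one_mul]; exact h5
          _ ≤ _ := mul_le_mul_of_nonneg_right h12 hpk
  have hfin : {p : Nat.Primes | (p : ℕ) ∣ N}.Finite := by
    refine Set.Finite.of_finite_image (f := fun p : Nat.Primes => (p : ℕ)) ?_ ?_
    · refine (Set.finite_Iic N).subset ?_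
      rintro _ ⟨p, hp, rfl⟩
      exact Nat.le_of_dvd hN hp
    · intro p _ q _ hpq
      exact Subtype.ext hpq
  have h13 : Summable fun p : Nat.Primes => 1 / ((m : ℝ) * (p : ℕ)) := by
    refine (summable_congr_cofinite ?_).1 h4
    have : {p : Nat.Primes | (p : ℕ) ∣ N}ᶜ ∈ Filter.cofinite := hfin.compl_mem_cofinite
    filter_upwards [this] with p hp
    exact if_neg hp
  have h14 : Summable fun p : Nat.Primes => 1 / ((p : ℕ) : ℝ) := by
    have := h13.mul_left (m : ℝ)
    refine this.congr fun p => ?_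
    field_simp
  exact Nat.Primes.not_summable_one_div h14

theorem kb_norm_det_inv {n : ℕ} (B : Matrix (Fin n) (Fin n) ℂ) (h : ‖B.det‖ = 1) :
    ‖B⁻¹.det‖ = 1 := by
  rw [Matrix.det_nonsing_inv, Ring.inverse_eq_inv', norm_inv, h, inv_one]

theorem div_single {n N : ℕ} (hn : 0 < n) (hN : 0 < N) {B : ℕ → Matrix (Fin n) (Fin n) ℂ}
    (h : ∀ p : ℕ, p.Prime → ¬ p ∣ N → ‖(B p).det‖ = 1) :
    Diverg (tin (fun p => p.Prime ∧ ¬ p ∣ N) B) := by
  have : Nonempty (Fin n) := ⟨⟨0, hn⟩⟩
  refine kb_div hn hN _ fun p hp => ?_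
  obtain ⟨k, h1, h2, h3⟩ := exists_trace_ge ((B p)⁻¹) (kb_norm_det_inv _ (h p p.2 hp))
  rw [Fintype.card_fin] at h2
  refine ⟨k, h1, h2, ?_⟩
  unfold tin
  rw [if_pos ⟨p.2, hp⟩]
  simp only
  rw [Nat.sub_add_cancel h1]
  exact h3

theorem div_pair {n N : ℕ} (hn : 0 < n) (hN : 0 < N) {B B' : ℕ → Matrix (Fin n) (Fin n) ℂ}
    (h : ∀ p : ℕ, p.Prime → ¬ p ∣ N → ‖(B p).det‖ = 1)
    (h' : ∀ p : ℕ, p.Prime → ¬ p ∣ N → ‖(B' p).det‖ = 1) :
    Diverg fun x => tin (fun p => p.Prime ∧ ¬ p ∣ N) B x + tin (fun p => p.Prime ∧ ¬ p ∣ N) B' x := by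
  refine kb_div (m := 2 * n) (by omega) hN _ fun p hp => ?_
  obtain ⟨k, h1, h2, h3⟩ := exists_trace_pair hn ((B p)⁻¹) ((B' p)⁻¹)
    (kb_norm_det_inv _ (h p p.2 hp)) (kb_norm_det_inv _ (h' p p.2 hp))
  refine ⟨k, h1, h2, ?_⟩
  unfold tin
  rw [if_pos ⟨p.2, hp⟩, if_pos ⟨p.2, hp⟩]
  simp only
  rw [Nat.sub_add_cancel h1]
  exact h3

end Pool.Agent.GL74
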