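import Pool.Agent.W_7742p_h74.KEul
import Pool.Agent.W_7742x_h74.QRS

/-! # Sums of the Whittaker integrals

* `sum_polar`: sum `jj_polar` over `m` (`ENNReal.tsum_toReal_eq`, `summable_jc`, `Complex.hasSum_re`).
* `sum_ne_zero`, `sum_ne_top`, `zgood_ne_zero`: see the proof of `weakRS` (QRS.lean); `zgood_ne_top`:
  proof of `euler_bad` (LBad.lean).
* `sum_eq`: `integral_eq` (PInt.lean) and `ENNReal.toReal_mul`.
* `bad_eq`: `jc_eq_jj`; `ENNReal.tsum_toReal_eq`.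
* `ibad_congr`: `lintegral_congr_ae`. -/

set_option autoImplicit false

noncomputable section

namespace Pool.Agent.GL74

open MeasureTheory ComplexConjugate Set
open scoped ENNReal MatrixGroups
open Pool.Agent.GLForm74
open Pool.Agent.H74E (pk)

theorem sum_polar {r : ℕ} {φ ψ : X (r + 1) → ℂ} (hφ : IsP φ) (hψ : IsP ψ) {σ : ℝ}
    (hfin : ∑' m : Fin r → ℤ, JJ φ σ m ≠ ∞) (hfin' : ∑' m : Fin r → ℤ, JJ ψ σ m ≠ ∞) {z : ℂ}
    (hz : ‖z‖ = 1) (hfin2 : ∑' m : Fin r → ℤ, JJ (fun g => φ g + z * ψ g) σ m ≠ ∞) :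
    (∑' m : Fin r → ℤ, JJ (fun g => φ g + z * ψ g) σ m).toReal =
      (∑' m : Fin r → ℤ, JJ φ σ m).toReal + (∑' m : Fin r → ℤ, JJ ψ σ m).toReal +
        2 * (conj z * ∑' m : Fin r → ℤ, JC φ ψ σ m).re := by
  have h1 : ∀ m, JJ φ σ m ≠ ∞ := fun m => ENNReal.ne_top_of_tsum_ne_top hfin m
  have h2 : ∀ m, JJ ψ σ m ≠ ∞ := fun m => ENNReal.ne_top_of_tsum_ne_top hfin' m
  have h3 : ∀ m, JJ (fun g => φ g + z * ψ g) σ m ≠ ∞ := fun m =>
    ENNReal.ne_top_of_tsum_ne_top hfin2 m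
  have s1 := ENNReal.summable_toReal hfin
  have s2 := ENNReal.summable_toReal hfin'
  have s3 : Summable fun m => JC φ ψ σ m := (summable_jc hφ.meas hψ.meas hfin hfin').of_norm
  rw [ENNReal.tsum_toReal_eq h3, ENNReal.tsum_toReal_eq h1, ENNReal.tsum_toReal_eq h2]
  have s4 : HasSum (fun m => (conj z * JC φ ψ σ m).re) (conj z * ∑' m, JC φ ψ σ m).re :=
    Complex.hasSum_re (s3.hasSum.mul_left (conj z))
  have key := ((s1.hasSum.add s2.hasSum).add (s4.mul_left 2)).tsum_eq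
  rw [← key]
  exact tsum_congr fun m => (jj_polar hφ hψ hz (h1 m) (h2 m)).2

theorem zgood_ne_zero {good : ℕ → Prop} (x : ℝ) : Zgood good x ≠ 0 := by
  intro h0
  unfold Zgood at h0
  rw [ENNReal.tsum_eq_zero] at h0
  have h1 := h0 ⟨1, one_ne_zero, fun p hp h => absurd (Nat.dvd_one.1 h) hp.one_lt.ne'⟩
  simp at h1

theorem zgood_ne_top {good : ℕ → Prop} {x : ℝ} (hx : 1 < x) : Zgood good x ≠ ∞ := by
  have h1 : Summable fun t : ℕ => (t : ℝ) ^ (-x) := Real.summable_nat_rpow.2 (by linarith)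
  have h2 : ∑' t : ℕ, ENNReal.ofReal ((t : ℝ) ^ (-x)) ≠ ∞ := h1.tsum_ofReal_ne_top
  refine ne_top_of_le_ne_top h2 ?_
  unfold Zgood
  exact ENNReal.tsum_comp_le_tsum_of_injective (f := fun t : {t : ℕ // t ≠ 0 ∧
    ∀ p : ℕ, p.Prime → p ∣ t → good p} => t.1) Subtype.val_injective
    (fun t : ℕ => ENNReal.ofReal ((t : ℝ) ^ (-x)))

theorem sum_ne_zero {s N : ℕ} {T : Finset SL(s + 2, ℤ)} {φ : X (s + 2) → ℂ} (h : IsLvl N T φ)
    (hv : volume {g : X (s + 2) | φ g ≠ 0} ≠ 0) (σ : ℝ) :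
    ∑' m : Fin (s + 1) → ℤ, JJ φ σ m ≠ 0 := by
  intro h0
  have h1 := iA_ne_zero h hv σ
  rw [integral_eq h σ, h0, mul_zero, mul_zero] at h1
  exact h1 rfl

theorem sum_ne_top {s N : ℕ} {T : Finset SL(s + 2, ℤ)} {φ : X (s + 2) → ℂ} (h : IsLvl N T φ)
    {σ : ℝ} (hfin : IA N T φ σ ≠ ∞) : ∑' m : Fin (s + 1) → ℤ, JJ φ σ m ≠ ∞ := by
  intro h0
  have h1 := hfin
  rw [integral_eq h σ, h0, ENNReal.mul_top (kap_ne_zero (s + 1)).1,
    ENNReal.mul_top (zgood_ne_zero _)] at h1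
  exact h1 rfl

theorem sum_eq {s N : ℕ} {T : Finset SL(s + 2, ℤ)} {φ : X (s + 2) → ℂ} (h : IsLvl N T φ)
    (σ : ℝ) : (IA N T φ σ).toReal =
      (Zgood (fun p => p.Prime ∧ ¬ p ∣ N) ((s + 2 : ℕ) * σ)).toReal *
        ((kap (s + 1)).toReal * (∑' m : Fin (s + 1) → ℤ, JJ φ σ m).toReal) := by
  rw [integral_eq h σ, ENNReal.toReal_mul, ENNReal.toReal_mul]

theorem bad_eq {r : ℕ} {φ ψ : X (r + 1) → ℂ} (hφ : Measurable φ) {σ : ℝ}
    (hfin : ∑' m : Fin r → ℤ, JJ φ σ m ≠ ∞) {good : ℕ → Prop}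
    (hW : ∀ m : MZ r {p | good p}, ∀ᵐ t ∂(fl (r + 1)),
      Wh (r + 1) ψ (ext m.1) t = Wh (r + 1) φ (ext m.1) t) :
    ∑' m : MZ r {p | good p}, JC φ ψ σ m.1 = ((Ibad φ good σ).toReal : ℂ) := by
  have h1 : ∀ m, JJ φ σ m ≠ ∞ := fun m => ENNReal.ne_top_of_tsum_ne_top hfin m
  have h2 : ∀ m : MZ r {p | good p}, JC φ ψ σ m.1 = ((JJ φ σ m.1).toReal : ℂ) :=
    fun m => jc_eq_jj hφ (hW m)
  rw [tsum_congr h2, ← Complex.ofReal_tsum]
  congr 1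
  unfold Ibad
  exact (ENNReal.tsum_toReal_eq fun m : MZ r {p | good p} => h1 m.1).symm

theorem ibad_congr {r : ℕ} {φ ψ : X (r + 1) → ℂ} {good : ℕ → Prop} (σ : ℝ)
    (hW : ∀ m : MZ r {p | good p}, ∀ᵐ t ∂(fl (r + 1)),
      Wh (r + 1) ψ (ext m.1) t = Wh (r + 1) φ (ext m.1) t) :
    Ibad ψ good σ = Ibad φ good σ := by
  unfold Ibad
  refine tsum_congr fun m => ?_
  unfold JJ
  refine lintegral_congr_ae ?_
  filter_upwards [hW m] with t ht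
  rw [ht]

/-- The measure with Laplace transform `Ibad` (proof of `weakRS`, QRS.lean). -/
theorem exists_bad {s N : ℕ} (hN : 0 < N) {χ : DirichletCharacter ℂ N}
    {f : Matrix (Fin (s + 2)) (Fin (s + 2)) ℝ → ℂ} (hf : IsCuspForm N χ f)
    (hne : ∃ g, 0 < g.det ∧ f g ≠ 0)
    {B : ℕ → Matrix (Fin (s + 2)) (Fin (s + 2)) ℂ}
    (he : ∀ p : ℕ, p.Prime → ¬ p ∣ N → ∀ k : ℕ, 1 ≤ k → k ≤ s + 2 → ∀ g, 0 < g.det →
      hecke χ p k f g =
        (Real.sqrt p : ℂ) ^ (k * (s + 2 - k)) * ((-1) ^ k * (B p).charpoly.coeff (s + 2 - k)) * f g) :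
    ∃ μ : Measure ℝ, SFinite μ ∧ μ ≠ 0 ∧ ∀ σ : ℝ,
      ∑' m : Fin (s + 1) → ℤ, JJ (tof f) σ m ≠ ∞ →
        Integrable (fun x => Real.exp (σ * x)) μ ∧ ∫ x, Real.exp (σ * x) ∂μ =
          (Ibad (tof f) (fun p => p.Prime ∧ ¬ p ∣ N) σ).toReal := by
  classical
  have hH := isHeckeForm hN hf he
  obtain ⟨T, hL⟩ := exists_isLvl hN hf
  have hv := volume_tof hf hne
  obtain ⟨μ, hμs, hμ⟩ := exists_measure_bad (isP_tof hf) (fun p => p.Prime ∧ ¬ p ∣ N)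
  refine ⟨μ, hμs, ?_, fun σ hσ => ?_⟩
  · intro h1
    have h2 := hμ 2
    rw [h1, lintegral_zero_measure] at h2
    exact ibad_ne_zero hH (sum_ne_zero hL hv 2) h2.symm
  · have hb : Ibad (tof f) (fun p => p.Prime ∧ ¬ p ∣ N) σ ≠ ∞ := by
      refine ne_top_of_le_ne_top hσ ?_
      unfold Ibad
      exact ENNReal.tsum_comp_le_tsum_of_injective
        (f := fun m : MZ (s + 1) {p | p.Prime ∧ ¬ p ∣ N} => m.1)
        Subtype.val_injective (fun m => JJ (tof f) σ m)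
    have hi : Integrable (fun x => Real.exp (σ * x)) μ := by
      refine ⟨by fun_prop, ?_⟩
      rw [hasFiniteIntegral_iff_ofReal (by filter_upwards with x using (Real.exp_pos _).le), hμ σ]
      exact lt_top_iff_ne_top.2 hb
    refine ⟨hi, ?_⟩
    rw [integral_eq_lintegral_of_nonneg_ae (by filter_upwards with x using (Real.exp_pos _).le)
      hi.1, hμ σ]

end Pool.Agent.GL74
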