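import Pool.Agent.W_7742p_h74.KMas
import Pool.Agent.W_7742p_h74.KSum
import Pool.Agent.W_7742p_h74.KBur

/-! # The Rankin-Selberg integral of a pair of cusp forms

Let `φ = tof f`, `ψ = tof f'`, `φ_z = φ + z ψ = tof (f + z f')` (`isCuspForm_lin`, `tof_lin`) for
`z = 1, I`, all of level `N` with the same `T` (`exists_lvl`), and let `G_f, G_f', G_z` be the
functions of `iA_ext_val`, `b` the minimum of the four `b`.

* `sum_eq` (KSum): `(IA φ σ).toReal = Zgood * (kap * ∑' JJ φ σ m)`; `sum_ne_top`, `sum_ne_zero`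
  (`volume_tof`), `zgood_ne_zero`, `zgood_ne_top`, `kap_ne_zero`.  By `sum_polar`
  `∑' JJ φ_z = ∑' JJ φ + ∑' JJ ψ + 2 Re (conj z * ∑' JC φ ψ)`.
* Hence `G_z - G_f - G_f' = (σ - 1) kap 2 Re (conj z * Zgood * ∑' JC φ ψ)`, and by `euler_pair`
  (with `isHeckeForm`) `Zgood * ∑' JC φ ψ = exp (S_12) * ∑' m : MZ good, JC φ ψ σ m`, where the last
  sum is `Ibad φ` by `bad_eq` and `hW`.  So `G := ((G_1 - G_f - G_f') + I (G_I - G_f - G_f')) /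
  (2 kap)` is `(σ - 1) Ibad φ exp (S_12)` (`Re (conj I * w) = Im w`).
* `G 1 = 0` by `msT_lin` and `orth` (`hd`).
* In the same way `G_f / kap`, `G_f' / kap` are `(σ - 1) Ibad φ exp (S_11)` (`euler_bad`),
  `(σ - 1) Ibad ψ exp (S_22)`, and `Ibad ψ = Ibad φ` by `ibad_congr` and `hW`.
* The measure `μ` is given by `exists_bad` (KSum). -/

set_option autoImplicit false

noncomputable section

namespace Pool.Agent.GL74

open MeasureTheory ComplexConjugate Set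
open scoped ENNReal MatrixGroups
open Pool.Agent.GLForm74
open Pool.Agent.H74E (pk)

theorem tin_tt {n : ℕ} (good : ℕ → Prop) (B : ℕ → Matrix (Fin n) (Fin n) ℂ)
    (x : Nat.Primes × ℕ) : ‖tin good B x‖ ^ 2 = TT good B x := by
  classical
  unfold tin TT
  by_cases h : good x.1
  · rw [if_pos h, if_pos h]
  · rw [if_neg h, if_neg h]
    simp

theorem tin_tc {n : ℕ} (good : ℕ → Prop) (B B' : ℕ → Matrix (Fin n) (Fin n) ℂ)
    (x : Nat.Primes × ℕ) : tin good B x * conj (tin good B' x) = TC good B B' x := by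
  classical
  unfold tin TC
  by_cases h : good x.1
  · rw [if_pos h, if_pos h, if_pos h]
  · rw [if_neg h, if_neg h, if_neg h, zero_mul]

/-- The nonvanishing of the function on the group. -/
theorem KPol_ne {n N : ℕ} {χ : DirichletCharacter ℂ N} {f : Matrix (Fin n) (Fin n) ℝ → ℂ}
    (hf : IsCuspForm N χ f) (hne : ∃ g, 0 < g.det ∧ f g ≠ 0) : ∃ g, tof f g ≠ 0 := by
  have hv := volume_tof hf hne
  by_contra hcon
  push Not at hcon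
  apply hv
  have h1 : {g : X n | tof f g ≠ 0} = ∅ := by
    ext g
    simp [hcon g]
  rw [h1, measure_empty]

/-- The contribution of one function. -/
theorem KPol_one {s N : ℕ} {T : Finset SL(s + 2, ℤ)} {φ : X (s + 2) → ℂ} (h : IsLvl N T φ)
    {ξ : ℕ → ℂ} {B : ℕ → Matrix (Fin (s + 2)) (Fin (s + 2)) ℂ}
    (hH : IsHeckeForm φ (fun p => p.Prime ∧ ¬ p ∣ N) ξ B) (hne : ∃ g, φ g ≠ 0) {σ : ℝ}
    (hσ : 1 < σ) (h0 : ∑' m : Fin (s + 1) → ℤ, JJ φ σ m ≠ 0)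
    (hfin : ∑' m : Fin (s + 1) → ℤ, JJ φ σ m ≠ ∞) :
    (Summable fun x => TT (fun p => p.Prime ∧ ¬ p ∣ N) B x * pk σ x) ∧
      (IA N T φ σ).toReal = (kap (s + 1)).toReal *
        (Real.exp (∑' x, TT (fun p => p.Prime ∧ ¬ p ∣ N) B x * pk σ x) *
          (Ibad φ (fun p => p.Prime ∧ ¬ p ∣ N) σ).toReal) := by
  obtain ⟨h1, h2⟩ := euler_bad hH hne hσ h0 hfin
  refine ⟨h1, ?_⟩
  have h3 : IA N T φ σ = kap (s + 1) * (ENNReal.ofReal (Real.exp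
      (∑' x, TT (fun p => p.Prime ∧ ¬ p ∣ N) B x * pk σ x)) *
        Ibad φ (fun p => p.Prime ∧ ¬ p ∣ N) σ) := by
    rw [integral_eq h σ, ← h2]
    ring
  rw [h3, ENNReal.toReal_mul, ENNReal.toReal_mul, ENNReal.toReal_ofReal (Real.exp_pos _).le]

/-- The polarization. -/
theorem KPol_pol {s N : ℕ} {T : Finset SL(s + 2, ℤ)} {φ ψ : X (s + 2) → ℂ} (h : IsLvl N T φ)
    (h' : IsLvl N T ψ) {z : ℂ} (hz : ‖z‖ = 1) (h2 : IsLvl N T fun g => φ g + z * ψ g) {σ : ℝ}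
    (hfin : IA N T φ σ ≠ ∞) (hfin' : IA N T ψ σ ≠ ∞)
    (hfin2 : IA N T (fun g => φ g + z * ψ g) σ ≠ ∞) :
    (IA N T (fun g => φ g + z * ψ g) σ).toReal - (IA N T φ σ).toReal - (IA N T ψ σ).toReal =
      2 * (kap (s + 1)).toReal *
        ((Zgood (fun p => p.Prime ∧ ¬ p ∣ N) ((s + 2 : ℕ) * σ)).toReal *
          (conj z * ∑' m : Fin (s + 1) → ℤ, JC φ ψ σ m).re) := by
  rw [sum_eq h, sum_eq h', sum_eq h2, sum_polar h.isP h'.isP (sum_ne_top h hfin)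
    (sum_ne_top h' hfin') hz (sum_ne_top h2 hfin2)]
  ring

theorem pairRS {s N : ℕ} (hN : 0 < N) {χ : DirichletCharacter ℂ N}
    {f f' : Matrix (Fin (s + 2)) (Fin (s + 2)) ℝ → ℂ} (hf : IsCuspForm N χ f)
    (hf' : IsCuspForm N χ f') (hne : ∃ g, 0 < g.det ∧ f g ≠ 0)
    (hne' : ∃ g, 0 < g.det ∧ f' g ≠ 0) {B B' : ℕ → Matrix (Fin (s + 2)) (Fin (s + 2)) ℂ}
    (he : ∀ p : ℕ, p.Prime → ¬ p ∣ N → ∀ k : ℕ, 1 ≤ k → k ≤ s + 2 → ∀ g, 0 < g.det →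
      hecke χ p k f g =
        (Real.sqrt p : ℂ) ^ (k * (s + 2 - k)) * ((-1) ^ k * (B p).charpoly.coeff (s + 2 - k)) * f g)
    (he' : ∀ p : ℕ, p.Prime → ¬ p ∣ N → ∀ k : ℕ, 1 ≤ k → k ≤ s + 2 → ∀ g, 0 < g.det →
      hecke χ p k f' g =
        (Real.sqrt p : ℂ) ^ (k * (s + 2 - k)) * ((-1) ^ k * (B' p).charpoly.coeff (s + 2 - k)) *
          f' g)
    (hd : ∃ p : ℕ, p.Prime ∧ ¬ p ∣ N ∧ ∃ k : ℕ, 1 ≤ k ∧ k ≤ s + 2 ∧
      (B p).charpoly.coeff (s + 2 - k) ≠ (B' p).charpoly.coeff (s + 2 - k))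
    (hW : ∀ m : Fin (s + 1) → ℤ,
      (∀ i, m i ≠ 0 ∧ ∀ p : ℕ, p.Prime ∧ ¬ p ∣ N → ¬ (p : ℤ) ∣ m i) →
        ∀ᵐ t ∂(fl (s + 2)), Wh (s + 2) (tof f') (ext m) t = Wh (s + 2) (tof f) (ext m) t) :
    PairRS (tin (fun p => p.Prime ∧ ¬ p ∣ N) B) (tin (fun p => p.Prime ∧ ¬ p ∣ N) B') := by
  classical
  obtain ⟨T, hT⟩ := exists_lvl (s := s) hN
  have hL := hT χ f hf
  have hL' := hT χ f' hf'
  have hLz : ∀ z : ℂ, IsLvl N T fun g => tof f g + z * tof f' g := by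
    intro z
    rw [← tof_lin]
    exact hT χ _ (isCuspForm_lin hf hf' z)
  have hH := isHeckeForm hN hf he
  have hH' := isHeckeForm hN hf' he'
  have hn := KPol_ne hf hne
  have hn' := KPol_ne hf' hne'
  have hv := volume_tof hf hne
  have hv' := volume_tof hf' hne'
  obtain ⟨b₁, hb₁, G₁, hA₁, hV₁, hE₁⟩ := iA_ext_val hL
  obtain ⟨b₂, hb₂, G₂, hA₂, hV₂, hE₂⟩ := iA_ext_val hL'
  obtain ⟨b₃, hb₃, G₃, hA₃, hV₃, hE₃⟩ := iA_ext_val (hLz 1)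
  obtain ⟨b₄, hb₄, G₄, hA₄, hV₄, hE₄⟩ := iA_ext_val (hLz Complex.I)
  obtain ⟨μ, hμs, hμ0, hμ⟩ := exists_bad hN hf hne he
  obtain ⟨b, hb⟩ : ∃ b : ℝ, b = min (min b₁ b₂) (min b₃ b₄) := ⟨_, rfl⟩
  have hb1 : 1 < b := by
    rw [hb]
    exact lt_min (lt_min hb₁ hb₂) (lt_min hb₃ hb₄)
  have l₁ : b ≤ b₁ := by
    rw [hb]
    exact (min_le_left _ _).trans (min_le_left _ _)
  have l₂ : b ≤ b₂ := by
    rw [hb]
    exact (min_le_left _ _).trans (min_le_right _ _)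
  have l₃ : b ≤ b₃ := by
    rw [hb]
    exact (min_le_right _ _).trans (min_le_left _ _)
  have l₄ : b ≤ b₄ := by
    rw [hb]
    exact (min_le_right _ _).trans (min_le_right _ _)
  obtain ⟨κ, hκ⟩ : ∃ κ : ℝ, κ = (kap (s + 1)).toReal := ⟨_, rfl⟩
  have hκ0 : κ ≠ 0 := by
    rw [hκ]
    exact (ENNReal.toReal_pos (kap_ne_zero (s + 1)).1 (kap_ne_zero (s + 1)).2).ne'
  obtain ⟨C, hC⟩ := hL.isP.bdd
  obtain ⟨C', hC'⟩ := hL'.isP.bdd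
  -- the orthogonality
  have hor : IP T (tof f) (tof f') = 0 := by
    obtain ⟨p, hp, hpN, k, hk1, hk2, hk3⟩ := hd
    refine orth hN hf hf' hne hne' hp hpN
      (fun k => (-1) ^ k * (B p).charpoly.coeff (s + 2 - k))
      (fun k => (-1) ^ k * (B' p).charpoly.coeff (s + 2 - k)) (he p hp hpN) (he' p hp hpN)
      ⟨k, hk1, hk2, fun h => hk3 ?_⟩ hL.sum
    exact mul_left_cancel₀ (pow_ne_zero k (neg_ne_zero.2 one_ne_zero)) h
  have hms : ∀ z : ℂ, ‖z‖ = 1 → (msT T fun g => tof f g + z * tof f' g).toReal =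
      (msT T (tof f)).toReal + (msT T (tof f')).toReal := fun z hz =>
    msT_lin T hL.isP.meas hL'.isP.meas (C := max C C') (fun g => (hC g).trans (le_max_left _ _))
      (fun g => (hC' g).trans (le_max_right _ _)) hL.scale hL'.scale hor z hz
  have hWz : ∀ m : MZ (s + 1) {p | (fun p => p.Prime ∧ ¬ p ∣ N) p}, ∀ᵐ t ∂(fl (s + 2)),
      Wh (s + 2) (tof f') (ext m.1) t = Wh (s + 2) (tof f) (ext m.1) t := fun m =>
    hW m.1 fun i => ⟨(m.2 i).1, fun p hp => (m.2 i).2 p hp⟩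
  -- the values for `1 < σ < b`
  have key : ∀ σ ∈ Ioo 1 b,
      (Summable fun x => TT (fun p => p.Prime ∧ ¬ p ∣ N) B x * pk σ x) ∧
      (Summable fun x => TT (fun p => p.Prime ∧ ¬ p ∣ N) B' x * pk σ x) ∧
      Integrable (fun x => Real.exp (σ * x)) μ ∧
      G₁ σ = κ * ((σ - 1) * (∫ x, Real.exp (σ * x) ∂μ) *
        Real.exp (∑' x, TT (fun p => p.Prime ∧ ¬ p ∣ N) B x * pk σ x)) ∧
      G₂ σ = κ * ((σ - 1) * (∫ x, Real.exp (σ * x) ∂μ) *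
        Real.exp (∑' x, TT (fun p => p.Prime ∧ ¬ p ∣ N) B' x * pk σ x)) ∧
      (((G₃ σ - G₁ σ - G₂ σ : ℝ) : ℂ) + Complex.I * ((G₄ σ - G₁ σ - G₂ σ : ℝ) : ℂ)) =
        2 * (κ : ℂ) * ((((σ - 1) * (∫ x, Real.exp (σ * x) ∂μ) : ℝ) : ℂ) *
          Complex.exp (∑' x, TC (fun p => p.Prime ∧ ¬ p ∣ N) B B' x * (pk σ x : ℂ))) := by
    intro σ hσ
    have m₁ := hE₁ σ ⟨hσ.1, hσ.2.trans_le l₁⟩
    have m₂ := hE₂ σ ⟨hσ.1, hσ.2.trans_le l₂⟩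
    have m₃ := hE₃ σ ⟨hσ.1, hσ.2.trans_le l₃⟩
    have m₄ := hE₄ σ ⟨hσ.1, hσ.2.trans_le l₄⟩
    have t₁ := sum_ne_top hL m₁.1
    have t₂ := sum_ne_top hL' m₂.1
    have z₁ := sum_ne_zero hL hv σ
    have z₂ := sum_ne_zero hL' hv' σ
    obtain ⟨s₁, e₁⟩ := KPol_one hL hH hn hσ.1 z₁ t₁
    obtain ⟨s₂, e₂⟩ := KPol_one hL' hH' hn' hσ.1 z₂ t₂
    obtain ⟨i₁, i₂⟩ := hμ σ t₁
    rw [← i₂, ← hκ] at e₁
    rw [ibad_congr σ hWz, ← i₂, ← hκ] at e₂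
    refine ⟨s₁, s₂, i₁, ?_, ?_, ?_⟩
    · rw [m₁.2, e₁]
      ring
    · rw [m₂.2, e₂]
      ring
    · obtain ⟨_, ep⟩ := euler_pair hH hH' hn hn' hσ.1 z₁ t₁ z₂ t₂
      rw [bad_eq hL.isP.meas t₁ hWz, ← i₂] at ep
      have p₃ := KPol_pol hL hL' (z := 1) (by simp) (hLz 1) m₁.1 m₂.1 m₃.1
      have p₄ := KPol_pol hL hL' (z := Complex.I) (by simp) (hLz Complex.I) m₁.1 m₂.1 m₄.1
      rw [← hκ] at p₃ p₄
      obtain ⟨P, hP⟩ : ∃ P : ℂ, P = ∑' m : Fin (s + 1) → ℤ, JC (tof f) (tof f') σ m := ⟨_, rfl⟩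
      obtain ⟨Z, hZ⟩ : ∃ Z : ℝ, Z = (Zgood (fun p => p.Prime ∧ ¬ p ∣ N)
        ((s + 2 : ℕ) * σ)).toReal := ⟨_, rfl⟩
      rw [← hP, ← hZ] at p₃ p₄
      have ep2 : (Z : ℂ) * P = Complex.exp (∑' x, TC (fun p => p.Prime ∧ ¬ p ∣ N) B B' x *
          (pk σ x : ℂ)) * ((∫ x, Real.exp (σ * x) ∂μ : ℝ) : ℂ) := by
        rw [hP, hZ]
        exact ep
      have r₃ : (conj (1 : ℂ) * P).re = P.re := by simp
      have r₄ : (conj Complex.I * P).re = P.im := by simp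
      rw [r₃] at p₃
      rw [r₄] at p₄
      have q₃ : G₃ σ - G₁ σ - G₂ σ = (σ - 1) * (2 * κ * (Z * P.re)) := by
        rw [m₃.2, m₁.2, m₂.2, ← p₃]
        ring
      have q₄ : G₄ σ - G₁ σ - G₂ σ = (σ - 1) * (2 * κ * (Z * P.im)) := by
        rw [m₄.2, m₁.2, m₂.2, ← p₄]
        ring
      rw [q₃, q₄]
      have hPe : P = (P.re : ℂ) + (P.im : ℂ) * Complex.I := (Complex.re_add_im P).symm
      have e5 : (((σ - 1) * (2 * κ * (Z * P.re)) : ℝ) : ℂ) +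
          Complex.I * (((σ - 1) * (2 * κ * (Z * P.im)) : ℝ) : ℂ) =
            2 * (κ : ℂ) * (((σ : ℂ) - 1) * ((Z : ℂ) * P)) := by
        rw [hPe]
        simp only [Complex.add_re, Complex.ofReal_re, Complex.mul_re, Complex.ofReal_im,
          Complex.I_re, Complex.I_im, Complex.add_im, Complex.mul_im]
        push_cast
        ring
      rw [e5, ep2]
      push_cast
      ring
  have sub : ∀ σ ∈ Ioo 0 b, σ ∈ Ioo 0 b₁ ∧ σ ∈ Ioo 0 b₂ ∧ σ ∈ Ioo 0 b₃ ∧ σ ∈ Ioo 0 b₄ :=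
    fun σ hσ => ⟨⟨hσ.1, hσ.2.trans_le l₁⟩, ⟨hσ.1, hσ.2.trans_le l₂⟩, ⟨hσ.1, hσ.2.trans_le l₃⟩,
      ⟨hσ.1, hσ.2.trans_le l₄⟩⟩
  refine ⟨b, μ, fun σ => κ⁻¹ * G₁ σ, fun σ => κ⁻¹ * G₂ σ, fun σ => (2 * (κ : ℂ))⁻¹ *
    (((G₃ σ - G₁ σ - G₂ σ : ℝ) : ℂ) + Complex.I * ((G₄ σ - G₁ σ - G₂ σ : ℝ) : ℂ)), ?_⟩
  have hκc : (κ : ℂ) ≠ 0 := Complex.ofReal_ne_zero.2 hκ0
  exact
    { hb := hb1
      sfin := hμs
      ne := hμ0
      int := fun σ hσ => (key σ hσ).2.2.1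
      sum₁ := fun σ hσ => by
        simp only [tin_tt]
        exact (key σ hσ).1
      sum₂ := fun σ hσ => by
        simp only [tin_tt]
        exact (key σ hσ).2.1
      an₁ := fun σ hσ => analyticAt_const.mul (hA₁ σ (sub σ hσ).1)
      an₂ := fun σ hσ => analyticAt_const.mul (hA₂ σ (sub σ hσ).2.1)
      an₃ := fun σ hσ => by
        have a₁ := hA₁ σ (sub σ hσ).1
        have a₂ := hA₂ σ (sub σ hσ).2.1
        have a₃ := hA₃ σ (sub σ hσ).2.2.1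
        have a₄ := hA₄ σ (sub σ hσ).2.2.2
        have c : ∀ x : ℝ, AnalyticAt ℝ (fun y : ℝ => (y : ℂ)) x := fun x =>
          Complex.ofRealCLM.analyticAt x
        have d₃ : AnalyticAt ℝ (fun σ => ((G₃ σ - G₁ σ - G₂ σ : ℝ) : ℂ)) σ :=
          (c _).fun_comp ((a₃.sub a₁).sub a₂)
        have d₄ : AnalyticAt ℝ (fun σ => ((G₄ σ - G₁ σ - G₂ σ : ℝ) : ℂ)) σ :=
          (c _).fun_comp ((a₄.sub a₁).sub a₂)
        exact analyticAt_const.mul (d₃.add (analyticAt_const.mul d₄))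
      zero := by
        have v₃ : G₃ 1 - G₁ 1 - G₂ 1 = 0 := by
          rw [hV₃, hV₁, hV₂, hms 1 (by simp)]
          ring
        have v₄ : G₄ 1 - G₁ 1 - G₂ 1 = 0 := by
          rw [hV₄, hV₁, hV₂, hms Complex.I (by simp)]
          ring
        show (2 * (κ : ℂ))⁻¹ * (((G₃ 1 - G₁ 1 - G₂ 1 : ℝ) : ℂ) +
          Complex.I * ((G₄ 1 - G₁ 1 - G₂ 1 : ℝ) : ℂ)) = 0
        rw [v₃, v₄]
        simp
      eq₁ := fun σ hσ => by
        simp only [tin_tt]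
        rw [(key σ hσ).2.2.2.1, inv_mul_cancel_left₀ hκ0]
      eq₂ := fun σ hσ => by
        simp only [tin_tt]
        rw [(key σ hσ).2.2.2.2.1, inv_mul_cancel_left₀ hκ0]
      eq₃ := fun σ hσ => by
        simp only [tin_tc]
        rw [(key σ hσ).2.2.2.2.2, inv_mul_cancel_left₀ (mul_ne_zero two_ne_zero hκc)] }

end Pool.Agent.GL74
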