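import Pool.Agent.W_7742p_h74.KNon
import Pool.Agent.W_7742x_h74.ZDef

/-! # The asymptotic behaviour of a pair

Write `L = log (1 / (σ - 1))`, `M σ = ∫ exp (σ x) dμ > 0`.  For `1 < σ < b`:
* `exp S₁ = G₁ / ((σ - 1) M)` and `M ≥ δ > 0` near `1` (see the proof of `WeakRS.bound`, ZDef.lean:
  in fact it applies), so `S₁ ≤ L + C`;
* `exp (S₂ - S₁) = G₂ / G₁`, continuous and nonzero at `1` (`g1_ne_zero`, `g2_ne_zero`), so
  `|S₂ - S₁| ≤ C` near `1`;
* `exp (S₃ - S₁ + L) = (G₃ / (σ - 1)) / G₁ =: q σ`, which has the limit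
  `q₁ = deriv G₃ 1 / G₁ 1 ≠ 0` for `σ → 1` (`zero`, `g3_deriv`).  The function
  `D σ = S₃ - S₁ + L - log (q σ / q₁)` (principal branch) is continuous on `(1, 1 + δ)` for small
  `δ` (`continuousOn_s3`, `continuousOn_s1`) and `exp D = q₁` is constant; so `D` is constant (a
  continuous function on an interval with values in the discrete set of the logarithms of `q₁`, e.g.
  `IsPreconnected.constant_of_mapsTo`, or: `D σ - D σ'` is an integral multiple of `2 π i` and small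
  for close `σ, σ'`).  Hence `S₃ - S₁ + L` is bounded near `1`.
* For `r ≤ σ ≤ 2`, `r > 1`, all the functions are bounded (`pk_anti`:
  `S₁ σ ≤ S₁ r`, `‖S₃ σ‖ ≤ (S₁ r + S₂ r) / 2`).
* The series converge for all `σ > 1` by `pk_anti`.
-/

set_option autoImplicit false

noncomputable section

namespace Pool.Agent.GL74

open MeasureTheory ComplexConjugate Set
open Pool.Agent.H74E (pk)

variable {t t' : Nat.Primes × ℕ → ℂ}

/-- The series define continuous functions (dominated convergence, `continuousOn_tsum`,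
`pk_anti`, `continuous_pk`). -/
theorem continuousOn_s1 {b : ℝ} (h : ∀ σ ∈ Ioo 1 b, Summable fun x => ‖t x‖ ^ 2 * pk σ x) :
    ContinuousOn (fun σ => ∑' x, ‖t x‖ ^ 2 * pk σ x) (Ioo 1 b) := by
  intro σ hσ
  obtain ⟨r, hr1, hr2⟩ := exists_between hσ.1
  have hrb : r < b := hr2.trans hσ.2
  have hc : ContinuousOn (fun σ => ∑' x, ‖t x‖ ^ 2 * pk σ x) (Ioi r) := by
    refine continuousOn_tsum (u := fun x => ‖t x‖ ^ 2 * pk r x) (fun x => ?_) (h r ⟨hr1, hrb⟩)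
      (fun x s hs => ?_)
    · exact (continuous_const.mul (Pool.Agent.H74E.continuous_pk x)).continuousOn
    · rw [Real.norm_of_nonneg (mul_nonneg (by positivity) (Pool.Agent.H74E.pk_nonneg s x))]
      exact mul_le_mul_of_nonneg_left (Pool.Agent.H74E.pk_anti (le_of_lt hs) x) (by positivity)
  exact (hc.continuousAt (Ioi_mem_nhds hr2)).continuousWithinAt

theorem continuousOn_s3 {b : ℝ} (h : ∀ σ ∈ Ioo 1 b, Summable fun x => ‖t x‖ ^ 2 * pk σ x)
    (h' : ∀ σ ∈ Ioo 1 b, Summable fun x => ‖t' x‖ ^ 2 * pk σ x) :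
    ContinuousOn (fun σ => ∑' x, t x * conj (t' x) * (pk σ x : ℂ)) (Ioo 1 b) := by
  intro σ hσ
  obtain ⟨r, hr1, hr2⟩ := exists_between hσ.1
  have hrb : r < b := hr2.trans hσ.2
  have hc : ContinuousOn (fun σ => ∑' x, t x * conj (t' x) * (pk σ x : ℂ)) (Ioi r) := by
    refine continuousOn_tsum (u := fun x => ‖t x‖ ^ 2 * pk r x + ‖t' x‖ ^ 2 * pk r x)
      (fun x => ?_) ((h r ⟨hr1, hrb⟩).add (h' r ⟨hr1, hrb⟩)) (fun x s hs => ?_)
    · exact (continuous_const.mul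
        (Complex.continuous_ofReal.comp (Pool.Agent.H74E.continuous_pk x))).continuousOn
    · refine (KNon_bound _ _ (Pool.Agent.H74E.pk_nonneg s x)).trans (add_le_add ?_ ?_)
      · exact mul_le_mul_of_nonneg_left (Pool.Agent.H74E.pk_anti (le_of_lt hs) x) (by positivity)
      · exact mul_le_mul_of_nonneg_left (Pool.Agent.H74E.pk_anti (le_of_lt hs) x) (by positivity)
  exact (hc.continuousAt (Ioi_mem_nhds hr2)).continuousWithinAt

/-- A continuous function on an interval with constant exponential is constant. -/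
theorem KAsy_const {D : ℝ → ℂ} {a c : ℝ} (hD : ContinuousOn D (Ioo a c)) {q : ℂ}
    (he : ∀ σ ∈ Ioo a c, Complex.exp (D σ) = q) {s s' : ℝ} (hs : s ∈ Ioo a c)
    (hs' : s' ∈ Ioo a c) : D s = D s' := by
  have hn : ∀ σ ∈ Ioo a c, ∃ n : ℤ, D σ = D s + n * (2 * Real.pi * Complex.I) := by
    intro σ hσ
    exact Complex.exp_eq_exp_iff_exists_int.1 ((he σ hσ).trans (he s hs).symm)
  set f : ℝ → ℝ := fun σ => ((D σ).im - (D s).im) / (2 * Real.pi) with hf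
  have hpi : (2 * Real.pi) ≠ 0 := by positivity
  have hfn : ∀ σ (n : ℤ), D σ = D s + n * (2 * Real.pi * Complex.I) → f σ = n := by
    intro σ n h
    have h1 : (D σ).im = (D s).im + n * (2 * Real.pi) := by
      rw [h]
      simp
    rw [hf]
    simp only
    rw [h1]
    field_simp
    ring
  have hfc : ContinuousOn f (Ioo a c) :=
    ((Complex.continuous_im.comp_continuousOn hD).sub continuousOn_const).div_const _
  have hT : DiscreteTopology (range (Int.cast : ℤ → ℝ)) :=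
    (Int.isClosedEmbedding_coe_real.isEmbedding.toHomeomorph).symm.isEmbedding.discreteTopology
  have hmaps : MapsTo f (Ioo a c) (range (Int.cast : ℤ → ℝ)) := by
    intro σ hσ
    obtain ⟨n, hn⟩ := hn σ hσ
    exact ⟨n, (hfn σ n hn).symm⟩
  have hconst := isPreconnected_Ioo.constant_of_mapsTo (isDiscrete_iff_discreteTopology.2 hT) hfc
    hmaps hs hs'
  obtain ⟨n, hn'⟩ := hn s' hs'
  have h1 : f s = 0 := by simp [hf]
  have h2 := hfn s' n hn'
  rw [← hconst, h1] at h2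
  have h3 : n = 0 := by exact_mod_cast h2.symm
  rw [hn', h3]
  simp

/-- A continuous function on an interval whose exponential has a nonzero limit is bounded near the
end point. -/
theorem bounded_of_exp {F : ℝ → ℂ} {b : ℝ} (hb : 1 < b) (hF : ContinuousOn F (Ioo 1 b)) {q : ℂ}
    (hq : q ≠ 0) (h : Filter.Tendsto (fun σ => Complex.exp (F σ)) (nhdsWithin 1 (Ioi 1)) (nhds q)) :
    ∃ c C : ℝ, 1 < c ∧ c < b ∧ ∀ σ, 1 < σ → σ ≤ c → ‖F σ‖ ≤ C := by
  have hu : Filter.Tendsto (fun σ => Complex.exp (F σ) / q) (nhdsWithin 1 (Ioi 1)) (nhds 1) := by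
    have := h.div_const q
    rwa [div_self hq] at this
  have hev : ∀ᶠ σ in nhdsWithin (1 : ℝ) (Ioi 1), Complex.exp (F σ) / q ∈ Metric.ball (1 : ℂ) (1 / 2) :=
    hu.eventually_mem (Metric.ball_mem_nhds _ (by norm_num))
  obtain ⟨c0, hc0, hsub⟩ := mem_nhdsGT_iff_exists_Ioo_subset.1 hev
  have hc0' : 1 < c0 := hc0
  obtain ⟨c, hc1, hc2⟩ := exists_between (lt_min hc0' hb)
  have hcc0 : c < c0 := hc2.trans_le (min_le_left _ _)
  have hcb : c < b := hc2.trans_le (min_le_right _ _)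
  set m := min c0 b with hm
  have hball : ∀ σ ∈ Ioo 1 m, ‖Complex.exp (F σ) / q - 1‖ < 1 / 2 := by
    intro σ hσ
    have := hsub ⟨hσ.1, hσ.2.trans_le (min_le_left _ _)⟩
    simpa [dist_eq_norm] using this
  set D : ℝ → ℂ := fun σ => F σ - Complex.log (Complex.exp (F σ) / q) with hD
  have hFm : ContinuousOn F (Ioo 1 m) := hF.mono (Ioo_subset_Ioo_right (min_le_right _ _))
  have hslit : ∀ σ ∈ Ioo 1 m, Complex.exp (F σ) / q ∈ Complex.slitPlane := by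
    intro σ hσ
    have h1 := hball σ hσ
    left
    have h2 := (abs_le.1 (Complex.abs_re_le_norm (Complex.exp (F σ) / q - 1))).1
    rw [Complex.sub_re, Complex.one_re] at h2
    linarith
  have hDc : ContinuousOn D (Ioo 1 m) := by
    refine hFm.sub ?_
    refine ContinuousOn.clog ?_ hslit
    exact (Complex.continuous_exp.comp_continuousOn hFm).div_const _
  have hDe : ∀ σ ∈ Ioo 1 m, Complex.exp (D σ) = q := by
    intro σ hσ
    have h1 : Complex.exp (F σ) / q ≠ 0 := div_ne_zero (Complex.exp_ne_zero _) hq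
    rw [hD]
    simp only
    rw [Complex.exp_sub, Complex.exp_log h1]
    have h2 := Complex.exp_ne_zero (F σ)
    field_simp
  refine ⟨c, ‖D c‖ + 1, hc1, hcb, fun σ h1 h2 => ?_⟩
  have hσ : σ ∈ Ioo 1 m := ⟨h1, h2.trans_lt hc2⟩
  have h3 : D σ = D c := KAsy_const hDc hDe hσ ⟨hc1, hc2⟩
  have h4 : F σ = D σ + Complex.log (1 + (Complex.exp (F σ) / q - 1)) := by
    rw [hD]
    simp
  have h5 := hball σ hσ
  have h6 := Complex.norm_log_one_add_half_le_self h5.le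
  rw [h4, h3]
  refine (norm_add_le _ _).trans ?_
  have h7 : 3 / 2 * ‖Complex.exp (F σ) / q - 1‖ ≤ 1 := by linarith
  linarith

theorem PairRS.asy (h : PairRS t t') (h1 : Diverg t) (h2 : Diverg t') (h3 : Diverg fun x => t x + t' x) :
    PairAsy t t' := by
  obtain ⟨b, μ, G₁, G₂, G₃, h⟩ := h
  have := h.sfin
  have : NeZero μ := ⟨h.ne⟩
  have hb := h.hb
  set S₁ : ℝ → ℝ := fun σ => ∑' x, ‖t x‖ ^ 2 * pk σ x with hS₁
  set S₂ : ℝ → ℝ := fun σ => ∑' x, ‖t' x‖ ^ 2 * pk σ x with hS₂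
  set S₃ : ℝ → ℂ := fun σ => ∑' x, t x * conj (t' x) * (pk σ x : ℂ) with hS₃
  have sm1 : ∀ σ, 1 < σ → Summable fun x => ‖t x‖ ^ 2 * pk σ x := fun σ hσ =>
    KNon_summable (c := fun x => ‖t x‖ ^ 2) (fun x => by positivity) hb h.sum₁ hσ
  have sm2 : ∀ σ, 1 < σ → Summable fun x => ‖t' x‖ ^ 2 * pk σ x := fun σ hσ =>
    KNon_summable (c := fun x => ‖t' x‖ ^ 2) (fun x => by positivity) hb h.sum₂ hσ
  obtain ⟨C₁, hC₁⟩ := WeakRS.log_le (T := fun x => ‖t x‖ ^ 2) (fun x => by positivity)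
    ⟨b, hb, μ, h.sfin, h.ne, G₁, h.an₁, fun σ hσ => ⟨h.sum₁ σ hσ, h.int σ hσ, h.eq₁ σ hσ⟩⟩
  have c1 : ContinuousOn S₁ (Ioo 1 b) := continuousOn_s1 h.sum₁
  have c2 : ContinuousOn S₂ (Ioo 1 b) := continuousOn_s1 h.sum₂
  have c3 : ContinuousOn S₃ (Ioo 1 b) := continuousOn_s3 h.sum₁ h.sum₂
  have h1b : (1 : ℝ) ∈ Ioo 0 b := ⟨one_pos, hb⟩
  have n1 : G₁ 1 ≠ 0 := h.g1_ne_zero h1
  have n2 : G₂ 1 ≠ 0 := h.g2_ne_zero h2
  have n3 : deriv G₃ 1 ≠ 0 := h.g3_deriv h3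
  have hIoo : Ioo 1 b ∈ nhdsWithin (1 : ℝ) (Ioi 1) := Ioo_mem_nhdsGT hb
  have t1 : Filter.Tendsto G₁ (nhdsWithin 1 (Ioi 1)) (nhds (G₁ 1)) :=
    (h.an₁ 1 h1b).continuousAt.tendsto.mono_left nhdsWithin_le_nhds
  have t2 : Filter.Tendsto G₂ (nhdsWithin 1 (Ioi 1)) (nhds (G₂ 1)) :=
    (h.an₂ 1 h1b).continuousAt.tendsto.mono_left nhdsWithin_le_nhds
  have t3 : Filter.Tendsto (slope G₃ 1) (nhdsWithin 1 (Ioi 1)) (nhds (deriv G₃ 1)) := by
    have := hasDerivAt_iff_tendsto_slope.1 (h.an₃ 1 h1b).differentiableAt.hasDerivAt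
    exact this.mono_left (nhdsWithin_mono _ fun x hx => ne_of_gt hx)
  have hM : ∀ σ ∈ Ioo 1 b, 0 < ∫ x, Real.exp (σ * x) ∂μ := fun σ hσ =>
    integral_exp_pos (h.int σ hσ)
  -- the second difference
  have e2 : ∀ σ ∈ Ioo 1 b, Complex.exp ((S₂ σ - S₁ σ : ℝ) : ℂ) = ((G₂ σ / G₁ σ : ℝ) : ℂ) := by
    intro σ hσ
    have hs : 0 < σ - 1 := sub_pos.2 hσ.1
    have hMσ := hM σ hσ
    rw [← Complex.ofReal_exp, h.eq₁ σ hσ, h.eq₂ σ hσ, Real.exp_sub]
    congr 1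
    rw [mul_div_mul_left _ _ (mul_pos hs hMσ).ne']
  have l2 : Filter.Tendsto (fun σ => Complex.exp ((S₂ σ - S₁ σ : ℝ) : ℂ)) (nhdsWithin 1 (Ioi 1))
      (nhds ((G₂ 1 / G₁ 1 : ℝ) : ℂ)) := by
    have h5 : Filter.Tendsto (fun σ => ((G₂ σ / G₁ σ : ℝ) : ℂ)) (nhdsWithin 1 (Ioi 1))
        (nhds ((G₂ 1 / G₁ 1 : ℝ) : ℂ)) :=
      (Complex.continuous_ofReal.tendsto _).comp (t2.div t1 n1)
    refine h5.congr' ?_
    filter_upwards [hIoo] with σ hσ
    exact (e2 σ hσ).symm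
  obtain ⟨r₂, C₂, hr₂, hr₂b, hC₂⟩ := bounded_of_exp hb
    (F := fun σ => ((S₂ σ - S₁ σ : ℝ) : ℂ))
    (Complex.continuous_ofReal.comp_continuousOn (c2.sub c1))
    (q := ((G₂ 1 / G₁ 1 : ℝ) : ℂ)) (by exact_mod_cast div_ne_zero n2 n1) l2
  -- the third difference
  have hL : ContinuousOn (fun σ : ℝ => Real.log (1 / (σ - 1))) (Ioo 1 b) := by
    refine ContinuousOn.log ?_ ?_
    · refine continuousOn_const.div (continuousOn_id.sub continuousOn_const) ?_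
      intro σ hσ
      exact (sub_pos.2 hσ.1).ne'
    · intro σ hσ
      exact (one_div_pos.2 (sub_pos.2 hσ.1)).ne'
  have e3 : ∀ σ ∈ Ioo 1 b, Complex.exp (S₃ σ - ((S₁ σ : ℝ) : ℂ) +
      ((Real.log (1 / (σ - 1)) : ℝ) : ℂ)) = slope G₃ 1 σ / ((G₁ σ : ℝ) : ℂ) := by
    intro σ hσ
    have hs : 0 < σ - 1 := sub_pos.2 hσ.1
    have hMσ := hM σ hσ
    rw [slope_def_module, h.zero, sub_zero, h.eq₃ σ hσ, h.eq₁ σ hσ, Complex.exp_add,
      Complex.exp_sub, ← Complex.ofReal_exp, ← Complex.ofReal_exp, Real.exp_log (one_div_pos.2 hs)]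
    have k1 : (((σ - 1 : ℝ)) : ℂ) ≠ 0 := by exact_mod_cast hs.ne'
    have k2 : (((∫ x, Real.exp (σ * x) ∂μ : ℝ)) : ℂ) ≠ 0 := by exact_mod_cast hMσ.ne'
    have k3 : ((Real.exp (S₁ σ) : ℝ) : ℂ) ≠ 0 := by exact_mod_cast (Real.exp_pos _).ne'
    rw [Complex.real_smul]
    have k4 : ((Real.exp (∑' x, ‖t x‖ ^ 2 * pk σ x) : ℝ) : ℂ) = ((Real.exp (S₁ σ) : ℝ) : ℂ) := rfl
    have k5 : Complex.exp (∑' x, t x * conj (t' x) * (pk σ x : ℂ)) = Complex.exp (S₃ σ) := rfl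
    rw [k5]
    simp only [Complex.ofReal_mul, Complex.ofReal_inv, Complex.ofReal_div, Complex.ofReal_one, k4]
    field_simp
  have l3 : Filter.Tendsto (fun σ => Complex.exp (S₃ σ - ((S₁ σ : ℝ) : ℂ) +
      ((Real.log (1 / (σ - 1)) : ℝ) : ℂ))) (nhdsWithin 1 (Ioi 1))
      (nhds (deriv G₃ 1 / ((G₁ 1 : ℝ) : ℂ))) := by
    have h5 : Filter.Tendsto (fun σ => slope G₃ 1 σ / ((G₁ σ : ℝ) : ℂ)) (nhdsWithin 1 (Ioi 1))
        (nhds (deriv G₃ 1 / ((G₁ 1 : ℝ) : ℂ))) :=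
      t3.div ((Complex.continuous_ofReal.tendsto _).comp t1) (by exact_mod_cast n1)
    refine h5.congr' ?_
    filter_upwards [hIoo] with σ hσ
    exact (e3 σ hσ).symm
  obtain ⟨r₃, C₃, hr₃, hr₃b, hC₃⟩ := bounded_of_exp hb
    (F := fun σ => S₃ σ - ((S₁ σ : ℝ) : ℂ) + ((Real.log (1 / (σ - 1)) : ℝ) : ℂ))
    ((c3.sub (Complex.continuous_ofReal.comp_continuousOn c1)).add
      (Complex.continuous_ofReal.comp_continuousOn hL))
    (q := deriv G₃ 1 / ((G₁ 1 : ℝ) : ℂ)) (div_ne_zero n3 (by exact_mod_cast n1)) l3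
  -- far away from `1`
  set r := min r₂ r₃ with hr
  have hr1 : 1 < r := lt_min hr₂ hr₃
  have nn1 : ∀ σ, 0 ≤ S₁ σ := fun σ =>
    tsum_nonneg fun x => mul_nonneg (by positivity) (Pool.Agent.H74E.pk_nonneg σ x)
  have nn2 : ∀ σ, 0 ≤ S₂ σ := fun σ =>
    tsum_nonneg fun x => mul_nonneg (by positivity) (Pool.Agent.H74E.pk_nonneg σ x)
  have m1 : ∀ σ, r ≤ σ → S₁ σ ≤ S₁ r := fun σ hσ =>
    (sm1 σ (hr1.trans_le hσ)).tsum_le_tsum (fun x =>
      mul_le_mul_of_nonneg_left (Pool.Agent.H74E.pk_anti hσ x) (by positivity)) (sm1 r hr1)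
  have m2 : ∀ σ, r ≤ σ → S₂ σ ≤ S₂ r := fun σ hσ =>
    (sm2 σ (hr1.trans_le hσ)).tsum_le_tsum (fun x =>
      mul_le_mul_of_nonneg_left (Pool.Agent.H74E.pk_anti hσ x) (by positivity)) (sm2 r hr1)
  have m3 : ∀ σ, 1 < σ → ‖S₃ σ‖ ≤ S₁ σ + S₂ σ := by
    intro σ hσ
    have hsum := (sm1 σ hσ).add (sm2 σ hσ)
    have h5 : ‖S₃ σ‖ ≤ ∑' x, (‖t x‖ ^ 2 * pk σ x + ‖t' x‖ ^ 2 * pk σ x) :=
      tsum_of_norm_bounded hsum.hasSum
        (fun x => KNon_bound _ _ (Pool.Agent.H74E.pk_nonneg σ x))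
    rwa [(sm1 σ hσ).tsum_add (sm2 σ hσ)] at h5
  set K : ℝ := Real.log (1 / (r - 1)) with hK
  set C : ℝ := |C₁| + |C₂| + |C₃| + 3 * S₁ r + 3 * S₂ r + |K| with hC
  have p1 := abs_nonneg C₁
  have p2 := abs_nonneg C₂
  have p3 := abs_nonneg C₃
  have p4 := nn1 r
  have p5 := nn2 r
  have p6 := abs_nonneg K
  refine ⟨C, fun σ h1σ h2σ => ⟨sm1 σ h1σ, sm2 σ h1σ, ?_, ?_, ?_⟩⟩
  · have h5 := hC₁ σ h1σ h2σ
    have h6 := le_abs_self C₁
    linarith
  · rcases le_total σ r with h4 | h4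
    · have h5 := hC₂ σ h1σ (h4.trans (min_le_left _ _))
      rw [Complex.norm_real, Real.norm_eq_abs] at h5
      have h6 := le_abs_self C₂
      have h7 : |S₂ σ - S₁ σ| ≤ C := by linarith
      exact h7
    · have h5 := m1 σ h4
      have h6 := m2 σ h4
      have h7 := nn1 σ
      have h8 := nn2 σ
      have h9 : |S₂ σ - S₁ σ| ≤ C := abs_le.2 ⟨by linarith, by linarith⟩
      exact h9
  · rcases le_total σ r with h4 | h4
    · have h5 := hC₃ σ h1σ (h4.trans (min_le_right _ _))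
      have h6 := le_abs_self C₃
      have h7 : ‖S₃ σ - ((S₁ σ : ℝ) : ℂ) + ((Real.log (1 / (σ - 1)) : ℝ) : ℂ)‖ ≤ C := by linarith
      exact h7
    · have h5 := m1 σ h4
      have h6 := m2 σ h4
      have h7 := nn1 σ
      have h8 := nn2 σ
      have h9 := m3 σ h1σ
      have hs : 0 < σ - 1 := sub_pos.2 h1σ
      have k1 : 0 ≤ Real.log (1 / (σ - 1)) := by
        refine Real.log_nonneg ?_
        rw [le_div_iff₀ hs]
        linarith
      have k2 : Real.log (1 / (σ - 1)) ≤ K := by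
        refine Real.log_le_log (one_div_pos.2 hs) ?_
        exact one_div_le_one_div_of_le (by linarith) (by linarith)
      have k3 : ‖((S₁ σ : ℝ) : ℂ)‖ ≤ S₁ r := by
        rw [Complex.norm_real, Real.norm_of_nonneg h7]
        exact h5
      have k4 : ‖((Real.log (1 / (σ - 1)) : ℝ) : ℂ)‖ ≤ |K| := by
        rw [Complex.norm_real, Real.norm_of_nonneg k1]
        exact k2.trans (le_abs_self _)
      have k5 := norm_add_le (S₃ σ - ((S₁ σ : ℝ) : ℂ)) ((Real.log (1 / (σ - 1)) : ℝ) : ℂ)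
      have k6 := norm_sub_le (S₃ σ) ((S₁ σ : ℝ) : ℂ)
      have h10 : ‖S₃ σ - ((S₁ σ : ℝ) : ℂ) + ((Real.log (1 / (σ - 1)) : ℝ) : ℂ)‖ ≤ C := by
        linarith
      exact h10

end Pool.Agent.GL74
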