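import Pool.Agent.W_7742p_h74.KWdf
import Pool.Agent.W_7742x_h74.QExt
import Pool.Agent.W_7742x_h74.FUnf
import Pool.Agent.W_7742x_h74.LSca

/-! # The iterated Fourier coefficients are Whittaker functions

For an upper triangular matrix `t` with nonzero diagonal entries the iterated Fourier coefficient
`Wh n φ m t` (XDef.lean) is the integral of `e (-∑ m_j B_{j+1,j}) φ (unip B * t)` over
`B ∈ [0,1]^{n × n}`, by induction on `n`: `glue h (v 0 • θ) v = (1 0; θ 1) (v; 0 h)`, and
`(1 0; θ 1) (1 0; 0 unip B') = unip B` if the first column of `B` below the diagonal is `θ` and the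
lower right block is `B'`; the other entries of the cube do not matter (their integral is `1`);
the order of integration: see `FCus_integral_split`, `FCus_integral_swap_bdd`,
`FCus_restrict_P2` in FCus.lean (and `FCus_blk_Bp` etc. for a similar computation).

For `φ = tof f` (`tof f g = f g` if `dt g > 0`, otherwise `0`; `dt (unip B * t) = dt t`) this is
`whittaker f m t` if `dt t > 0` and `0` otherwise.

`wh_eq`: almost all `t` for `fl n` are upper triangular with nonzero diagonal entries (`ae_upper`,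
`ae_diag`). -/

set_option autoImplicit false

noncomputable section

namespace Pool.Agent.GL74

open MeasureTheory ComplexConjugate Set
open scoped ENNReal MatrixGroups
open Pool.Agent.GLForm74

/-- The sum in the exponent. -/
def KWit_S {n : ℕ} (m : ℕ → ℤ) (B : X n) : ℂ :=
  ∑ i : Fin n, ∑ j : Fin n, if (i : ℕ) = (j : ℕ) + 1 then (m (j : ℕ) : ℂ) * (B i j : ℂ) else 0

theorem KWit_S_measurable {n : ℕ} (m : ℕ → ℤ) : Measurable (KWit_S m : X n → ℂ) := by
  unfold KWit_S
  refine Finset.measurable_sum _ fun i _ => Finset.measurable_sum _ fun j _ => ?_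
  split_ifs
  · fun_prop
  · exact measurable_const

theorem KWit_S_real {n : ℕ} (m : ℕ → ℤ) (B : X n) : ∃ r : ℝ, KWit_S m B = (r : ℂ) := by
  refine ⟨∑ i : Fin n, ∑ j : Fin n, if (i : ℕ) = (j : ℕ) + 1 then (m (j : ℕ) : ℝ) * B i j else 0, ?_⟩
  unfold KWit_S
  push_cast
  refine Finset.sum_congr rfl fun i _ => Finset.sum_congr rfl fun j _ => ?_
  split_ifs <;> simp

theorem KWit_norm {n : ℕ} (m : ℕ → ℤ) (B : X n) :
    ‖Complex.exp (-(2 * Real.pi * Complex.I * KWit_S m B))‖ = 1 := by
  obtain ⟨r, hr⟩ := KWit_S_real m B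
  rw [hr, show (-(2 * Real.pi * Complex.I * (r : ℂ)) : ℂ) =
    ((-(2 * Real.pi * r) : ℝ) : ℂ) * Complex.I by push_cast; ring]
  exact Complex.norm_exp_ofReal_mul_I _

theorem KWit_S_succ {s : ℕ} (m : ℕ → ℤ) (B : X (s + 1)) :
    KWit_S m B = ((∑ i, (E s (m 0) i : ℝ) * B i.succ 0 : ℝ) : ℂ) +
      KWit_S (fun i => m (i + 1)) (fun i j => B i.succ j.succ : X s) := by
  unfold KWit_S
  rw [Fin.sum_univ_succ]
  have h0 : ∑ j : Fin (s + 1), (if ((0 : Fin (s + 1)) : ℕ) = (j : ℕ) + 1 then
      (m (j : ℕ) : ℂ) * (B 0 j : ℂ) else 0) = 0 := by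
    refine Finset.sum_eq_zero fun j _ => ?_
    rw [if_neg]
    simp
  rw [h0, zero_add]
  push_cast
  rw [← Finset.sum_add_distrib]
  refine Finset.sum_congr rfl fun i _ => ?_
  rw [Fin.sum_univ_succ]
  congr 1
  · unfold E
    by_cases hi : (i : ℕ) = 0
    · rw [if_pos (by simp [hi]), if_pos hi]
      simp
    · rw [if_neg (by simp [hi]), if_neg hi]
      simp
  · refine Finset.sum_congr rfl fun j _ => ?_
    by_cases hij : (i : ℕ) = (j : ℕ) + 1
    · rw [if_pos (by simp [hij]), if_pos hij]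
      simp
    · rw [if_neg (by simp [hij]), if_neg hij]

theorem KWit_unip_zero {s : ℕ} (B : X (s + 1)) (j : Fin (s + 1)) :
    unip B 0 j = if 0 = j then 1 else 0 := by
  unfold unip
  simp only [Matrix.of_apply]
  split_ifs with h1 h2
  · rfl
  · exact absurd h2 (by simp)
  · rfl

theorem KWit_unip_succ {s : ℕ} (B : X (s + 1)) (i j : Fin s) :
    unip B i.succ j.succ = unip (fun i j => B i.succ j.succ : X s) i j := by
  unfold unip
  simp only [Matrix.of_apply, Fin.succ_inj, Fin.succ_lt_succ_iff]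

theorem KWit_unip_col {s : ℕ} (B : X (s + 1)) (i : Fin s) : unip B i.succ 0 = B i.succ 0 := by
  unfold unip
  simp only [Matrix.of_apply]
  rw [if_neg (Fin.succ_ne_zero i), if_pos (Fin.succ_pos i)]

theorem KWit_glue {s : ℕ} (B : X (s + 1)) {t : X (s + 1)}
    (ht : ∀ i j : Fin (s + 1), j < i → t i j = 0) (ht' : ∀ i, t i i ≠ 0) :
    lm (unip B) t = glue (lm (unip (fun i j => B i.succ j.succ : X s)) (lr t))
      (t 0 0 • fun i => B i.succ 0) (t 0) := by
  funext i
  refine Fin.cases ?_ (fun i => ?_) i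
  · funext j
    show ∑ k, unip B 0 k * t k j = t 0 j
    rw [Finset.sum_eq_single 0]
    · rw [KWit_unip_zero, if_pos rfl, one_mul]
    · intro k _ hk
      rw [KWit_unip_zero, if_neg (Ne.symm hk), zero_mul]
    · simp
  · funext j
    show ∑ k, unip B i.succ k * t k j = _
    rw [Fin.sum_univ_succ, KWit_unip_col]
    simp only [KWit_unip_succ]
    refine Fin.cases ?_ (fun j => ?_) j
    · show _ = t 0 0 * B i.succ 0
      rw [Finset.sum_eq_zero fun k _ => by rw [ht k.succ 0 (Fin.succ_pos k), mul_zero], add_zero,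
        mul_comm]
    · show _ = (∑ k, unip (fun i j => B i.succ j.succ : X s) i k * t k.succ j.succ) +
        t 0 0 * B i.succ 0 * t 0 j.succ / t 0 0
      have h0 := ht' 0
      have e1 : t 0 0 * B i.succ 0 * t 0 j.succ / t 0 0 = B i.succ 0 * t 0 j.succ := by
        field_simp
      rw [e1, add_comm]

theorem KWit_measurable_lm {n : ℕ} (t : X n) : Measurable fun B : X n => lm (unip B) t := by
  refine measurable_pi_iff.2 fun i => measurable_pi_iff.2 fun j => ?_
  unfold lm
  refine Finset.measurable_sum _ fun l _ => Measurable.mul ?_ measurable_const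
  unfold unip
  simp only [Matrix.of_apply]
  split_ifs
  · exact measurable_const
  · fun_prop
  · exact measurable_const

theorem KWit_main : ∀ (n : ℕ) {φ : X n → ℂ} (_ : Measurable φ) {C : ℝ} (_ : ∀ g, ‖φ g‖ ≤ C)
    (m : ℕ → ℤ) {t : X n} (_ : ∀ i j : Fin n, j < i → t i j = 0) (_ : ∀ i, t i i ≠ 0),
    Wh n φ m t = ∫ B, Complex.exp (-(2 * Real.pi * Complex.I * KWit_S m B)) * φ (lm (unip B) t)
      ∂(FCus_P2 n n) := by
  intro n
  induction n with
  | zero =>
    intro φ hφ C hC m t ht ht'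
    have h1 : ∀ B : X 0, Complex.exp (-(2 * Real.pi * Complex.I * KWit_S m B)) *
        φ (lm (unip B) t) = φ t := by
      intro B
      have e1 : KWit_S m B = 0 := rfl
      have e2 : lm (unip B) t = t := by
        funext i
        exact i.elim0
      rw [e1, e2, mul_zero, neg_zero, Complex.exp_zero, one_mul]
    simp only [h1, integral_const, probReal_univ, one_smul]
    rfl
  | succ s ih =>
    intro φ hφ C hC m t ht ht'
    have hC0 : 0 ≤ C := (norm_nonneg _).trans (hC t)
    have e0 : Wh (s + 1) φ m t = Wh s (coef (E s (m 0)) φ (t 0)) (fun i => m (i + 1)) (lr t) := rfl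
    have hmc : Measurable (coef (E s (m 0)) φ (t 0)) :=
      (measurable_coef hφ (E s (m 0))).comp (measurable_const.prodMk measurable_id)
    have htl : ∀ i j : Fin s, j < i → lr t i j = 0 := fun i j hij =>
      ht i.succ j.succ (Fin.succ_lt_succ_iff.2 hij)
    have htl' : ∀ i, lr t i i ≠ 0 := fun i => ht' i.succ
    rw [e0, ih hmc (fun h => norm_coef_le hC0 hC _ _ h) (fun i => m (i + 1)) htl htl']
    obtain ⟨G, hG⟩ : ∃ G : (Fin s → ℝ) → X s → ℂ, G = fun θ B =>
      Complex.exp (-(2 * Real.pi * Complex.I * KWit_S (fun i => m (i + 1)) B)) *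
        (e (-(∑ i, (E s (m 0) i : ℝ) * θ i)) *
          φ (glue (lm (unip B) (lr t)) (t 0 0 • θ) (t 0))) := ⟨_, rfl⟩
    have hGm : Measurable fun q : (Fin s → ℝ) × X s => G q.1 q.2 := by
      rw [hG]
      refine Measurable.mul ?_ (Measurable.mul ?_ ?_)
      · exact Complex.measurable_exp.comp
          (((KWit_S_measurable _).comp measurable_snd).const_mul _).neg
      · unfold e
        fun_prop
      · refine hφ.comp ?_
        have h2 : Measurable fun q : (Fin s → ℝ) × X s =>
            (((lm (unip q.2) (lr t), t 0 0 • q.1), t 0) :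
              (X s × (Fin s → ℝ)) × (Fin (s + 1) → ℝ)) := by
          refine Measurable.prodMk (Measurable.prodMk ?_ ?_) measurable_const
          · exact (KWit_measurable_lm (lr t)).comp measurable_snd
          · exact measurable_fst.const_smul (t 0 0)
        exact measurable_glue.comp h2
    have hne : ∀ x : ℝ, ‖e x‖ = 1 := by
      intro x
      unfold e
      rw [show (2 * Real.pi * Complex.I * (x : ℂ) : ℂ) =
        ((2 * Real.pi * x : ℝ) : ℂ) * Complex.I by push_cast; ring]
      exact Complex.norm_exp_ofReal_mul_I _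
    have hGb : ∀ θ B, ‖G θ B‖ ≤ C := by
      intro θ B
      rw [hG]
      show ‖Complex.exp (-(2 * Real.pi * Complex.I * KWit_S (fun i => m (i + 1)) B)) *
        (e (-(∑ i, (E s (m 0) i : ℝ) * θ i)) *
          φ (glue (lm (unip B) (lr t)) (t 0 0 • θ) (t 0)))‖ ≤ C
      rw [norm_mul, norm_mul, KWit_norm, hne, one_mul, one_mul]
      exact hC _
    have h1 : ∀ B : X s, Complex.exp (-(2 * Real.pi * Complex.I *
        KWit_S (fun i => m (i + 1)) B)) * coef (E s (m 0)) φ (t 0) (lm (unip B) (lr t)) =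
        ∫ θ, G θ B ∂(FCus_P1 s) := by
      intro B
      rw [hG]
      unfold coef
      rw [FCus_restrict_P1, ← integral_const_mul]
    have hGm' : Measurable fun q : X s × (Fin s → ℝ) => G q.2 q.1 :=
      hGm.comp (measurable_snd.prodMk measurable_fst)
    have h2 := FCus_integral_swap_bdd (μ := FCus_P2 s s) (ν := FCus_P1 s)
      (G := fun B θ => G θ B) hGm' (fun B θ => hGb θ B)
    have h3 := FCus_integral_split hGm hGb
    simp only [h1]
    refine h2.trans (h3.symm.trans ?_)
    refine integral_congr_ae (Filter.Eventually.of_forall fun B => ?_)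
    show G (fun i => B i.succ 0) (fun i j => B i.succ j.succ) =
      Complex.exp (-(2 * Real.pi * Complex.I * KWit_S m B)) * φ (lm (unip B) t)
    rw [KWit_glue B ht ht', KWit_S_succ, hG]
    show Complex.exp (-(2 * Real.pi * Complex.I * KWit_S (fun i => m (i + 1))
        (fun i j => B i.succ j.succ : X s))) *
        (e (-(∑ i, (E s (m 0) i : ℝ) * B i.succ 0)) * _) = _
    rw [← mul_assoc]
    congr 1
    unfold e
    rw [← Complex.exp_add]
    congr 1
    push_cast
    ring

/-- The explicit formula. -/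
theorem Wh_explicit {n : ℕ} {φ : X n → ℂ} (hφ : Measurable φ) {C : ℝ} (hC : ∀ g, ‖φ g‖ ≤ C)
    (m : ℕ → ℤ) {t : X n} (ht : ∀ i j : Fin n, j < i → t i j = 0) (ht' : ∀ i, t i i ≠ 0) :
    Wh n φ m t = ∫ B in Set.Icc (0 : Fin n → Fin n → ℝ) 1,
      Complex.exp (-(2 * Real.pi * Complex.I * ∑ i : Fin n, ∑ j : Fin n,
        if (i : ℕ) = (j : ℕ) + 1 then (m (j : ℕ) : ℂ) * (B i j : ℂ) else 0)) *
        φ (lm (unip B) t) := by
  rw [FCus_restrict_P2]
  exact KWit_main n hφ hC m ht ht'

theorem KWit_det_unip {n : ℕ} (B : X n) : (unip B).det = 1 := by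
  rw [Matrix.det_of_isLowerTriangular]
  · refine Finset.prod_eq_one fun i _ => ?_
    simp [unip]
  · intro i j hij
    have hij' : i < j := hij
    unfold unip
    rw [Matrix.of_apply, if_neg hij'.ne, if_neg (not_lt.2 hij'.le)]

theorem Wh_tof {n : ℕ} {f : Matrix (Fin n) (Fin n) ℝ → ℂ} (hf : Measurable (tof f)) {C : ℝ}
    (hC : ∀ g, ‖tof f g‖ ≤ C) (m : ℕ → ℤ) {t : X n} (ht : ∀ i j : Fin n, j < i → t i j = 0)
    (ht' : ∀ i, t i i ≠ 0) :
    Wh n (tof f) m t = if 0 < dt t then whittaker f m (Matrix.of t) else 0 := by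
  rw [Wh_explicit hf hC m ht ht']
  have hd : ∀ B : X n, dt (lm (unip B) t) = dt t := by
    intro B
    rw [dt_lm, KWit_det_unip, one_mul]
  by_cases h : 0 < dt t
  · rw [if_pos h]
    unfold whittaker
    have h1 : ∀ B : X n, tof f (lm (unip B) t) = f (unip B * Matrix.of t) := by
      intro B
      have hg2 : 0 < dt (lm (unip B) t) := by rwa [hd]
      rw [QExt_pos f hg2, lm_eq]
    simp only [h1]
  · rw [if_neg h]
    have h1 : ∀ B : X n, tof f (lm (unip B) t) = 0 := by
      intro B
      refine QExt_neg f ?_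
      rwa [hd]
    simp only [h1, mul_zero, integral_zero]

theorem wh_eq {n : ℕ} {f f' : Matrix (Fin n) (Fin n) ℝ → ℂ} (hf : Measurable (tof f))
    (hf' : Measurable (tof f')) {C : ℝ} (hC : ∀ g, ‖tof f g‖ ≤ C) (hC' : ∀ g, ‖tof f' g‖ ≤ C)
    {m : ℕ → ℤ} (h : ∀ g, 0 < g.det → whittaker f' m g = whittaker f m g) :
    ∀ᵐ t ∂(fl n), Wh n (tof f') m t = Wh n (tof f) m t := by
  filter_upwards [ae_upper n, ae_diag n] with t ht ht'
  rw [Wh_tof hf hC m ht ht', Wh_tof hf' hC' m ht ht']
  by_cases h0 : 0 < dt t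
  · rw [if_pos h0, if_pos h0]
    exact h _ h0
  · rw [if_neg h0, if_neg h0]

end Pool.Agent.GL74
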