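import Pool.Agent.W_7742p_h74.KFa1
import Pool.Agent.W_7742p_h74.KAsy
import Pool.Agent.W_7742p_h74.KPol
import Pool.Agent.W_7742p_h74.KWit

/-! # Families of cusp forms

* `family_pair`: the characters agree: by `adj_rel` (UAdj, the coefficient for `k = n`) and
  `hdet` `conj (χ σ p) = σ (det A p) = τ (det A p) = conj (χ τ p)` for all good `p` (up to the sign
  conventions: `(-1)^n * (charpoly).coeff 0 = det`), use `char_ext` (Fam).  Apply `pairRS` (KPol)
  with `B p = (π.A p).map σ` (`Matrix.charpoly_map`); if `coeff i` differs then `i < n`, `k = n - i`.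
  The condition `hW` is `wh_eq` (KWit) and the last condition of `IsCuspidalFamily` (`ext m`, `m`
  nonzero without good prime factors).
* `family_asy`: `PairRS.asy`, `div_single`, `div_pair`; `‖det‖ = 1` by `norm_det` (LBad) with
  `isHeckeForm` (QRS).
* `exists_coeff`: if `σ` and `τ` agree on all coefficients of the characteristic polynomials then
  `σ = τ` by `GeneratedByCoeffs` (cf. `eq_of_agree`, used in the proof of `isBoundedFamily`, Fam.lean).
* `det_root`: `σ (det A p) = conj (χ σ p)` is a root of unity and `σ` is injective.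
* `family_bounded`: `isBounded_of_isCuspidal` (Fam) and `‖exp w‖ = exp (re w)`; by `family_asy`
  `re S₃ ≤ S₁ - L + C ≤ 2 C`; `L2 σ τ` is the exponential of the series with the terms
  `coeff2 σ τ ... = conj` of the terms of `S₃` (`tin_eq`). -/

set_option autoImplicit false

noncomputable section

namespace Pool.Agent.H74V

open Filter Topology ComplexConjugate Pool.Agent.GL74 Pool.Agent.GLForm74
open Pool.Agent.H74E (pk)

namespace SatakeSystem

variable {K : Type} [Field K] [NumberField K] {n : ℕ} {π : SatakeSystem K n}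

/-- The determinants of the Satake classes are the values of the conjugate character. -/
theorem KFam_det (hn : 2 ≤ n) {σ : K →+* ℂ} {χ : DirichletCharacter ℂ π.level}
    {f : Matrix (Fin n) (Fin n) ℝ → ℂ} (hf : GLForm74.IsCuspForm π.level χ f)
    (hne : ∃ g, 0 < g.det ∧ f g ≠ 0)
    (he : ∀ p : ℕ, p.Prime → ¬ p ∣ π.level → ∀ k : ℕ, 1 ≤ k → k ≤ n → ∀ g, 0 < g.det →
        GLForm74.hecke χ p k f g = (Real.sqrt p : ℂ) ^ (k * (n - k)) *
          ((-1) ^ k * ((π.A p).charpoly.map σ).coeff (n - k)) * f g) {p : ℕ} (hp : π.Good p) :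
    σ (π.A p).det = conj (χ p) := by
  obtain ⟨s, rfl⟩ : ∃ s, n = s + 2 := ⟨n - 2, by omega⟩
  have h1 := (adj_rel π.level_pos hf hne hp.1 hp.2
      (fun k => (-1) ^ k * ((π.A p).charpoly.map σ).coeff (s + 2 - k)) (he p hp.1 hp.2)).1
  simp only [Nat.sub_self, Polynomial.coeff_map] at h1
  rw [← h1, Matrix.det_eq_sign_charpoly_coeff, Fintype.card_fin, map_mul, map_pow, map_neg,
    map_one]

theorem KFam_unit {p : ℕ} (hp : π.Good p) : ∃ u : (ZMod π.level)ˣ, (u : ZMod π.level) = (p : ℕ) := by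
  have hu : IsUnit ((p : ℕ) : ZMod π.level) := (ZMod.isUnit_iff_coprime p _).2
    ((Nat.Prime.coprime_iff_not_dvd hp.1).2 hp.2)
  obtain ⟨u, hu⟩ := hu
  exact ⟨u, hu⟩

theorem KFam_norm {χ : DirichletCharacter ℂ π.level} {p : ℕ} (hp : π.Good p) :
    ‖conj (χ p)‖ = 1 := by
  obtain ⟨u, hu⟩ := KFam_unit hp
  rw [← hu, Complex.norm_conj]
  exact DirichletCharacter.unit_norm_eq_one χ u

theorem det_root (hn : 2 ≤ n) (h : π.IsCuspidalFamily) {p : ℕ} (hp : π.Good p) :
    ∃ k : ℕ, 0 < k ∧ (π.A p).det ^ k = 1 := by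
  obtain ⟨χ, f, h, -⟩ := h
  obtain ⟨σ⟩ : Nonempty (K →+* ℂ) := inferInstance
  obtain ⟨h1, h2, h3⟩ := h σ
  have hd := KFam_det hn h1 h2 h3 hp
  have : NeZero π.level := ⟨π.level_pos.ne'⟩
  obtain ⟨u, hu⟩ := KFam_unit hp
  refine ⟨Fintype.card (ZMod π.level)ˣ, Fintype.card_pos, ?_⟩
  have h4 : (χ σ) p ^ Fintype.card (ZMod π.level)ˣ = 1 := by
    rw [← hu, ← map_pow, ← Units.val_pow_eq_pow_val, pow_card_eq_one, Units.val_one, map_one]
  refine σ.injective ?_
  rw [map_pow, hd, ← map_pow, h4, map_one, map_one]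

theorem exists_coeff (hg : π.GeneratedByCoeffs) {σ τ : K →+* ℂ} (hne : σ ≠ τ) :
    ∃ p i, π.Good p ∧ σ ((π.A p).charpoly.coeff i) ≠ τ ((π.A p).charpoly.coeff i) := by
  by_contra hcon
  push Not at hcon
  refine hne ?_
  ext x
  refine Pool.Agent.H74W.Agr_adjoin
    (S := {x : K | ∃ p i, π.Good p ∧ x = (π.A p).charpoly.coeff i}) ?_ x ?_
  · rintro y ⟨p, i, hp, rfl⟩
    exact hcon p i hp
  · rw [hg]
    trivial

theorem family_pair (hn : 2 ≤ n) (h : π.IsCuspidalFamily) {σ τ : K →+* ℂ}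
    (hdet : ∀ p, π.Good p → σ (π.A p).det = τ (π.A p).det)
    (hne : ∃ p i, π.Good p ∧ σ ((π.A p).charpoly.coeff i) ≠ τ ((π.A p).charpoly.coeff i)) :
    PairRS (π.ts σ) (π.ts τ) := by
  obtain ⟨χ, f, h, hw⟩ := h
  obtain ⟨h1, h2, h3⟩ := h σ
  obtain ⟨g1, g2, g3⟩ := h τ
  have hd1 : ∀ p, π.Good p → σ (π.A p).det = conj (χ σ p) := fun p hp => KFam_det hn h1 h2 h3 hp
  have hd2 : ∀ p, π.Good p → τ (π.A p).det = conj (χ τ p) := fun p hp => KFam_det hn g1 g2 g3 hp
  have hχ : χ σ = χ τ := by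
    refine char_ext π.level_pos fun p hp hpN => ?_
    have h4 := hdet p ⟨hp, hpN⟩
    rw [hd1 p ⟨hp, hpN⟩, hd2 p ⟨hp, hpN⟩] at h4
    exact (starRingEnd ℂ).injective h4
  rw [← hχ] at g1 g3
  obtain ⟨s, rfl⟩ : ∃ s, n = s + 2 := ⟨n - 2, by omega⟩
  have hB : ∀ (ρ : K →+* ℂ) p, ((π.A p).map ρ).charpoly = (π.A p).charpoly.map ρ :=
    fun ρ p => Matrix.charpoly_map _ _
  refine pairRS (B := fun p => (π.A p).map σ) (B' := fun p => (π.A p).map τ) π.level_pos h1 g1 h2
    g2 ?_ ?_ ?_ ?_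
  · intro p hp hpN k hk1 hk2 g hg
    rw [hB]
    exact h3 p hp hpN k hk1 hk2 g hg
  · intro p hp hpN k hk1 hk2 g hg
    rw [hB]
    exact g3 p hp hpN k hk1 hk2 g hg
  · obtain ⟨p, i, hp, hi⟩ := hne
    have hdeg : (π.A p).charpoly.natDegree = s + 2 := by
      rw [Matrix.charpoly_natDegree_eq_dim, Fintype.card_fin]
    have hi2 : i < s + 2 := by
      by_contra hcon
      push Not at hcon
      rcases hcon.eq_or_lt with h5 | h5
      · apply hi
        have h6 : (π.A p).charpoly.coeff i = 1 := by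
          have h7 : i = (π.A p).charpoly.natDegree := by
            rw [hdeg]
            exact h5.symm
          rw [h7]
          exact (Matrix.charpoly_monic _).coeff_natDegree
        rw [h6, map_one, map_one]
      · apply hi
        have h6 : (π.A p).charpoly.coeff i = 0 :=
          Polynomial.coeff_eq_zero_of_natDegree_lt (by rw [hdeg]; exact h5)
        rw [h6, map_zero, map_zero]
    refine ⟨p, hp.1, hp.2, s + 2 - i, by omega, by omega, ?_⟩
    have h7 : s + 2 - (s + 2 - i) = i := by omega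
    rw [h7, hB, hB, Polynomial.coeff_map, Polynomial.coeff_map]
    exact hi
  · intro m hm
    have b1 := isP_tof h1
    have b2 := isP_tof g1
    obtain ⟨C1, hC1⟩ := b1.bdd
    obtain ⟨C2, hC2⟩ := b2.bdd
    refine wh_eq (C := max C1 C2) b1.meas b2.meas (fun g => (hC1 g).trans (le_max_left _ _))
      (fun g => (hC2 g).trans (le_max_right _ _)) (fun g hg => ?_)
    refine hw τ σ _ (fun j hj => ?_) g hg
    have hj' : j < s + 1 := by omega
    have e1 : ext m j = m ⟨j, hj'⟩ := by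
      unfold ext
      rw [dif_pos hj']
    rw [e1]
    refine ⟨(hm _).1, fun p hp hpm => ?_⟩
    by_contra hcon
    exact (hm ⟨j, hj'⟩).2 p ⟨hp, hcon⟩ hpm

theorem family_asy (hn : 2 ≤ n) (h : π.IsCuspidalFamily) {σ τ : K →+* ℂ}
    (hdet : ∀ p, π.Good p → σ (π.A p).det = τ (π.A p).det)
    (hne : ∃ p i, π.Good p ∧ σ ((π.A p).charpoly.coeff i) ≠ τ ((π.A p).charpoly.coeff i)) :
    PairAsy (π.ts σ) (π.ts τ) := by
  have hP := family_pair hn h hdet hne
  obtain ⟨χ, f, h, hw⟩ := h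
  have hnorm : ∀ (ρ : K →+* ℂ) (p : ℕ), p.Prime → ¬ p ∣ π.level → ‖((π.A p).map ρ).det‖ = 1 := by
    intro ρ p hp hpN
    obtain ⟨h1, h2, h3⟩ := h ρ
    have h4 := KFam_det hn h1 h2 h3 (p := p) ⟨hp, hpN⟩
    have h5 : ((π.A p).map ρ).det = ρ (π.A p).det := (RingHom.map_det ρ (π.A p)).symm
    rw [h5, h4]
    exact KFam_norm ⟨hp, hpN⟩
  exact hP.asy (div_single (by omega) π.level_pos (hnorm σ))
    (div_single (by omega) π.level_pos (hnorm τ))
    (div_pair (by omega) π.level_pos (hnorm σ) (hnorm τ))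

theorem family_bounded (hn : 2 ≤ n) (h : π.IsCuspidalFamily) (hg : π.GeneratedByCoeffs) :
    π.IsBoundedFamily := by
  classical
  refine ⟨fun σ => isBounded_of_isCuspidal hn (isCuspidal_of_family h σ), fun σ τ hne hag => ?_⟩
  obtain ⟨C, hC⟩ := family_asy hn h (σ := σ) (τ := τ)
    (fun p hp => hag _ (det_root hn h hp)) (exists_coeff hg hne)
  refine ⟨Real.exp (2 * C), fun s hs hs2 => ?_⟩
  obtain ⟨-, -, c1, -, c3⟩ := hC s hs hs2
  have key : (∑' x : Nat.Primes × ℕ, π.coeff2 σ τ x.1 (x.2 + 1) /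
      (((((x.1 : ℕ) : ℝ) ^ (((x.2 : ℝ) + 1) * s) : ℝ)) : ℂ)) =
      conj (∑' x, π.ts σ x * conj (π.ts τ x) * (pk s x : ℂ)) := by
    rw [Complex.conj_tsum]
    refine tsum_congr fun x => ?_
    have hx0 : (0 : ℝ) < (x.1 : ℕ) := by exact_mod_cast x.1.2.pos
    have h4 : ((x.1 : ℕ) : ℝ) ^ (((x.2 : ℝ) + 1) * s) =
        Real.exp (s * (((x.2 : ℝ) + 1) * Real.log x.1)) := by
      rw [Real.rpow_def_of_pos hx0]
      congr 1
      ring
    by_cases hx : π.Good x.1
    · rw [tin_eq hn h σ hx, tin_eq hn h τ hx, h4]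
      unfold coeff2 Pool.Agent.H74E.pk
      rw [if_pos hx, Real.exp_neg]
      have h5 : ((x.2 : ℝ) : ℂ) + 1 ≠ 0 := by
        have : ((x.2 : ℝ) + 1) ≠ 0 := by positivity
        exact_mod_cast this
      have h6 : ((Real.exp (s * (((x.2 : ℝ) + 1) * Real.log x.1)) : ℝ) : ℂ) ≠ 0 := by
        exact_mod_cast (Real.exp_pos _).ne'
      simp only [map_mul, Complex.conj_conj, Complex.conj_ofReal]
      push_cast at h6 ⊢
      field_simp
    · have h5 : π.ts σ x = 0 := if_neg hx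
      unfold coeff2
      rw [if_neg hx, h5]
      simp
  unfold L2
  rw [key, Complex.norm_exp, Complex.conj_re]
  refine Real.exp_le_exp.2 ?_
  have h6 := (abs_le.1 (Complex.abs_re_le_norm _)).2.trans c3
  rw [Complex.add_re, Complex.sub_re, Complex.ofReal_re, Complex.ofReal_re] at h6
  linarith

end SatakeSystem

end Pool.Agent.H74V
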