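import Mathlib

/-! # The discriminant and the distances of the conjugates

Let `d = [K : ℚ] ≥ 2`, `y ∈ O_K`, `K = ℚ(y)`.
* `disc_ge`: the discriminant of the power basis `1, y, ..., y^{d-1}` is `∏_{σ ≠ τ} (σ y - τ y)` up
  to sign (`Algebra.discr_powerBasis_eq_prod` and its variants), and it is `f² * discr K` with an
  integer `f ≠ 0` (the `y^i` are integral combinations of an integral basis;
  `Algebra.discr_of_matrix_vecMul`, `NumberField.coe_discr`, or
  `Algebra.discr_isIntegral`-type lemmas).  So `∏_{σ ≠ τ} ‖σ y - τ y‖ ≥ |discr K|`, where the product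
  is over the ordered pairs.
* `disc_amgm`: the arithmetic mean of the `d (d - 1)` numbers `‖σ y - τ y‖²` is at least the
  geometric mean, which is `≥ |discr K|^{2 / (d (d - 1))}`. -/

set_option autoImplicit false

noncomputable section

namespace Pool.Agent.H74V

/-- The discriminant of an integral power basis is a nonzero square multiple of the
discriminant. -/
theorem kd_sq {K : Type} [Field K] [NumberField K] {ι : Type} [Fintype ι] [DecidableEq ι]
    (b : Module.Basis ι ℚ K) (hb : ∀ i, IsIntegral ℤ (b i)) :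
    ∃ f : ℤ, f ≠ 0 ∧ Algebra.discr ℚ b = (f : ℚ) ^ 2 * (NumberField.discr K : ℚ) := by
  classical
  let B := NumberField.integralBasis K
  let e : Module.Free.ChooseBasisIndex ℤ (NumberField.RingOfIntegers K) ≃ ι := B.indexEquiv b
  let B' : Module.Basis ι ℚ K := B.reindex e
  have h1 : Algebra.discr ℚ B' = (NumberField.discr K : ℚ) := by
    rw [NumberField.coe_discr, ← Algebra.discr_reindex ℚ (NumberField.integralBasis K) e,
      ← Module.Basis.coe_reindex]
  have h2 : ∀ i j, ∃ z : ℤ, B'.toMatrix b i j = (z : ℚ) := by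
    intro i j
    refine ⟨(NumberField.RingOfIntegers.basis K).repr ⟨b j, hb j⟩ (e.symm i), ?_⟩
    rw [Module.Basis.toMatrix_apply, Module.Basis.repr_reindex_apply]
    exact NumberField.integralBasis_repr_apply K ⟨b j, hb j⟩ (e.symm i)
  choose z hz using h2
  have h3 : B'.toMatrix b = (Matrix.of z).map (Int.castRingHom ℚ) := by
    ext i j
    rw [hz i j]
    rfl
  refine ⟨(Matrix.of z).det, ?_, ?_⟩
  · intro h0
    have h4 : (B'.toMatrix b).det = 0 := by
      rw [h3, ← RingHom.mapMatrix_apply, ← RingHom.map_det, h0, map_zero]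
    have h5 : IsUnit (B'.toMatrix b).det := by
      have := Module.Basis.invertibleToMatrix B' b
      exact (Matrix.isUnit_iff_isUnit_det _).1 (isUnit_of_invertible _)
    rw [h4] at h5
    exact not_isUnit_zero h5
  · have h6 := Algebra.discr_of_matrix_vecMul (A := ℚ) (⇑B' : ι → K) (B'.toMatrix b)
    rw [Module.Basis.toMatrix_map_vecMul, h1] at h6
    rw [h6, h3, ← RingHom.mapMatrix_apply, ← RingHom.map_det]
    rfl

open Classical in
theorem disc_ge {K : Type} [Field K] [NumberField K] {y : K} (hy : IsIntegral ℤ y)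
    (hgen : IntermediateField.adjoin ℚ {y} = ⊤) :
    |(NumberField.discr K : ℝ)| ≤
      ∏ q ∈ (Finset.univ : Finset ((K →+* ℂ) × (K →+* ℂ))).filter (fun q => q.1 ≠ q.2),
        ‖q.1 y - q.2 y‖ := by
  have hyQ : IsIntegral ℚ y := hy.tower_top
  have htop : Algebra.adjoin ℚ {y} = ⊤ := by
    rw [← IntermediateField.adjoin_simple_toSubalgebra_of_isAlgebraic hyQ.isAlgebraic, hgen]
    rfl
  let pb : PowerBasis ℚ K := PowerBasis.ofAdjoinEqTop hyQ htop
  have hgen' : pb.gen = y := PowerBasis.ofAdjoinEqTop_gen hyQ htop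
  have hint : ∀ i, IsIntegral ℤ (pb.basis i) := by
    intro i
    rw [PowerBasis.coe_basis, hgen']
    exact hy.pow _
  obtain ⟨f, hf, hdis⟩ := kd_sq pb.basis hint
  have hcard : Fintype.card (Fin pb.dim) = Fintype.card (K →ₐ[ℚ] ℂ) := by
    rw [Fintype.card_fin, AlgHom.card, pb.finrank]
  let e : Fin pb.dim ≃ (K →ₐ[ℚ] ℂ) := Fintype.equivOfCardEq hcard
  have hprod := Algebra.discr_powerBasis_eq_prod' ℚ ℂ pb e
  have h1 : ‖algebraMap ℚ ℂ (Algebra.discr ℚ pb.basis)‖ =
      ∏ i : Fin pb.dim, ∏ j ∈ Finset.Ioi i, (‖e j y - e i y‖ * ‖e i y - e j y‖) := by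
    rw [hprod, norm_prod, hgen']
    refine Finset.prod_congr rfl fun i _ => ?_
    rw [norm_prod]
    refine Finset.prod_congr rfl fun j _ => ?_
    rw [norm_neg, norm_mul]
  rw [Finset.prod_prod_Ioi_mul_eq_prod_prod_off_diag (fun i j => ‖e i y - e j y‖)] at h1
  have h2 : ∏ q ∈ (Finset.univ : Finset ((K →+* ℂ) × (K →+* ℂ))).filter (fun q => q.1 ≠ q.2),
        ‖q.1 y - q.2 y‖ = ‖algebraMap ℚ ℂ (Algebra.discr ℚ pb.basis)‖ := by
    rw [h1, Finset.prod_filter, Fintype.prod_prod_type]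
    let E : Fin pb.dim ≃ (K →+* ℂ) := e.trans (RingHom.equivRatAlgHom K ℂ).symm
    have hE : ∀ i, (E i) y = e i y := fun i => rfl
    rw [← Fintype.prod_equiv E (fun i => ∏ τ : K →+* ℂ, if E i ≠ τ then ‖(E i) y - τ y‖ else 1)
      _ (fun i => rfl)]
    refine Finset.prod_congr rfl fun i _ => ?_
    rw [← Fintype.prod_equiv E (fun j => if E i ≠ E j then ‖(E i) y - (E j) y‖ else 1)
      _ (fun i => rfl)]
    have hc : ({i}ᶜ : Finset (Fin pb.dim)) = Finset.univ.filter (fun j => i ≠ j) := by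
      ext j
      simp [eq_comm]
    rw [hc, Finset.prod_filter]
    refine Finset.prod_congr rfl fun j _ => ?_
    simp only [ne_eq, E.injective.eq_iff, hE, norm_sub_rev (e j y)]
  rw [h2, hdis]
  have h3 : (1 : ℝ) ≤ (f : ℝ) ^ 2 := by
    have : (1 : ℤ) ≤ f ^ 2 := by
      have := sq_pos_of_ne_zero hf
      omega
    exact_mod_cast this
  have h4 : ‖algebraMap ℚ ℂ ((f : ℚ) ^ 2 * (NumberField.discr K : ℚ))‖ =
      (f : ℝ) ^ 2 * |(NumberField.discr K : ℝ)| := by
    rw [map_mul, norm_mul, map_pow, norm_pow]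
    simp
  rw [h4]
  nlinarith [abs_nonneg (NumberField.discr K : ℝ)]

theorem disc_amgm {K : Type} [Field K] [NumberField K] (hd : 2 ≤ Module.finrank ℚ K) {y : K}
    (hy : IsIntegral ℤ y) (hgen : IntermediateField.adjoin ℚ {y} = ⊤) :
    (Module.finrank ℚ K : ℝ) * ((Module.finrank ℚ K : ℝ) - 1) * |(NumberField.discr K : ℝ)| ^
        (2 / ((Module.finrank ℚ K : ℝ) * ((Module.finrank ℚ K : ℝ) - 1))) ≤
      ∑ σ : K →+* ℂ, ∑ τ : K →+* ℂ, ‖σ y - τ y‖ ^ 2 := by
  classical
  have hge := disc_ge hy hgen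
  set d : ℝ := (Module.finrank ℚ K : ℝ) with hdd
  have hd2 : (2 : ℝ) ≤ d := by rw [hdd]; exact_mod_cast hd
  set P := (Finset.univ : Finset ((K →+* ℂ) × (K →+* ℂ))).filter (fun q => q.1 ≠ q.2) with hP
  have hN0 : 0 < d * (d - 1) := by nlinarith
  have hcard : (P.card : ℝ) = d * (d - 1) := by
    have h1 : P = (Finset.univ : Finset (K →+* ℂ)).offDiag := by
      ext q
      simp [hP]
    rw [h1, Finset.offDiag_card, Finset.card_univ, NumberField.Embeddings.card, hdd]
    rw [Nat.cast_sub (Nat.le_mul_self _)]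
    push_cast
    ring
  have hsum : ∑ σ : K →+* ℂ, ∑ τ : K →+* ℂ, ‖σ y - τ y‖ ^ 2 = ∑ q ∈ P, ‖q.1 y - q.2 y‖ ^ 2 := by
    rw [hP, Finset.sum_filter, Fintype.sum_prod_type]
    refine Finset.sum_congr rfl fun σ _ => Finset.sum_congr rfl fun τ _ => ?_
    by_cases h : σ = τ
    · simp [h]
    · simp [h]
  have hgm := Real.geom_mean_le_arith_mean_weighted P (fun _ => 1 / (d * (d - 1)))
    (fun q => ‖q.1 y - q.2 y‖ ^ 2) (fun _ _ => by positivity)
    (by rw [Finset.sum_const, nsmul_eq_mul, hcard, mul_one_div_cancel hN0.ne'])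
    (fun _ _ => by positivity)
  have h2 : |(NumberField.discr K : ℝ)| ^ (2 / (d * (d - 1))) ≤
      ∏ q ∈ P, (‖q.1 y - q.2 y‖ ^ 2) ^ (1 / (d * (d - 1))) := by
    rw [Real.finsetProd_rpow _ _ (fun _ _ => by positivity), Finset.prod_pow]
    have h3 : (2 : ℝ) / (d * (d - 1)) = 2 * (1 / (d * (d - 1))) := by ring
    rw [h3, Real.rpow_mul (abs_nonneg _)]
    refine Real.rpow_le_rpow (by positivity) ?_ (by positivity)
    have h4 : |(NumberField.discr K : ℝ)| ^ (2 : ℝ) = |(NumberField.discr K : ℝ)| ^ 2 := by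
      rw [← Real.rpow_natCast]
      norm_num
    rw [h4]
    exact pow_le_pow_left₀ (abs_nonneg _) hge 2
  have h5 := h2.trans hgm
  rw [← Finset.mul_sum, ← hsum] at h5
  calc d * (d - 1) * |(NumberField.discr K : ℝ)| ^ (2 / (d * (d - 1)))
      ≤ d * (d - 1) * (1 / (d * (d - 1)) * ∑ σ : K →+* ℂ, ∑ τ : K →+* ℂ, ‖σ y - τ y‖ ^ 2) :=
        mul_le_mul_of_nonneg_left h5 hN0.le
    _ = ∑ σ : K →+* ℂ, ∑ τ : K →+* ℂ, ‖σ y - τ y‖ ^ 2 := by
        rw [← mul_assoc, mul_one_div_cancel hN0.ne', one_mul]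

end Pool.Agent.H74V
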