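import Pool.Agent.W_7742p_h74.KBes
import Pool.Agent.W_7742p_h74.KAmg
import Pool.Agent.W_7742p_h74.KDsc

/-! # How often does the trace generate the field

`bessel` (KBes) for `a σ₁ = 1`, `a σ₂ = -1`: `∑_p ‖σ₁ (tr A p) - σ₂ (tr A p)‖² p^{-s} ≤ 2 L + C`,
where all determinants are rational.  Sum over the `d (d - 1)` pairs `σ₁ ≠ σ₂` and use `disc_amgm`
(KDsc) for the `p` with `K = ℚ(tr A p)` (the traces are integral: the coefficients of the
characteristic polynomials are); `dens_of_le` (KAmg). -/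

set_option autoImplicit false

noncomputable section

namespace Pool.Agent.H74V

open Filter Topology ComplexConjugate Pool.Agent.GL74 Pool.Agent.GLForm74

namespace SatakeSystem

variable {K : Type} [Field K] [NumberField K] {n : ℕ} {π : SatakeSystem K n}

theorem trace_isIntegral (hn : 2 ≤ n) {p : ℕ} (hp : π.Good p) : IsIntegral ℤ (π.A p).trace := by
  have : Nonempty (Fin n) := ⟨⟨0, by omega⟩⟩
  rw [Matrix.trace_eq_neg_charpoly_coeff]
  exact (π.integral p hp.1 hp.2 _).neg

open Classical in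
/-- The second moments of the differences of two conjugates. -/
theorem pair_moment (hn : 2 ≤ n) (h : π.IsCuspidalFamily) (hg : π.GeneratedByCoeffs)
    (hdet : ∀ p, π.Good p → (π.A p).det ∈ Set.range (algebraMap ℚ K)) (σ τ : K →+* ℂ) :
    ∃ C : ℝ, ∀ s : ℝ, 1 < s → s ≤ 2 →
      (Summable fun p : Nat.Primes => (if π.Good p then
        ‖σ (π.A p).trace - τ (π.A p).trace‖ ^ 2 else 0) * ((p : ℕ) : ℝ) ^ (-s)) ∧
      ∑' p : Nat.Primes, (if π.Good p then ‖σ (π.A p).trace - τ (π.A p).trace‖ ^ 2 else 0) *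
        ((p : ℕ) : ℝ) ^ (-s) ≤ (if σ = τ then 0 else 2) * Real.log (1 / (s - 1)) + C := by
  by_cases hst : σ = τ
  · subst hst
    refine ⟨0, fun s hs hs2 => ?_⟩
    have e : (fun p : Nat.Primes => (if π.Good p then
        ‖σ (π.A p).trace - σ (π.A p).trace‖ ^ 2 else 0) * ((p : ℕ) : ℝ) ^ (-s)) = fun _ => 0 := by
      funext p
      simp
    rw [e]
    exact ⟨summable_zero, by simp⟩
  · obtain ⟨C, hC⟩ := bessel hn h hg (fun ρ => if ρ = σ then 1 else if ρ = τ then -1 else 0)
      (by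
        intro ρ₁ ρ₂ _ _ p hp
        obtain ⟨q, hq⟩ := hdet p hp
        rw [← hq]
        simp)
    refine ⟨C, fun s hs hs2 => ?_⟩
    have e1 : ∀ x : K, ∑ ρ : K →+* ℂ, (if ρ = σ then (1 : ℂ) else if ρ = τ then -1 else 0) * ρ x =
        σ x - τ x := by
      intro x
      have e2 : ∀ ρ : K →+* ℂ, (if ρ = σ then (1 : ℂ) else if ρ = τ then -1 else 0) * ρ x =
          (if ρ = σ then ρ x else 0) - (if ρ = τ then ρ x else 0) := by
        intro ρ
        by_cases h1 : ρ = σ
        · subst h1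
          simp [hst]
        · by_cases h2 : ρ = τ
          · subst h2
            simp [h1]
          · simp [h1, h2]
      rw [Finset.sum_congr rfl fun ρ _ => e2 ρ, Finset.sum_sub_distrib]
      simp
    have e3 : ∑ ρ : K →+* ℂ, ‖(if ρ = σ then (1 : ℂ) else if ρ = τ then -1 else 0)‖ ^ 2 = 2 := by
      have e2 : ∀ ρ : K →+* ℂ, ‖(if ρ = σ then (1 : ℂ) else if ρ = τ then -1 else 0)‖ ^ 2 =
          (if ρ = σ then 1 else 0) + (if ρ = τ then (1 : ℝ) else 0) := by
        intro ρ
        by_cases h1 : ρ = σ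
        · subst h1
          simp [hst]
        · by_cases h2 : ρ = τ
          · subst h2
            simp [h1]
          · simp [h1, h2]
      rw [Finset.sum_congr rfl fun ρ _ => e2 ρ, Finset.sum_add_distrib]
      simp
      norm_num
    have h1 := hC s hs hs2
    simp only [e1, e3] at h1
    rw [if_neg hst]
    exact h1

theorem density_gen (hn : 2 ≤ n) (h : π.IsCuspidalFamily) (hg : π.GeneratedByCoeffs)
    (hdet : ∀ p, π.Good p → (π.A p).det ∈ Set.range (algebraMap ℚ K))
    (hd : 2 ≤ Module.finrank ℚ K) :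
    DensityLE (fun p => π.Good p ∧ IntermediateField.adjoin ℚ {(π.A p).trace} = ⊤)
      (2 * |(NumberField.discr K : ℝ)| ^
        (-(2 / ((Module.finrank ℚ K : ℝ) * ((Module.finrank ℚ K : ℝ) - 1))))) := by
  classical
  set d : ℝ := (Module.finrank ℚ K : ℝ) with hdd
  have hd2 : (2 : ℝ) ≤ d := by rw [hdd]; exact_mod_cast hd
  have hN0 : 0 < d * (d - 1) := by nlinarith
  have hD0 : 0 < |(NumberField.discr K : ℝ)| := by
    rw [abs_pos]
    exact_mod_cast NumberField.discr_ne_zero K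
  set D : ℝ := |(NumberField.discr K : ℝ)| with hDD
  set e : ℝ := 2 / (d * (d - 1)) with hee
  have hDe : 0 < D ^ e := Real.rpow_pos_of_pos hD0 e
  have hDe' : D ^ (-e) * D ^ e = 1 := by
    rw [← Real.rpow_add hD0]
    simp
  choose C hC using fun σ τ : K →+* ℂ => pair_moment hn h hg hdet σ τ
  set P : ℕ → Prop := fun p => π.Good p ∧ IntermediateField.adjoin ℚ {(π.A p).trace} = ⊤ with hP
  refine dens_of_le (C := (∑ σ, ∑ τ, C σ τ) / (d * (d - 1) * D ^ e)) (by positivity)
    fun s hs hs2 => ?_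
  set F : (K →+* ℂ) → (K →+* ℂ) → Nat.Primes → ℝ := fun σ τ p => (if π.Good p then
        ‖σ (π.A p).trace - τ (π.A p).trace‖ ^ 2 else 0) * ((p : ℕ) : ℝ) ^ (-s) with hF
  have hsum : ∀ σ τ, Summable (F σ τ) := fun σ τ => (hC σ τ s hs hs2).1
  have hle : ∀ σ τ, ∑' p, F σ τ p ≤ (if σ = τ then 0 else 2) * Real.log (1 / (s - 1)) + C σ τ :=
    fun σ τ => (hC σ τ s hs hs2).2
  have hprim : primeSum P s = ∑' p : Nat.Primes, H74E.SatakeSystem.ind P p *
      ((p : ℕ) : ℝ) ^ (-s) := H74E.SatakeSystem.primeSum_eq P s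
  have hcount : ∑ σ : K →+* ℂ, ∑ τ : K →+* ℂ, (if σ = τ then (0 : ℝ) else 2) =
      2 * (d * (d - 1)) := by
    have e1 : ∀ σ τ : K →+* ℂ, (if σ = τ then (0 : ℝ) else 2) = 2 - (if σ = τ then 2 else 0) := by
      intro σ τ
      by_cases hst : σ = τ
      · simp [hst]
      · simp [hst]
    simp only [e1, Finset.sum_sub_distrib, Finset.sum_const, Finset.card_univ,
      NumberField.Embeddings.card, Finset.sum_ite_eq, Finset.mem_univ, if_true, nsmul_eq_mul]
    rw [← hdd]
    ring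
  have hkey : d * (d - 1) * D ^ e * primeSum P s ≤ ∑ σ, ∑ τ, ∑' p, F σ τ p := by
    have e1 : ∑ σ, ∑ τ, ∑' p, F σ τ p = ∑' p, ∑ σ, ∑ τ, F σ τ p := by
      rw [Summable.tsum_finsetSum fun σ _ => summable_sum fun τ _ => hsum σ τ]
      refine Finset.sum_congr rfl fun σ _ => ?_
      rw [Summable.tsum_finsetSum fun τ _ => hsum σ τ]
    have hS : Summable fun p => ∑ σ, ∑ τ, F σ τ p :=
      summable_sum fun σ _ => summable_sum fun τ _ => hsum σ τ
    rw [e1, hprim, ← tsum_mul_left]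
    have hpw : ∀ p : Nat.Primes, d * (d - 1) * D ^ e * (H74E.SatakeSystem.ind P p *
        ((p : ℕ) : ℝ) ^ (-s)) ≤ ∑ σ, ∑ τ, F σ τ p := by
      intro p
      have hp0 : (0 : ℝ) ≤ ((p : ℕ) : ℝ) ^ (-s) := by positivity
      have hnn : 0 ≤ ∑ σ, ∑ τ, F σ τ p := by
        refine Finset.sum_nonneg fun σ _ => Finset.sum_nonneg fun τ _ => ?_
        rw [hF]
        refine mul_nonneg ?_ hp0
        split_ifs
        · positivity
        · exact le_rfl
      by_cases hpP : P p
      · rw [H74E.SatakeSystem.ind_pos hpP, one_mul]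
        have hgood : π.Good p := hpP.1
        have h1 := disc_amgm hd (trace_isIntegral hn hgood) hpP.2
        have e2 : ∑ σ, ∑ τ, F σ τ p = (∑ σ : K →+* ℂ, ∑ τ : K →+* ℂ,
            ‖σ (π.A p).trace - τ (π.A p).trace‖ ^ 2) * ((p : ℕ) : ℝ) ^ (-s) := by
          rw [Finset.sum_mul]
          refine Finset.sum_congr rfl fun σ _ => ?_
          rw [Finset.sum_mul]
          refine Finset.sum_congr rfl fun τ _ => ?_
          rw [hF]
          simp only [if_pos hgood]
        rw [e2]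
        exact mul_le_mul_of_nonneg_right h1 hp0
      · rw [H74E.SatakeSystem.ind_neg hpP, zero_mul, mul_zero]
        exact hnn
    refine Summable.tsum_le_tsum hpw ?_ hS
    refine Summable.of_nonneg_of_le (fun p => ?_) hpw hS
    have := H74E.SatakeSystem.ind_nonneg P p
    have hd1 : 0 ≤ d - 1 := by linarith
    positivity
  have h2 : ∑ σ, ∑ τ, ∑' p, F σ τ p ≤ 2 * (d * (d - 1)) * Real.log (1 / (s - 1)) +
      ∑ σ, ∑ τ, C σ τ := by
    rw [← hcount, Finset.sum_mul, ← Finset.sum_add_distrib]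
    refine Finset.sum_le_sum fun σ _ => ?_
    rw [Finset.sum_mul, ← Finset.sum_add_distrib]
    exact Finset.sum_le_sum fun τ _ => hle σ τ
  have h3 := hkey.trans h2
  have hpos : 0 < d * (d - 1) * D ^ e := by positivity
  have h4 : primeSum P s ≤ (2 * (d * (d - 1)) * Real.log (1 / (s - 1)) +
      ∑ σ, ∑ τ, C σ τ) / (d * (d - 1) * D ^ e) := by
    rw [le_div_iff₀ hpos]
    linarith
  refine h4.trans (le_of_eq ?_)
  rw [add_div]
  congr 1
  rw [div_eq_iff hpos.ne']
  calc 2 * (d * (d - 1)) * Real.log (1 / (s - 1))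
      = 2 * (D ^ (-e) * D ^ e) * Real.log (1 / (s - 1)) * (d * (d - 1)) := by rw [hDe']; ring
    _ = 2 * D ^ (-e) * Real.log (1 / (s - 1)) * (d * (d - 1) * D ^ e) := by ring

end SatakeSystem

end Pool.Agent.H74V
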