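import Pool.Agent.W_7742p_h74.KEnd
import Pool.Agent.W_7742p_h74.KGen

/-! # Many zeros, for fields without intermediate fields -/

set_option autoImplicit false

noncomputable section

namespace Pool.Agent.H74V

open Filter Topology ComplexConjugate Pool.Agent.GL74 Pool.Agent.GLForm74

namespace SatakeSystem

variable {K : Type} [Field K] [NumberField K] {n : ℕ} {π : SatakeSystem K n}

theorem prim_zero (hn : 2 ≤ n) (h : π.IsCuspidalFamily) (hg : π.GeneratedByCoeffs)
    (hdet : ∀ p, π.Good p → (π.A p).det ∈ Set.range (algebraMap ℚ K))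
    (hd : 2 ≤ Module.finrank ℚ K) (hK : ∀ E : IntermediateField ℚ K, E = ⊥ ∨ E = ⊤) :
    DensityGE (fun p => π.Good p ∧ (π.A p).trace = 0)
      (1 - 1 / (Module.finrank ℚ K : ℝ) - 2 * |(NumberField.discr K : ℝ)| ^
        (-(2 / ((Module.finrank ℚ K : ℝ) * ((Module.finrank ℚ K : ℝ) - 1))))) := by
  have h1 := subfield hn h hg ⊥ (fun p hp => IntermediateField.mem_bot.2 (hdet p hp))
  rw [IntermediateField.finrank_bot'] at h1
  refine dens_ge (P₁ := fun p => π.Good p ∧ (π.A p).trace = 0) π.level_pos (fun p hp hl => ?_) h1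
    (density_gen hn h hg hdet hd)
  by_cases h0 : (π.A p).trace = 0
  · exact Or.inl ⟨⟨hp, hl⟩, h0⟩
  · rcases hK (IntermediateField.adjoin ℚ {(π.A p).trace}) with hE | hE
    · refine Or.inr (Or.inl ⟨⟨hp, hl⟩, h0, ?_⟩)
      rw [← hE]
      exact IntermediateField.mem_adjoin_simple_self ℚ _
    · exact Or.inr (Or.inr ⟨⟨hp, hl⟩, hE⟩)

end SatakeSystem

end Pool.Agent.H74V
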