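import Pool.Agent.W_7742p_h74.KWbe
import Pool.Agent.W_7742p_h74.KPri

/-! The conjugates of the Hecke traces of cusp forms on `GL_n` with integral Satake polynomials. -/

namespace Pool.Agent.Results.MP_7742d9_nt.CoefficientField

open Pool.Agent.H74V

/-- Let `K` be a number field, `n ≥ 2`, `w ≥ 0` and `π` a system of Satake classes `A p` of rank `n`
whose characteristic polynomials are integral over `K` and generate `K`, such that for every embedding
`σ` of `K` the system `p ^ (-w / 2) σ (A p)` is the system of Satake classes of a cusp form on `GL_n`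
over `ℚ`, where the Whittaker coefficients at the primes dividing the level do not depend on `σ`.

(1) If the `a σ` are complex numbers such that all `σ` with `a σ ≠ 0` agree on the determinants
`det A p` then the mean of `|∑ a σ * σ (tr A p)| ^ 2 / p ^ w` is at most `∑ |a σ| ^ 2`.

(2) If the field `E ⊆ K` contains the determinants `det A p` then the mean of the function with the
values `|σ (tr A p)| ^ 2 / p ^ w` if `tr A p ∈ E` and `0` otherwise is at most `1 / [K : E]`, for all
embeddings `σ`.

(3) Let `w = 0`.

(3a) The determinants `det A p` are roots of unity.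

(3b) The lower density of the primes with `tr A p = 0` is at least `2 / 5 (1 - 1 / r)`, where `r` is
the degree of `K` over the field generated by its roots of unity.

(3c) If the field `E ⊆ K` contains the determinants `det A p` then the upper density of the primes
with `0 ≠ tr A p ∈ E` is at most `1 / [K : E]`.

(3d) Suppose that the determinants `det A p` are rational and let `d = [K : ℚ] ≥ 2`.  The upper density
of the primes such that `K` is generated by `tr A p` is at most `2 |discr K| ^ (-2 / (d (d - 1)))`.
If moreover `ℚ` and `K` are the only subfields of `K` (for instance if `d` is a prime number) then the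
lower density of the primes with `tr A p = 0` is at least
`1 - 1 / d - 2 |discr K| ^ (-2 / (d (d - 1)))`. -/
theorem result (K : Type) [Field K] [NumberField K] (n : ℕ) (hn : 2 ≤ n) (w : ℕ)
    (π : SatakeSystem K n) (h : π.IsCuspidalFamilyOfWeight w) (hg : π.GeneratedByCoeffs) :
    (∀ a : (K →+* ℂ) → ℂ, (∀ σ τ, a σ ≠ 0 → a τ ≠ 0 → ∀ p, π.Good p →
        σ (π.A p).det = τ (π.A p).det) →
      π.MeanLE (fun p => ‖∑ σ, a σ * σ (π.A p).trace‖ ^ 2 / (p : ℝ) ^ w) (∑ σ, ‖a σ‖ ^ 2)) ∧
    (∀ E : IntermediateField ℚ K, (∀ p, π.Good p → (π.A p).det ∈ E) → ∀ σ : K →+* ℂ,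
      π.MeanLE (fun p => open Classical in if (π.A p).trace ∈ E then
        ‖σ (π.A p).trace‖ ^ 2 / (p : ℝ) ^ w else 0) (1 / (Module.finrank E K : ℝ))) ∧
    (w = 0 →
      (∀ p, π.Good p → ∃ k : ℕ, 0 < k ∧ (π.A p).det ^ k = 1) ∧
      π.ManyZeros ∧
      (∀ E : IntermediateField ℚ K, (∀ p, π.Good p → (π.A p).det ∈ E) →
        SatakeSystem.DensityLE (fun p => π.Good p ∧ (π.A p).trace ≠ 0 ∧ (π.A p).trace ∈ E)
          (1 / (Module.finrank E K : ℝ))) ∧
      ((∀ p, π.Good p → (π.A p).det ∈ Set.range (algebraMap ℚ K)) → 2 ≤ Module.finrank ℚ K →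
        SatakeSystem.DensityLE
          (fun p => π.Good p ∧ IntermediateField.adjoin ℚ {(π.A p).trace} = ⊤)
          (2 * |(NumberField.discr K : ℝ)| ^
            (-(2 / ((Module.finrank ℚ K : ℝ) * ((Module.finrank ℚ K : ℝ) - 1))))) ∧
        ((∀ E : IntermediateField ℚ K, E = ⊥ ∨ E = ⊤) →
          SatakeSystem.DensityGE (fun p => π.Good p ∧ (π.A p).trace = 0)
            (1 - 1 / (Module.finrank ℚ K : ℝ) - 2 * |(NumberField.discr K : ℝ)| ^
              (-(2 / ((Module.finrank ℚ K : ℝ) * ((Module.finrank ℚ K : ℝ) - 1)))))))) := by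
  refine ⟨fun a ha => SatakeSystem.meanSquare_weight hn h hg a ha,
    fun E hE σ => SatakeSystem.mass_weight hn h hg E hE σ, ?_⟩
  rintro rfl
  have h0 := π.isCuspidalFamily_of_weight_zero h
  exact ⟨fun p hp => SatakeSystem.det_root hn h0 hp,
    π.manyZeros (SatakeSystem.family_bounded hn h0 hg),
    fun E hE => SatakeSystem.subfield hn h0 hg E hE,
    fun hdet hd => ⟨SatakeSystem.density_gen hn h0 hg hdet hd, fun hK =>
      SatakeSystem.prim_zero hn h0 hg hdet hd hK⟩⟩

end Pool.Agent.Results.MP_7742d9_nt.CoefficientField
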