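import Pool.Agent.W_7742p_h74.KDef

/-! # Second moments of linear forms

Let `S_ij = ∑ t_i conj (t_j) pk σ`, `L = log (1 / (σ - 1))`.  Fix `i₀` (if there is one) and write
`S₀ = S_{i₀ i₀}`.  By `PairAsy (t i₀) (t i)`, `S_ii = S₀ + O(1)`, and by `PairAsy (t i) (t j)`,
`S_ij = S_ii - L + O(1) = S₀ - L + O(1)` for `i ≠ j`.  Expand
`∑_x |∑_i a_i t_i(x)|² pk σ x = ∑_{i,j} a_i conj (a_j) S_ij
  = ∑ |a_i|² S₀ + (|∑ a_i|² - ∑ |a_i|²) (S₀ - L) + O(1) = |∑ a_i|² (S₀ - L) + ∑ |a_i|² L + O(1)`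
and `S₀ - L ≤ C`. -/

set_option autoImplicit false

noncomputable section

namespace Pool.Agent.GL74

open MeasureTheory ComplexConjugate Set
open Pool.Agent.H74E (pk)

lemma moment_summable_pair {u v : Nat.Primes × ℕ → ℂ} {σ : ℝ}
    (hu : Summable fun x => ‖u x‖ ^ 2 * pk σ x) (hv : Summable fun x => ‖v x‖ ^ 2 * pk σ x) :
    Summable fun x => u x * conj (v x) * (pk σ x : ℂ) := by
  refine Summable.of_norm_bounded (hu.add hv) fun x => ?_
  have h0 : 0 ≤ pk σ x := Pool.Agent.H74E.pk_nonneg σ x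
  rw [norm_mul, norm_mul, RCLike.norm_conj, Complex.norm_real, Real.norm_of_nonneg h0, ← add_mul]
  refine mul_le_mul_of_nonneg_right ?_ h0
  nlinarith [sq_nonneg (‖u x‖ - ‖v x‖), sq_nonneg (‖u x‖), sq_nonneg (‖v x‖), norm_nonneg (u x),
    norm_nonneg (v x)]

lemma moment_diag (u : Nat.Primes × ℕ → ℂ) (σ : ℝ) :
    ∑' x, u x * conj (u x) * (pk σ x : ℂ) = ((∑' x, ‖u x‖ ^ 2 * pk σ x : ℝ) : ℂ) := by
  rw [Complex.ofReal_tsum]
  refine tsum_congr fun x => ?_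
  rw [Complex.mul_conj']
  push_cast
  rfl

lemma moment_expand {ι : Type} [Fintype ι] (t : ι → Nat.Primes × ℕ → ℂ) (a : ι → ℂ) (σ : ℝ)
    (hs : ∀ i, Summable fun x => ‖t i x‖ ^ 2 * pk σ x) :
    HasSum (fun x => ‖∑ i, a i * t i x‖ ^ 2 * pk σ x)
      (∑ i, ∑ j, a i * conj (a j) * ∑' x, t i x * conj (t j x) * (pk σ x : ℂ)).re := by
  have h1 : HasSum (fun x => ∑ i, ∑ j, a i * conj (a j) * (t i x * conj (t j x) * (pk σ x : ℂ)))
      (∑ i, ∑ j, a i * conj (a j) * ∑' x, t i x * conj (t j x) * (pk σ x : ℂ)) := by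
    refine hasSum_sum fun i _ => hasSum_sum fun j _ => ?_
    exact (moment_summable_pair (hs i) (hs j)).hasSum.mul_left _
  have h2 := Complex.hasSum_re h1
  convert h2 using 1
  funext x
  have h3 : ((‖∑ i, a i * t i x‖ ^ 2 * pk σ x : ℝ) : ℂ) =
      ∑ i, ∑ j, a i * conj (a j) * (t i x * conj (t j x) * (pk σ x : ℂ)) := by
    push_cast
    rw [← Complex.mul_conj', map_sum, Finset.sum_mul_sum, Finset.sum_mul]
    refine Finset.sum_congr rfl fun i _ => ?_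
    rw [Finset.sum_mul]
    refine Finset.sum_congr rfl fun j _ => ?_
    rw [map_mul]
    ring
  rw [← h3, Complex.ofReal_re]

theorem moment {ι : Type} [Fintype ι] (t : ι → Nat.Primes × ℕ → ℂ)
    (h1 : ∀ i, ∃ C : ℝ, ∀ σ : ℝ, 1 < σ → σ ≤ 2 → (Summable fun x => ‖t i x‖ ^ 2 * pk σ x) ∧
      ∑' x, ‖t i x‖ ^ 2 * pk σ x ≤ Real.log (1 / (σ - 1)) + C)
    (h2 : ∀ i j, i ≠ j → PairAsy (t i) (t j)) (a : ι → ℂ) :
    ∃ C : ℝ, ∀ σ : ℝ, 1 < σ → σ ≤ 2 → (Summable fun x => ‖∑ i, a i * t i x‖ ^ 2 * pk σ x) ∧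
      ∑' x, ‖∑ i, a i * t i x‖ ^ 2 * pk σ x ≤
        (∑ i, ‖a i‖ ^ 2) * Real.log (1 / (σ - 1)) + C := by
  classical
  rcases isEmpty_or_nonempty ι with hι | ⟨⟨i₀⟩⟩
  · refine ⟨0, fun σ _ _ => ?_⟩
    simp
  · obtain ⟨C₀, hC₀⟩ := h1 i₀
    have hA : ∀ i, ∃ C : ℝ, 0 ≤ C ∧ ∀ σ : ℝ, 1 < σ → σ ≤ 2 →
        |∑' x, ‖t i x‖ ^ 2 * pk σ x - ∑' x, ‖t i₀ x‖ ^ 2 * pk σ x| ≤ C := by
      intro i
      by_cases hi : i = i₀
      · subst hi
        exact ⟨0, le_rfl, fun σ _ _ => by simp⟩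
      · obtain ⟨C, hC⟩ := h2 i₀ i (Ne.symm hi)
        exact ⟨|C|, abs_nonneg C, fun σ h3 h4 => (hC σ h3 h4).2.2.2.1.trans (le_abs_self C)⟩
    have hB : ∀ i j, ∃ C : ℝ, 0 ≤ C ∧ ∀ σ : ℝ, 1 < σ → σ ≤ 2 →
        ‖∑' x, t i x * conj (t j x) * (pk σ x : ℂ) -
          ((∑' x, ‖t i₀ x‖ ^ 2 * pk σ x - Real.log (1 / (σ - 1)) : ℝ) : ℂ) -
          (if i = j then ((Real.log (1 / (σ - 1)) : ℝ) : ℂ) else 0)‖ ≤ C := by
      intro i j
      obtain ⟨C1, hC1, hC2⟩ := hA i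
      by_cases hij : i = j
      · subst hij
        refine ⟨C1, hC1, fun σ h3 h4 => ?_⟩
        rw [moment_diag, if_pos rfl, ← Complex.ofReal_sub, ← Complex.ofReal_sub, Complex.norm_real,
          Real.norm_eq_abs]
        refine le_trans (le_of_eq ?_) (hC2 σ h3 h4)
        congr 1
        ring
      · obtain ⟨C, hC⟩ := h2 i j hij
        refine ⟨|C| + C1, add_nonneg (abs_nonneg C) hC1, fun σ h3 h4 => ?_⟩
        have h5 := (hC σ h3 h4).2.2.2.2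
        have h6 := hC2 σ h3 h4
        rw [if_neg hij, sub_zero]
        have h7 : ∑' x, t i x * conj (t j x) * (pk σ x : ℂ) -
            ((∑' x, ‖t i₀ x‖ ^ 2 * pk σ x - Real.log (1 / (σ - 1)) : ℝ) : ℂ) =
            (∑' x, t i x * conj (t j x) * (pk σ x : ℂ) - ((∑' x, ‖t i x‖ ^ 2 * pk σ x : ℝ) : ℂ) +
              ((Real.log (1 / (σ - 1)) : ℝ) : ℂ)) +
            ((∑' x, ‖t i x‖ ^ 2 * pk σ x - ∑' x, ‖t i₀ x‖ ^ 2 * pk σ x : ℝ) : ℂ) := by
          rw [Complex.ofReal_sub, Complex.ofReal_sub]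
          ring
        rw [h7]
        refine (norm_add_le _ _).trans (add_le_add (h5.trans (le_abs_self C)) ?_)
        rw [Complex.norm_real, Real.norm_eq_abs]
        exact h6
    choose K hK0 hK using hB
    refine ⟨‖∑ i, a i‖ ^ 2 * |C₀| + ∑ i, ∑ j, ‖a i‖ * ‖a j‖ * K i j, fun σ h3 h4 => ?_⟩
    have hs : ∀ i, Summable fun x => ‖t i x‖ ^ 2 * pk σ x := by
      intro i
      obtain ⟨C, hC⟩ := h1 i
      exact (hC σ h3 h4).1
    have hE := moment_expand t a σ hs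
    refine ⟨hE.summable, ?_⟩
    rw [hE.tsum_eq]
    set L : ℝ := Real.log (1 / (σ - 1)) with hL
    set S₀ : ℝ := ∑' x, ‖t i₀ x‖ ^ 2 * pk σ x with hS₀
    set S : ι → ι → ℂ := fun i j => ∑' x, t i x * conj (t j x) * (pk σ x : ℂ) with hS
    have h5 : (∑ i, ∑ j, a i * conj (a j) * S i j) =
        ((‖∑ i, a i‖ ^ 2 * (S₀ - L) + (∑ i, ‖a i‖ ^ 2) * L : ℝ) : ℂ) +
        ∑ i, ∑ j, a i * conj (a j) * (S i j - ((S₀ - L : ℝ) : ℂ) -
          (if i = j then ((L : ℝ) : ℂ) else 0)) := by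
      have h6 : (((‖∑ i, a i‖ ^ 2 * (S₀ - L) + (∑ i, ‖a i‖ ^ 2) * L : ℝ)) : ℂ) =
          ∑ i, ∑ j, a i * conj (a j) * (((S₀ - L : ℝ) : ℂ) +
            (if i = j then ((L : ℝ) : ℂ) else 0)) := by
        have h7 : ∀ i, ∑ j, a i * conj (a j) * (((S₀ - L : ℝ) : ℂ) +
            (if i = j then ((L : ℝ) : ℂ) else 0)) =
            (∑ j, a i * conj (a j)) * ((S₀ - L : ℝ) : ℂ) + ((‖a i‖ ^ 2 : ℝ) : ℂ) * ((L : ℝ) : ℂ) := by
          intro i
          simp only [mul_add, Finset.sum_add_distrib, mul_ite, mul_zero, Finset.sum_ite_eq,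
            Finset.mem_univ, if_true]
          rw [Finset.sum_mul, Complex.mul_conj']
          push_cast
          ring
        rw [Finset.sum_congr rfl fun i _ => h7 i, Finset.sum_add_distrib, ← Finset.sum_mul,
          ← Finset.sum_mul, ← Finset.sum_mul_sum, ← map_sum, Complex.mul_conj']
        push_cast
        ring
      rw [h6, ← Finset.sum_add_distrib]
      refine Finset.sum_congr rfl fun i _ => ?_
      rw [← Finset.sum_add_distrib]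
      refine Finset.sum_congr rfl fun j _ => ?_
      ring
    have h8 : ‖∑ i, ∑ j, a i * conj (a j) * (S i j - ((S₀ - L : ℝ) : ℂ) -
          (if i = j then ((L : ℝ) : ℂ) else 0))‖ ≤ ∑ i, ∑ j, ‖a i‖ * ‖a j‖ * K i j := by
      refine (norm_sum_le _ _).trans (Finset.sum_le_sum fun i _ => ?_)
      refine (norm_sum_le _ _).trans (Finset.sum_le_sum fun j _ => ?_)
      rw [norm_mul, norm_mul, RCLike.norm_conj]
      exact mul_le_mul_of_nonneg_left (hK i j σ h3 h4) (mul_nonneg (norm_nonneg _) (norm_nonneg _))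
    have h9 : S₀ - L ≤ |C₀| := by
      have := (hC₀ σ h3 h4).2
      have h10 := le_abs_self C₀
      linarith
    have h11 : ‖∑ i, a i‖ ^ 2 * (S₀ - L) ≤ ‖∑ i, a i‖ ^ 2 * |C₀| :=
      mul_le_mul_of_nonneg_left h9 (sq_nonneg _)
    rw [h5, Complex.add_re, Complex.ofReal_re]
    have h12 := (Complex.re_le_norm (∑ i, ∑ j, a i * conj (a j) * (S i j - ((S₀ - L : ℝ) : ℂ) -
          (if i = j then ((L : ℝ) : ℂ) else 0)))).trans h8
    linarith

end Pool.Agent.GL74
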