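import Pool.Agent.W_7742p_h74.KFam
import Pool.Agent.W_7742p_h74.KMom

/-! # The second moments of linear combinations of the conjugate traces

Apply `moment` (KMom) to the type `ι` of the embeddings `σ` with `a σ ≠ 0`, `t σ = π.ts σ` and the
coefficients `conj (a σ)`; the hypotheses are `family_one` (KFa1) and `family_asy` (KFam, with
`exists_coeff` and `ha`).  By `tin_eq` `∑ conj (a σ) ts σ (p, 0)` is the conjugate of
`∑ a σ * σ (tr A p)` for good `p`.  Restrict the sum over `Nat.Primes × ℕ` to the `(p, 0)`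
(`pk s (p, 0) = p^{-s}`) and drop the bad primes (the `ts σ` vanish there). -/

set_option autoImplicit false

noncomputable section

namespace Pool.Agent.H74V

open Filter Topology ComplexConjugate Pool.Agent.GL74 Pool.Agent.GLForm74
open Pool.Agent.H74E (pk)

namespace SatakeSystem

variable {K : Type} [Field K] [NumberField K] {n : ℕ} {π : SatakeSystem K n}

theorem KBes_sum (a : (K →+* ℂ) → ℂ) {M : Type} [AddCommMonoid M] (f : (K →+* ℂ) → M)
    (hf : ∀ σ, a σ = 0 → f σ = 0) [DecidablePred fun σ : K →+* ℂ => a σ ≠ 0] :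
    ∑ i : {σ : K →+* ℂ // a σ ≠ 0}, f i.1 = ∑ σ, f σ := by
  rw [← Finset.sum_subtype (Finset.univ.filter fun σ : K →+* ℂ => a σ ≠ 0)
    (fun x => by simp) f]
  refine Finset.sum_filter_of_ne fun σ _ h1 h2 => h1 (hf σ h2)

open Classical in
theorem bessel (hn : 2 ≤ n) (h : π.IsCuspidalFamily) (hg : π.GeneratedByCoeffs)
    (a : (K →+* ℂ) → ℂ) (ha : ∀ σ τ, a σ ≠ 0 → a τ ≠ 0 → ∀ p, π.Good p →
      σ (π.A p).det = τ (π.A p).det) : ∃ C : ℝ, ∀ s : ℝ, 1 < s → s ≤ 2 →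
      (Summable fun p : Nat.Primes => (if π.Good p then
        ‖∑ σ, a σ * σ (π.A p).trace‖ ^ 2 else 0) * ((p : ℕ) : ℝ) ^ (-s)) ∧
      ∑' p : Nat.Primes, (if π.Good p then ‖∑ σ, a σ * σ (π.A p).trace‖ ^ 2 else 0) *
        ((p : ℕ) : ℝ) ^ (-s) ≤ (∑ σ, ‖a σ‖ ^ 2) * Real.log (1 / (s - 1)) + C := by
  obtain ⟨C, hC⟩ := moment (ι := {σ : K →+* ℂ // a σ ≠ 0}) (fun i => π.ts i.1)
    (fun i => family_one hn h i.1)
    (fun i j hij => family_asy hn h (ha i.1 j.1 i.2 j.2)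
      (exists_coeff hg fun h1 => hij (Subtype.ext h1))) (fun i => conj (a i.1))
  refine ⟨C, fun s hs hs2 => ?_⟩
  obtain ⟨h1, h2⟩ := hC s hs hs2
  have e1 : ∑ i : {σ : K →+* ℂ // a σ ≠ 0}, ‖conj (a i.1)‖ ^ 2 = ∑ σ, ‖a σ‖ ^ 2 := by
    simp only [RCLike.norm_conj]
    exact KBes_sum a (fun σ => ‖a σ‖ ^ 2) fun σ h0 => by rw [h0, norm_zero]; norm_num
  rw [e1] at h2
  have key : ∀ p : Nat.Primes, ‖∑ i : {σ : K →+* ℂ // a σ ≠ 0}, conj (a i.1) * π.ts i.1 (p, 0)‖ ^ 2 *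
      pk s (p, 0) = (if π.Good p then ‖∑ σ, a σ * σ (π.A p).trace‖ ^ 2 else 0) *
        ((p : ℕ) : ℝ) ^ (-s) := by
    intro p
    have e2 : pk s (p, 0) = ((p : ℕ) : ℝ) ^ (-s) := by
      rw [Pool.Agent.H74E.pk_eq]
      simp
    rw [e2]
    congr 1
    by_cases hp : π.Good p
    · rw [if_pos hp]
      have e3 : ∑ i : {σ : K →+* ℂ // a σ ≠ 0}, conj (a i.1) * π.ts i.1 (p, 0) =
          conj (∑ σ, a σ * σ (π.A p).trace) := by
        rw [← KBes_sum a (fun σ => a σ * σ (π.A p).trace) fun σ h0 => by rw [h0, zero_mul], map_sum]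
        refine Finset.sum_congr rfl fun i _ => ?_
        rw [tin_eq hn h i.1 (x := (p, 0)) hp, map_mul]
        simp
      rw [e3, RCLike.norm_conj]
    · rw [if_neg hp]
      have e4 : ∀ σ : K →+* ℂ, π.ts σ (p, 0) = 0 := fun σ => if_neg hp
      simp [e4]
  have hinj : Function.Injective fun p : Nat.Primes => (p, (0 : ℕ)) := fun p q hpq =>
    (Prod.mk.inj hpq).1
  have h3 := h1.comp_injective hinj
  have e5 : ((fun x : Nat.Primes × ℕ => ‖∑ i : {σ : K →+* ℂ // a σ ≠ 0},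
      conj (a i.1) * π.ts i.1 x‖ ^ 2 * pk s x) ∘ fun p : Nat.Primes => (p, (0 : ℕ))) =
      fun p : Nat.Primes => (if π.Good p then ‖∑ σ, a σ * σ (π.A p).trace‖ ^ 2 else 0) *
        ((p : ℕ) : ℝ) ^ (-s) := funext fun p => key p
  refine ⟨e5 ▸ h3, ?_⟩
  refine le_trans ?_ h2
  rw [← e5]
  exact tsum_comp_le_tsum_of_inj h1
    (fun x => mul_nonneg (sq_nonneg _) (Pool.Agent.H74E.pk_nonneg s x)) hinj

end SatakeSystem

end Pool.Agent.H74V
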