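import Pool.Agent.W_7742c_h74.Zeta

/-! # The Rankin-Selberg property of a pair (definitions) -/

set_option autoImplicit false

noncomputable section

namespace Pool.Agent.GL74

open MeasureTheory ComplexConjugate Set
open Pool.Agent.H74E (pk)

/-- The Rankin-Selberg property of a pair `t, t'` of systems: there are a nonzero measure `μ` with
Laplace transform `M` and analytic functions `G₁, G₂, G₃` on `(0, b)` with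
`G₁ = (σ - 1) M exp (∑ |t|²)`, `G₂ = (σ - 1) M exp (∑ |t'|²)`, `G₃ = (σ - 1) M exp (∑ t conj t')` for
`1 < σ < b`, and `G₃ 1 = 0`. -/
structure IsPairRS (t t' : Nat.Primes × ℕ → ℂ) (b : ℝ) (μ : Measure ℝ) (G₁ G₂ : ℝ → ℝ)
    (G₃ : ℝ → ℂ) : Prop where
  hb : 1 < b
  sfin : SFinite μ
  ne : μ ≠ 0
  int : ∀ σ ∈ Ioo 1 b, Integrable (fun x => Real.exp (σ * x)) μ
  sum₁ : ∀ σ ∈ Ioo 1 b, Summable fun x => ‖t x‖ ^ 2 * pk σ x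
  sum₂ : ∀ σ ∈ Ioo 1 b, Summable fun x => ‖t' x‖ ^ 2 * pk σ x
  an₁ : ∀ σ ∈ Ioo 0 b, AnalyticAt ℝ G₁ σ
  an₂ : ∀ σ ∈ Ioo 0 b, AnalyticAt ℝ G₂ σ
  an₃ : ∀ σ ∈ Ioo 0 b, AnalyticAt ℝ G₃ σ
  zero : G₃ 1 = 0
  eq₁ : ∀ σ ∈ Ioo 1 b, G₁ σ =
    (σ - 1) * (∫ x, Real.exp (σ * x) ∂μ) * Real.exp (∑' x, ‖t x‖ ^ 2 * pk σ x)
  eq₂ : ∀ σ ∈ Ioo 1 b, G₂ σ =
    (σ - 1) * (∫ x, Real.exp (σ * x) ∂μ) * Real.exp (∑' x, ‖t' x‖ ^ 2 * pk σ x)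
  eq₃ : ∀ σ ∈ Ioo 1 b, G₃ σ = (((σ - 1) * (∫ x, Real.exp (σ * x) ∂μ) : ℝ) : ℂ) *
    Complex.exp (∑' x, t x * conj (t' x) * (pk σ x : ℂ))

/-- The Rankin-Selberg property of a pair. -/
def PairRS (t t' : Nat.Primes × ℕ → ℂ) : Prop :=
  ∃ (b : ℝ) (μ : Measure ℝ) (G₁ G₂ : ℝ → ℝ) (G₃ : ℝ → ℂ), IsPairRS t t' b μ G₁ G₂ G₃

/-- The asymptotic behaviour: with `L = log (1 / (σ - 1))`, `S₁ = ∑ |t|²`, `S₂ = ∑ |t'|²`,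
`S₃ = ∑ t conj t'` we have `S₁ ≤ L + C`, `|S₂ - S₁| ≤ C`, `|S₃ - S₁ + L| ≤ C` for `1 < σ ≤ 2`. -/
def PairAsy (t t' : Nat.Primes × ℕ → ℂ) : Prop :=
  ∃ C : ℝ, ∀ σ : ℝ, 1 < σ → σ ≤ 2 →
    (Summable fun x => ‖t x‖ ^ 2 * pk σ x) ∧ (Summable fun x => ‖t' x‖ ^ 2 * pk σ x) ∧
    ∑' x, ‖t x‖ ^ 2 * pk σ x ≤ Real.log (1 / (σ - 1)) + C ∧
    |∑' x, ‖t' x‖ ^ 2 * pk σ x - ∑' x, ‖t x‖ ^ 2 * pk σ x| ≤ C ∧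
    ‖∑' x, t x * conj (t' x) * (pk σ x : ℂ) - ((∑' x, ‖t x‖ ^ 2 * pk σ x : ℝ) : ℂ) +
      ((Real.log (1 / (σ - 1)) : ℝ) : ℂ)‖ ≤ C

/-- The series `∑ |t|²` diverges for some `σ > 0`. -/
def Diverg (t : Nat.Primes × ℕ → ℂ) : Prop :=
  ¬ ∀ σ : ℝ, 0 < σ → Summable fun x => ‖t x‖ ^ 2 * pk σ x

end Pool.Agent.GL74
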