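import Pool.Agent.W_7742p_h74.KBes
import Pool.Agent.W_7742p_h74.KAmg

/-! # The density theorem

* `family_moment`: `bessel` (KBes) with `a σ = σ x` if `σ|E = τ` and `a σ = 0` otherwise;
  `∑_{σ|E = τ} σ (x * tr A p) = τ (Tr_{K/E} (x * tr A p))` (`trace_eq_sum_embeddings` or
  `Algebra.trace_eq_sum_embeddings`; `K / E` is separable; translate between `K →+* ℂ` with
  `σ|E = τ` and `K →ₐ[E] ℂ`).
* `density_main`: by `amgm`, `dens_of_le` (KAmg) `∑_{p ∈ P} p^{-s} ≤ (1 / [E : ℚ]) ∑_τ ∑_p ‖τ (z_p)‖² p^{-s}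
  ≤ (1 / [E : ℚ]) ∑_τ (∑_{σ|E = τ} ‖σ x‖²) log (1 / (s - 1)) + C`.
-/

set_option autoImplicit false

noncomputable section

namespace Pool.Agent.H74V

open Filter Topology ComplexConjugate Pool.Agent.GL74 Pool.Agent.GLForm74
open Pool.Agent.H74E (pk)

namespace SatakeSystem

variable {K : Type} [Field K] [NumberField K] {n : ℕ} {π : SatakeSystem K n}

theorem KDns_trace (E : IntermediateField ℚ K) (τ : E →+* ℂ) (x y : K) :
    ∑ σ : K →+* ℂ, (open Classical in if (∀ z : E, σ (z : K) = τ z) then σ x else 0) * σ y =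
      τ (Algebra.trace E K (x * y)) := by
  classical
  letI : Algebra E ℂ := τ.toAlgebra
  have h1 := trace_eq_sum_embeddings (K := E) (L := K) ℂ (x := x * y)
  have h2 : algebraMap E ℂ (Algebra.trace E K (x * y)) = τ (Algebra.trace E K (x * y)) := rfl
  rw [← h2, h1]
  have h3 : ∀ σ : K →+* ℂ, (open Classical in if (∀ z : E, σ (z : K) = τ z) then σ x else 0) * σ y =
      if (∀ z : E, σ (z : K) = τ z) then σ (x * y) else 0 := by
    intro σ
    split_ifs with h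
    · rw [map_mul]
    · rw [zero_mul]
  rw [Finset.sum_congr rfl fun σ _ => h3 σ, ← Finset.sum_filter]
  symm
  refine Finset.sum_bij' (fun σ _ => (σ : K →ₐ[E] ℂ).toRingHom)
    (fun σ hσ => { σ with commutes' := fun z => (Finset.mem_filter.1 hσ).2 z }) ?_ ?_ ?_ ?_ ?_
  · intro σ _
    exact Finset.mem_filter.2 ⟨Finset.mem_univ _, fun z => σ.commutes z⟩
  · intro σ _
    exact Finset.mem_univ _
  · intro σ _
    rfl
  · intro σ _
    rfl
  · intro σ _
    rfl

open Classical in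
theorem family_moment (hn : 2 ≤ n) (h : π.IsCuspidalFamily) (hg : π.GeneratedByCoeffs)
    (E : IntermediateField ℚ K) (hE : ∀ p, π.Good p → (π.A p).det ∈ E) (x : K)
    (τ : E →+* ℂ) : ∃ C : ℝ, ∀ s : ℝ, 1 < s → s ≤ 2 →
      (Summable fun p : Nat.Primes => (if π.Good p then
        ‖τ (Algebra.trace E K (x * (π.A p).trace))‖ ^ 2 else 0) * ((p : ℕ) : ℝ) ^ (-s)) ∧
      ∑' p : Nat.Primes, (if π.Good p then
        ‖τ (Algebra.trace E K (x * (π.A p).trace))‖ ^ 2 else 0) * ((p : ℕ) : ℝ) ^ (-s) ≤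
        (∑ σ : K →+* ℂ, if (∀ y : E, σ (y : K) = τ y) then ‖σ x‖ ^ 2 else 0) *
          Real.log (1 / (s - 1)) + C := by
  obtain ⟨C, hC⟩ := bessel hn h hg
    (fun σ => if (∀ z : E, σ (z : K) = τ z) then σ x else 0) (by
    intro σ σ' h1 h2 p hp
    have h3 : ∀ z : E, σ (z : K) = τ z := by
      by_contra hc
      exact h1 (if_neg hc)
    have h4 : ∀ z : E, σ' (z : K) = τ z := by
      by_contra hc
      exact h2 (if_neg hc)
    have h5 := h3 ⟨_, hE p hp⟩
    have h6 := h4 ⟨_, hE p hp⟩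
    exact h5.trans h6.symm)
  refine ⟨C, fun s hs hs2 => ?_⟩
  have h1 := hC s hs hs2
  simp only [KDns_trace] at h1
  refine ⟨h1.1, h1.2.trans (le_of_eq ?_)⟩
  have h2 : ∀ σ : K →+* ℂ, ‖(if (∀ z : E, σ (z : K) = τ z) then σ x else 0 : ℂ)‖ ^ 2 =
      if (∀ y : E, σ (y : K) = τ y) then ‖σ x‖ ^ 2 else 0 := by
    intro σ
    split_ifs
    · rfl
    · simp
  rw [Finset.sum_congr rfl fun σ _ => h2 σ]

theorem density_main (hn : 2 ≤ n) (h : π.IsCuspidalFamily) (hg : π.GeneratedByCoeffs)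
    (E : IntermediateField ℚ K) (hE : ∀ p, π.Good p → (π.A p).det ∈ E) (x : K) :
    DensityLE (fun p => π.Good p ∧ IsIntegral ℤ (Algebra.trace E K (x * (π.A p).trace)) ∧
      Algebra.trace E K (x * (π.A p).trace) ≠ 0)
      ((∑ σ : K →+* ℂ, ‖σ x‖ ^ 2) / (Module.finrank ℚ E : ℝ)) := by
  classical
  choose C hC using fun τ : E →+* ℂ => family_moment hn h hg E hE x τ
  have hd : (0 : ℝ) < (Module.finrank ℚ E : ℝ) := by
    exact_mod_cast Module.finrank_pos
  set d : ℝ := (Module.finrank ℚ E : ℝ) with hdd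
  have hsum : ∑ τ : E →+* ℂ, ∑ σ : K →+* ℂ,
      (if (∀ y : E, σ (y : K) = τ y) then ‖σ x‖ ^ 2 else 0) = ∑ σ : K →+* ℂ, ‖σ x‖ ^ 2 := by
    rw [Finset.sum_comm]
    refine Finset.sum_congr rfl fun σ _ => ?_
    rw [Finset.sum_eq_single (σ.comp (algebraMap E K))]
    · exact if_pos fun y => rfl
    · intro τ _ hτ
      refine if_neg fun hc => hτ ?_
      ext y
      exact (hc y).symm
    · intro hc
      exact absurd (Finset.mem_univ _) hc
  refine dens_of_le (C := (∑ τ : E →+* ℂ, C τ) / d) (by positivity) ?_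
  intro s hs hs2
  have e1 : primeSum (fun p => π.Good p ∧
      IsIntegral ℤ (Algebra.trace E K (x * (π.A p).trace)) ∧
      Algebra.trace E K (x * (π.A p).trace) ≠ 0) s =
      ∑' p : Nat.Primes, H74E.SatakeSystem.ind (fun p => π.Good p ∧
        IsIntegral ℤ (Algebra.trace E K (x * (π.A p).trace)) ∧
        Algebra.trace E K (x * (π.A p).trace) ≠ 0) p * ((p : ℕ) : ℝ) ^ (-s) :=
    H74E.SatakeSystem.primeSum_eq _ s
  rw [e1]
  have hS : ∀ τ : E →+* ℂ, Summable fun p : Nat.Primes => (if π.Good p then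
        ‖τ (Algebra.trace E K (x * (π.A p).trace))‖ ^ 2 else 0) * ((p : ℕ) : ℝ) ^ (-s) :=
    fun τ => (hC τ s hs hs2).1
  have hS2 : Summable fun p : Nat.Primes => ∑ τ : E →+* ℂ, (if π.Good p then
        ‖τ (Algebra.trace E K (x * (π.A p).trace))‖ ^ 2 else 0) * ((p : ℕ) : ℝ) ^ (-s) :=
    summable_sum fun τ _ => hS τ
  have hpt : ∀ p : Nat.Primes, H74E.SatakeSystem.ind (fun p => π.Good p ∧
        IsIntegral ℤ (Algebra.trace E K (x * (π.A p).trace)) ∧
        Algebra.trace E K (x * (π.A p).trace) ≠ 0) p * ((p : ℕ) : ℝ) ^ (-s) ≤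
      (1 / d) * ∑ τ : E →+* ℂ, (if π.Good p then
        ‖τ (Algebra.trace E K (x * (π.A p).trace))‖ ^ 2 else 0) * ((p : ℕ) : ℝ) ^ (-s) := by
    intro p
    have hp0 : (0 : ℝ) ≤ ((p : ℕ) : ℝ) ^ (-s) := by positivity
    rw [← Finset.sum_mul, ← mul_assoc]
    refine mul_le_mul_of_nonneg_right ?_ hp0
    by_cases hP : π.Good p ∧ IsIntegral ℤ (Algebra.trace E K (x * (π.A p).trace)) ∧
        Algebra.trace E K (x * (π.A p).trace) ≠ 0
    · rw [H74E.SatakeSystem.ind_pos (P := fun p => π.Good p ∧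
        IsIntegral ℤ (Algebra.trace E K (x * (π.A p).trace)) ∧
        Algebra.trace E K (x * (π.A p).trace) ≠ 0) hP]
      have h2 := amgm hP.2.1 hP.2.2
      have h3 : ∑ τ : E →+* ℂ, (if π.Good p then
          ‖τ (Algebra.trace E K (x * (π.A p).trace))‖ ^ 2 else 0) =
          ∑ τ : E →+* ℂ, ‖τ (Algebra.trace E K (x * (π.A p).trace))‖ ^ 2 :=
        Finset.sum_congr rfl fun τ _ => if_pos hP.1
      rw [h3, one_div, ← div_eq_inv_mul, le_div_iff₀ hd, one_mul]
      exact h2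
    · rw [H74E.SatakeSystem.ind_neg (P := fun p => π.Good p ∧
        IsIntegral ℤ (Algebra.trace E K (x * (π.A p).trace)) ∧
        Algebra.trace E K (x * (π.A p).trace) ≠ 0) hP]
      refine mul_nonneg (by positivity) (Finset.sum_nonneg fun τ _ => ?_)
      split_ifs
      · positivity
      · exact le_rfl
  have hpos : ∀ p : Nat.Primes, 0 ≤ H74E.SatakeSystem.ind (fun p => π.Good p ∧
        IsIntegral ℤ (Algebra.trace E K (x * (π.A p).trace)) ∧
        Algebra.trace E K (x * (π.A p).trace) ≠ 0) p * ((p : ℕ) : ℝ) ^ (-s) :=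
    fun p => mul_nonneg (H74E.SatakeSystem.ind_nonneg _ _) (by positivity)
  have hS3 := hS2.mul_left (1 / d)
  refine ((Summable.of_nonneg_of_le hpos hpt hS3).tsum_le_tsum hpt hS3).trans ?_
  rw [tsum_mul_left, Summable.tsum_finsetSum fun τ _ => hS τ]
  have h4 : ∑ τ : E →+* ℂ, ∑' p : Nat.Primes, (if π.Good p then
        ‖τ (Algebra.trace E K (x * (π.A p).trace))‖ ^ 2 else 0) * ((p : ℕ) : ℝ) ^ (-s) ≤
      ∑ τ : E →+* ℂ, ((∑ σ : K →+* ℂ, if (∀ y : E, σ (y : K) = τ y) then ‖σ x‖ ^ 2 else 0) *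
          Real.log (1 / (s - 1)) + C τ) :=
    Finset.sum_le_sum fun τ _ => (hC τ s hs hs2).2
  rw [Finset.sum_add_distrib, ← Finset.sum_mul, hsum] at h4
  have h5 := mul_le_mul_of_nonneg_left h4 (by positivity : (0 : ℝ) ≤ 1 / d)
  refine h5.trans (le_of_eq ?_)
  ring

end SatakeSystem

end Pool.Agent.H74V
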