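import Mathlib

/-! # Quadratic fields

Let `d = NumberField.discr K`, `[K : ℚ] = 2`, `σ₁ ≠ σ₂` the two embeddings.
* `disc_sq`: for `y ∈ O_K` the discriminant `Algebra.discr ℚ ![1, y] = 2 Tr (y²) - (Tr y)²` of the
  family `1, y` is `f² d` for some integer `f` (base change from an integral basis:
  `Algebra.discr_of_matrix_vecMul` or `Algebra.discr_of_matrix_mulVec`,
  `NumberField.coe_discr`), and `f ≠ 0` if `y ∉ ℚ` (the base change matrix is invertible, or:
  `2 Tr (y²) - (Tr y)² = Tr ((2 y - Tr y)²) / 2 = (2 y - Tr y)²` in `K`, as `(2 y - Tr y)² ∈ ℚ`).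
  So `(2 y - Tr y)² = f² d` in `K`.
* `exists_delta`: take `y ∈ O_K`, `y ∉ ℚ`, and `δ = (2 y - Tr y) / f`.
* `quad_dual`: `x = δ⁻¹`.  `Tr x = 0` as `x² ∈ ℚ`, `x ∉ ℚ` (or `Tr (2 y - Tr y) = 0`); for
  `y ∈ O_K`: `u = 2 y - Tr y` has `Tr u = 0`, `u² = f² d = (f δ)²`, so `u = ± f δ` and
  `Tr (x y) = Tr (x u) / 2 = ± f`, which is not `0` if `y ∉ ℚ`.  `‖σ x‖² = 1 / |d|` for both
  embeddings. -/

set_option autoImplicit false

noncomputable section

namespace Pool.Agent.H74V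

variable {K : Type} [Field K] [NumberField K]

/-- The quadratic relation. -/
theorem quad_rel (hK : Module.finrank ℚ K = 2) (y : K) :
    y ^ 2 - algebraMap ℚ K (Algebra.trace ℚ K y) * y + algebraMap ℚ K (Algebra.norm ℚ y) = 0 := by
  set B := Module.finBasisOfFinrankEq ℚ K hK with hB
  set M := Algebra.leftMulMatrix B y with hM
  have h1 := Matrix.aeval_self_charpoly M
  rw [Matrix.charpoly_fin_two] at h1
  simp only [map_add, map_sub, map_mul, map_pow, Polynomial.aeval_X, Polynomial.aeval_C] at h1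
  apply Algebra.leftMulMatrix_injective B
  rw [Algebra.trace_eq_matrix_trace B, Algebra.norm_eq_matrix_det B]
  simp only [map_add, map_sub, map_mul, map_pow, map_zero, AlgHom.commutes]
  exact h1

theorem trace_rat (hK : Module.finrank ℚ K = 2) (q : ℚ) :
    Algebra.trace ℚ K (algebraMap ℚ K q) = 2 * q := by
  rw [Algebra.trace_algebraMap, hK, nsmul_eq_mul]
  norm_num

open NumberField in
theorem disc_sq (hK : Module.finrank ℚ K = 2) {y : K} (hy : IsIntegral ℤ y) :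
    ∃ f : ℤ, (2 * y - algebraMap ℚ K (Algebra.trace ℚ K y)) ^ 2 =
      ((f ^ 2 * NumberField.discr K : ℤ) : K) ∧ (y ∉ Set.range (algebraMap ℚ K) → f ≠ 0) := by
  classical
  have hr : Module.finrank ℤ (𝓞 K) = 2 := by rw [RingOfIntegers.rank, hK]
  set b := Module.finBasisOfFinrankEq ℤ (𝓞 K) hr with hb
  set y0 : 𝓞 K := ⟨y, hy⟩ with hy0
  have hyy : algebraMap (𝓞 K) K y0 = y := rfl
  set v : Fin 2 → 𝓞 K := ![1, y0] with hv
  set P : Matrix (Fin 2) (Fin 2) ℤ := Matrix.of fun i j => b.repr (v i) j with hP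
  have hPv : (P.map (algebraMap ℤ (𝓞 K))).mulVec b = v := by
    funext i
    have h1 := b.sum_repr (v i)
    rw [← h1]
    simp only [Matrix.mulVec, dotProduct, Matrix.map_apply, hP, Matrix.of_apply, Algebra.smul_def]
  have hdisc := Algebra.discr_of_matrix_mulVec (A := ℤ) (B := 𝓞 K) b P
  rw [hPv, NumberField.discr_eq_discr K b] at hdisc
  have hd2 : Algebra.discr ℤ v = 2 * Algebra.trace ℤ (𝓞 K) (y0 ^ 2) -
      Algebra.trace ℤ (𝓞 K) y0 ^ 2 := by
    rw [Algebra.discr_def, Matrix.det_fin_two]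
    simp only [Algebra.traceMatrix_apply, Algebra.traceForm_apply, hv, Matrix.cons_val_zero,
      Matrix.cons_val_one, mul_one, one_mul]
    have h1 : Algebra.trace ℤ (𝓞 K) 1 = 2 := by
      have := Algebra.trace_algebraMap (R := ℤ) (S := 𝓞 K) (1 : ℤ)
      rw [map_one, hr] at this
      rw [this]
      norm_num
    rw [h1, sq y0, sq (Algebra.trace ℤ (𝓞 K) y0)]
  have hmain : (2 * y - algebraMap ℚ K (Algebra.trace ℚ K y)) ^ 2 =
      ((P.det ^ 2 * NumberField.discr K : ℤ) : K) := by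
    have h3 : (2 * Algebra.trace ℚ K (y ^ 2) - Algebra.trace ℚ K y ^ 2 : ℚ) =
        ((P.det ^ 2 * NumberField.discr K : ℤ) : ℚ) := by
      rw [← hdisc, hd2]
      push_cast
      rw [Algebra.coe_trace_int, Algebra.coe_trace_int]
      rfl
    have h4 := quad_rel hK y
    have h5 : Algebra.trace ℚ K (y ^ 2) =
        Algebra.trace ℚ K y ^ 2 - 2 * Algebra.norm ℚ y := by
      have e : y ^ 2 = (Algebra.trace ℚ K y) • y - algebraMap ℚ K (Algebra.norm ℚ y) := by
        rw [Algebra.smul_def]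
        linear_combination h4
      conv_lhs => rw [e]
      rw [map_sub, map_smul, trace_rat hK, smul_eq_mul, sq]
    have h6 : ((P.det ^ 2 * NumberField.discr K : ℤ) : K) =
        algebraMap ℚ K (Algebra.trace ℚ K y ^ 2 - 4 * Algebra.norm ℚ y) := by
      have e : Algebra.trace ℚ K y ^ 2 - 4 * Algebra.norm ℚ y =
          ((P.det ^ 2 * NumberField.discr K : ℤ) : ℚ) := by
        rw [← h3, h5]
        ring
      rw [e, map_intCast]
    rw [h6, map_sub, map_pow, map_mul, map_ofNat]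
    linear_combination 4 * h4
  refine ⟨P.det, hmain, ?_⟩
  intro hyr hf
  apply hyr
  rw [hf] at hmain
  have h7 : (2 * y - algebraMap ℚ K (Algebra.trace ℚ K y)) ^ 2 = 0 := by
    rw [hmain]
    push_cast
    ring
  have h8 := pow_eq_zero_iff (two_ne_zero) |>.1 h7
  refine ⟨Algebra.trace ℚ K y / 2, ?_⟩
  rw [map_div₀, map_ofNat]
  linear_combination (-1 / 2 : K) * h8

/-- There is an integral element outside of `ℚ`. -/
theorem exists_irr (hK : Module.finrank ℚ K = 2) : ∃ y : K, IsIntegral ℤ y ∧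
    y ∉ Set.range (algebraMap ℚ K) := by
  have h1 : ¬ ((⊥ : Subalgebra ℚ K) = ⊤) := by
    rw [Subalgebra.bot_eq_top_iff_finrank_eq_one, hK]
    norm_num
  have h2 : ∃ x : K, x ∉ Set.range (algebraMap ℚ K) := by
    by_contra hcon
    push Not at hcon
    apply h1
    rw [eq_top_iff]
    intro x _
    exact Algebra.mem_bot.2 (hcon x)
  obtain ⟨x, hx⟩ := h2
  have hxa : IsAlgebraic ℤ x := (IsFractionRing.isAlgebraic_iff ℤ ℚ K).2
    (Algebra.IsAlgebraic.isAlgebraic x)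
  obtain ⟨n, hn, hi⟩ := hxa.exists_integral_multiple
  refine ⟨n • x, hi, ?_⟩
  rintro ⟨q, hq⟩
  apply hx
  refine ⟨q / n, ?_⟩
  have hn' : (n : K) ≠ 0 := by exact_mod_cast hn
  rw [map_div₀, hq, map_intCast, zsmul_eq_mul]
  field_simp

theorem exists_delta (hK : Module.finrank ℚ K = 2) : ∃ δ : K,
    δ ^ 2 = ((NumberField.discr K : ℤ) : K) ∧ δ ∉ Set.range (algebraMap ℚ K) := by
  obtain ⟨y, hy, hyr⟩ := exists_irr hK
  obtain ⟨f, hf, hf0⟩ := disc_sq hK hy
  have hf1 : (f : K) ≠ 0 := by exact_mod_cast hf0 hyr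
  refine ⟨(2 * y - algebraMap ℚ K (Algebra.trace ℚ K y)) / f, ?_, ?_⟩
  · rw [div_pow, hf]
    push_cast
    field_simp
  · rintro ⟨q, hq⟩
    apply hyr
    refine ⟨(q * f + Algebra.trace ℚ K y) / 2, ?_⟩
    rw [map_div₀, map_add, map_mul, hq, map_intCast, map_ofNat]
    field_simp
    ring

theorem quad_dual (hK : Module.finrank ℚ K = 2) : ∃ x : K,
    (∑ σ : K →+* ℂ, ‖σ x‖ ^ 2 = 2 / |(NumberField.discr K : ℝ)|) ∧
    ∀ y : K, IsIntegral ℤ y → (∃ f : ℤ, Algebra.trace ℚ K (x * y) = f) ∧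
      (y ∉ Set.range (algebraMap ℚ K) → Algebra.trace ℚ K (x * y) ≠ 0) := by
  classical
  obtain ⟨δ, hδ, hδr⟩ := exists_delta hK
  set d := NumberField.discr K with hd
  have hd0 : d ≠ 0 := NumberField.discr_ne_zero K
  have hdK : (d : K) ≠ 0 := by exact_mod_cast hd0
  have hδ0 : δ ≠ 0 := by
    rintro rfl
    apply hdK
    rw [← hδ]
    ring
  -- the trace of `δ` is zero
  have htr : Algebra.trace ℚ K δ = 0 := by
    by_contra hne
    apply hδr
    have h1 := quad_rel hK δ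
    have hneK : algebraMap ℚ K (Algebra.trace ℚ K δ) ≠ 0 := by
      rw [Ne, map_eq_zero]
      exact hne
    refine ⟨((d : ℚ) + Algebra.norm ℚ δ) / Algebra.trace ℚ K δ, ?_⟩
    rw [map_div₀, map_add, map_intCast, div_eq_iff hneK]
    linear_combination h1 - hδ
  have hinv : δ⁻¹ = (1 / (d : ℚ)) • δ := by
    rw [Algebra.smul_def, map_div₀, map_one, map_intCast]
    field_simp
    rw [← hδ]
  have htri : Algebra.trace ℚ K δ⁻¹ = 0 := by
    rw [hinv, map_smul, htr, smul_zero]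
  have hkey : ∀ y : K, IsIntegral ℤ y → ∃ f : ℤ, Algebra.trace ℚ K (δ⁻¹ * y) = f ∧
      (y ∉ Set.range (algebraMap ℚ K) → f ≠ 0) := by
    intro y hy
    obtain ⟨f, hf, hf0⟩ := disc_sq hK hy
    have h1 : (2 * y - algebraMap ℚ K (Algebra.trace ℚ K y)) ^ 2 = ((f : K) * δ) ^ 2 := by
      rw [hf, mul_pow, hδ]
      push_cast
      ring
    obtain ⟨g, hg, hg0⟩ : ∃ g : ℤ, 2 * y - algebraMap ℚ K (Algebra.trace ℚ K y) = (g : K) * δ ∧
        (f ≠ 0 → g ≠ 0) := by
      rcases sq_eq_sq_iff_eq_or_eq_neg.1 h1 with h | h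
      · exact ⟨f, h, fun h => h⟩
      · exact ⟨-f, by rw [h]; push_cast; ring, fun h => neg_ne_zero.2 h⟩
    refine ⟨g, ?_, fun h => hg0 (hf0 h)⟩
    have h2 : δ⁻¹ * y = (Algebra.trace ℚ K y / 2) • δ⁻¹ + algebraMap ℚ K ((g : ℚ) / 2) := by
      have h3 : y = (algebraMap ℚ K (Algebra.trace ℚ K y) + (g : K) * δ) / 2 := by
        linear_combination (1 / 2 : K) * hg
      rw [Algebra.smul_def, map_div₀, map_div₀, map_ofNat, map_intCast]
      conv_lhs => rw [h3]
      field_simp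
    rw [h2, map_add, map_smul, htri, smul_zero, zero_add, trace_rat hK]
    ring
  refine ⟨δ⁻¹, ?_, fun y hy => ?_⟩
  · have h1 : ∀ σ : K →+* ℂ, ‖σ δ⁻¹‖ ^ 2 = 1 / |(d : ℝ)| := by
      intro σ
      rw [map_inv₀, norm_inv, inv_pow, ← norm_pow, ← map_pow, hδ, map_intCast,
        Complex.norm_intCast, one_div]
    rw [Finset.sum_congr rfl fun σ _ => h1 σ, Finset.sum_const, Finset.card_univ,
      NumberField.Embeddings.card K ℂ, hK, nsmul_eq_mul]
    push_cast
    ring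
  · obtain ⟨f, hf, hf0⟩ := hkey y hy
    refine ⟨⟨f, hf⟩, fun h => ?_⟩
    rw [hf]
    exact_mod_cast hf0 h

end Pool.Agent.H74V
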