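import Pool.Agent.W_7742p_h74.KDns
import Pool.Agent.W_7742p_h74.KQua

/-! # The main theorem

* `subfield`: `density_main` with `x = 1 / [K : E]`: `Tr (x y) = y` for `y ∈ E`, and
  `∑ ‖σ x‖² / [E : ℚ] = [K : ℚ] / ([K : E]² [E : ℚ]) = 1 / [K : E]`; `dens_mono` (KAmg).
* `quad_rational`: if all coefficients of the characteristic polynomials are rational then so are the
  traces and the set is empty.  Otherwise `K` is generated by a coefficient (`[K : ℚ] = 2`), i.e.
  `GeneratedByCoeffs`, and `density_main` applies with `E = ⊥`, `x` from `quad_dual` (the trace from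
  `K` to `⊥` is the trace to `ℚ` under `IntermediateField.botEquiv`; `[⊥ : ℚ] = 1`), `dens_mono`.
* `quad_half`: `subfield` with `E = ⊥`, `[K : ⊥] = 2`.
* `quad_zero`: `dens_ge` (KAmg). -/

set_option autoImplicit false

noncomputable section

namespace Pool.Agent.H74V

open Filter Topology ComplexConjugate Pool.Agent.GL74 Pool.Agent.GLForm74

namespace SatakeSystem

variable {K : Type} [Field K] [NumberField K] {n : ℕ} {π : SatakeSystem K n}

lemma kend_trace_int (hn : 2 ≤ n) {p : ℕ} (hp : π.Good p) : IsIntegral ℤ (π.A p).trace := by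
  have : Nonempty (Fin n) := ⟨⟨0, by omega⟩⟩
  rw [Matrix.trace_eq_neg_charpoly_coeff]
  exact (π.integral p hp.1 hp.2 _).neg

lemma kend_bot (y : K) : Algebra.trace (⊥ : IntermediateField ℚ K) K y =
    algebraMap ℚ (⊥ : IntermediateField ℚ K) (Algebra.trace ℚ K y) := by
  obtain ⟨q, hq⟩ := IntermediateField.mem_bot.1
    (Algebra.trace (⊥ : IntermediateField ℚ K) K y).2
  have h1 : Algebra.trace (⊥ : IntermediateField ℚ K) K y =
      algebraMap ℚ (⊥ : IntermediateField ℚ K) q := Subtype.ext hq.symm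
  have h2 := Algebra.trace_trace (R := ℚ) (S := (⊥ : IntermediateField ℚ K)) (T := K) y
  rw [h1, Algebra.trace_algebraMap, IntermediateField.finrank_bot, one_smul] at h2
  rw [h1, h2]

lemma kend_empty {P : ℕ → Prop} (hP : ∀ p, ¬ P p) {θ : ℝ} (hθ : 0 ≤ θ) : DensityLE P θ := by
  intro ε hε
  refine Filter.Eventually.of_forall fun s => ?_
  have h1 : primeSum P s = 0 := by
    unfold primeSum
    have : IsEmpty {p : ℕ // p.Prime ∧ P p} := ⟨fun x => hP x.1 x.2.2⟩
    exact tsum_empty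
  rw [h1]
  refine mul_nonneg (by positivity) ?_
  unfold primeSum
  exact tsum_nonneg fun p => by positivity

lemma kend_gen (hK : Module.finrank ℚ K = 2) {p i : ℕ} (hp : π.Good p)
    (h : (π.A p).charpoly.coeff i ∉ Set.range (algebraMap ℚ K)) : π.GeneratedByCoeffs := by
  unfold GeneratedByCoeffs
  have := IntermediateField.isSimpleOrder_of_finrank_prime ℚ K (by rw [hK]; exact Nat.prime_two)
  rcases eq_bot_or_eq_top
    (IntermediateField.adjoin ℚ {x : K | ∃ p i, π.Good p ∧ x = (π.A p).charpoly.coeff i}) with h1 | h1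
  · exfalso
    apply h
    have h2 : (π.A p).charpoly.coeff i ∈
        IntermediateField.adjoin ℚ {x : K | ∃ p i, π.Good p ∧ x = (π.A p).charpoly.coeff i} :=
      IntermediateField.subset_adjoin ℚ _ ⟨p, i, hp, rfl⟩
    rw [h1] at h2
    exact IntermediateField.mem_bot.1 h2
  · exact h1

theorem subfield (hn : 2 ≤ n) (h : π.IsCuspidalFamily) (hg : π.GeneratedByCoeffs)
    (E : IntermediateField ℚ K) (hE : ∀ p, π.Good p → (π.A p).det ∈ E) :
    DensityLE (fun p => π.Good p ∧ (π.A p).trace ≠ 0 ∧ (π.A p).trace ∈ E)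
      (1 / (Module.finrank E K : ℝ)) := by
  have hd : 0 < Module.finrank E K := Module.finrank_pos
  have hd' : (Module.finrank E K : ℝ) ≠ 0 := by positivity
  have he : 0 < Module.finrank ℚ E := Module.finrank_pos
  have he' : (Module.finrank ℚ E : ℝ) ≠ 0 := by positivity
  have hdE : (Module.finrank E K : E) ≠ 0 := Nat.cast_ne_zero.2 hd.ne'
  have h1 := density_main hn h hg E hE (algebraMap E K ((Module.finrank E K : E)⁻¹))
  have h2 : ((∑ σ : K →+* ℂ, ‖σ (algebraMap E K ((Module.finrank E K : E)⁻¹))‖ ^ 2) /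
      (Module.finrank ℚ E : ℝ)) = 1 / (Module.finrank E K : ℝ) := by
    have h3 : ∀ σ : K →+* ℂ, ‖σ (algebraMap E K ((Module.finrank E K : E)⁻¹))‖ ^ 2 =
        ((Module.finrank E K : ℝ) ^ 2)⁻¹ := by
      intro σ
      rw [map_inv₀, map_inv₀, map_natCast, map_natCast, norm_inv, Complex.norm_natCast, inv_pow]
    rw [Finset.sum_congr rfl fun σ _ => h3 σ, Finset.sum_const, Finset.card_univ,
      NumberField.Embeddings.card K ℂ, ← Module.finrank_mul_finrank ℚ E K, nsmul_eq_mul,
      Nat.cast_mul]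
    field_simp
  rw [h2] at h1
  refine dens_mono ?_ h1
  rintro p ⟨hp, h0, hpE⟩
  have hy : Algebra.trace E K (algebraMap E K ((Module.finrank E K : E)⁻¹) * (π.A p).trace) =
      ⟨(π.A p).trace, hpE⟩ := by
    have h4 : algebraMap E K ((Module.finrank E K : E)⁻¹) * (π.A p).trace =
        algebraMap E K ((Module.finrank E K : E)⁻¹ * ⟨(π.A p).trace, hpE⟩) := by
      rw [map_mul]
      rfl
    rw [h4, Algebra.trace_algebraMap, nsmul_eq_mul, mul_inv_cancel_left₀ hdE]
  refine ⟨hp, ?_, ?_⟩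
  · rw [hy]
    have h5 : IsIntegral ℤ (algebraMap E K ⟨(π.A p).trace, hpE⟩) := kend_trace_int hn hp
    exact (isIntegral_algebraMap_iff (algebraMap E K).injective).1 h5
  · rw [hy]
    intro h6
    exact h0 (congrArg Subtype.val h6)

theorem quad_rational (hn : 2 ≤ n) (h : π.IsCuspidalFamily) (hK : Module.finrank ℚ K = 2)
    (hdet : ∀ p, π.Good p → (π.A p).det ∈ Set.range (algebraMap ℚ K)) :
    DensityLE (fun p => π.Good p ∧ (π.A p).trace ∉ Set.range (algebraMap ℚ K))
      (2 / |(NumberField.discr K : ℝ)|) := by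
  by_cases hc : ∀ p i, π.Good p → (π.A p).charpoly.coeff i ∈ Set.range (algebraMap ℚ K)
  · refine kend_empty ?_ (by positivity)
    rintro p ⟨hp, h1⟩
    apply h1
    have : Nonempty (Fin n) := ⟨⟨0, by omega⟩⟩
    rw [Matrix.trace_eq_neg_charpoly_coeff]
    obtain ⟨q, hq⟩ := hc p (Fintype.card (Fin n) - 1) hp
    exact ⟨-q, by rw [map_neg, hq]⟩
  · push Not at hc
    obtain ⟨p₀, i₀, hp₀, hc₀⟩ := hc
    have hg : π.GeneratedByCoeffs := kend_gen hK hp₀ hc₀
    obtain ⟨x, hx1, hx2⟩ := quad_dual hK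
    have h1 := density_main hn h hg ⊥ (fun p hp => IntermediateField.mem_bot.2 (hdet p hp)) x
    rw [hx1, IntermediateField.finrank_bot, Nat.cast_one, div_one] at h1
    refine dens_mono ?_ h1
    rintro p ⟨hp, h2⟩
    obtain ⟨⟨f, hf⟩, h3⟩ := hx2 _ (kend_trace_int hn hp)
    refine ⟨hp, ?_, ?_⟩
    · rw [kend_bot, hf, map_intCast]
      exact isIntegral_algebraMap (R := ℤ) (A := (⊥ : IntermediateField ℚ K)) (x := f)
    · rw [kend_bot]
      intro h4
      exact h3 h2 ((map_eq_zero _).1 h4)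

theorem quad_half (hn : 2 ≤ n) (h : π.IsCuspidalFamily) (hK : Module.finrank ℚ K = 2)
    (hdet : ∀ p, π.Good p → (π.A p).det ∈ Set.range (algebraMap ℚ K))
    (hg : π.GeneratedByCoeffs) :
    DensityLE (fun p => π.Good p ∧ (π.A p).trace ≠ 0 ∧
      (π.A p).trace ∈ Set.range (algebraMap ℚ K)) (1 / 2) := by
  have h1 := subfield hn h hg ⊥ (fun p hp => IntermediateField.mem_bot.2 (hdet p hp))
  rw [IntermediateField.finrank_bot', hK] at h1
  norm_num at h1 ⊢
  refine dens_mono ?_ h1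
  rintro p ⟨hp, h0, x, hx⟩
  exact ⟨hp, h0, IntermediateField.mem_bot.2 ⟨x, hx⟩⟩

theorem quad_zero (hn : 2 ≤ n) (h : π.IsCuspidalFamily) (hK : Module.finrank ℚ K = 2)
    (hdet : ∀ p, π.Good p → (π.A p).det ∈ Set.range (algebraMap ℚ K))
    (hg : π.GeneratedByCoeffs) :
    DensityGE (fun p => π.Good p ∧ (π.A p).trace = 0)
      (1 / 2 - 2 / |(NumberField.discr K : ℝ)|) := by
  have h1 := dens_ge (P₁ := fun p => π.Good p ∧ (π.A p).trace = 0) π.level_pos (by
    intro p hp hl
    by_cases h0 : (π.A p).trace = 0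
    · exact Or.inl ⟨⟨hp, hl⟩, h0⟩
    · by_cases hr : (π.A p).trace ∈ Set.range (algebraMap ℚ K)
      · exact Or.inr (Or.inl ⟨⟨hp, hl⟩, h0, hr⟩)
      · exact Or.inr (Or.inr ⟨⟨hp, hl⟩, hr⟩)) (quad_half hn h hK hdet hg)
    (quad_rational hn h hK hdet)
  have h2 : (1 : ℝ) - 1 / 2 - 2 / |(NumberField.discr K : ℝ)| =
      1 / 2 - 2 / |(NumberField.discr K : ℝ)| := by ring
  rw [h2] at h1
  exact h1

end SatakeSystem

end Pool.Agent.H74V
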