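import Pool.Agent.W_7742p_h74.KPrd
import Pool.Agent.W_7742x_h74.LBad

/-! # The Euler product of a pair

As `euler_bad` (LBad.lean).  For the finite sets `s` of primes put `Q = LBad_Q good s`
(the good primes in `s`).  `sumC_prod` and `locC_eq` (`det (B p) = det (B' p)`, `‖det (B p)‖ = 1` by
`norm_det`) give with `Z s = ∏_{p ∈ Q} (1 - p^{-n σ})⁻¹`, `n = r + 1`,
`Z s * ∑' JC = exp (∑_{p ∈ s} ∑' k, TC (p, k) pk σ (p, k)) * ∑' m : MZ r Q, JC`.
Let `s → ∞`: `Z s → Zgood` (proof of `euler_bad`, `LBad_euler`, `LBad_lim`; `Zgood` is finite),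
the exponent tends to `∑' x, TC x * pk σ x` (absolutely summable: `tc_norm_le`, `euler_bad` for
`φ` and for `ψ`), and `∑' m : MZ r Q, JC → ∑' m : MZ r {p | good p}, JC` (`tsum_lim`: dominated
convergence `tendsto_tsum_of_dominated_convergence` for the indicator functions; the sets are
described in the proof of `euler_bad`).  -/

set_option autoImplicit false

noncomputable section

namespace Pool.Agent.GL74

open MeasureTheory ComplexConjugate
open scoped ENNReal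
open Pool.Agent.H74E (pk)

open Classical in
/-- The coefficients `tr (B⁻¹ ^ k) conj (tr (B'⁻¹ ^ k))`, `k = x.2 + 1`. -/
def TC {n : ℕ} (good : ℕ → Prop) (B B' : ℕ → Matrix (Fin n) (Fin n) ℂ)
    (x : Nat.Primes × ℕ) : ℂ :=
  if good x.1 then ((B x.1)⁻¹ ^ (x.2 + 1)).trace * conj ((B' x.1)⁻¹ ^ (x.2 + 1)).trace else 0

theorem tc_norm_le {n : ℕ} (good : ℕ → Prop) (B B' : ℕ → Matrix (Fin n) (Fin n) ℂ)
    (x : Nat.Primes × ℕ) : ‖TC good B B' x‖ ≤ (TT good B x + TT good B' x) / 2 := by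
  unfold TC TT
  split_ifs with h
  · rw [norm_mul, RCLike.norm_conj]
    nlinarith [sq_nonneg (‖((B x.1)⁻¹ ^ (x.2 + 1)).trace‖ - ‖((B' x.1)⁻¹ ^ (x.2 + 1)).trace‖)]
  · simp

theorem tsum_lim {α : Type} {f : α → ℂ} (hf : Summable fun a => ‖f a‖)
    {A : Finset Nat.Primes → Set α} {A₀ : Set α}
    (hA : ∀ a, ∀ᶠ s in Filter.atTop, (a ∈ A s ↔ a ∈ A₀)) :
    Filter.Tendsto (fun s => ∑' a : A s, f a) Filter.atTop (nhds (∑' a : A₀, f a)) := by
  classical
  have key : ∀ C : Set α, ∑' a : C, f a = ∑' a, C.indicator f a := fun C => tsum_subtype C f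
  simp only [key]
  refine tendsto_tsum_of_dominated_convergence (bound := fun a => ‖f a‖) hf (fun a => ?_)
    (Filter.Eventually.of_forall fun s a => ?_)
  · refine tendsto_const_nhds.congr' ?_
    filter_upwards [hA a] with s hs
    unfold Set.indicator
    by_cases h : a ∈ A₀
    · rw [if_pos h, if_pos (hs.2 h)]
    · rw [if_neg h, if_neg fun h' => h (hs.1 h')]
  · exact norm_indicator_le_norm_self _ _

/-- The determinant is `ξ` (the Hecke operator for `k = n` is the translation by `p`, cf.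
`norm_det`). -/
theorem det_eq_xi {r : ℕ} {φ : X (r + 1) → ℂ} {good : ℕ → Prop} {ξ : ℕ → ℂ}
    {B : ℕ → Matrix (Fin (r + 1)) (Fin (r + 1)) ℂ} (h : IsHeckeForm φ good ξ B)
    (hne : ∃ g, φ g ≠ 0) {p : ℕ} (hp : good p) : (B p).det = ξ p := by
  obtain ⟨g, hg⟩ := hne
  have h1 := h.eig p hp (Fin.last r) g
  have hpp := h.prime p hp
  have h2 : Finset.powersetCard (r + 1) (Finset.univ : Finset (Fin (r + 1))) =
      {Finset.univ} := by
    have h2 := Finset.powersetCard_self (Finset.univ : Finset (Fin (r + 1)))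
    rwa [Finset.card_univ, Fintype.card_fin] at h2
  rw [Fin.val_last, h2, Finset.sum_singleton, if_pos (Finset.mem_univ _), Hk, LBad_bs,
    Finset.sum_singleton, LBad_lm, h.scale _ (by exact_mod_cast hpp.pos), Nat.sub_self, mul_zero,
    pow_zero, one_mul, emx_last] at h1
  exact (mul_right_cancel₀ hg h1).symm

/-- The Euler products over finite sets of primes converge. -/
theorem KEul_zlim {good : ℕ → Prop} {x : ℝ} (hx : 1 < x) :
    Zgood good x ≠ ∞ ∧ Filter.Tendsto (fun s : Finset Nat.Primes =>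
      ∏ p ∈ LBad_Q good s, ENNReal.ofReal ((1 - (p : ℝ) ^ (-x))⁻¹)) Filter.atTop
      (nhds (Zgood good x)) := by
  classical
  set Z : Finset Nat.Primes → ℝ≥0∞ := fun s =>
    ∏ p ∈ LBad_Q good s, ENNReal.ofReal ((1 - (p : ℝ) ^ (-x))⁻¹) with hZ
  have hQp : ∀ s, ∀ q ∈ LBad_Q good s, q.Prime := fun s q hq => (LBad_mem.1 hq).2.1
  have hZs : ∀ s, Z s = ∑' t : {t : ℕ | t ≠ 0 ∧ ∀ p : ℕ, p.Prime → p ∣ t → p ∈ LBad_Q good s},
      ENNReal.ofReal ((t.1 : ℝ) ^ (-x)) := fun s => (LBad_euler hx _ (hQp s)).symm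
  have hZfin : ∑' t : ℕ, ENNReal.ofReal ((t : ℝ) ^ (-x)) ≠ ∞ := by
    rw [← ENNReal.ofReal_tsum_of_nonneg (fun t => by positivity)
      (Real.summable_nat_rpow.2 (by linarith))]
    exact ENNReal.ofReal_ne_top
  refine ⟨ne_top_of_le_ne_top hZfin
    (ENNReal.tsum_comp_le_tsum_of_injective Subtype.val_injective
      (fun t : ℕ => ENNReal.ofReal ((t : ℝ) ^ (-x)))), ?_⟩
  have h1 := LBad_lim (f := fun t : ℕ => ENNReal.ofReal ((t : ℝ) ^ (-x))) hZfin
    (A := fun s => {t : ℕ | t ≠ 0 ∧ ∀ p : ℕ, p.Prime → p ∣ t → p ∈ LBad_Q good s})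
    (A₀ := {t : ℕ | t ≠ 0 ∧ ∀ p : ℕ, p.Prime → p ∣ t → good p}) (fun t => by
      by_cases ht : t = 0
      · refine Filter.Eventually.of_forall fun s => ?_
        simp [ht]
      · filter_upwards [Filter.eventually_ge_atTop
          ((t.primeFactors.attach.image fun q : t.primeFactors =>
            (⟨q.1, Nat.prime_of_mem_primeFactors q.2⟩ : Nat.Primes)))] with s hs
        refine and_congr_right fun _ => forall_congr' fun p => forall_congr' fun hp =>
          forall_congr' fun hpt => ?_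
        rw [LBad_mem]
        refine ⟨fun h' => h'.1, fun h' => ⟨h', hp, hs ?_⟩⟩
        rw [Finset.mem_image]
        exact ⟨⟨p, Nat.mem_primeFactors.2 ⟨hp, hpt, ht⟩⟩, Finset.mem_attach _ _, rfl⟩)
  refine h1.congr fun s => ?_
  exact (hZs s).symm

/-- The local factors of a pair at a good prime. -/
theorem KEul_loc {r : ℕ} {φ ψ : X (r + 1) → ℂ} {good : ℕ → Prop} {ξ : ℕ → ℂ}
    {B B' : ℕ → Matrix (Fin (r + 1)) (Fin (r + 1)) ℂ} (h : IsHeckeForm φ good ξ B)
    (h' : IsHeckeForm ψ good ξ B') (hne : ∃ g, φ g ≠ 0) (hne' : ∃ g, ψ g ≠ 0) {σ : ℝ}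
    (hσ : 1 < σ) (h0 : ∑' m : Fin r → ℤ, JJ φ σ m ≠ 0) (hfin : ∑' m : Fin r → ℤ, JJ φ σ m ≠ ∞)
    (h0' : ∑' m : Fin r → ℤ, JJ ψ σ m ≠ 0) (hfin' : ∑' m : Fin r → ℤ, JJ ψ σ m ≠ ∞)
    {p : Nat.Primes} (hp : good p) :
    (((1 - ((p : ℕ) : ℝ) ^ (-((r + 1 : ℕ) * σ)))⁻¹ : ℝ) : ℂ) *
      locC (B p) (B' p) (((p : ℕ) : ℝ) ^ (-σ)) =
        Complex.exp (∑' k : ℕ, TC good B B' (p, k) * (pk σ (p, k) : ℂ)) := by
  classical
  have hp1 : (1 : ℝ) < (p : ℕ) := by exact_mod_cast p.2.one_lt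
  have hx0 : 0 < ((p : ℕ) : ℝ) ^ (-σ) := by positivity
  have hx1 : ((p : ℕ) : ℝ) ^ (-σ) < 1 := Real.rpow_lt_one_of_one_lt_of_neg hp1 (by linarith)
  have h1 := (locC_eq (norm_det h hne hp) ((det_eq_xi h' hne' hp).trans (det_eq_xi h hne hp).symm)
    hx0 hx1 (locF_fin h h0 hfin hp) (locF_fin h' h0' hfin' hp)).2
  have h2 : ∀ k : ℕ, ((B p)⁻¹ ^ (k + 1)).trace * conj ((B' p)⁻¹ ^ (k + 1)).trace *
        (((((p : ℕ) : ℝ) ^ (-σ)) ^ (k + 1) / ((k : ℝ) + 1) : ℝ) : ℂ) =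
      TC good B B' (p, k) * (pk σ (p, k) : ℂ) := by
    intro k
    rw [LBad_pk, TC, if_pos hp]
  simp only [h2] at h1
  have h3 : (((p : ℕ) : ℝ) ^ (-σ)) ^ (r + 1) = ((p : ℕ) : ℝ) ^ (-((r + 1 : ℕ) * σ)) := by
    rw [← Real.rpow_natCast, ← Real.rpow_mul (by positivity)]
    congr 1
    push_cast
    ring
  have h4 : (((p : ℕ) : ℝ) ^ (-σ)) ^ (r + 1) < 1 := pow_lt_one₀ hx0.le hx1 (Nat.succ_ne_zero r)
  rw [h3] at h1 h4
  rw [h1, ← mul_assoc, ← Complex.ofReal_mul, inv_mul_cancel₀ (by linarith), Complex.ofReal_one,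
    one_mul]

theorem euler_pair {r : ℕ} {φ ψ : X (r + 1) → ℂ} {good : ℕ → Prop} {ξ : ℕ → ℂ}
    {B B' : ℕ → Matrix (Fin (r + 1)) (Fin (r + 1)) ℂ} (h : IsHeckeForm φ good ξ B)
    (h' : IsHeckeForm ψ good ξ B') (hne : ∃ g, φ g ≠ 0) (hne' : ∃ g, ψ g ≠ 0) {σ : ℝ}
    (hσ : 1 < σ) (h0 : ∑' m : Fin r → ℤ, JJ φ σ m ≠ 0) (hfin : ∑' m : Fin r → ℤ, JJ φ σ m ≠ ∞)
    (h0' : ∑' m : Fin r → ℤ, JJ ψ σ m ≠ 0) (hfin' : ∑' m : Fin r → ℤ, JJ ψ σ m ≠ ∞) :
    (Summable fun x => ‖TC good B B' x‖ * pk σ x) ∧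
      ((Zgood good ((r + 1 : ℕ) * σ)).toReal : ℂ) * ∑' m : Fin r → ℤ, JC φ ψ σ m =
        Complex.exp (∑' x, TC good B B' x * (pk σ x : ℂ)) *
          ∑' m : MZ r {p | good p}, JC φ ψ σ m.1 := by
  classical
  have hx : (1 : ℝ) < (r + 1 : ℕ) * σ := by
    have : (1 : ℝ) ≤ ((r + 1 : ℕ) : ℝ) := by exact_mod_cast Nat.succ_le_succ (Nat.zero_le r)
    nlinarith
  set x : ℝ := (r + 1 : ℕ) * σ with hxd
  set I : ℂ := ∑' m : Fin r → ℤ, JC φ ψ σ m with hI
  set S : Finset Nat.Primes → ℂ := fun s =>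
    ∑' m : MZ r (LBad_Q good s : Set ℕ), JC φ ψ σ m.1 with hS
  set Z : Finset Nat.Primes → ℝ≥0∞ := fun s =>
    ∏ p ∈ LBad_Q good s, ENNReal.ofReal ((1 - (p : ℝ) ^ (-x))⁻¹) with hZ
  set EC : Nat.Primes → ℂ := fun p => ∑' k : ℕ, TC good B B' (p, k) * (pk σ (p, k) : ℂ) with hEC
  have hQg : ∀ s, ∀ q ∈ LBad_Q good s, good q := fun s q hq => (LBad_mem.1 hq).1
  have hlt : ∀ p : ℕ, p.Prime → (p : ℝ) ^ (-x) < 1 := fun p hp =>
    Real.rpow_lt_one_of_one_lt_of_neg (by exact_mod_cast hp.one_lt) (by linarith)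
  have hZr : ∀ s, (Z s).toReal = ∏ p ∈ LBad_Q good s, (1 - (p : ℝ) ^ (-x))⁻¹ := by
    intro s
    rw [hZ]
    simp only
    rw [ENNReal.toReal_prod]
    refine Finset.prod_congr rfl fun p hp => ENNReal.toReal_ofReal (inv_nonneg.2 ?_)
    have := hlt p (LBad_mem.1 hp).2.1
    linarith
  -- the relation for finite sets
  have hrel : ∀ s, ((Z s).toReal : ℂ) * I = Complex.exp (∑ p ∈ s, EC p) * S s := by
    intro s
    rw [hI, sumC_prod h h' h0 hfin h0' hfin' (LBad_Q good s) (hQg s), ← mul_assoc, hZr,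
      Complex.ofReal_prod, ← Finset.prod_mul_distrib]
    congr 1
    unfold LBad_Q
    rw [Finset.prod_map]
    simp only [Function.Embedding.coeFn_mk]
    rw [Complex.exp_sum, ← Finset.prod_filter_mul_prod_filter_not s
      (fun p : Nat.Primes => good p) (fun p => Complex.exp (EC p))]
    have h1 : ∏ p ∈ s.filter (fun p : Nat.Primes => ¬ good p), Complex.exp (EC p) = 1 := by
      refine Finset.prod_eq_one fun p hp => ?_
      have h2 := (Finset.mem_filter.1 hp).2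
      have h3 : EC p = 0 := by
        rw [hEC]
        simp only
        have h4 : ∀ k : ℕ, TC good B B' (p, k) * (pk σ (p, k) : ℂ) = 0 := by
          intro k
          rw [TC, if_neg h2, zero_mul]
        simp only [h4, tsum_zero]
      rw [h3, Complex.exp_zero]
    rw [h1, mul_one]
    refine Finset.prod_congr rfl fun p hp => ?_
    exact KEul_loc h h' hne hne' hσ h0 hfin h0' hfin' (Finset.mem_filter.1 hp).2
  obtain ⟨hZgfin, hZlim⟩ := KEul_zlim (good := good) hx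
  have hZlim2 : Filter.Tendsto (fun s => ((Z s).toReal : ℂ)) Filter.atTop
      (nhds ((Zgood good x).toReal : ℂ)) :=
    (Complex.continuous_ofReal.tendsto _).comp ((ENNReal.tendsto_toReal hZgfin).comp hZlim)
  have hSlim : Filter.Tendsto S Filter.atTop (nhds (∑' m : MZ r {p | good p}, JC φ ψ σ m.1)) := by
    refine tsum_lim (f := fun m : Fin r → ℤ => JC φ ψ σ m)
      (summable_jc h.isP.meas h'.isP.meas hfin hfin')
      (A := fun s => {m : Fin r → ℤ | ∀ i, m i ≠ 0 ∧ ∀ p ∈ (LBad_Q good s : Set ℕ),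
        ¬ (p : ℤ) ∣ m i})
      (A₀ := {m : Fin r → ℤ | ∀ i, m i ≠ 0 ∧ ∀ p ∈ {p | good p}, ¬ (p : ℤ) ∣ m i}) (fun m => ?_)
    by_cases hm : ∀ i, m i ≠ 0 ∧ ∀ p ∈ {p | good p}, ¬ (p : ℤ) ∣ m i
    · refine Filter.Eventually.of_forall fun s => ?_
      refine ⟨fun _ => hm, fun _ i => ⟨(hm i).1, fun p hp => (hm i).2 p ?_⟩⟩
      exact hQg s p (by exact_mod_cast hp)
    · by_cases hm0 : ∀ i, m i ≠ 0
      · obtain ⟨i, p, hp, hd⟩ : ∃ i, ∃ p, good p ∧ (p : ℤ) ∣ m i := by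
          by_contra hcon
          push Not at hcon
          exact hm fun i => ⟨hm0 i, fun p hp => hcon i p hp⟩
        filter_upwards [Filter.eventually_ge_atTop
          ({(⟨p, h.prime p hp⟩ : Nat.Primes)} : Finset Nat.Primes)] with s hs
        refine ⟨fun h1 => absurd hd ((h1 i).2 p ?_), fun h1 => absurd h1 hm⟩
        have : p ∈ LBad_Q good s := LBad_mem.2 ⟨hp, h.prime p hp, hs (Finset.mem_singleton_self _)⟩
        exact_mod_cast this
      · push Not at hm0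
        obtain ⟨i, hi⟩ := hm0
        refine Filter.Eventually.of_forall fun s => ?_
        exact ⟨fun h1 => absurd hi (h1 i).1, fun h1 => absurd h1 hm⟩
  have hsum1 := (euler_bad h hne hσ h0 hfin).1
  have hsum2 := (euler_bad h' hne' hσ h0' hfin').1
  have hsum : Summable fun x => ‖TC good B B' x‖ * pk σ x := by
    refine Summable.of_nonneg_of_le (fun y => mul_nonneg (norm_nonneg _)
      (Pool.Agent.H74E.pk_nonneg _ _)) (fun y => ?_) ((hsum1.add hsum2).div_const 2)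
    have h1 := mul_le_mul_of_nonneg_right (tc_norm_le good B B' y)
      (Pool.Agent.H74E.pk_nonneg σ y)
    calc _ ≤ _ := h1
      _ = _ := by ring
  refine ⟨hsum, ?_⟩
  have hsumC : Summable fun y => TC good B B' y * (pk σ y : ℂ) := by
    refine Summable.of_norm ?_
    refine hsum.congr fun y => ?_
    rw [norm_mul, Complex.norm_real, Real.norm_eq_abs,
      abs_of_nonneg (Pool.Agent.H74E.pk_nonneg _ _)]
  have hexp : Filter.Tendsto (fun s : Finset Nat.Primes => Complex.exp (∑ p ∈ s, EC p))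
      Filter.atTop (nhds (Complex.exp (∑' y, TC good B B' y * (pk σ y : ℂ)))) := by
    rw [hsumC.tsum_prod]
    exact (Complex.continuous_exp.tendsto _).comp hsumC.prod.hasSum
  have hL : Filter.Tendsto (fun s => ((Z s).toReal : ℂ) * I) Filter.atTop
      (nhds (((Zgood good x).toReal : ℂ) * I)) := hZlim2.mul_const I
  have hR : Filter.Tendsto (fun s => ((Z s).toReal : ℂ) * I) Filter.atTop
      (nhds (Complex.exp (∑' y, TC good B B' y * (pk σ y : ℂ)) *
        ∑' m : MZ r {p | good p}, JC φ ψ σ m.1)) := by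
    simp only [hrel]
    exact hexp.mul hSlim
  exact tendsto_nhds_unique hL hR

end Pool.Agent.GL74
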