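import Pool.Agent.W_7742p_h74.KStm
import Pool.Agent.W_7742p_h74.KBur
import Pool.Agent.W_7742w_h74.Fam

/-! # Families of cusp forms: single conjugates

* `family_one`: `weakRS` (QRS) and `WeakRS.log_le`, `WeakRS.summable` (ZDef); the squares of the
  `‖π.ts σ x‖` are the `TT ... x` (LBad).
* `tin_eq`: unitarity (`cuspidal_main`: `π.Unitary σ`) and `map_inv_of_det`, `map_trace_pow`. -/

set_option autoImplicit false

noncomputable section

namespace Pool.Agent.H74V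

open Filter Topology ComplexConjugate Pool.Agent.GL74 Pool.Agent.GLForm74
open Pool.Agent.H74E (pk)

namespace SatakeSystem

variable {K : Type} [Field K] [NumberField K] {n : ℕ} {π : SatakeSystem K n}

/-- The system of traces of a conjugate. -/
def ts (π : SatakeSystem K n) (σ : K →+* ℂ) : Nat.Primes × ℕ → ℂ :=
  tin (fun p => p.Prime ∧ ¬ p ∣ π.level) fun p => (π.A p).map σ

theorem isCuspidal_of_family (h : π.IsCuspidalFamily) (σ : K →+* ℂ) : π.IsCuspidal σ := by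
  obtain ⟨χ, f, h, -⟩ := h
  obtain ⟨h1, h2, h3⟩ := h σ
  exact ⟨χ σ, f σ, h1, h2, h3⟩

theorem tin_eq (hn : 2 ≤ n) (h : π.IsCuspidalFamily) (σ : K →+* ℂ) {x : Nat.Primes × ℕ}
    (hx : π.Good x.1) : π.ts σ x = conj (σ (π.A x.1 ^ (x.2 + 1)).trace) := by
  have hu := (cuspidal_main hn (isCuspidal_of_family h σ)).1
  have key : ∀ (p : ℕ), π.Good p → ∀ k : ℕ, (((π.A p).map σ)⁻¹ ^ k).trace =
      conj (σ (π.A p ^ k).trace) := by
    intro p hp k
    rw [hu p hp, GL74.map_trace_pow _ σ, GL74.map_inv_of_det (π.det_ne_zero p hp.1 hp.2) σ]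
  have h2 := key x.1 hx (x.2 + 1)
  exact (if_pos hx).trans h2

theorem family_one (hn : 2 ≤ n) (h : π.IsCuspidalFamily) (σ : K →+* ℂ) :
    ∃ C : ℝ, ∀ s : ℝ, 1 < s → s ≤ 2 → (Summable fun x => ‖π.ts σ x‖ ^ 2 * pk s x) ∧
      ∑' x, ‖π.ts σ x‖ ^ 2 * pk s x ≤ Real.log (1 / (s - 1)) + C := by
  have hw : WeakRS (fun x => ‖π.ts σ x‖ ^ 2) := by
    refine (cuspidal_main hn (isCuspidal_of_family h σ)).2 _ (fun x hx => ?_) (fun x hx => ?_)
    · exact congrArg (fun z : ℂ => ‖z‖ ^ 2) (tin_eq hn h σ hx) |>.trans (by rw [Complex.norm_conj])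
    · have h1 : π.ts σ x = 0 := if_neg hx
      exact congrArg (fun z : ℂ => ‖z‖ ^ 2) h1 |>.trans (by rw [norm_zero]; norm_num)
  have h0 : ∀ x, 0 ≤ ‖π.ts σ x‖ ^ 2 := fun x => sq_nonneg _
  obtain ⟨C, hC⟩ := hw.log_le h0
  exact ⟨C, fun s hs hs2 => ⟨hw.summable h0 hs, hC s hs hs2⟩⟩

end SatakeSystem

end Pool.Agent.H74V
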