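import Pool.Agent.W_7742p_h74.KSt2
import Pool.Agent.W_7742p_h74.KEnd
import Pool.Agent.W_7742p_h74.KGen

/-! # The mean squares

`bessel` (KBes); the sum over `Nat.Primes` of the terms for good primes is the sum over
`{p // π.Good p}`; `primeSum (fun _ => True) s ≥ log (1 / (s - 1)) - C` as in the proof of `dens_of_le`
(KAmg). -/

set_option autoImplicit false

noncomputable section

namespace Pool.Agent.H74V

open Filter Topology ComplexConjugate

namespace SatakeSystem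

variable {K : Type} [Field K] [NumberField K] {n : ℕ} {π : SatakeSystem K n}

theorem meanSquare (hn : 2 ≤ n) (h : π.IsCuspidalFamily) (hg : π.GeneratedByCoeffs)
    (a : (K →+* ℂ) → ℂ) (ha : ∀ σ τ, a σ ≠ 0 → a τ ≠ 0 → ∀ p, π.Good p →
      σ (π.A p).det = τ (π.A p).det) : π.MeanSquareLE a (∑ σ, ‖a σ‖ ^ 2) := by
  classical
  obtain ⟨C, hC⟩ := bessel hn h hg a ha
  have hθ : 0 ≤ ∑ σ, ‖a σ‖ ^ 2 := Finset.sum_nonneg fun σ _ => by positivity
  intro ε hε
  obtain ⟨C0, hC0⟩ := Maass74.neg_log_le_primes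
  filter_upwards [hC0, pS_large (((∑ σ, ‖a σ‖ ^ 2) * C0 + C) / ε), lt_two,
    self_mem_nhdsWithin] with s h1 h2 h3 h4
  have hs : (1 : ℝ) < s := h4
  obtain ⟨hsum, hle⟩ := hC s hs h3.le
  set F : Nat.Primes → ℝ := fun p => (if π.Good p then
    ‖∑ σ, a σ * σ (π.A p).trace‖ ^ 2 else 0) * ((p : ℕ) : ℝ) ^ (-s) with hF
  let i : {p : ℕ // π.Good p} → Nat.Primes := fun p => ⟨p.1, p.2.1⟩
  have hi : Function.Injective i := fun p q hpq => by
    have h5 : (i p : ℕ) = i q := congrArg Subtype.val hpq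
    exact Subtype.ext h5
  have hzero : ∀ q, q ∉ Set.range i → F q = 0 := by
    intro q hq
    have h5 : ¬ π.Good (q : ℕ) := fun h6 => hq ⟨⟨q, h6⟩, rfl⟩
    rw [hF]
    simp only
    rw [if_neg h5, zero_mul]
  have hFi : ∀ p : {p : ℕ // π.Good p}, F (i p) =
      ‖∑ σ, a σ * σ (π.A p).trace‖ ^ 2 * ((p : ℕ) : ℝ) ^ (-s) := fun p => by
    rw [hF]
    simp only
    rw [if_pos (show π.Good ((i p : Nat.Primes) : ℕ) from p.2)]
  have e1 : (fun p : {p : ℕ // π.Good p} =>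
      ‖∑ σ, a σ * σ (π.A p).trace‖ ^ 2 * ((p : ℕ) : ℝ) ^ (-s)) = F ∘ i := by
    funext p
    exact (hFi p).symm
  have e2 : Summable (F ∘ i) := (hi.summable_iff hzero).2 hsum
  have e3 : ∑' p, (F ∘ i) p = ∑' q, F q := hi.tsum_eq (f := F) (fun q hq => by
    by_contra hq'
    exact hq (hzero q hq'))
  rw [e1]
  refine ⟨e2, ?_⟩
  rw [show tsum (F ∘ i) = ∑' q, F q from e3]
  rw [one_div, Real.log_inv] at hle
  rw [← pS_true] at h1
  have h6 := mul_le_mul_of_nonneg_left h1 hθ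
  have h7 : (∑ σ, ‖a σ‖ ^ 2) * C0 + C ≤ ε * primeSum (fun _ => True) s := by
    have := mul_le_mul_of_nonneg_left h2 hε.le
    rwa [mul_div_cancel₀ _ hε.ne'] at this
  linarith

end SatakeSystem

end Pool.Agent.H74V
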