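import Pool.Agent.W_7742x_h74.LSca

/-! # Scaling of the rows for Bochner integrals

`fl_scale` (LSca) for the indicator functions says that `fl n = c • (fl n).map S`, where
`S t = (fun i j => D i * t i j)` and `c = ENNReal.ofReal (∏ |D j| ^ ...)`.  Hence
`∫ F ∂(fl n) = c.toReal • ∫ F (S t) ∂(fl n)` (`integral_smul_measure`, `integral_map`). -/

set_option autoImplicit false

noncomputable section

namespace Pool.Agent.GL74

open MeasureTheory
open scoped ENNReal

theorem fl_scale_int {n : ℕ} (D : Fin n → ℝ) (hD : ∀ i, D i ≠ 0) {F : X n → ℂ}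
    (hF : Measurable F) :
    ∫ t, F t ∂(fl n) = ((∏ j : Fin n, |D j| ^ (2 * n - 1 - 2 * (j : ℕ)) : ℝ) : ℂ) *
      ∫ t, F (fun i j => D i * t i j) ∂(fl n) := by
  have hS : Measurable fun t : X n => (fun i j => D i * t i j : X n) := LSca_measRow D
  have hc : (0 : ℝ) ≤ ∏ j : Fin n, |D j| ^ (2 * n - 1 - 2 * (j : ℕ)) :=
    Finset.prod_nonneg fun j _ => pow_nonneg (abs_nonneg _) _
  have hmu : fl n = ENNReal.ofReal (∏ j : Fin n, |D j| ^ (2 * n - 1 - 2 * (j : ℕ))) •
      (fl n).map (fun t : X n => (fun i j => D i * t i j : X n)) := by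
    ext A hA
    have h1 := fl_scale D hD (F := A.indicator 1) (measurable_one.indicator hA)
    rw [lintegral_indicator_one hA] at h1
    rw [h1, Measure.smul_apply, Measure.map_apply hS hA, smul_eq_mul,
      ← lintegral_indicator_one (hS hA)]
    rfl
  have h2 : ∫ t, F t ∂(fl n) = ∫ t, F t ∂(ENNReal.ofReal
      (∏ j : Fin n, |D j| ^ (2 * n - 1 - 2 * (j : ℕ))) •
      (fl n).map (fun t : X n => (fun i j => D i * t i j : X n))) := by
    rw [← hmu]
  rw [h2, integral_smul_measure, integral_map hS.aemeasurable hF.aestronglyMeasurable,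
    ENNReal.toReal_ofReal hc, Complex.real_smul]

end Pool.Agent.GL74
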