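import Pool.Agent.W_7742p_h74.KWhi
import Pool.Agent.W_7742p_h74.KSca
import Pool.Agent.W_7742x_h74.LLoc

/-! # The Whittaker integrals of a pair of functions

`JC φ ψ σ m = ∫ Wh φ m t * conj (Wh ψ m t) * gs (t 0) * |dt t|^{σ - n}`, `n = r + 1`.

* `jc_norm_le`: `‖a * conj b‖ ≤ (‖a‖² + ‖b‖²) / 2`; the integral `JJ φ σ m` (LLoc) is the integral of
  the square of the norm against the same weight `gs (t 0) * |dt t|^{σ - n} ≥ 0`.
* `jc_pow`: as `JJ_pow` (LLoc.lean: copy that proof), with `fl_scale_int` and `pair_whit`.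
* `jc_zero`: `LLoc_zero` and `ae_diag`.
* `jc_eq_jj`: `z * conj z = ‖z‖²`.
* `jj_polar`: `Wh (φ + z ψ) = Wh φ + z Wh ψ` (`HPie_Wh_add`, `Wh_const_mul`) and
  `‖a + z b‖² = ‖a‖² + ‖b‖² + 2 Re (conj z * (a * conj b))` for `‖z‖ = 1`. -/

set_option autoImplicit false

noncomputable section

namespace Pool.Agent.GL74

open MeasureTheory ComplexConjugate
open scoped ENNReal

/-- The integrand. -/
def JW {r : ℕ} (φ ψ : X (r + 1) → ℂ) (σ : ℝ) (m : Fin r → ℤ) (t : X (r + 1)) : ℂ :=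
  Wh (r + 1) φ (ext m) t * conj (Wh (r + 1) ψ (ext m) t) *
    ((gs (t 0) * |dt t| ^ (σ - (r + 1)) : ℝ) : ℂ)

/-- The Whittaker integrals of a pair. -/
def JC {r : ℕ} (φ ψ : X (r + 1) → ℂ) (σ : ℝ) (m : Fin r → ℤ) : ℂ :=
  ∫ t, JW φ ψ σ m t ∂(fl (r + 1))

/-- The weight is nonnegative. -/
theorem KJc_wnn {r : ℕ} (σ : ℝ) (t : X (r + 1)) :
    0 ≤ gs (t 0) * |dt t| ^ (σ - (r + 1)) :=
  mul_nonneg (Real.exp_pos _).le (Real.rpow_nonneg (abs_nonneg _) _)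

theorem KJc_measWh {r : ℕ} {φ : X (r + 1) → ℂ} (hφ : Measurable φ) (m : ℕ → ℤ) :
    Measurable fun t : X (r + 1) => Wh (r + 1) φ m t := by
  have h2 := measurable_Wh (s := r + 1) (A := Unit) (φ := fun _ => φ)
    (hφ.comp measurable_snd) m
  exact h2.comp (f := fun t : X (r + 1) => ((), t)) (measurable_const.prodMk measurable_id)

theorem KJc_measw {r : ℕ} (σ : ℝ) :
    Measurable fun t : X (r + 1) => gs (t 0) * |dt t| ^ (σ - (r + 1)) := by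
  have h3 : Measurable fun t : X (r + 1) => gs (t 0) := by
    unfold gs
    fun_prop
  have h5 : Measurable fun t : X (r + 1) => |dt t| := measurable_dt.abs
  exact h3.mul (h5.pow_const _)

theorem KJc_jj {r : ℕ} (φ : X (r + 1) → ℂ) (σ : ℝ) (m : Fin r → ℤ) :
    JJ φ σ m = ∫⁻ t, ENNReal.ofReal (‖Wh (r + 1) φ (ext m) t‖ ^ 2 *
      (gs (t 0) * |dt t| ^ (σ - (r + 1)))) ∂(fl (r + 1)) := by
  unfold JJ
  refine lintegral_congr fun t => ?_
  have hgs : (0 : ℝ) ≤ gs (t 0) := (Real.exp_pos _).le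
  rw [ENNReal.ofReal_mul (by positivity), ENNReal.ofReal_mul hgs,
    ENNReal.ofReal_pow (norm_nonneg _), ofReal_norm]

theorem KJc_sq {r : ℕ} {φ : X (r + 1) → ℂ} (hφ : Measurable φ) {σ : ℝ} {m : Fin r → ℤ}
    (h : JJ φ σ m ≠ ∞) :
    Integrable (fun t : X (r + 1) => ‖Wh (r + 1) φ (ext m) t‖ ^ 2 *
      (gs (t 0) * |dt t| ^ (σ - (r + 1)))) (fl (r + 1)) := by
  have hm : Measurable (fun t : X (r + 1) => ‖Wh (r + 1) φ (ext m) t‖ ^ 2 *
      (gs (t 0) * |dt t| ^ (σ - (r + 1)))) :=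
    ((KJc_measWh hφ (ext m)).norm.pow_const 2).mul (KJc_measw σ)
  refine ⟨hm.aestronglyMeasurable, ?_⟩
  rw [hasFiniteIntegral_iff_ofReal
    (Filter.Eventually.of_forall fun t => mul_nonneg (by positivity) (KJc_wnn σ t)), ← KJc_jj]
  exact lt_top_iff_ne_top.2 h

theorem KJc_int {r : ℕ} {φ : X (r + 1) → ℂ} (hφ : Measurable φ) (σ : ℝ) (m : Fin r → ℤ) :
    ∫ t : X (r + 1), ‖Wh (r + 1) φ (ext m) t‖ ^ 2 *
      (gs (t 0) * |dt t| ^ (σ - (r + 1))) ∂(fl (r + 1)) = (JJ φ σ m).toReal := by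
  have hm : Measurable (fun t : X (r + 1) => ‖Wh (r + 1) φ (ext m) t‖ ^ 2 *
      (gs (t 0) * |dt t| ^ (σ - (r + 1)))) :=
    ((KJc_measWh hφ (ext m)).norm.pow_const 2).mul (KJc_measw σ)
  rw [integral_eq_lintegral_of_nonneg_ae
    (Filter.Eventually.of_forall fun t => mul_nonneg (by positivity) (KJc_wnn σ t))
    hm.aestronglyMeasurable, ← KJc_jj]

theorem KJc_norm {r : ℕ} (φ ψ : X (r + 1) → ℂ) (σ : ℝ) (m : Fin r → ℤ) (t : X (r + 1)) :
    ‖JW φ ψ σ m t‖ ≤ (‖Wh (r + 1) φ (ext m) t‖ ^ 2 * (gs (t 0) * |dt t| ^ (σ - (r + 1))) +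
      ‖Wh (r + 1) ψ (ext m) t‖ ^ 2 * (gs (t 0) * |dt t| ^ (σ - (r + 1)))) / 2 := by
  have hw := KJc_wnn σ t
  unfold JW
  rw [norm_mul, norm_mul, RCLike.norm_conj, Complex.norm_real, Real.norm_of_nonneg hw]
  nlinarith [mul_nonneg (sq_nonneg (‖Wh (r + 1) φ (ext m) t‖ - ‖Wh (r + 1) ψ (ext m) t‖)) hw]

theorem measurable_jw {r : ℕ} {φ ψ : X (r + 1) → ℂ} (hφ : Measurable φ) (hψ : Measurable ψ)
    (σ : ℝ) (m : Fin r → ℤ) : Measurable (JW φ ψ σ m) := by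
  have h1 := KJc_measWh hφ (ext m)
  have h2 := KJc_measWh hψ (ext m)
  have h3 : Measurable fun t : X (r + 1) => conj (Wh (r + 1) ψ (ext m) t) :=
    Complex.continuous_conj.measurable.comp h2
  exact (h1.mul h3).mul (Complex.measurable_ofReal.comp (KJc_measw σ))

theorem jc_integrable {r : ℕ} {φ ψ : X (r + 1) → ℂ} (hφ : Measurable φ) (hψ : Measurable ψ)
    {σ : ℝ} {m : Fin r → ℤ} (h1 : JJ φ σ m ≠ ∞) (h2 : JJ ψ σ m ≠ ∞) :
    Integrable (JW φ ψ σ m) (fl (r + 1)) :=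
  Integrable.mono' (((KJc_sq hφ h1).add (KJc_sq hψ h2)).div_const 2)
    (measurable_jw hφ hψ σ m).aestronglyMeasurable
    (Filter.Eventually.of_forall fun t => KJc_norm φ ψ σ m t)

theorem jc_norm_le {r : ℕ} {φ ψ : X (r + 1) → ℂ} (hφ : Measurable φ) (hψ : Measurable ψ)
    {σ : ℝ} {m : Fin r → ℤ} (h1 : JJ φ σ m ≠ ∞) (h2 : JJ ψ σ m ≠ ∞) :
    ‖JC φ ψ σ m‖ ≤ ((JJ φ σ m).toReal + (JJ ψ σ m).toReal) / 2 := by
  have h3 := norm_integral_le_of_norm_le (((KJc_sq hφ h1).add (KJc_sq hψ h2)).div_const 2)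
    (Filter.Eventually.of_forall fun t => KJc_norm φ ψ σ m t)
  have h4 : ∫ t : X (r + 1), ((fun t : X (r + 1) => ‖Wh (r + 1) φ (ext m) t‖ ^ 2 *
      (gs (t 0) * |dt t| ^ (σ - (r + 1)))) + fun t : X (r + 1) =>
      ‖Wh (r + 1) ψ (ext m) t‖ ^ 2 * (gs (t 0) * |dt t| ^ (σ - (r + 1)))) t / 2 ∂(fl (r + 1)) =
      ((JJ φ σ m).toReal + (JJ ψ σ m).toReal) / 2 := by
    rw [integral_div, integral_add' (KJc_sq hφ h1) (KJc_sq hψ h2), KJc_int hφ, KJc_int hψ]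
  rw [h4] at h3
  exact h3

theorem jc_pow {r : ℕ} {φ ψ : X (r + 1) → ℂ} (hφ : IsP φ) (hψ : IsP ψ)
    (hs : ∀ t : ℝ, 0 < t → ∀ g, φ (t • g) = φ g) (hs' : ∀ t : ℝ, 0 < t → ∀ g, ψ (t • g) = ψ g)
    {p : ℕ} (hp : p.Prime) {ξ : ℂ} (hξ : ‖ξ‖ = 1) {ev ev' : Fin (r + 1) → ℂ}
    (hE : IsEig φ p ξ ev) (hE' : IsEig ψ p ξ ev') (σ : ℝ) {m : Fin r → ℤ}
    (hm : ∀ i, ¬ (p : ℤ) ∣ m i) (a : Fin r → ℕ) :
    JC φ ψ σ (fun i => m i * (p : ℤ) ^ a i) =
      sch ev (lam a) * conj (sch ev' (lam a)) * ((((p : ℝ) ^ (-σ)) ^ wexp a : ℝ) : ℂ) *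
        JC φ ψ σ m := by
  have hp0 : (0 : ℝ) < p := by exact_mod_cast hp.pos
  set D : Fin (r + 1) → ℝ := fun j => ((p : ℝ) ^ (lam a 0 - lam a j))⁻¹ with hDdef
  have hD : ∀ j, D j ≠ 0 := fun j => by
    rw [hDdef]
    positivity
  have hD0 : D 0 = 1 := by
    rw [hDdef]
    simp
  unfold JC
  rw [fl_scale_int D hD (measurable_jw hφ.meas hψ.meas σ _), ← integral_const_mul,
    ← integral_const_mul]
  refine integral_congr_ae ?_
  filter_upwards [ae_diag (r + 1)] with t ht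
  have h1 : ∀ {χ : X (r + 1) → ℂ}, (∀ t : ℝ, 0 < t → ∀ g, χ (t • g) = χ g) →
      Wh (r + 1) χ (ext fun i => m i * (p : ℤ) ^ a i) (fun i j => D i * t i j) =
      Wh (r + 1) χ (mnu p (ext m) (lam a)) (tnu p t (lam a)) := by
    intro χ hs
    rw [← Wh_smul hs (t := (p : ℝ) ^ lam a 0) (by positivity)]
    congr 1
    · funext i
      unfold mnu ext
      by_cases hi : i < r
      · rw [dif_pos hi, dif_pos hi, dif_pos hi]
        show m ⟨i, hi⟩ * (p : ℤ) ^ a ⟨i, hi⟩ = m ⟨i, hi⟩ * (p : ℤ) ^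
          (lam a (⟨i, hi⟩ : Fin r).castSucc - lam a (⟨i, hi⟩ : Fin r).succ)
        rw [LLoc_lam_succ, Nat.add_sub_cancel_left]
      · rw [dif_neg hi, dif_neg hi, dif_neg hi]
    · funext i j
      show (p : ℝ) ^ lam a 0 * (((p : ℝ) ^ (lam a 0 - lam a i))⁻¹ * t i j) =
        (p : ℝ) ^ lam a i * t i j
      have h2 : lam a i ≤ lam a 0 := LLoc_anti a (Fin.zero_le i)
      have h3 : (p : ℝ) ^ lam a 0 = (p : ℝ) ^ lam a i * (p : ℝ) ^ (lam a 0 - lam a i) := by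
        rw [← pow_add]
        congr 1
        omega
      rw [h3]
      have h4 : (p : ℝ) ^ (lam a 0 - lam a i) ≠ 0 := by positivity
      field_simp
  have h2 := pair_whit hφ hψ hp hξ hE hE' (m := ext m) (fun i hi => by
    unfold ext
    rw [dif_pos hi]
    exact hm _) ht (LLoc_anti a)
  have h3 : (fun j => D 0 * t 0 j) = t 0 := by
    funext j
    rw [hD0, one_mul]
  have h5 : |dt (fun i j => D i * t i j)| ^ (σ - (r + 1)) =
      |∏ i, D i| ^ (σ - (r + 1)) * |dt t| ^ (σ - (r + 1)) := by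
    rw [dt_rows, abs_mul, Real.mul_rpow (abs_nonneg _) (abs_nonneg _)]
  unfold JW
  rw [h1 hs, h1 hs', h2]
  have h6 : gs ((fun i j => D i * t i j : X (r + 1)) 0) = gs (t 0) := by
    show gs (fun j => D 0 * t 0 j) = gs (t 0)
    rw [h3]
  rw [h6, h5, ← LLoc_exp hp a σ]
  push_cast
  ring

theorem jc_zero {r : ℕ} {φ ψ : X (r + 1) → ℂ} (hc : Cusp r φ) (σ : ℝ) {m : Fin r → ℤ}
    {i : Fin r} (hm : m i = 0) : JC φ ψ σ m = 0 := by
  unfold JC
  have h1 : JW φ ψ σ m =ᵐ[fl (r + 1)] fun _ => 0 := by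
    filter_upwards [ae_diag (r + 1)] with t ht
    have h2 : ext m (i : ℕ) = 0 := by
      unfold ext
      rw [dif_pos i.isLt]
      exact hm
    unfold JW
    rw [LLoc_zero hc i.isLt h2 ht, zero_mul, zero_mul]
  rw [integral_congr_ae h1, integral_zero]

theorem jc_eq_jj {r : ℕ} {φ ψ : X (r + 1) → ℂ} (hφ : Measurable φ) {σ : ℝ} {m : Fin r → ℤ}
    (h : ∀ᵐ t ∂(fl (r + 1)), Wh (r + 1) ψ (ext m) t = Wh (r + 1) φ (ext m) t) :
    JC φ ψ σ m = ((JJ φ σ m).toReal : ℂ) := by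
  rw [← KJc_int hφ, ← integral_complex_ofReal]
  unfold JC
  refine integral_congr_ae ?_
  filter_upwards [h] with t ht
  unfold JW
  rw [ht, Complex.mul_conj, Complex.normSq_eq_norm_sq]
  push_cast
  ring

theorem jj_polar {r : ℕ} {φ ψ : X (r + 1) → ℂ} (hφ : IsP φ) (hψ : IsP ψ) {z : ℂ}
    (hz : ‖z‖ = 1) {σ : ℝ} {m : Fin r → ℤ} (h1 : JJ φ σ m ≠ ∞) (h2 : JJ ψ σ m ≠ ∞) :
    JJ (fun g => φ g + z * ψ g) σ m ≠ ∞ ∧
      (JJ (fun g => φ g + z * ψ g) σ m).toReal =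
        (JJ φ σ m).toReal + (JJ ψ σ m).toReal + 2 * (conj z * JC φ ψ σ m).re := by
  have hW : ∀ t : X (r + 1), Wh (r + 1) (fun g => φ g + z * ψ g) (ext m) t =
      Wh (r + 1) φ (ext m) t + z * Wh (r + 1) ψ (ext m) t := by
    intro t
    rw [HPie_Wh_add (HPie_BM_of hφ) (HPie_BM_mul z (HPie_BM_of hψ)), Wh_const_mul]
  have hm' : Measurable fun g => φ g + z * ψ g := hφ.meas.add (measurable_const.mul hψ.meas)
  have hpt : ∀ t : X (r + 1), ‖Wh (r + 1) (fun g => φ g + z * ψ g) (ext m) t‖ ^ 2 *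
      (gs (t 0) * |dt t| ^ (σ - (r + 1))) =
      (‖Wh (r + 1) φ (ext m) t‖ ^ 2 * (gs (t 0) * |dt t| ^ (σ - (r + 1))) +
        ‖Wh (r + 1) ψ (ext m) t‖ ^ 2 * (gs (t 0) * |dt t| ^ (σ - (r + 1)))) +
        2 * (conj z * JW φ ψ σ m t).re := by
    intro t
    rw [hW]
    have hz2 : z.re * z.re + z.im * z.im = 1 := by
      have h := Complex.normSq_eq_norm_sq z
      rw [hz, Complex.normSq_apply] at h
      linarith
    unfold JW
    set A := Wh (r + 1) φ (ext m) t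
    set B := Wh (r + 1) ψ (ext m) t
    set w := gs (t 0) * |dt t| ^ (σ - (r + 1))
    have e1 : ‖A + z * B‖ ^ 2 = ‖A‖ ^ 2 + ‖B‖ ^ 2 + 2 * (conj z * (A * conj B)).re := by
      rw [← Complex.normSq_eq_norm_sq, ← Complex.normSq_eq_norm_sq, ← Complex.normSq_eq_norm_sq,
        Complex.normSq_add, Complex.normSq_mul, Complex.normSq_eq_norm_sq z, hz]
      have e2 : A * conj (z * B) = conj z * (A * conj B) := by
        rw [map_mul]
        ring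
      rw [e2]
      ring
    have e3 : (conj z * (A * conj B * (w : ℂ))).re = (conj z * (A * conj B)).re * w := by
      rw [← mul_assoc, Complex.re_mul_ofReal]
    rw [e1, e3]
    ring
  have hI := jc_integrable hφ.meas hψ.meas h1 h2
  have hI2 : Integrable (fun t : X (r + 1) => 2 * (conj z * JW φ ψ σ m t).re) (fl (r + 1)) :=
    ((hI.const_mul (conj z)).re).const_mul 2
  have hI3 := (KJc_sq hφ.meas h1).add (KJc_sq hψ.meas h2)
  have hI4 : Integrable (fun t : X (r + 1) =>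
      ‖Wh (r + 1) (fun g => φ g + z * ψ g) (ext m) t‖ ^ 2 *
      (gs (t 0) * |dt t| ^ (σ - (r + 1)))) (fl (r + 1)) := by
    have := hI3.add hI2
    refine this.congr (Filter.Eventually.of_forall fun t => ?_)
    exact (hpt t).symm
  have hfin : JJ (fun g => φ g + z * ψ g) σ m ≠ ∞ := by
    rw [KJc_jj]
    have := hI4.2
    rw [hasFiniteIntegral_iff_ofReal
      (Filter.Eventually.of_forall fun t => mul_nonneg (by positivity) (KJc_wnn σ t))] at this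
    exact this.ne
  refine ⟨hfin, ?_⟩
  rw [← KJc_int hm', integral_congr_ae (Filter.Eventually.of_forall hpt)]
  rw [integral_add (f := fun t : X (r + 1) =>
      ‖Wh (r + 1) φ (ext m) t‖ ^ 2 * (gs (t 0) * |dt t| ^ (σ - (r + 1))) +
        ‖Wh (r + 1) ψ (ext m) t‖ ^ 2 * (gs (t 0) * |dt t| ^ (σ - (r + 1)))) hI3 hI2,
    integral_add (KJc_sq hφ.meas h1) (KJc_sq hψ.meas h2), KJc_int hφ.meas, KJc_int hψ.meas,
    integral_const_mul]
  congr 2
  unfold JC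
  rw [← integral_const_mul]
  exact integral_re (hI.const_mul (conj z))

end Pool.Agent.GL74
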