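import Pool.Agent.W_7742x_h74.QRS

/-! # Linear combinations of cusp forms

`IsCuspForm N χ` (QDef.lean) is a linear condition.  For `cuspidal`: the functions
`B ↦ f (block k B * g)` are integrable on the cube, they are bounded (`det (block k B * g) =
det g > 0`, cf. `QExt_det_blk`) and measurable (`measurable_tof`, or continuous by
`QExt_continuousOn`).  `exists_lvl`: the proof of `exists_isLvl` (QRS.lean) with a common `T`
(`exists_wtN`). -/

set_option autoImplicit false

noncomputable section

namespace Pool.Agent.GL74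

open MeasureTheory ComplexConjugate Set
open scoped ENNReal MatrixGroups
open Pool.Agent.GLForm74

theorem KLin_cont_block {n : ℕ} (k : ℕ) (g : Matrix (Fin n) (Fin n) ℝ) :
    Continuous fun B : Fin n → Fin n → ℝ => (fun i j => (block k B * g) i j : X n) := by
  refine continuous_pi fun i => continuous_pi fun j => ?_
  simp only [Matrix.mul_apply]
  refine continuous_finsetSum _ fun l _ => ?_
  refine Continuous.mul ?_ continuous_const
  unfold block
  simp only [Matrix.of_apply]
  split_ifs
  · exact continuous_const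
  · exact (continuous_apply l).comp (continuous_apply i)
  · exact continuous_const

theorem KLin_det_block {n : ℕ} (k : ℕ) (B : Fin n → Fin n → ℝ) : (block k B).det = 1 :=
  QExt_det_blk k B

theorem KLin_integrable {n N : ℕ} {χ : DirichletCharacter ℂ N}
    {f : Matrix (Fin n) (Fin n) ℝ → ℂ} (hf : IsCuspForm N χ f) (k : ℕ)
    {g : Matrix (Fin n) (Fin n) ℝ} (hg : 0 < g.det) :
    IntegrableOn (fun B : Fin n → Fin n → ℝ => f (block k B * g))
      (Set.Icc (0 : Fin n → Fin n → ℝ) 1) := by
  have h : Continuous fun B : Fin n → Fin n → ℝ => f (block k B * g) := by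
    have h1 := (QExt_continuousOn hf).comp_continuous (KLin_cont_block k g) (fun B => by
      show 0 < (block k B * g).det
      rw [Matrix.det_mul, KLin_det_block, one_mul]
      exact hg)
    exact h1
  exact h.integrableOn_Icc

theorem isCuspForm_lin {n N : ℕ} {χ : DirichletCharacter ℂ N}
    {f f' : Matrix (Fin n) (Fin n) ℝ → ℂ} (hf : IsCuspForm N χ f) (hf' : IsCuspForm N χ f')
    (z : ℂ) : IsCuspForm N χ fun g => f g + z * f' g where
  bounded := by
    obtain ⟨C, hC⟩ := hf.bounded
    obtain ⟨C', hC'⟩ := hf'.bounded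
    refine ⟨C + ‖z‖ * C', fun g hg => ?_⟩
    refine (norm_add_le _ _).trans (add_le_add (hC g hg) ?_)
    rw [norm_mul]
    exact mul_le_mul_of_nonneg_left (hC' g hg) (norm_nonneg _)
  lipschitz := by
    obtain ⟨C, hC⟩ := hf.lipschitz
    obtain ⟨C', hC'⟩ := hf'.lipschitz
    refine ⟨C + ‖z‖ * C', fun g x hg hx => ?_⟩
    have h1 : f (g * x) + z * f' (g * x) - (f g + z * f' g)
        = (f (g * x) - f g) + z * (f' (g * x) - f' g) := by ring
    rw [h1, add_mul]
    refine (norm_add_le _ _).trans (add_le_add (hC g x hg hx) ?_)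
    rw [norm_mul, mul_assoc]
    exact mul_le_mul_of_nonneg_left (hC' g x hg hx) (norm_nonneg _)
  scale := fun t g ht hg => by
    show f (t • g) + z * f' (t • g) = f g + z * f' g
    rw [hf.scale t g ht hg, hf'.scale t g ht hg]
  automorphic := fun γ h1 h2 i hi g hg => by
    show f (γ.map (fun a : ℤ => (a : ℝ)) * g) + z * f' (γ.map (fun a : ℤ => (a : ℝ)) * g)
      = χ ((γ i i : ℤ) : ZMod N) * (f g + z * f' g)
    rw [hf.automorphic γ h1 h2 i hi g hg, hf'.automorphic γ h1 h2 i hi g hg]
    ring
  cuspidal := fun k hk hkn g hg => by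
    have h1 := integral_add (KLin_integrable hf k hg) ((KLin_integrable hf' k hg).const_mul z)
    rw [hf.cuspidal k hk hkn g hg, integral_const_mul, hf'.cuspidal k hk hkn g hg, mul_zero,
      add_zero] at h1
    exact h1

theorem tof_lin {n : ℕ} (f f' : Matrix (Fin n) (Fin n) ℝ → ℂ) (z : ℂ) :
    tof (fun g => f g + z * f' g) = fun g => tof f g + z * tof f' g := by
  funext g
  by_cases hg : 0 < dt g
  · rw [QExt_pos _ hg, QExt_pos _ hg, QExt_pos _ hg]
  · rw [QExt_neg _ hg, QExt_neg _ hg, QExt_neg _ hg, mul_zero, add_zero]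

theorem exists_lvl {s N : ℕ} (hN : 0 < N) : ∃ T : Finset SL(s + 2, ℤ),
    ∀ (χ : DirichletCharacter ℂ N) (f : Matrix (Fin (s + 2)) (Fin (s + 2)) ℝ → ℂ),
      IsCuspForm N χ f → IsLvl N T (tof f) := by
  obtain ⟨T, hT⟩ := exists_wtN (s := s + 1) hN (isWt_wt (s + 2))
  exact ⟨T, fun χ f hf => ⟨hN, isP_tof hf, fun t ht g => scale_tof hf ht g,
    cusp_of_bl _ _ (isP_tof hf) (bl_tof hf),
    fun γ hγ g => by rw [sl_tof hf hγ, norm_mul, norm_chi χ hγ, one_mul], lip_tof hf, hT⟩⟩

end Pool.Agent.GL74
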