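import Pool.Agent.W_7742x_h74.SLoc

/-! # The local factors of a pair

Let `β, β'` be the eigenvalues of `B⁻¹, B'⁻¹` (`exists_roots`: `emx B⁻¹ = esv β` and
`tr (B⁻¹ ^ k) = ∑ β_i ^ k`).  By `cauchy`, `conj_sch` the sum of
`sch (emx B⁻¹) ν * conj (sch (emx B'⁻¹) ν)` over `|ν| = d` is `hs (β_i * conj β'_j) d`; by `SExp_lt`
(as in `sum_sch`, SExp.lean) `|β_i|² x < 1` and `|β'_j|² x < 1`, so `|β_i conj β'_j| x < 1`, and the
sum over `ν` of `sch (emx B⁻¹) ν * conj (sch (emx B'⁻¹) ν) * x^{|ν|}` is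
`∏ (1 - β_i conj β'_j x)⁻¹ = exp (∑_k tr (B⁻¹ ^ k) conj (tr (B'⁻¹ ^ k)) x^k / k)`; everything
converges absolutely (`|a conj b| ≤ (|a|² + |b|²) / 2`).

`locF_eq_tsum` (SLoc.lean): the `ν` with `sch ν ≠ 0` are antitone, `ν = SLoc_P (k, a)`, and
`sch (emx B⁻¹) (SLoc_P (k, a)) = det B ^ (-k - lam a 0) * sch (emx B) (lam a)` (`SLoc_sch_add`,
`sch_dual`, `SLoc_M_lam`); since `det B = det B'` has absolute value `1`, the product
`sch (emx B⁻¹) ν * conj (sch (emx B'⁻¹) ν)` is `sch (emx B) (lam a) * conj (sch (emx B') (lam a))`,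
and `x^{|ν|} = (x^{r+1})^k x^{wexp a}`. -/

set_option autoImplicit false

noncomputable section

namespace Pool.Agent.GL74

open ComplexConjugate
open scoped ENNReal

/-- The coefficients of the local factor of a pair. -/
def locA {r : ℕ} (B B' : Matrix (Fin (r + 1)) (Fin (r + 1)) ℂ) (x : ℝ) (a : Fin r → ℕ) : ℂ :=
  sch (emx B) (lam a) * conj (sch (emx B') (lam a)) * ((x ^ wexp a : ℝ) : ℂ)

/-- The local factor of a pair. -/
def locC {r : ℕ} (B B' : Matrix (Fin (r + 1)) (Fin (r + 1)) ℂ) (x : ℝ) : ℂ :=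
  ∑' a : Fin r → ℕ, locA B B' x a

theorem KLoc_lint {ι : Type} {f : ι → ℝ} (hf : ∀ i, 0 ≤ f i)
    (h : ∑' i, ENNReal.ofReal (f i) ≠ ∞) : Summable f := by
  have h1 := ENNReal.summable_toReal h
  simpa only [ENNReal.toReal_ofReal (hf _)] using h1

theorem KLoc_pair {ι : Type} {u v : ι → ℂ} {w : ι → ℝ} (hw : ∀ i, 0 ≤ w i)
    (hu : Summable fun i => ‖u i‖ ^ 2 * w i) (hv : Summable fun i => ‖v i‖ ^ 2 * w i) :
    Summable fun i => ‖u i * conj (v i) * (w i : ℂ)‖ := by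
  refine Summable.of_nonneg_of_le (fun i => norm_nonneg _) (fun i => ?_) (hu.add hv)
  rw [norm_mul, norm_mul, Complex.norm_conj, Complex.norm_real, Real.norm_of_nonneg (hw i),
    ← add_mul]
  refine mul_le_mul_of_nonneg_right ?_ (hw i)
  nlinarith [sq_nonneg (‖u i‖ - ‖v i‖), sq_nonneg ‖u i‖, sq_nonneg ‖v i‖]

theorem summable_locA {r : ℕ} {B B' : Matrix (Fin (r + 1)) (Fin (r + 1)) ℂ} {x : ℝ}
    (hx : 0 < x) (hfin : locF B x ≠ ∞) (hfin' : locF B' x ≠ ∞) :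
    Summable fun a => ‖locA B B' x a‖ := by
  have h1 := KLoc_lint (f := fun a : Fin r → ℕ => ‖sch (emx B) (lam a)‖ ^ 2 * x ^ wexp a)
    (fun a => by positivity) hfin
  have h2 := KLoc_lint (f := fun a : Fin r → ℕ => ‖sch (emx B') (lam a)‖ ^ 2 * x ^ wexp a)
    (fun a => by positivity) hfin'
  exact KLoc_pair (fun a => by positivity) h1 h2

theorem KLoc_sch {r : ℕ} (B : Matrix (Fin (r + 1)) (Fin (r + 1)) ℂ) (hB0 : B.det ≠ 0) (k : ℕ)
    (a : Fin r → ℕ) :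
    sch (emx B⁻¹) (SLoc_P (k, a)) = B.det⁻¹ ^ (k + lam a 0) * sch (emx B) (lam a) := by
  have hl : Antitone (lam a) := by
    intro i j hij
    unfold lam
    refine Finset.sum_le_sum_of_subset fun m hm => ?_
    simp only [Finset.mem_filter, Finset.mem_univ, true_and] at hm ⊢
    have := Fin.le_def.1 hij
    omega
  have h2 : SLoc_P (k, a) = fun j : Fin (r + 1) => SLoc_M a (j : ℕ) + k := rfl
  have h3 : (fun j : Fin (r + 1) => lam a 0 - lam a j.rev) =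
      fun j : Fin (r + 1) => SLoc_M a (j : ℕ) := funext fun j => SLoc_M_lam a j
  rw [h2, SLoc_sch_add (emx B⁻¹) (fun j : Fin (r + 1) => SLoc_M a (j : ℕ)) k,
    emx_inv_last B hB0, sch_dual B hB0 hl, h3, pow_add, ← mul_assoc, mul_assoc _ (B.det⁻¹ ^ _),
    ← mul_pow, inv_mul_cancel₀ hB0, one_pow, mul_one]

theorem KLoc_lt {n : ℕ} (B : Matrix (Fin n) (Fin n) ℂ) {β : Fin n → ℂ} (hβ : emx B = esv β)
    {x : ℝ} (hx : 0 < x)
    (hS : Summable fun ν : Fin n → ℕ => ‖sch (emx B) ν‖ ^ 2 * x ^ (∑ j, ν j)) (i : Fin n) :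
    ‖β i‖ ^ 2 * x < 1 := by
  rw [hβ] at hS
  obtain ⟨a, ha⟩ : ∃ a : ℕ → ℝ, a = fun d =>
    ∑ ν ∈ Finset.piAntidiag (Finset.univ : Finset (Fin n)) d, ‖sch (esv β) ν‖ ^ 2 := ⟨_, rfl⟩
  have ha0 : ∀ d, 0 ≤ a d := by
    intro d
    rw [ha]
    exact Finset.sum_nonneg fun ν _ => sq_nonneg _
  have hgr : ∑' ν : Fin n → ℕ, ENNReal.ofReal (‖sch (esv β) ν‖ ^ 2 * x ^ (∑ j, ν j)) =
      ∑' d : ℕ, ENNReal.ofReal (a d * x ^ d) := by
    rw [SExp_group (fun ν => ‖sch (esv β) ν‖ ^ 2) (fun ν => sq_nonneg _) hx, ha]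
  have hfin : ∑' ν : Fin n → ℕ, ENNReal.ofReal (‖sch (esv β) ν‖ ^ 2 * x ^ (∑ j, ν j)) ≠ ∞ := by
    rw [← ENNReal.ofReal_tsum_of_nonneg (fun ν => by positivity) hS]
    exact ENNReal.ofReal_ne_top
  rw [hgr] at hfin
  have hsum : Summable fun d => a d * x ^ d :=
    KLoc_lint (fun d => mul_nonneg (ha0 d) (by positivity)) hfin
  have h1 := SExp_lt β ha0 (fun d => by
    rw [ha]
    exact SExp_sum β d) hx hsum (i, i)
  simpa [norm_mul, Complex.norm_conj, sq] using h1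

theorem locC_eq {r : ℕ} {B B' : Matrix (Fin (r + 1)) (Fin (r + 1)) ℂ} (hB : ‖B.det‖ = 1)
    (hB' : B'.det = B.det) {x : ℝ} (hx : 0 < x) (hx1 : x < 1) (hfin : locF B x ≠ ∞)
    (hfin' : locF B' x ≠ ∞) :
    (Summable fun k : ℕ => ‖(B⁻¹ ^ (k + 1)).trace * conj (B'⁻¹ ^ (k + 1)).trace‖ *
      (x ^ (k + 1) / ((k : ℝ) + 1))) ∧
    locC B B' x = ((1 - x ^ (r + 1) : ℝ) : ℂ) *
      Complex.exp (∑' k : ℕ, (B⁻¹ ^ (k + 1)).trace * conj (B'⁻¹ ^ (k + 1)).trace *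
        ((x ^ (k + 1) / ((k : ℝ) + 1) : ℝ) : ℂ)) := by
  classical
  have hBn' : ‖B'.det‖ = 1 := by rw [hB', hB]
  have hB0 : B.det ≠ 0 := by
    intro h
    rw [h, norm_zero] at hB
    exact zero_ne_one hB
  have hB0' : B'.det ≠ 0 := by rw [hB']; exact hB0
  have hx2 : x ^ (r + 1) < 1 := pow_lt_one₀ hx.le hx1 (Nat.succ_ne_zero r)
  have hx0 : 0 < x ^ (r + 1) := by positivity
  have hS : Summable fun ν : Fin (r + 1) → ℕ => ‖sch (emx B⁻¹) ν‖ ^ 2 * x ^ (∑ j, ν j) := by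
    refine KLoc_lint (fun ν => by positivity) ?_
    rw [locF_eq_tsum B hB hx hx1]
    exact ENNReal.mul_ne_top ENNReal.ofReal_ne_top hfin
  have hS' : Summable fun ν : Fin (r + 1) → ℕ => ‖sch (emx B'⁻¹) ν‖ ^ 2 * x ^ (∑ j, ν j) := by
    refine KLoc_lint (fun ν => by positivity) ?_
    rw [locF_eq_tsum B' hBn' hx hx1]
    exact ENNReal.mul_ne_top ENNReal.ofReal_ne_top hfin'
  obtain ⟨g, hgdef⟩ : ∃ g : (Fin (r + 1) → ℕ) → ℂ, g = fun ν =>
    sch (emx B⁻¹) ν * conj (sch (emx B'⁻¹) ν) * ((x ^ (∑ j, ν j) : ℝ) : ℂ) := ⟨_, rfl⟩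
  have hg : Summable fun ν => ‖g ν‖ := by
    rw [hgdef]
    exact KLoc_pair (fun ν => by positivity) hS hS'
  have hA := summable_locA hx hfin hfin'
  -- the sum over all weights
  have hterm : ∀ p : ℕ × (Fin r → ℕ), g (SLoc_P p) =
      ((x ^ (r + 1) : ℝ) : ℂ) ^ p.1 * locA B B' x p.2 := by
    rintro ⟨k, a⟩
    have h3 : ∑ j, SLoc_P (k, a) j = (r + 1) * k + wexp a := by
      unfold SLoc_P
      simp only
      rw [Finset.sum_add_distrib, SLoc_M_sum, Finset.sum_const, Finset.card_univ,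
        Fintype.card_fin, smul_eq_mul]
      ring
    have h4 : B.det⁻¹ ^ (k + lam a 0) * conj (B.det⁻¹ ^ (k + lam a 0)) = 1 := by
      rw [Complex.mul_conj, Complex.normSq_eq_norm_sq, norm_pow, norm_inv, hB, inv_one, one_pow,
        one_pow, Complex.ofReal_one]
    rw [hgdef]
    simp only
    have h5 : x ^ ((r + 1) * k + wexp a) = (x ^ (r + 1)) ^ k * x ^ wexp a := by
      rw [pow_add, pow_mul]
    rw [h3, KLoc_sch B hB0, KLoc_sch B' hB0', hB', map_mul, locA, h5]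
    push_cast
    linear_combination (sch (emx B) (lam a) * conj (sch (emx B') (lam a)) *
      (((x : ℂ) ^ (r + 1)) ^ k * (x : ℂ) ^ wexp a)) * h4
  have hT1 : ∑' ν, g ν = ((1 - x ^ (r + 1) : ℝ) : ℂ)⁻¹ * locC B B' x := by
    have hinj := (SLoc_P_inj (r := r)).tsum_eq (f := g) (by
      intro ν hν
      by_contra hcon
      apply hν
      have h1 : ¬ Antitone ν := fun h => hcon (SLoc_P_surj h)
      rw [hgdef]
      simp [sch_eq_zero _ h1])
    rw [← hinj]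
    simp only [hterm]
    have hgeo : ‖((x ^ (r + 1) : ℝ) : ℂ)‖ < 1 := by
      rw [Complex.norm_real, Real.norm_of_nonneg hx0.le]
      exact hx2
    rw [← tsum_mul_tsum_of_summable_norm (f := fun k : ℕ => ((x ^ (r + 1) : ℝ) : ℂ) ^ k)
      (g := fun a => locA B B' x a) ?_ hA, tsum_geometric_of_norm_lt_one hgeo, locC]
    · push_cast
      rfl
    · simp only [norm_pow]
      exact summable_geometric_of_lt_one (norm_nonneg _) hgeo
  -- the eigenvalues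
  obtain ⟨β, hβ, htr⟩ := exists_roots B⁻¹
  obtain ⟨γ, hγ, htr'⟩ := exists_roots B'⁻¹
  obtain ⟨z, hzdef⟩ : ∃ z : Fin (r + 1) × Fin (r + 1) → ℂ, z = fun p =>
    β p.1 * starRingEnd ℂ (γ p.2) := ⟨_, rfl⟩
  have hlt : ∀ q, ‖z q * (x : ℂ)‖ < 1 := by
    intro q
    have h1 := KLoc_lt B⁻¹ hβ hx hS q.1
    have h2 := KLoc_lt B'⁻¹ hγ hx hS' q.2
    have h3 : ‖z q * (x : ℂ)‖ = ‖β q.1‖ * ‖γ q.2‖ * x := by
      rw [hzdef, norm_mul, norm_mul, Complex.norm_conj, Complex.norm_real,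
        Real.norm_of_nonneg hx.le]
    rw [h3]
    nlinarith [mul_nonneg (sq_nonneg (‖β q.1‖ - ‖γ q.2‖)) hx.le]
  have hd : ∀ d : ℕ, ∑' ν : (fun ν : Fin (r + 1) → ℕ => ∑ j, ν j) ⁻¹' {d}, g ν =
      hs z d * (x : ℂ) ^ d := by
    intro d
    have h1 : (fun ν : Fin (r + 1) → ℕ => ∑ j, ν j) ⁻¹' {d} =
        ↑(Finset.piAntidiag (Finset.univ : Finset (Fin (r + 1))) d) := by
      ext ν
      simp
    rw [h1]
    refine (Finset.tsum_subtype (Finset.piAntidiag (Finset.univ : Finset (Fin (r + 1))) d)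
      g).trans ?_
    have h2 := cauchy β (fun i => starRingEnd ℂ (γ i)) d
    have h3 : hs z d = hs (fun q : Fin (r + 1) × Fin (r + 1) =>
      β q.1 * starRingEnd ℂ (γ q.2)) d := by rw [hzdef]
    rw [h3, ← h2, Finset.sum_mul]
    refine Finset.sum_congr rfl fun ν hν => ?_
    have h4 : sch (esv fun i => starRingEnd ℂ (γ i)) ν = starRingEnd ℂ (sch (esv γ) ν) := by
      rw [conj_sch]
      congr 1
      funext k
      exact (SExp_esv_conj γ k).symm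
    rw [hgdef, h4, hβ, hγ]
    simp only
    rw [(Finset.mem_piAntidiag.1 hν).1]
    push_cast
    rfl
  have h1 := hasSum_hs z (x : ℂ) hlt
  have h2 : ∑' ν, g ν = ∏ q, (1 - z q * (x : ℂ))⁻¹ := by
    have h3 := hg.of_norm.hasSum.tsum_fiberwise (fun ν : Fin (r + 1) → ℕ => ∑ j, ν j)
    simp only [hd] at h3
    exact h3.unique h1
  -- the logarithm
  obtain ⟨t, ht⟩ : ∃ t : ℕ → ℂ, t = fun k : ℕ => (B⁻¹ ^ (k + 1)).trace *
    conj (B'⁻¹ ^ (k + 1)).trace * ((x ^ (k + 1) / ((k : ℝ) + 1) : ℝ) : ℂ) := ⟨_, rfl⟩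
  have h3 : HasSum (fun k : ℕ => ∑ q, (z q * (x : ℂ)) ^ (k + 1) / ((k : ℂ) + 1))
      (∑ q, -Complex.log (1 - z q * (x : ℂ))) :=
    hasSum_sum fun q _ => Complex.hasSum_taylorSeries_neg_log' (hlt q)
  have h4 : ∀ k : ℕ, ∑ q, (z q * (x : ℂ)) ^ (k + 1) / ((k : ℂ) + 1) = t k := by
    intro k
    have h5 : ∑ q, z q ^ (k + 1) = (B⁻¹ ^ (k + 1)).trace * conj (B'⁻¹ ^ (k + 1)).trace := by
      rw [htr (k + 1), htr' (k + 1), map_sum, Finset.sum_mul_sum, Fintype.sum_prod_type, hzdef]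
      refine Finset.sum_congr rfl fun i _ => Finset.sum_congr rfl fun j _ => ?_
      rw [mul_pow, map_pow]
    rw [ht, ← Finset.sum_div]
    simp only [mul_pow]
    rw [← Finset.sum_mul, h5]
    push_cast
    ring
  simp only [h4] at h3
  have hne : ∀ q, 1 - z q * (x : ℂ) ≠ 0 := by
    intro q h0
    have h8 : z q * (x : ℂ) = 1 := (sub_eq_zero.1 h0).symm
    have h9 := hlt q
    rw [h8, norm_one] at h9
    exact lt_irrefl _ h9
  have h8 : ∏ q, (1 - z q * (x : ℂ))⁻¹ = Complex.exp (∑' k, t k) := by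
    rw [h3.tsum_eq, Complex.exp_sum]
    refine Finset.prod_congr rfl fun q _ => ?_
    rw [Complex.exp_neg, Complex.exp_log (hne q)]
  refine ⟨?_, ?_⟩
  · have e1 := (locF_eq B hB hx hx1 hfin).1
    have e2 := (locF_eq B' hBn' hx hx1 hfin').1
    have e3 := KLoc_pair (u := fun k : ℕ => (B⁻¹ ^ (k + 1)).trace)
      (v := fun k : ℕ => (B'⁻¹ ^ (k + 1)).trace)
      (w := fun k : ℕ => x ^ (k + 1) / ((k : ℝ) + 1)) (fun k => by positivity)
      (by simpa only [mul_div_assoc] using e1) (by simpa only [mul_div_assoc] using e2)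
    refine e3.congr fun k => ?_
    rw [norm_mul, Complex.norm_real, Real.norm_of_nonneg (by positivity)]
  · have h9 : ((1 - x ^ (r + 1) : ℝ) : ℂ) ≠ 0 := by
      have : (1 - x ^ (r + 1) : ℝ) ≠ 0 := by linarith
      exact_mod_cast this
    have h10 := hT1
    rw [h2, h8] at h10
    rw [ht] at h10
    rw [h10, ← mul_assoc, mul_inv_cancel₀ h9, one_mul]

end Pool.Agent.GL74
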