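import Pool.Agent.W_7742p_h74.KOrt

/-! # The norm of a sum

* `lint_one`: for a scale invariant `u : X n → [0, ∞]` (`n > 0`, the measure of `t • A` is
  `t ^ (n * n)` times the measure of `A`, and `dt (t • g) = t ^ n * dt g`) which vanishes for
  `dt g ≤ 0`: with `I a = ∫_{0 < dt g ≤ a} u` we have `I 2 = 2 ^ n * I 1` (substitute
  `g = 2 ^ (1 / n) • g'`, `lintegral_sc` or `Measure.addHaar_smul`), and
  `I 2 = I 1 + ∫_{1 < dt g ≤ 2} u`; the set `dt g = 1` has measure `0` (`ae` statement as for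
  `ae_dt_ne_zero`; or avoid it: it is contained in the sets `1 ≤ dt ≤ 1 + ε`).
* `msT_lin`: `‖a + z b‖² = ‖a‖² + ‖b‖² + 2 Re (conj z * (a * conj b))`. -/

set_option autoImplicit false

noncomputable section

namespace Pool.Agent.GL74

open MeasureTheory ComplexConjugate Set
open scoped ENNReal MatrixGroups
open Pool.Agent.GLForm74

theorem lint_one {n : ℕ} (hn : 0 < n) {u : X n → ℝ≥0∞} (hu : Measurable u)
    (hs : ∀ t : ℝ, 0 < t → ∀ g, u (t • g) = u g) (h0 : ∀ g, ¬ 0 < dt g → u g = 0)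
    (hfin : ∫⁻ g in {g : X n | |dt g| ≤ 1}, u g ≠ ∞) :
    ((2 : ℝ≥0∞) ^ n - 1) * ∫⁻ g in {g : X n | |dt g| ≤ 1}, u g = ∫⁻ g in UAdj_A n, u g := by
  have hm : ∀ b : ℝ, MeasurableSet {g : X n | |dt g| ≤ b} := fun b =>
    measurableSet_le (_root_.continuous_abs.measurable.comp measurable_dt) measurable_const
  have hle : ∀ β : ℝ, 0 < β → ∫⁻ g in {g : X n | |dt g| ≤ β}, u g =
      ENNReal.ofReal (β ^ n) * ∫⁻ g in {g : X n | |dt g| ≤ 1}, u g := fun β hβ =>
    PSca_le hn hu hs hβ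
  obtain ⟨M, hM⟩ : ∃ M : ℝ≥0∞, M = ∫⁻ g in {g : X n | |dt g| ≤ 1}, u g := ⟨_, rfl⟩
  rw [← hM] at hfin ⊢
  rw [← hM] at hle
  have hE : MeasurableSet {g : X n | dt g = 1} :=
    measurableSet_eq_fun measurable_dt measurable_const
  -- the set `dt g = 1` has no mass
  have hz : ∫⁻ g in {g : X n | dt g = 1}, u g = 0 := by
    obtain ⟨m, hmm⟩ : ∃ m : ℝ≥0∞, m = ∫⁻ g in {g : X n | dt g = 1}, u g := ⟨_, rfl⟩
    rw [← hmm]
    have h1 : ∀ β : ℝ, 0 < β → β < 1 → m + ENNReal.ofReal (β ^ n) * M ≤ M := by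
      intro β hβ hβ1
      have hd : Disjoint {g : X n | dt g = 1} {g : X n | |dt g| ≤ β} := by
        rw [Set.disjoint_left]
        intro g hg hg'
        have e1 : dt g = 1 := hg
        have e2 : |dt g| ≤ β := hg'
        rw [e1, abs_one] at e2
        linarith
      have h2 := lintegral_union (μ := (volume : Measure (X n))) (f := u) (hm β) hd
      have h3 : ∫⁻ g in {g : X n | dt g = 1} ∪ {g : X n | |dt g| ≤ β}, u g ≤
          ∫⁻ g in {g : X n | |dt g| ≤ 1}, u g := by
        refine lintegral_mono_set ?_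
        rintro g (hg | hg)
        · have e1 : dt g = 1 := hg
          show |dt g| ≤ 1
          rw [e1, abs_one]
        · have e2 : |dt g| ≤ β := hg
          show |dt g| ≤ 1
          linarith
      rw [h2, ← hmm, hle β hβ, ← hM] at h3
      exact h3
    have h4 : Filter.Tendsto (fun β : ℝ => m + ENNReal.ofReal (β ^ n) * M)
        (nhdsWithin 1 (Set.Iio 1)) (nhds (m + ENNReal.ofReal ((1 : ℝ) ^ n) * M)) := by
      refine Filter.Tendsto.mono_left ?_ nhdsWithin_le_nhds
      refine tendsto_const_nhds.add ?_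
      refine ENNReal.Tendsto.mul_const ?_ (Or.inr hfin)
      exact (ENNReal.continuous_ofReal.comp (continuous_pow n)).tendsto 1
    rw [one_pow, ENNReal.ofReal_one, one_mul] at h4
    have h5 : m + M ≤ M := by
      refine le_of_tendsto h4 ?_
      have h6 : ∀ᶠ β : ℝ in nhdsWithin 1 (Set.Iio 1), 0 < β :=
        (lt_mem_nhds (zero_lt_one' ℝ)).filter_mono nhdsWithin_le_nhds
      filter_upwards [h6, self_mem_nhdsWithin] with β hβ hβ1
      exact h1 β hβ hβ1
    have h7 : m + M ≤ 0 + M := by rwa [zero_add]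
    exact le_antisymm ((ENNReal.add_le_add_iff_right hfin).1 h7) bot_le
  have h2 := hle 2 (by norm_num)
  have hB : MeasurableSet {g : X n | 1 < dt g ∧ dt g ≤ 2} :=
    (measurableSet_lt measurable_const measurable_dt).inter
      (measurableSet_le measurable_dt measurable_const)
  -- the integral over `|dt g| ≤ 2`
  have h3 : ∫⁻ g in {g : X n | |dt g| ≤ 2}, u g =
      M + ∫⁻ g in {g : X n | 1 < dt g ∧ dt g ≤ 2}, u g := by
    have hd : Disjoint {g : X n | |dt g| ≤ 1} {g : X n | 1 < dt g ∧ dt g ≤ 2} := by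
      rw [Set.disjoint_left]
      intro g hg hg'
      have e1 : |dt g| ≤ 1 := hg
      have e2 : 1 < dt g := hg'.1
      linarith [le_abs_self (dt g)]
    rw [hM, ← lintegral_union (μ := (volume : Measure (X n))) (f := u) hB hd,
      ← lintegral_indicator (hm 2), ← lintegral_indicator ((hm 1).union hB)]
    refine lintegral_congr fun g => ?_
    by_cases hg : 0 < dt g
    · by_cases hg2 : |dt g| ≤ 2
      · rw [Set.indicator_of_mem (show g ∈ {g : X n | |dt g| ≤ 2} from hg2)]
        rw [Set.indicator_of_mem]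
        rw [abs_of_pos hg] at hg2
        rcases le_or_gt (dt g) 1 with h4 | h4
        · left
          show |dt g| ≤ 1
          rwa [abs_of_pos hg]
        · right
          exact ⟨h4, hg2⟩
      · rw [Set.indicator_of_notMem (show g ∉ {g : X n | |dt g| ≤ 2} from hg2)]
        rw [Set.indicator_of_notMem]
        rintro (h4 | h4)
        · have e1 : |dt g| ≤ 1 := h4
          exact hg2 (by linarith)
        · have e1 : dt g ≤ 2 := h4.2
          exact hg2 (by rwa [abs_of_pos hg])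
    · have h4 := h0 g hg
      rw [Set.indicator_apply_eq_zero.2 fun _ => h4, Set.indicator_apply_eq_zero.2 fun _ => h4]
  -- the integral over `UAdj_A`
  have h4 : ∫⁻ g in UAdj_A n, u g = ∫⁻ g in {g : X n | 1 < dt g ∧ dt g ≤ 2}, u g := by
    have hd : Disjoint {g : X n | dt g = 1} {g : X n | 1 < dt g ∧ dt g ≤ 2} := by
      rw [Set.disjoint_left]
      intro g hg hg'
      have e1 : dt g = 1 := hg
      have e2 : 1 < dt g := hg'.1
      linarith
    have h5 : UAdj_A n = {g : X n | dt g = 1} ∪ {g : X n | 1 < dt g ∧ dt g ≤ 2} := by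
      ext g
      constructor
      · rintro ⟨ha, hb⟩
        rcases ha.lt_or_eq with h6 | h6
        · exact Or.inr ⟨h6, hb⟩
        · exact Or.inl h6.symm
      · rintro (ha | ha)
        · have e1 : dt g = 1 := ha
          exact ⟨e1.ge, by rw [e1]; norm_num⟩
        · exact ⟨ha.1.le, ha.2⟩
    rw [h5, lintegral_union hB hd, hz, zero_add]
  rw [h4]
  rw [h2] at h3
  have h5 : ENNReal.ofReal ((2 : ℝ) ^ n) = 2 ^ n := by
    rw [ENNReal.ofReal_pow (by norm_num)]
    norm_num
  rw [h5] at h3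
  rw [ENNReal.sub_mul fun _ _ => hfin, one_mul, h3]
  exact ENNReal.add_sub_cancel_left hfin

/-- The norm squared as an integral. -/
theorem KMas_ip {s : ℕ} (T : Finset SL(s + 2, ℤ)) {φ : X (s + 2) → ℂ} (hφ : Measurable φ)
    {C : ℝ} (hC : ∀ g, ‖φ g‖ ≤ C) :
    IP T φ φ = (((∫⁻ g in UAdj_A (s + 2), wT T g * ‖φ g‖ₑ ^ 2).toReal : ℝ) : ℂ) := by
  have hm : Measurable fun g : X (s + 2) => wT T g * ‖φ g‖ₑ ^ 2 :=
    (PMai_meas_wT T).mul (hφ.enorm.pow_const 2)
  have hfin : ∫⁻ g in UAdj_A (s + 2), wT T g * ‖φ g‖ₑ ^ 2 ≠ ∞ := by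
    have h1 : ∫⁻ g in UAdj_A (s + 2), wT T g * ‖φ g‖ₑ ^ 2 ≤
        ∫⁻ g in UAdj_A (s + 2), wT T g * ENNReal.ofReal C ^ 2 := by
      refine lintegral_mono fun g => ?_
      refine mul_le_mul_right ?_ _
      refine pow_le_pow_left' ?_ 2
      rw [← ofReal_norm]
      exact ENNReal.ofReal_le_ofReal (hC g)
    refine ne_top_of_le_ne_top ?_ h1
    rw [lintegral_mul_const _ (PMai_meas_wT T)]
    exact ENNReal.mul_ne_top (UAdj_wT_fin (by omega) T).ne
      (ENNReal.pow_ne_top ENNReal.ofReal_ne_top)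
  rw [← integral_toReal hm.aemeasurable (ae_lt_top hm hfin)]
  unfold IP
  rw [← integral_complex_ofReal]
  refine integral_congr_ae (Filter.Eventually.of_forall fun g => ?_)
  show ((wT T g).toReal : ℂ) * (φ g * conj (φ g)) = ((wT T g * ‖φ g‖ₑ ^ 2).toReal : ℂ)
  rw [ENNReal.toReal_mul, ENNReal.toReal_pow, toReal_enorm, Complex.mul_conj, Complex.normSq_eq_norm_sq]
  push_cast
  ring

/-- The scaling of the weight. -/
theorem KMas_wT_smul {n : ℕ} (T : Finset SL(n, ℤ)) {t : ℝ} (ht : 0 < t) (g : X n) :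
    wT T (t • g) = wT T g := by
  unfold wT
  refine Finset.sum_congr rfl fun δ _ => ?_
  have h1 : sl δ (t • g) = t • sl δ g := lm_smul _ _ _
  rw [h1, (isWt_wt n).scale t ht]

/-- The relation between the two norms. -/
theorem KMas_ms {s : ℕ} (T : Finset SL(s + 2, ℤ)) {φ : X (s + 2) → ℂ} (hφ : Measurable φ)
    {C : ℝ} (hC : ∀ g, ‖φ g‖ ≤ C) (hs : ∀ t : ℝ, 0 < t → ∀ g, φ (t • g) = φ g)
    (h0 : ∀ g, ¬ 0 < dt g → φ g = 0) :
    ((2 : ℝ) ^ (s + 2) - 1) * (msT T φ).toReal =
      (∫⁻ g in UAdj_A (s + 2), wT T g * ‖φ g‖ₑ ^ 2).toReal := by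
  have hm : Measurable fun g : X (s + 2) => wT T g * ‖φ g‖ₑ ^ 2 :=
    (PMai_meas_wT T).mul (hφ.enorm.pow_const 2)
  have h1 := lint_one (n := s + 2) (by omega) hm
    (fun t ht g => by
      show wT T (t • g) * ‖φ (t • g)‖ₑ ^ 2 = wT T g * ‖φ g‖ₑ ^ 2
      rw [KMas_wT_smul T ht, hs t ht])
    (fun g hg => by
      show wT T g * ‖φ g‖ₑ ^ 2 = 0
      rw [h0 g hg]
      simp) (msT_fin T hC)
  rw [← h1, ENNReal.toReal_mul]
  congr 1
  have h2 : (1 : ℝ≥0∞) ≤ 2 ^ (s + 2) := one_le_pow₀ (by norm_num)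
  rw [ENNReal.toReal_sub_of_le h2 (ENNReal.pow_ne_top (by norm_num)), ENNReal.toReal_pow]
  norm_num

/-- The integral of a combination of four functions. -/
theorem KMas_add {α : Type} [MeasurableSpace α] {μ : Measure α} {F₁ F₂ F₃ F₄ : α → ℂ}
    (i1 : Integrable F₁ μ) (i2 : Integrable F₂ μ) (i3 : Integrable F₃ μ) (i4 : Integrable F₄ μ)
    (z w : ℂ) : ∫ g, (((F₁ g + F₂ g) + z * F₃ g) + w * F₄ g) ∂μ =
      ∫ g, F₁ g ∂μ + ∫ g, F₂ g ∂μ + z * ∫ g, F₃ g ∂μ + w * ∫ g, F₄ g ∂μ := by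
  rw [integral_add (f := fun g => (F₁ g + F₂ g) + z * F₃ g) (g := fun g => w * F₄ g)
      ((i1.add i2).add (i3.const_mul z)) (i4.const_mul w),
    integral_add (f := fun g => F₁ g + F₂ g) (g := fun g => z * F₃ g) (i1.add i2)
      (i3.const_mul z), integral_add i1 i2, integral_const_mul, integral_const_mul]

theorem msT_lin {s : ℕ} (T : Finset SL(s + 2, ℤ)) {f f' : Matrix (Fin (s + 2)) (Fin (s + 2)) ℝ → ℂ}
    (hm : Measurable (tof f)) (hm' : Measurable (tof f')) {C : ℝ} (hC : ∀ g, ‖tof f g‖ ≤ C)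
    (hC' : ∀ g, ‖tof f' g‖ ≤ C) (hs : ∀ t : ℝ, 0 < t → ∀ g, tof f (t • g) = tof f g)
    (hs' : ∀ t : ℝ, 0 < t → ∀ g, tof f' (t • g) = tof f' g)
    (h0 : IP T (tof f) (tof f') = 0) (z : ℂ) (hz : ‖z‖ = 1) :
    (msT T fun g => tof f g + z * tof f' g).toReal =
      (msT T (tof f)).toReal + (msT T (tof f')).toReal := by
  have hm2 : Measurable fun g => tof f g + z * tof f' g := hm.add (hm'.const_mul z)
  have hC2 : ∀ g, ‖tof f g + z * tof f' g‖ ≤ C + C := by
    intro g
    refine (norm_add_le _ _).trans (add_le_add (hC g) ?_)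
    rw [norm_mul, hz, one_mul]
    exact hC' g
  have e1 := KMas_ms T hm hC hs fun g hg => QExt_neg f hg
  have e2 := KMas_ms T hm' hC' hs' fun g hg => QExt_neg f' hg
  have e3 := KMas_ms T hm2 hC2
    (fun t ht g => by
      show tof f (t • g) + z * tof f' (t • g) = tof f g + z * tof f' g
      rw [hs t ht, hs' t ht])
    (fun g hg => by
      show tof f g + z * tof f' g = 0
      rw [QExt_neg f hg, QExt_neg f' hg]
      ring)
  have i1 := ip_integrable T hm hm hC hC
  have i2 := ip_integrable T hm' hm' hC' hC'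
  have i3 := ip_integrable T hm' hm hC' hC
  have i4 := ip_integrable T hm hm' hC hC'
  have hzz : z * conj z = 1 := by
    rw [Complex.mul_conj, Complex.normSq_eq_norm_sq, hz]
    norm_num
  have h0' : IP T (tof f') (tof f) = 0 := by
    have h1 : IP T (tof f') (tof f) = conj (IP T (tof f) (tof f')) := by
      unfold IP
      rw [← integral_conj]
      refine integral_congr_ae (Filter.Eventually.of_forall fun g => ?_)
      show ((wT T g).toReal : ℂ) * (tof f' g * conj (tof f g)) =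
        conj (((wT T g).toReal : ℂ) * (tof f g * conj (tof f' g)))
      rw [map_mul, map_mul, Complex.conj_ofReal, Complex.conj_conj]
      ring
    rw [h1, h0, map_zero]
  have h1 : IP T (fun g => tof f g + z * tof f' g) (fun g => tof f g + z * tof f' g) =
      IP T (tof f) (tof f) + IP T (tof f') (tof f') + z * IP T (tof f') (tof f) +
        conj z * IP T (tof f) (tof f') := by
    unfold IP
    have j : ∫ g in UAdj_A (s + 2), (((((wT T g).toReal : ℂ) * (tof f g * conj (tof f g)) +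
        ((wT T g).toReal : ℂ) * (tof f' g * conj (tof f' g))) +
        z * (((wT T g).toReal : ℂ) * (tof f' g * conj (tof f g)))) +
        conj z * (((wT T g).toReal : ℂ) * (tof f g * conj (tof f' g)))) =
        ∫ g in UAdj_A (s + 2), ((wT T g).toReal : ℂ) *
          ((tof f g + z * tof f' g) * conj (tof f g + z * tof f' g)) := by
      refine integral_congr_ae (Filter.Eventually.of_forall fun g => ?_)
      show (((((wT T g).toReal : ℂ) * (tof f g * conj (tof f g)) +
        ((wT T g).toReal : ℂ) * (tof f' g * conj (tof f' g))) +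
        z * (((wT T g).toReal : ℂ) * (tof f' g * conj (tof f g)))) +
        conj z * (((wT T g).toReal : ℂ) * (tof f g * conj (tof f' g)))) =
        ((wT T g).toReal : ℂ) * ((tof f g + z * tof f' g) * conj (tof f g + z * tof f' g))
      rw [map_add, map_mul]
      linear_combination -((wT T g).toReal : ℂ) * (tof f' g * conj (tof f' g)) * hzz
    show ∫ g in UAdj_A (s + 2), ((wT T g).toReal : ℂ) *
          ((tof f g + z * tof f' g) * conj (tof f g + z * tof f' g)) = _
    rw [← j]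
    exact KMas_add i1 i2 i3 i4 z (conj z)
  rw [h0, h0', mul_zero, mul_zero, add_zero, add_zero, KMas_ip T hm2 hC2, KMas_ip T hm hC,
    KMas_ip T hm' hC', ← e1, ← e2, ← e3] at h1
  have h2 : ((2 : ℝ) ^ (s + 2) - 1) * (msT T fun g => tof f g + z * tof f' g).toReal =
      ((2 : ℝ) ^ (s + 2) - 1) * (msT T (tof f)).toReal +
        ((2 : ℝ) ^ (s + 2) - 1) * (msT T (tof f')).toReal := by
    exact_mod_cast h1
  have h3 : (0 : ℝ) < (2 : ℝ) ^ (s + 2) - 1 := by
    have : (1 : ℝ) < 2 ^ (s + 2) := one_lt_pow₀ (by norm_num) (by omega)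
    linarith
  rw [← mul_add] at h2
  exact mul_left_cancel₀ h3.ne' h2

end Pool.Agent.GL74
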