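import Pool.Agent.W_7742p_h74.KDef
import Pool.Agent.W_7742x_h74.NPos

/-! # Nonvanishing

* `g1_ne_zero`: if `G₁ 1 = 0` then `g := dslope G₁ 1` is analytic on `(0, b)` and
  `g σ = M σ * exp (∑ |t|²)` for `1 < σ < b`; apply `positivity_lap_closed` (NPos.lean) with
  `d = 0`, `c = |t|²`, `bb = 0` for every `σ0 ∈ (0, 1]`: the series `∑ |t|² pk σ` converges for all
  `σ > 0`.  (`pk` is decreasing in `σ`: `pk_anti`, so it converges for all `σ > 1`.)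
* `g3_deriv`: suppose that `deriv G₃ 1 = 0`.  Then `H := dslope (dslope G₃ 1) 1` is analytic on
  `(0, b)` and `G₃ σ = (σ - 1)² H σ`.  The function `g := G₁ G₂ |H|²` (`|H|² = re² + im²`) is analytic
  on `(0, b)` and for `1 < σ < b` it is
  `M⁴ exp (∑ |t|² + ∑ |t'|² + 2 Re ∑ t conj t') = M⁴ exp (∑ |t + t'|²)`, and `M⁴` is the Laplace
  transform of a nonzero measure (`exists_prod`, NCon.lean, with `ι = Fin 4`).  Apply
  `positivity_lap_closed` with `d = 0`, `c = |t + t'|²`: contradiction. -/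

set_option autoImplicit false

noncomputable section

namespace Pool.Agent.GL74

open MeasureTheory ComplexConjugate Set
open Pool.Agent.H74E (pk)

variable {t t' : Nat.Primes × ℕ → ℂ} {b : ℝ} {μ : Measure ℝ} {G₁ G₂ : ℝ → ℝ} {G₃ : ℝ → ℂ}

theorem analyticAt_dslope {E : Type} [NormedAddCommGroup E] [NormedSpace ℝ E] {G : ℝ → E}
    {a σ : ℝ} (ha : AnalyticAt ℝ G a) (h : AnalyticAt ℝ G σ) : AnalyticAt ℝ (dslope G a) σ := by
  rcases eq_or_ne σ a with rfl | hne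
  · obtain ⟨p, hp⟩ := ha
    exact ⟨_, hp.has_fpower_series_dslope_fslope⟩
  · have h1 : AnalyticAt ℝ (fun x => (x - a)⁻¹ • (G x - G a)) σ := by
      have h2 : AnalyticAt ℝ (fun x : ℝ => (x - a)⁻¹) σ :=
        (analyticAt_id.sub analyticAt_const).inv (sub_ne_zero.2 hne)
      exact h2.smul (h.sub analyticAt_const)
    refine h1.congr ?_
    filter_upwards [isOpen_ne.mem_nhds hne] with x hx
    rw [dslope_of_ne _ hx, slope_def_module]

theorem KNon_dslope {E : Type} [NormedAddCommGroup E] [NormedSpace ℝ E] {G : ℝ → E} {σ : ℝ}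
    (h : 1 < σ) (h0 : G 1 = 0) : dslope G 1 σ = (σ - 1)⁻¹ • G σ := by
  rw [dslope_of_ne _ h.ne', slope_def_module, h0, sub_zero]

theorem KNon_summable {c : Nat.Primes × ℕ → ℝ} (hc : ∀ x, 0 ≤ c x) {b : ℝ} (hb : 1 < b)
    (h : ∀ σ ∈ Ioo 1 b, Summable fun x => c x * pk σ x) {s : ℝ} (hs : 1 < s) :
    Summable fun x => c x * pk s x := by
  rcases lt_or_ge s b with h1 | h1
  · exact h s ⟨hs, h1⟩
  · obtain ⟨r, h2, h3⟩ := exists_between hb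
    exact Summable.of_nonneg_of_le
      (fun x => mul_nonneg (hc x) (Pool.Agent.H74E.pk_nonneg s x))
      (fun x => mul_le_mul_of_nonneg_left (Pool.Agent.H74E.pk_anti (h3.le.trans h1) x) (hc x))
      (h r ⟨h2, h3⟩)

theorem KNon_key {c : Nat.Primes × ℕ → ℝ} (hc : ∀ x, 0 ≤ c x) {b : ℝ} (hb : 1 < b)
    (hcs : ∀ σ ∈ Ioo 1 b, Summable fun x => c x * pk σ x)
    {μ : Measure ℝ} [SFinite μ] (hμ : μ ≠ 0)
    (hμi : ∀ s ∈ Ioo 1 b, Integrable (fun x => Real.exp (s * x)) μ)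
    {g : ℝ → ℝ} (hg : ∀ s ∈ Ioo 0 b, AnalyticAt ℝ g s)
    (hgs : ∀ s ∈ Ioo 1 b, g s = (∫ x, Real.exp (s * x) ∂μ) *
      Real.exp (∑' x, c x * pk s x)) {σ : ℝ} (hσ : 0 < σ) : Summable fun x => c x * pk σ x := by
  refine positivity_lap_closed (σ0 := min σ 1) (lt_min hσ one_pos) (min_le_right _ _) hb 0 c
    (fun _ => 0) hc (fun _ => le_rfl) (fun s _ => by simp)
    (fun s hs => KNon_summable hc hb hcs hs) μ hμ hμi g hg (fun s hs => ?_) σ (min_le_left _ _)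
  rw [hgs s hs]
  simp

theorem KNon_ne {t : Nat.Primes × ℕ → ℂ} {b : ℝ} {μ : Measure ℝ} {G : ℝ → ℝ} (hb : 1 < b)
    (sfin : SFinite μ) (ne : μ ≠ 0)
    (int : ∀ σ ∈ Ioo 1 b, Integrable (fun x => Real.exp (σ * x)) μ)
    (sum₁ : ∀ σ ∈ Ioo 1 b, Summable fun x => ‖t x‖ ^ 2 * pk σ x)
    (an₁ : ∀ σ ∈ Ioo 0 b, AnalyticAt ℝ G σ)
    (eq₁ : ∀ σ ∈ Ioo 1 b, G σ =
      (σ - 1) * (∫ x, Real.exp (σ * x) ∂μ) * Real.exp (∑' x, ‖t x‖ ^ 2 * pk σ x))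
    (hd : Diverg t) : G 1 ≠ 0 := by
  intro h0
  refine hd fun σ hσ => ?_
  haveI := sfin
  refine KNon_key (c := fun x => ‖t x‖ ^ 2) (fun x => by positivity) hb sum₁ ne int
    (g := dslope G 1) (fun s hs => analyticAt_dslope (an₁ 1 ⟨one_pos, hb⟩) (an₁ s hs))
    (fun s hs => ?_) hσ
  have hne : s - 1 ≠ 0 := sub_ne_zero.2 hs.1.ne'
  rw [KNon_dslope hs.1 h0, eq₁ s hs, smul_eq_mul]
  field_simp

theorem IsPairRS.g1_ne_zero (h : IsPairRS t t' b μ G₁ G₂ G₃) (hd : Diverg t) : G₁ 1 ≠ 0 :=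
  KNon_ne h.hb h.sfin h.ne h.int h.sum₁ h.an₁ h.eq₁ hd

theorem IsPairRS.g2_ne_zero (h : IsPairRS t t' b μ G₁ G₂ G₃) (hd : Diverg t') : G₂ 1 ≠ 0 :=
  KNon_ne h.hb h.sfin h.ne h.int h.sum₂ h.an₂ h.eq₂ hd

theorem KNon_bound (x y : ℂ) {p : ℝ} (hp : 0 ≤ p) :
    ‖x * conj y * (p : ℂ)‖ ≤ ‖x‖ ^ 2 * p + ‖y‖ ^ 2 * p := by
  rw [norm_mul, norm_mul, RCLike.norm_conj, Complex.norm_real, Real.norm_of_nonneg hp]
  nlinarith [mul_nonneg (sq_nonneg (‖x‖ - ‖y‖)) hp, mul_nonneg (sq_nonneg ‖x‖) hp,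
    mul_nonneg (sq_nonneg ‖y‖) hp]

theorem KNon_sq (x y : ℂ) (p : ℝ) :
    ‖x + y‖ ^ 2 * p = ‖x‖ ^ 2 * p + ‖y‖ ^ 2 * p + 2 * (x * conj y * (p : ℂ)).re := by
  rw [← Complex.normSq_eq_norm_sq, ← Complex.normSq_eq_norm_sq, ← Complex.normSq_eq_norm_sq,
    Complex.normSq_add, Complex.re_mul_ofReal]
  ring

theorem IsPairRS.g3_deriv (h : IsPairRS t t' b μ G₁ G₂ G₃) (hd : Diverg fun x => t x + t' x) :
    deriv G₃ 1 ≠ 0 := by
  intro h0
  refine hd fun σ hσ => ?_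
  haveI := h.sfin
  have h1b : (1 : ℝ) ∈ Ioo 0 b := ⟨one_pos, h.hb⟩
  obtain ⟨ρ, hρ1, hρ2, hρ3⟩ := exists_prod (fun _ : Fin 4 => μ) (fun _ => h.sfin) (fun _ => h.ne)
  haveI := hρ1
  set K : ℝ → ℂ := dslope G₃ 1 with hK
  set H : ℝ → ℂ := dslope K 1 with hH
  have hKan : ∀ s ∈ Ioo 0 b, AnalyticAt ℝ K s := fun s hs =>
    analyticAt_dslope (h.an₃ 1 h1b) (h.an₃ s hs)
  have hHan : ∀ s ∈ Ioo 0 b, AnalyticAt ℝ H s := fun s hs =>
    analyticAt_dslope (hKan 1 h1b) (hKan s hs)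
  have hK1 : K 1 = 0 := by rw [hK, dslope_same, h0]
  have hsum3 : ∀ s ∈ Ioo 1 b, Summable fun x => t x * conj (t' x) * (pk s x : ℂ) := by
    intro s hs
    exact Summable.of_norm_bounded ((h.sum₁ s hs).add (h.sum₂ s hs))
      (fun x => KNon_bound _ _ (Pool.Agent.H74E.pk_nonneg s x))
  have hsum4 : ∀ s ∈ Ioo 1 b, (Summable fun x => ‖t x + t' x‖ ^ 2 * pk s x) ∧
      ∑' x, ‖t x + t' x‖ ^ 2 * pk s x = ∑' x, ‖t x‖ ^ 2 * pk s x + ∑' x, ‖t' x‖ ^ 2 * pk s x +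
        2 * (∑' x, t x * conj (t' x) * (pk s x : ℂ)).re := by
    intro s hs
    have e1 := h.sum₁ s hs
    have e2 := h.sum₂ s hs
    have e3 := hsum3 s hs
    have e4 : HasSum (fun x => (t x * conj (t' x) * (pk s x : ℂ)).re)
        (∑' x, t x * conj (t' x) * (pk s x : ℂ)).re := Complex.hasSum_re e3.hasSum
    have e5 := (e1.hasSum.add e2.hasSum).add (e4.mul_left 2)
    have e6 : (fun x => ‖t x + t' x‖ ^ 2 * pk s x) = fun x => ‖t x‖ ^ 2 * pk s x +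
        ‖t' x‖ ^ 2 * pk s x + 2 * (t x * conj (t' x) * (pk s x : ℂ)).re :=
      funext fun x => KNon_sq _ _ _
    rw [e6]
    exact ⟨e5.summable, e5.tsum_eq⟩
  refine KNon_key (c := fun x => ‖t x + t' x‖ ^ 2) (fun x => by positivity) h.hb
    (fun s hs => (hsum4 s hs).1) hρ2 (fun s hs => (hρ3 s fun _ => h.int s hs).1)
    (g := fun s => G₁ s * G₂ s * ((H s).re ^ 2 + (H s).im ^ 2)) (fun s hs => ?_)
    (fun s hs => ?_) hσ
  · have hre : AnalyticAt ℝ (fun s => (H s).re) s :=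
      (Complex.reCLM.analyticAt (H s)).comp (hHan s hs)
    have him : AnalyticAt ℝ (fun s => (H s).im) s :=
      (Complex.imCLM.analyticAt (H s)).comp (hHan s hs)
    exact ((h.an₁ s hs).mul (h.an₂ s hs)).mul ((hre.pow 2).add (him.pow 2))
  · have hne : s - 1 ≠ 0 := sub_ne_zero.2 hs.1.ne'
    have hM := (hρ3 s fun _ => h.int s hs).2
    rw [Finset.prod_const, Finset.card_univ, Fintype.card_fin] at hM
    have hHs : H s = (s - 1)⁻¹ • (s - 1)⁻¹ • G₃ s := by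
      rw [hH, KNon_dslope hs.1 hK1, hK, KNon_dslope hs.1 h.zero]
    have hnorm : (H s).re ^ 2 + (H s).im ^ 2 = ((s - 1)⁻¹ * (∫ x, Real.exp (s * x) ∂μ)) ^ 2 *
        Real.exp (2 * (∑' x, t x * conj (t' x) * (pk s x : ℂ)).re) := by
      have e1 : (H s).re ^ 2 + (H s).im ^ 2 = ‖H s‖ ^ 2 := by
        rw [← Complex.normSq_eq_norm_sq, Complex.normSq_apply]
        ring
      rw [e1, hHs, norm_smul, norm_smul, h.eq₃ s hs, norm_mul, Complex.norm_exp,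
        Complex.norm_real, two_mul, Real.exp_add]
      simp only [Real.norm_eq_abs, abs_mul, abs_inv]
      have e2 : |s - 1| ≠ 0 := abs_ne_zero.2 hne
      rw [← sq_abs ((s - 1)⁻¹ * ∫ x, Real.exp (s * x) ∂μ), abs_mul, abs_inv]
      field_simp
    rw [hM, hnorm, h.eq₁ s hs, h.eq₂ s hs, (hsum4 s hs).2, Real.exp_add, Real.exp_add]
    field_simp

end Pool.Agent.GL74
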