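import Pool.Agent.W_7742x_h74.PExt

/-! # The value at `1`

`small_det` (PMai.lean) constructs the function `G σ = (∑_{d ∣ N} μ(d) c_d) * m + (σ - 1) * (...) -
(...) * ((σ - 1) * ...)`, where `c_d = PMai_c s N d` and `m = (s + 2) * ∫_{|dt g| ≤ 1} wT T ‖φ‖²`.
Hence `G 1 = (∑_{d ∣ N} μ(d) c_d) * m.toReal`.  Repeat the proof of `small_det` with this
additional conclusion (the auxiliary lemmas `PMai_*` are available); then `iA_ext` (PExt.lean)
adds `(σ - 1) * (...)`, which is `0` at `1`. -/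

set_option autoImplicit false

noncomputable section

namespace Pool.Agent.GL74

open MeasureTheory Set
open scoped ENNReal MatrixGroups

/-- The square of the norm. -/
def msT {s : ℕ} (T : Finset SL(s + 2, ℤ)) (φ : X (s + 2) → ℂ) : ℝ≥0∞ :=
  ∫⁻ g in {g : X (s + 2) | |dt g| ≤ 1}, wT T g * ‖φ g‖ₑ ^ 2

theorem msT_fin {s : ℕ} (T : Finset SL(s + 2, ℤ)) {φ : X (s + 2) → ℂ} {C : ℝ}
    (hC : ∀ g, ‖φ g‖ ≤ C) : msT T φ ≠ ∞ := by
  have h1 : msT T φ ≤
      ∫⁻ g in {g : X (s + 2) | |dt g| ≤ 1}, ENNReal.ofReal C ^ 2 * wT T g := by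
    unfold msT
    refine lintegral_mono fun g => ?_
    have h2 : ‖φ g‖ₑ ≤ ENNReal.ofReal C := by
      rw [← ofReal_norm]
      exact ENNReal.ofReal_le_ofReal (hC g)
    rw [mul_comm]
    show ‖φ g‖ₑ ^ 2 * wT T g ≤ ENNReal.ofReal C ^ 2 * wT T g
    gcongr
  refine ne_top_of_le_ne_top ?_ h1
  rw [lintegral_const_mul' _ _ (ENNReal.pow_ne_top ENNReal.ofReal_ne_top)]
  exact ENNReal.mul_ne_top (ENNReal.pow_ne_top ENNReal.ofReal_ne_top) (PMai_wT_fin T)

theorem small_det_val {s N : ℕ} (hN : 0 < N) (T : Finset SL(s + 2, ℤ)) {φ : X (s + 2) → ℂ}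
    (hφ : Measurable φ) {C : ℝ} (hC : ∀ g, ‖φ g‖ ≤ C)
    (hs : ∀ t : ℝ, 0 < t → ∀ g, φ (t • g) = φ g) :
    ∃ G : ℝ → ℝ, (∀ σ, 0 < σ → AnalyticAt ℝ G σ) ∧
      G 1 = (∑ d ∈ N.divisors, (ArithmeticFunction.moebius d : ℝ) * PMai_c s N d) *
        (((s + 2 : ℕ) : ℝ) * (msT T φ).toReal) ∧
      ∀ σ : ℝ, 1 < σ →
      ∫⁻ g in {g : X (s + 2) | |dt g| ≤ 1}, wT T g * (‖φ g‖ₑ ^ 2 *
        (ENNReal.ofReal (|dt g| ^ (σ - (s + 2))) * thN s N g)) ≠ ∞ ∧
      G σ = (σ - 1) * (∫⁻ g in {g : X (s + 2) | |dt g| ≤ 1}, wT T g * (‖φ g‖ₑ ^ 2 *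
        (ENNReal.ofReal (|dt g| ^ (σ - (s + 2))) * thN s N g))).toReal := by
  set u : X (s + 2) → ℝ≥0∞ := fun g => wT T g * ‖φ g‖ₑ ^ 2 with hu
  have hum : Measurable u := (PMai_meas_wT T).mul (hφ.enorm.pow_const 2)
  have hus : ∀ t : ℝ, 0 < t → ∀ g, u (t • g) = u g := by
    intro t ht g
    rw [hu]
    simp only [hs t ht g]
    congr 1
    unfold wT
    refine Finset.sum_congr rfl fun δ _ => ?_
    rw [sl_smul, (isWt_wt (s + 2)).scale t ht]
  have hufin : ∫⁻ g in {g : X (s + 2) | |dt g| ≤ 1}, u g ≠ ∞ := by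
    have h1 : ∫⁻ g in {g : X (s + 2) | |dt g| ≤ 1}, u g ≤
        ∫⁻ g in {g : X (s + 2) | |dt g| ≤ 1}, ENNReal.ofReal C ^ 2 * wT T g := by
      refine lintegral_mono fun g => ?_
      have h2 : ‖φ g‖ₑ ≤ ENNReal.ofReal C := by
        rw [← ofReal_norm]
        exact ENNReal.ofReal_le_ofReal (hC g)
      rw [mul_comm]
      show wT T g * ‖φ g‖ₑ ^ 2 ≤ wT T g * ENNReal.ofReal C ^ 2
      gcongr
    refine ne_top_of_le_ne_top ?_ h1
    rw [lintegral_const_mul' _ _ (ENNReal.pow_ne_top ENNReal.ofReal_ne_top)]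
    exact ENNReal.mul_ne_top (ENNReal.pow_ne_top ENNReal.ofReal_ne_top) (PMai_wT_fin T)
  have hE : ∀ d ∈ N.divisors, ∀ σ : ℝ, 0 < σ → PMai_E u N d σ ≠ ∞ := by
    intro d hd σ hσ
    exact PMai_Efin hN (Nat.dvd_of_mem_divisors hd) T hC (by linarith)
  set m : ℝ≥0∞ := ((s + 2 : ℕ) : ℝ≥0∞) * ∫⁻ g in {g : X (s + 2) | |dt g| ≤ 1}, u g with hm
  have hmt : m ≠ ∞ := ENNReal.mul_ne_top (ENNReal.natCast_ne_top _) hufin
  have hI : ∀ a : ℝ, 0 < a + (s + 2) → PMai_I u a = m * ENNReal.ofReal (1 / (a + (s + 2))) :=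
    fun a ha => PMai_scal hum hus hufin ha
  have hA2 : ∀ σ : ℝ, ∫⁻ g in {g : X (s + 2) | |dt g| ≤ 1}, wT T g * (‖φ g‖ₑ ^ 2 *
        (ENNReal.ofReal (|dt g| ^ (σ - (s + 2))) * thN s N g)) =
      ∫⁻ g in {g : X (s + 2) | |dt g| ≤ 1}, u g *
        (ENNReal.ofReal (|dt g| ^ (σ - (s + 2))) * thN s N g) := fun σ =>
    lintegral_congr fun g => (mul_assoc _ _ _).symm
  refine ⟨fun σ => (∑ d ∈ N.divisors, (ArithmeticFunction.moebius d : ℝ) * PMai_c s N d) *
      m.toReal + (σ - 1) * (∑ d ∈ N.divisors, (ArithmeticFunction.moebius d : ℝ) * PMai_c s N d *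
        (PMai_E u N d σ).toReal) - (if N = 1 then 1 else 0) * ((σ - 1) * (m.toReal * σ⁻¹)),
    ?_, ?_, ?_⟩
  · intro σ hσ
    have h1 : AnalyticAt ℝ (fun σ : ℝ => ∑ d ∈ N.divisors,
        (ArithmeticFunction.moebius d : ℝ) * PMai_c s N d * (PMai_E u N d σ).toReal) σ :=
      Finset.analyticAt_fun_sum _ fun d hd =>
        analyticAt_const.mul (PMai_ana hum (hE d hd) hσ)
    have h2 : AnalyticAt ℝ (fun σ : ℝ => σ⁻¹) σ := analyticAt_id.inv hσ.ne'
    have h3 : AnalyticAt ℝ (fun σ : ℝ => σ - 1) σ := analyticAt_id.sub analyticAt_const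
    exact (analyticAt_const.add (h3.mul h1)).sub
      (analyticAt_const.mul (h3.mul (analyticAt_const.mul h2)))
  · have hmr : m.toReal = ((s + 2 : ℕ) : ℝ) * (msT T φ).toReal := by
      rw [hm, ENNReal.toReal_mul, ENNReal.toReal_natCast]
      rfl
    rw [← hmr]
    simp only [sub_self, zero_mul, mul_zero, add_zero, sub_zero]
  · intro σ hσ
    rw [hA2 σ]
    have hid := PMai_A (N := N) u hN hum σ
    have e1 : PMai_I u (σ - (s + 2) - 1) = m * ENNReal.ofReal (1 / (σ - 1)) := by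
      rw [hI _ (by linarith)]
      congr 3
      ring
    have e0 : PMai_I u (σ - (s + 2)) = m * ENNReal.ofReal (1 / σ) := by
      rw [hI _ (by linarith)]
      congr 3
      ring
    rw [e1, e0] at hid
    have hI1 : m * ENNReal.ofReal (1 / (σ - 1)) ≠ ∞ :=
      ENNReal.mul_ne_top hmt ENNReal.ofReal_ne_top
    have hI0 : m * ENNReal.ofReal (1 / σ) ≠ ∞ := ENNReal.mul_ne_top hmt ENNReal.ofReal_ne_top
    have hB : ∀ (c : ℕ → ℝ), ∀ d ∈ N.divisors, ENNReal.ofReal (c d) *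
        (ENNReal.ofReal (PMai_c s N d) * (m * ENNReal.ofReal (1 / (σ - 1)) +
          PMai_E u N d σ)) ≠ ∞ := fun c d hd =>
      ENNReal.mul_ne_top ENNReal.ofReal_ne_top (ENNReal.mul_ne_top ENNReal.ofReal_ne_top
        (ENNReal.add_ne_top.2 ⟨hI1, hE d hd σ (by linarith)⟩))
    have hc : (if N = 1 then (1 : ℝ≥0∞) else 0) ≠ ∞ := by
      split_ifs
      · exact ENNReal.one_ne_top
      · exact ENNReal.zero_ne_top
    have hS1 := ENNReal.sum_ne_top.2 (hB fun d => max (-(ArithmeticFunction.moebius d : ℝ)) 0)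
    have hS2 := ENNReal.sum_ne_top.2 (hB fun d => max (ArithmeticFunction.moebius d : ℝ) 0)
    have hA : ∫⁻ g in {g : X (s + 2) | |dt g| ≤ 1}, u g *
        (ENNReal.ofReal (|dt g| ^ (σ - (s + 2))) * thN s N g) ≠ ∞ := by
      refine ne_top_of_le_ne_top hS2 ?_
      rw [← hid]
      exact le_self_add
    refine ⟨hA, ?_⟩
    have hr := congrArg ENNReal.toReal hid
    have hx : (if N = 1 then (1 : ℝ≥0∞) else 0) * (m * ENNReal.ofReal (1 / σ)) ≠ ∞ :=
      ENNReal.mul_ne_top hc hI0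
    rw [ENNReal.toReal_add hA (ENNReal.add_ne_top.2 ⟨hS1, hx⟩), ENNReal.toReal_add hS1 hx,
      ENNReal.toReal_sum (hB fun d => max (-(ArithmeticFunction.moebius d : ℝ)) 0),
      ENNReal.toReal_sum (hB fun d => max (ArithmeticFunction.moebius d : ℝ) 0)] at hr
    have hterm : ∀ (c : ℕ → ℝ), (∀ d, 0 ≤ c d) → ∑ d ∈ N.divisors, (ENNReal.ofReal (c d) *
        (ENNReal.ofReal (PMai_c s N d) * (m * ENNReal.ofReal (1 / (σ - 1)) +
          PMai_E u N d σ))).toReal = ∑ d ∈ N.divisors, c d * (PMai_c s N d *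
        (m.toReal * (1 / (σ - 1)) + (PMai_E u N d σ).toReal)) := by
      intro c hc0
      refine Finset.sum_congr rfl fun d hd => ?_
      rw [ENNReal.toReal_mul, ENNReal.toReal_mul, ENNReal.toReal_add hI1
        (hE d hd σ (by linarith)), ENNReal.toReal_mul, ENNReal.toReal_ofReal (hc0 d),
        ENNReal.toReal_ofReal (PMai_c_nonneg s N d),
        ENNReal.toReal_ofReal (by
          have : 0 < σ - 1 := by linarith
          positivity)]
    rw [hterm _ fun d => le_max_right _ _, hterm _ fun d => le_max_right _ _] at hr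
    have hite : (((if N = 1 then (1 : ℝ≥0∞) else 0) * (m * ENNReal.ofReal (1 / σ)))).toReal =
        (if N = 1 then 1 else 0) * (m.toReal * (1 / σ)) := by
      rw [ENNReal.toReal_mul, ENNReal.toReal_mul, ENNReal.toReal_ofReal (by positivity)]
      congr 1
      split_ifs
      · exact ENNReal.toReal_one
      · exact ENNReal.toReal_zero
    rw [hite] at hr
    have hmax : ∀ d : ℕ, max (ArithmeticFunction.moebius d : ℝ) 0 =
        (ArithmeticFunction.moebius d : ℝ) + max (-(ArithmeticFunction.moebius d : ℝ)) 0 := by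
      intro d
      rcases le_total (ArithmeticFunction.moebius d : ℝ) 0 with h | h
      · rw [max_eq_right h, max_eq_left (by linarith)]
        ring
      · rw [max_eq_left h, max_eq_right (by linarith)]
        ring
    have hsplit : ∑ d ∈ N.divisors, max (ArithmeticFunction.moebius d : ℝ) 0 * (PMai_c s N d *
        (m.toReal * (1 / (σ - 1)) + (PMai_E u N d σ).toReal)) =
        (∑ d ∈ N.divisors, (ArithmeticFunction.moebius d : ℝ) * PMai_c s N d) *
          (m.toReal * (1 / (σ - 1))) + (∑ d ∈ N.divisors,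
            (ArithmeticFunction.moebius d : ℝ) * PMai_c s N d * (PMai_E u N d σ).toReal) +
        ∑ d ∈ N.divisors, max (-(ArithmeticFunction.moebius d : ℝ)) 0 * (PMai_c s N d *
        (m.toReal * (1 / (σ - 1)) + (PMai_E u N d σ).toReal)) := by
      rw [Finset.sum_mul, ← Finset.sum_add_distrib, ← Finset.sum_add_distrib]
      refine Finset.sum_congr rfl fun d _ => ?_
      rw [hmax d]
      ring
    rw [hsplit] at hr
    have hA' : (∫⁻ g in {g : X (s + 2) | |dt g| ≤ 1}, u g *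
        (ENNReal.ofReal (|dt g| ^ (σ - (s + 2))) * thN s N g)).toReal =
        (∑ d ∈ N.divisors, (ArithmeticFunction.moebius d : ℝ) * PMai_c s N d) *
          (m.toReal * (1 / (σ - 1))) + (∑ d ∈ N.divisors,
            (ArithmeticFunction.moebius d : ℝ) * PMai_c s N d * (PMai_E u N d σ).toReal) -
        (if N = 1 then 1 else 0) * (m.toReal * (1 / σ)) := by
      linarith
    rw [hA']
    have hσ1 : σ - 1 ≠ 0 := by
      have : 0 < σ - 1 := by linarith
      exact this.ne'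
    field_simp

theorem iA_ext_val {s N : ℕ} {T : Finset SL(s + 2, ℤ)} {φ : X (s + 2) → ℂ} (h : IsLvl N T φ) :
    ∃ b : ℝ, 1 < b ∧ ∃ G : ℝ → ℝ, (∀ σ ∈ Ioo 0 b, AnalyticAt ℝ G σ) ∧
      G 1 = (∑ d ∈ N.divisors, (ArithmeticFunction.moebius d : ℝ) * PMai_c s N d) *
        (((s + 2 : ℕ) : ℝ) * (msT T φ).toReal) ∧
      ∀ σ ∈ Ioo 1 b, IA N T φ σ ≠ ∞ ∧ G σ = (σ - 1) * (IA N T φ σ).toReal := by
  obtain ⟨C, hC⟩ := h.isP.bdd
  obtain ⟨G1, hG1, hG1v, hG1'⟩ := small_det_val h.pos T h.isP.meas hC h.scale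
  obtain ⟨b, hb, hlarge⟩ := large_det h
  obtain ⟨D, hD⟩ : ∃ D : Set (X (s + 2)), D = {g : X (s + 2) | 1 < |dt g|} := ⟨_, rfl⟩
  have hDm : MeasurableSet D := by
    rw [hD]
    exact measurableSet_lt measurable_const (measurable_norm.comp measurable_dt)
  have hDc : Dᶜ = {g : X (s + 2) | |dt g| ≤ 1} := by
    rw [hD]
    ext g
    simp
  obtain ⟨u, hu⟩ : ∃ u : X (s + 2) → ℝ≥0∞, u = D.indicator fun g => wT T g * (‖φ g‖ₑ ^ 2 *
      (ENNReal.ofReal (|dt g| ^ (-((s : ℝ) + 2))) * thN s N g)) := ⟨_, rfl⟩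
  have hum : Measurable u := by
    rw [hu]
    exact (PExt_meas T h.isP.meas _).indicator hDm
  have hL : ∀ σ : ℝ, ∫⁻ g, u g * ENNReal.ofReal (|dt g| ^ σ) =
      ∫⁻ g in {g : X (s + 2) | 1 < |dt g|}, wT T g * (‖φ g‖ₑ ^ 2 *
        (ENNReal.ofReal (|dt g| ^ (σ - (s + 2))) * thN s N g)) := by
    intro σ
    rw [← hD, ← lintegral_indicator hDm]
    apply lintegral_congr
    intro g
    rw [hu]
    by_cases hg : g ∈ D
    · rw [Set.indicator_of_mem hg, Set.indicator_of_mem hg]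
      have hg1 : 0 < |dt g| := by
        rw [hD] at hg
        exact lt_trans one_pos hg
      have h1 : ENNReal.ofReal (|dt g| ^ (σ - (s + 2))) =
          ENNReal.ofReal (|dt g| ^ (-((s : ℝ) + 2))) * ENNReal.ofReal (|dt g| ^ σ) := by
        rw [← ENNReal.ofReal_mul (Real.rpow_nonneg hg1.le _), ← Real.rpow_add hg1]
        congr 2
        ring
      rw [h1]
      ring
    · rw [Set.indicator_of_notMem hg, Set.indicator_of_notMem hg, zero_mul]
  have hA := analytic_lap hum (a := 0) (b := b) fun σ hσ => by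
    rw [hL σ]
    exact hlarge σ hσ.2
  refine ⟨b, hb, fun σ => G1 σ + (σ - 1) *
    (∫⁻ g, u g * ENNReal.ofReal (|dt g| ^ σ)).toReal, ?_, ?_, ?_⟩
  · intro σ hσ
    have h1 : AnalyticAt ℝ (fun σ : ℝ => σ - 1) σ := analyticAt_id.sub analyticAt_const
    exact (hG1 σ hσ.1).add (h1.mul (hA σ hσ))
  · show G1 1 + (1 - 1) * (∫⁻ g, u g * ENNReal.ofReal (|dt g| ^ (1 : ℝ))).toReal = _
    rw [sub_self, zero_mul, add_zero, hG1v]
  · intro σ hσ
    obtain ⟨h1, h2⟩ := hG1' σ hσ.1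
    have h3 := hlarge σ hσ.2
    have h4 : IA N T φ σ = (∫⁻ g in {g : X (s + 2) | 1 < |dt g|}, wT T g * (‖φ g‖ₑ ^ 2 *
        (ENNReal.ofReal (|dt g| ^ (σ - (s + 2))) * thN s N g))) +
        ∫⁻ g in {g : X (s + 2) | |dt g| ≤ 1}, wT T g * (‖φ g‖ₑ ^ 2 *
        (ENNReal.ofReal (|dt g| ^ (σ - (s + 2))) * thN s N g)) := by
      rw [← hDc, ← hD]
      exact (lintegral_add_compl _ hDm).symm
    rw [h4]
    refine ⟨ENNReal.add_ne_top.2 ⟨h3, h1⟩, ?_⟩
    rw [ENNReal.toReal_add h3 h1]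
    show G1 σ + (σ - 1) * (∫⁻ g, u g * ENNReal.ofReal (|dt g| ^ σ)).toReal = _
    rw [h2, hL σ]
    ring

end Pool.Agent.GL74
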