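import Pool.Agent.W_7742p_h74.KLin
import Pool.Agent.W_7742p_h74.KVal

/-! # Orthogonality of eigenforms with different eigenvalues

* `key_rel` is the relation `key` in the proof of `UAdj_core` (UAdj.lean): it does not use that `f`
  is an eigenform.  Apply `Maass74.adjoint_abstract` as there; the sum over `RepT (s + 1) p k` of
  `UAdj_H χ a b (tof h) (HM.rep N q) g` is computed by `UAdj_rep_val`, `UAdj_sum_rep` and
  `UAdj_eig` (cf. `UAdj_sum_val`) for the function `h = f + z f'`: it is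
  `(a T_k h + b T_{n-k} h) (g) * conj (h g)` (only `a T_k h` if `2 k = n`), and
  `T_k h = l1 f + z l1' f'`, `T_{n-k} h = l2 f + z l2' f'`.
* `orth_core`: let `L = a l1 + b l2` (`a l1` if `2 k = n`), `L'` similarly, and
  `I = ∫ wT f conj f'`.  By `UAdj_core` `L = conj (χ p) conj L`, `L' = conj (χ p) conj L'`; so
  `key_rel` becomes `z L' conj I + conj z L I = conj z L' I + z L conj I`, i.e.
  `(L' - L) (z conj I - conj z I) = 0`, for `z = 1` and `z = I`.  Hence `I = 0` if `L ≠ L'`.
* `orth`: if `e k ≠ e' k` then `k < s + 2` by `adj_rel`; if `L = L'` for `a = 1` and for `a = I`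
  then `l1 = l1'` (if `2 k = s + 2` take `a = 1`). -/

set_option autoImplicit false

noncomputable section

namespace Pool.Agent.GL74

open MeasureTheory ComplexConjugate Set
open scoped ENNReal MatrixGroups
open Pool.Agent.GLForm74

variable {s N : ℕ} {χ : DirichletCharacter ℂ N} {f f' : Matrix (Fin (s + 2)) (Fin (s + 2)) ℝ → ℂ}

/-- The integral over the fundamental domain. -/
def IP {s : ℕ} (T : Finset SL(s + 2, ℤ)) (φ ψ : X (s + 2) → ℂ) : ℂ :=
  ∫ g in UAdj_A (s + 2), ((wT T g).toReal : ℂ) * (φ g * conj (ψ g))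

theorem ip_integrable (T : Finset SL(s + 2, ℤ)) {φ ψ : X (s + 2) → ℂ} (hφ : Measurable φ)
    (hψ : Measurable ψ) {C : ℝ} (hC : ∀ g, ‖φ g‖ ≤ C) (hC' : ∀ g, ‖ψ g‖ ≤ C) :
    Integrable (fun g => ((wT T g).toReal : ℂ) * (φ g * conj (ψ g)))
      ((volume : Measure (X (s + 2))).restrict (UAdj_A (s + 2))) := by
  have hw := UAdj_meas_wT T
  have hwi := UAdj_wT_fin (Nat.succ_pos (s + 1)) T
  have h3 : Integrable (fun x => (wT T x).toReal)
      ((volume : Measure (X (s + 2))).restrict (UAdj_A (s + 2))) :=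
    integrable_toReal_of_lintegral_ne_top hw.aemeasurable hwi.ne
  have h4 : Integrable (fun x => ((wT T x).toReal : ℂ))
      ((volume : Measure (X (s + 2))).restrict (UAdj_A (s + 2))) := h3.ofReal
  refine h4.mul_bdd (c := C * C) (g := fun g => φ g * conj (ψ g))
    (hφ.mul (Complex.continuous_conj.measurable.comp hψ)).aestronglyMeasurable
    (Filter.Eventually.of_forall fun g => ?_)
  have e1 := hC g
  have e2 := hC' g
  have e3 : 0 ≤ C := (norm_nonneg _).trans e1
  rw [norm_mul, Complex.norm_conj]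
  gcongr

theorem KOrt_K_lin (χ : DirichletCharacter ℂ N) (p : ℕ) (φ ψ : X (s + 2) → ℂ) (z : ℂ)
    (S : Finset (Fin (s + 2))) (g : X (s + 2)) :
    UAdj_K χ p (fun g => φ g + z * ψ g) S g = UAdj_K χ p φ S g + z * UAdj_K χ p ψ S g := by
  unfold UAdj_K Hk
  rw [Finset.sum_add_distrib, ← Finset.mul_sum]
  ring

theorem KOrt_sum_val (hf : IsCuspForm N χ f) (hf' : IsCuspForm N χ f') {p : ℕ}
    (hp : p.Prime) {k : ℕ} (hk : k ≤ s + 2) {l1 l2 l1' l2' : ℂ}
    (h1 : ∀ g, 0 < g.det → hecke χ p k f g = l1 * f g)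
    (h2 : ∀ g, 0 < g.det → hecke χ p (s + 2 - k) f g = l2 * f g)
    (h1' : ∀ g, 0 < g.det → hecke χ p k f' g = l1' * f' g)
    (h2' : ∀ g, 0 < g.det → hecke χ p (s + 2 - k) f' g = l2' * f' g) (a b z : ℂ)
    [Fintype (RepT (s + 1) p k)] (g : X (s + 2)) :
    ∑ q : RepT (s + 1) p k, UAdj_H χ a b (tof (fun g => f g + z * f' g)) (HM.rep N q) g =
      ((if 2 * k = s + 2 then a * l1 else a * l1 + b * l2) * tof f g +
        z * ((if 2 * k = s + 2 then a * l1' else a * l1' + b * l2') * tof f' g)) *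
        conj (tof f g + z * tof f' g) := by
  classical
  have hh := isCuspForm_lin hf hf' z
  simp only [UAdj_rep_val a b hh hp]
  rw [UAdj_sum_rep (fun S b' => (if S.card = k then a else b) *
        ((if (0 : Fin (s + 2)) ∈ S then conj (χ p) else 1) *
          tof (fun g => f g + z * f' g) (lm (dl p S b') g)) *
            conj (tof (fun g => f g + z * f' g) g))]
  have h3 : ∀ S : Finset (Fin (s + 2)), ∑ b' ∈ bs p S, (if S.card = k then a else b) *
        ((if (0 : Fin (s + 2)) ∈ S then conj (χ p) else 1) *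
          tof (fun g => f g + z * f' g) (lm (dl p S b') g)) *
            conj (tof (fun g => f g + z * f' g) g) =
      (if S.card = k then a else b) * (UAdj_K χ p (tof f) S g + z * UAdj_K χ p (tof f') S g) *
        conj (tof f g + z * tof f' g) := by
    intro S
    rw [← KOrt_K_lin, tof_lin]
    unfold UAdj_K Hk
    rw [← Finset.sum_mul, ← Finset.mul_sum, ← Finset.mul_sum]
  simp only [h3]
  rw [← Finset.sum_mul]
  congr 1
  have ha : ∑ S ∈ Finset.powersetCard k Finset.univ,
      (if S.card = k then a else b) * (UAdj_K χ p (tof f) S g + z * UAdj_K χ p (tof f') S g) =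
      a * l1 * tof f g + z * (a * l1' * tof f' g) := by
    have e1 := UAdj_eig hp h1 g
    have e2 := UAdj_eig hp h1' g
    have e3 : a * l1 * tof f g + z * (a * l1' * tof f' g) =
        a * (l1 * tof f g + z * (l1' * tof f' g)) := by ring
    rw [e3, ← e1, ← e2, Finset.mul_sum, ← Finset.sum_add_distrib, Finset.mul_sum]
    refine Finset.sum_congr rfl fun S hS => ?_
    rw [if_pos (Finset.mem_powersetCard.1 hS).2]
  by_cases h4 : 2 * k = s + 2
  · rw [if_pos h4, if_pos h4]
    have h6 : (Finset.univ : Finset (Finset (Fin (s + 2)))).filter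
        (fun S => S.card = k ∨ S.card = s + 2 - k) = Finset.powersetCard k Finset.univ := by
      ext S
      rw [Finset.mem_filter, Finset.mem_powersetCard]
      constructor
      · rintro ⟨_, h⟩
        exact ⟨Finset.subset_univ _, by omega⟩
      · rintro ⟨_, h⟩
        exact ⟨Finset.mem_univ _, Or.inl h⟩
    rw [h6, ha]
  · rw [if_neg h4, if_neg h4]
    have h6 : (Finset.univ : Finset (Finset (Fin (s + 2)))).filter
        (fun S => S.card = k ∨ S.card = s + 2 - k) =
        Finset.powersetCard k Finset.univ ∪ Finset.powersetCard (s + 2 - k) Finset.univ := by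
      ext S
      rw [Finset.mem_filter, Finset.mem_union, Finset.mem_powersetCard, Finset.mem_powersetCard]
      simp [Finset.subset_univ]
    have h7 : Disjoint (Finset.powersetCard k (Finset.univ : Finset (Fin (s + 2))))
        (Finset.powersetCard (s + 2 - k) Finset.univ) := by
      rw [Finset.disjoint_left]
      intro S hS hS'
      rw [Finset.mem_powersetCard] at hS hS'
      omega
    have hb : ∑ S ∈ Finset.powersetCard (s + 2 - k) Finset.univ,
        (if S.card = k then a else b) * (UAdj_K χ p (tof f) S g + z * UAdj_K χ p (tof f') S g) =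
        b * l2 * tof f g + z * (b * l2' * tof f' g) := by
      have e1 := UAdj_eig hp h2 g
      have e2 := UAdj_eig hp h2' g
      have e3 : b * l2 * tof f g + z * (b * l2' * tof f' g) =
          b * (l2 * tof f g + z * (l2' * tof f' g)) := by ring
      rw [e3, ← e1, ← e2, Finset.mul_sum, ← Finset.sum_add_distrib, Finset.mul_sum]
      refine Finset.sum_congr rfl fun S hS => ?_
      rw [if_neg]
      rw [(Finset.mem_powersetCard.1 hS).2]
      omega
    rw [h6, Finset.sum_union h7, ha, hb]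
    ring

theorem KOrt_expand (T : Finset SL(s + 2, ℤ)) {φ ψ : X (s + 2) → ℂ} (hφ : Measurable φ)
    (hψ : Measurable ψ) {C : ℝ} (hC : ∀ g, ‖φ g‖ ≤ C) (hC' : ∀ g, ‖ψ g‖ ≤ C) (L L' z : ℂ) :
    ∫ g in UAdj_A (s + 2), ((wT T g).toReal : ℂ) *
        ((L * φ g + z * (L' * ψ g)) * conj (φ g + z * ψ g)) =
      L * IP T φ φ + z * conj z * L' * IP T ψ ψ + z * L' * IP T ψ φ +
        conj z * L * IP T φ ψ := by
  have i1 := (ip_integrable T hφ hφ hC hC).const_mul L
  have i2 := (ip_integrable T hψ hψ hC' hC').const_mul (z * conj z * L')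
  have i3 := (ip_integrable T hψ hφ hC' hC).const_mul (z * L')
  have i4 := (ip_integrable T hφ hψ hC hC').const_mul (conj z * L)
  have j12 := integral_add i1 i2
  have j123 := integral_add (i1.add i2) i3
  have j1234 := integral_add ((i1.add i2).add i3) i4
  simp only [Pi.add_apply] at j12 j123 j1234
  unfold IP
  rw [← integral_const_mul, ← integral_const_mul, ← integral_const_mul, ← integral_const_mul,
    ← j12, ← j123, ← j1234]
  refine integral_congr_ae (Filter.Eventually.of_forall fun g => ?_)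
  simp only [map_add, map_mul]
  ring

theorem KOrt_conj (T : Finset SL(s + 2, ℤ)) (φ ψ : X (s + 2) → ℂ) :
    conj (IP T φ ψ) = IP T ψ φ := by
  unfold IP
  rw [← integral_conj]
  refine integral_congr_ae (Filter.Eventually.of_forall fun g => ?_)
  simp only [map_mul, Complex.conj_ofReal, Complex.conj_conj]
  ring

theorem key_rel (hN : 0 < N) (hf : IsCuspForm N χ f) (hf' : IsCuspForm N χ f') {p : ℕ}
    (hp : p.Prime) (hpN : ¬ p ∣ N) {k : ℕ} (hk : k ≤ s + 2) {l1 l2 l1' l2' : ℂ}
    (h1 : ∀ g, 0 < g.det → hecke χ p k f g = l1 * f g)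
    (h2 : ∀ g, 0 < g.det → hecke χ p (s + 2 - k) f g = l2 * f g)
    (h1' : ∀ g, 0 < g.det → hecke χ p k f' g = l1' * f' g)
    (h2' : ∀ g, 0 < g.det → hecke χ p (s + 2 - k) f' g = l2' * f' g) {a b : ℂ}
    (hab : b = conj a) (haa : 2 * k = s + 2 → conj a = a) {T : Finset SL(s + 2, ℤ)}
    (hT : ∀ᵐ g : X (s + 2), ∑' γ : G0 (s + 1) N, wT T (sl γ.1 g) = 1) (z : ℂ) {L L' : ℂ}
    (hL : L = if 2 * k = s + 2 then a * l1 else a * l1 + b * l2)
    (hL' : L' = if 2 * k = s + 2 then a * l1' else a * l1' + b * l2') :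
    L * IP T (tof f) (tof f) + z * conj z * L' * IP T (tof f') (tof f') +
        z * L' * IP T (tof f') (tof f) + conj z * L * IP T (tof f) (tof f') =
      conj (χ p) * conj (L * IP T (tof f) (tof f) + z * conj z * L' * IP T (tof f') (tof f') +
        z * L' * IP T (tof f') (tof f) + conj z * L * IP T (tof f) (tof f')) := by
  classical
  have hh := isCuspForm_lin hf hf' z
  obtain ⟨C, hC⟩ := (isP_tof hh).bdd
  have hcs : Countable SL(s + 2, ℤ) := countable_sl _
  have hcg : Countable (G0 (s + 1) N) := Subtype.countable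
  have hcM : Countable (HM (s + 1) N p k) := HM.countable
  let inst : MulAction (G0 (s + 1) N) (X (s + 2)) := UAdj_action s N
  have hinv := fun δ : HM (s + 1) N p k => HM.exists_inv hp hpN hk δ
  choose ι hι1 hι2 using hinv
  have hpz : (p : ℤ) ≠ 0 := by exact_mod_cast hp.ne_zero
  have hιι : ∀ δ, ι (ι δ) = δ := by
    intro δ
    have e1 : δ.1 * ((ι δ).1 * (ι (ι δ)).1) = δ.1 * ((ι δ).1 * δ.1) := by
      rw [hι1 (ι δ), hι2 δ]
    rw [← mul_assoc, ← mul_assoc, hι1 δ, smul_mul_assoc, one_mul, smul_mul_assoc, one_mul] at e1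
    apply Subtype.ext
    exact smul_right_injective _ hpz e1
  have hfinR : Finite (RepT (s + 1) p k) := inferInstance
  let hftR : Fintype (RepT (s + 1) p k) := Fintype.ofFinite _
  have hact : ∀ δ : HM (s + 1) N p k, MeasurePreserving δ.act
      ((volume : Measure (X (s + 2))).restrict (UAdj_A (s + 2)))
      ((volume : Measure (X (s + 2))).restrict (UAdj_A (s + 2))) := fun δ =>
    HM.measurePreserving_act hp δ
  have hHm : ∀ δ : HM (s + 1) N p k,
      Measurable (UAdj_H χ a b (tof (fun g => f g + z * f' g)) δ) := by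
    intro δ
    unfold UAdj_H
    exact (measurable_const.mul ((measurable_tof hh).comp (hact δ).measurable)).mul
      (Complex.continuous_conj.measurable.comp (measurable_tof hh))
  have hHb : ∀ (δ : HM (s + 1) N p k) (g : X (s + 2)),
      ‖UAdj_H χ a b (tof (fun g => f g + z * f' g)) δ g‖ ≤ (‖a‖ + ‖b‖) * 1 * C * C := by
    intro δ g
    unfold UAdj_H
    rw [norm_mul, norm_mul, norm_mul, Complex.norm_conj, Complex.norm_conj]
    have e1 : ‖(if δ.1.det = (p : ℤ) ^ k then a else b)‖ ≤ ‖a‖ + ‖b‖ := by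
      split_ifs
      · linarith [norm_nonneg b]
      · linarith [norm_nonneg a]
    have e2 : ‖χ ((δ.1 0 0 : ℤ) : ZMod N)‖ ≤ 1 := DirichletCharacter.norm_le_one χ _
    have e3 := hC (δ.act g)
    have e4 := hC g
    have e5 : 0 ≤ C := (norm_nonneg _).trans e4
    gcongr
  have hw := UAdj_meas_wT T
  have hwi := UAdj_wT_fin (Nat.succ_pos (s + 1)) T
  have key := Pool.Agent.Maass74.adjoint_abstract
    ((volume : Measure (X (s + 2))).restrict (UAdj_A (s + 2))) (G := G0 (s + 1) N)
    (fun γ => UAdj_mp γ.1) (M := HM (s + 1) N p k) HM.act hact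
    HM.gm (fun γ δ x => HM.act_gm γ δ x) ι hιι (fun δ x => HM.act_inv hp (hι2 δ) x)
    (UAdj_H χ a b (tof (fun g => f g + z * f' g))) hHm (UAdj_gm a b hh)
    (conj (χ p)) (fun δ x => UAdj_inv hab haa hk (tof (fun g => f g + z * f' g)) hp hpN
      (hι2 δ) x) hHb (wT T) hw
    (ae_restrict_of_ae hT) hwi (HM.rep N) (HM.bijective_rep hp hpN)
  obtain ⟨C1, hC1⟩ := (isP_tof hf).bdd
  obtain ⟨C2, hC2⟩ := (isP_tof hf').bdd
  have hsum : ∑ q : RepT (s + 1) p k, ∫ x in UAdj_A (s + 2), ((wT T x).toReal : ℂ) *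
      UAdj_H χ a b (tof (fun g => f g + z * f' g)) (HM.rep N q) x =
      L * IP T (tof f) (tof f) + z * conj z * L' * IP T (tof f') (tof f') +
        z * L' * IP T (tof f') (tof f) + conj z * L * IP T (tof f) (tof f') := by
    rw [← integral_finsetSum]
    · have h3 : ∀ x : X (s + 2), ∑ q : RepT (s + 1) p k, ((wT T x).toReal : ℂ) *
          UAdj_H χ a b (tof (fun g => f g + z * f' g)) (HM.rep (k := k) N q) x =
          ((wT T x).toReal : ℂ) *
            ((L * tof f x + z * (L' * tof f' x)) * conj (tof f x + z * tof f' x)) := by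
        intro x
        rw [← Finset.mul_sum, KOrt_sum_val hf hf' hp hk h1 h2 h1' h2', ← hL, ← hL']
      simp only [h3]
      exact KOrt_expand T (measurable_tof hf) (measurable_tof hf') (C := max C1 C2)
        (fun g => (hC1 g).trans (le_max_left _ _)) (fun g => (hC2 g).trans (le_max_right _ _))
        L L' z
    · intro q _
      have h3 : Integrable (fun x => (wT T x).toReal)
          ((volume : Measure (X (s + 2))).restrict (UAdj_A (s + 2))) :=
        integrable_toReal_of_lintegral_ne_top hw.aemeasurable hwi.ne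
      have h4 : Integrable (fun x => ((wT T x).toReal : ℂ))
          ((volume : Measure (X (s + 2))).restrict (UAdj_A (s + 2))) := h3.ofReal
      exact h4.mul_bdd (hHm _).aestronglyMeasurable (Filter.Eventually.of_forall (hHb _))
  rw [hsum] at key
  exact key

theorem orth_core (hN : 0 < N) (hf : IsCuspForm N χ f) (hf' : IsCuspForm N χ f')
    (hne : ∃ g, 0 < g.det ∧ f g ≠ 0) (hne' : ∃ g, 0 < g.det ∧ f' g ≠ 0) {p : ℕ}
    (hp : p.Prime) (hpN : ¬ p ∣ N) {k : ℕ} (hk : k ≤ s + 2) {l1 l2 l1' l2' : ℂ}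
    (h1 : ∀ g, 0 < g.det → hecke χ p k f g = l1 * f g)
    (h2 : ∀ g, 0 < g.det → hecke χ p (s + 2 - k) f g = l2 * f g)
    (h1' : ∀ g, 0 < g.det → hecke χ p k f' g = l1' * f' g)
    (h2' : ∀ g, 0 < g.det → hecke χ p (s + 2 - k) f' g = l2' * f' g) {a b : ℂ}
    (hab : b = conj a) (haa : 2 * k = s + 2 → conj a = a) {T : Finset SL(s + 2, ℤ)}
    (hT : ∀ᵐ g : X (s + 2), ∑' γ : G0 (s + 1) N, wT T (sl γ.1 g) = 1)
    (hne2 : (if 2 * k = s + 2 then a * l1 else a * l1 + b * l2) ≠
      (if 2 * k = s + 2 then a * l1' else a * l1' + b * l2')) :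
    IP T (tof f) (tof f') = 0 := by
  have c1 := UAdj_core hN hf hne hp hpN hk h1 h2 hab haa
  have c2 := UAdj_core hN hf' hne' hp hpN hk h1' h2' hab haa
  have key := fun z : ℂ => key_rel hN hf hf' hp hpN hk h1 h2 h1' h2' hab haa hT z rfl rfl
  generalize (if 2 * k = s + 2 then a * l1 else a * l1 + b * l2) = L at hne2 c1 key
  generalize (if 2 * k = s + 2 then a * l1' else a * l1' + b * l2') = L' at hne2 c2 key
  have hA := KOrt_conj T (tof f) (tof f)
  have hB := KOrt_conj T (tof f') (tof f')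
  have hJ := KOrt_conj T (tof f) (tof f')
  have hJ' := KOrt_conj T (tof f') (tof f)
  have hd : L' - L ≠ 0 := sub_ne_zero.2 hne2.symm
  have step : ∀ z : ℂ, z * IP T (tof f') (tof f) - conj z * IP T (tof f) (tof f') = 0 := by
    intro z
    have h := key z
    simp only [map_add, map_mul, Complex.conj_conj, hA, hB, hJ, hJ'] at h
    apply mul_left_cancel₀ hd
    rw [mul_zero]
    linear_combination h - (IP T (tof f) (tof f) + z * IP T (tof f') (tof f)) * c1 -
      (z * conj z * IP T (tof f') (tof f') + conj z * IP T (tof f) (tof f')) * c2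
  have s1 := step 1
  have s2 := step Complex.I
  rw [map_one] at s1
  rw [Complex.conj_I] at s2
  have hI2 : (2 * Complex.I : ℂ) ≠ 0 := mul_ne_zero two_ne_zero Complex.I_ne_zero
  apply mul_left_cancel₀ hI2
  rw [mul_zero]
  linear_combination s2 - Complex.I * s1

theorem orth (hN : 0 < N) (hf : IsCuspForm N χ f) (hf' : IsCuspForm N χ f')
    (hne : ∃ g, 0 < g.det ∧ f g ≠ 0) (hne' : ∃ g, 0 < g.det ∧ f' g ≠ 0) {p : ℕ}
    (hp : p.Prime) (hpN : ¬ p ∣ N) (e e' : ℕ → ℂ)
    (he : ∀ k : ℕ, 1 ≤ k → k ≤ s + 2 → ∀ g, 0 < g.det → hecke χ p k f g =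
      (Real.sqrt p : ℂ) ^ (k * (s + 2 - k)) * e k * f g)
    (he' : ∀ k : ℕ, 1 ≤ k → k ≤ s + 2 → ∀ g, 0 < g.det → hecke χ p k f' g =
      (Real.sqrt p : ℂ) ^ (k * (s + 2 - k)) * e' k * f' g)
    (hd : ∃ k : ℕ, 1 ≤ k ∧ k ≤ s + 2 ∧ e k ≠ e' k) {T : Finset SL(s + 2, ℤ)}
    (hT : ∀ᵐ g : X (s + 2), ∑' γ : G0 (s + 1) N, wT T (sl γ.1 g) = 1) :
    IP T (tof f) (tof f') = 0 := by
  obtain ⟨k, hk1, hk2, hek⟩ := hd
  have r1 := (adj_rel hN hf hne hp hpN e he).1
  have r2 := (adj_rel hN hf' hne' hp hpN e' he').1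
  have hk3 : k < s + 2 := by
    rcases hk2.lt_or_eq with h | h
    · exact h
    · exfalso
      apply hek
      rw [h, r1, r2]
  have hs : (Real.sqrt p : ℂ) ≠ 0 := by
    have : (0 : ℝ) < p := by exact_mod_cast hp.pos
    exact_mod_cast (Real.sqrt_pos.2 this).ne'
  have h1 := fun g hg => he k hk1 hk2 g hg
  have h2 := fun g hg => he (s + 2 - k) (by omega) (by omega) g hg
  have h1' := fun g hg => he' k hk1 hk2 g hg
  have h2' := fun g hg => he' (s + 2 - k) (by omega) (by omega) g hg
  have hsk : (Real.sqrt p : ℂ) ^ (k * (s + 2 - k)) ≠ 0 := pow_ne_zero _ hs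
  have hl : (Real.sqrt p : ℂ) ^ (k * (s + 2 - k)) * e k ≠
      (Real.sqrt p : ℂ) ^ (k * (s + 2 - k)) * e' k := fun h => hek (mul_left_cancel₀ hsk h)
  by_cases hc : (if 2 * k = s + 2 then (1 : ℂ) * ((Real.sqrt p : ℂ) ^ (k * (s + 2 - k)) * e k)
      else 1 * ((Real.sqrt p : ℂ) ^ (k * (s + 2 - k)) * e k) +
        1 * ((Real.sqrt p : ℂ) ^ ((s + 2 - k) * (s + 2 - (s + 2 - k))) * e (s + 2 - k))) =
      (if 2 * k = s + 2 then (1 : ℂ) * ((Real.sqrt p : ℂ) ^ (k * (s + 2 - k)) * e' k)
      else 1 * ((Real.sqrt p : ℂ) ^ (k * (s + 2 - k)) * e' k) +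
        1 * ((Real.sqrt p : ℂ) ^ ((s + 2 - k) * (s + 2 - (s + 2 - k))) * e' (s + 2 - k)))
  · by_cases h4 : 2 * k = s + 2
    · exfalso
      rw [if_pos h4, if_pos h4, one_mul, one_mul] at hc
      exact hl hc
    · refine orth_core hN hf hf' hne hne' hp hpN hk2 h1 h2 h1' h2' (a := Complex.I)
        (b := -Complex.I) (by simp) (fun h => absurd h h4) hT ?_
      rw [if_neg h4, if_neg h4]
      rw [if_neg h4, if_neg h4] at hc
      intro h5
      apply hl
      have hI2 : (2 * Complex.I : ℂ) ≠ 0 := mul_ne_zero two_ne_zero Complex.I_ne_zero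
      apply mul_left_cancel₀ hI2
      linear_combination h5 + Complex.I * hc
  · exact orth_core hN hf hf' hne hne' hp hpN hk2 h1 h2 h1' h2' (a := 1) (b := 1) (by simp)
      (by simp) hT hc

end Pool.Agent.GL74
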