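import Pool.Agent.W_7742p_h74.KJc
import Pool.Agent.W_7742p_h74.KLoc
import Pool.Agent.W_7742x_h74.LPrd

/-! # Splitting off finitely many primes for a pair

* `locF_fin`: `sum_prod` (LPrd) for `Q = {p}` gives `∑' JJ φ σ m = locF (B p) (p^-σ) * ∑' (MZ {p})`;
  the left side is neither `0` nor `∞`.
* `summable_jc`: `jc_norm_le` and the summability of the `(JJ φ σ m).toReal`, `(JJ ψ σ m).toReal`
  (`ENNReal.summable_toReal`); every `JJ φ σ m` is finite since the sum is.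
* `sumC_split`: as `sum_split` (LPrd.lean): the bijection `LPrd_bij`, `jc_pow`, and
  `∑ over (m, a) = (∑ over a) * (∑ over m)` by absolute convergence (`summable_locA`, `locF_fin`;
  `Summable.tsum_mul_tsum_of_summable_norm` or `tsum_mul_tsum_of_summable_norm`).
* `sumC_prod`: as `sum_prod` (LPrd.lean), by induction on `Q`; for `Q = ∅` use `jc_zero`. -/

set_option autoImplicit false

noncomputable section

namespace Pool.Agent.GL74

open MeasureTheory ComplexConjugate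
open scoped ENNReal

variable {r : ℕ} {φ ψ : X (r + 1) → ℂ} {good : ℕ → Prop} {ξ : ℕ → ℂ}
  {B B' : ℕ → Matrix (Fin (r + 1)) (Fin (r + 1)) ℂ} {σ : ℝ}

theorem locF_fin (h : IsHeckeForm φ good ξ B) (h0 : ∑' m : Fin r → ℤ, JJ φ σ m ≠ 0)
    (hfin : ∑' m : Fin r → ℤ, JJ φ σ m ≠ ∞) {p : ℕ} (hp : good p) :
    locF (B p) ((p : ℝ) ^ (-σ)) ≠ ∞ := by
  intro hinf
  have h1 := sum_prod h σ {p} (fun q hq => by
    rw [Finset.mem_singleton] at hq
    rw [hq]
    exact hp)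
  rw [Finset.prod_singleton, hinf] at h1
  by_cases h2 : ∑' m : MZ r (({p} : Finset ℕ) : Set ℕ), JJ φ σ m.1 = 0
  · rw [h2, mul_zero] at h1
    exact h0 h1
  · rw [ENNReal.top_mul h2] at h1
    exact hfin h1

theorem summable_jc (hφ : Measurable φ) (hψ : Measurable ψ)
    (hfin : ∑' m : Fin r → ℤ, JJ φ σ m ≠ ∞) (hfin' : ∑' m : Fin r → ℤ, JJ ψ σ m ≠ ∞) :
    Summable fun m : Fin r → ℤ => ‖JC φ ψ σ m‖ := by
  refine Summable.of_nonneg_of_le (fun m => norm_nonneg _)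
    (fun m => jc_norm_le hφ hψ (ENNReal.ne_top_of_tsum_ne_top hfin m)
      (ENNReal.ne_top_of_tsum_ne_top hfin' m)) ?_
  exact ((ENNReal.summable_toReal hfin).add (ENNReal.summable_toReal hfin')).div_const 2

theorem sumC_split (h : IsHeckeForm φ good ξ B) (h' : IsHeckeForm ψ good ξ B')
    (h0 : ∑' m : Fin r → ℤ, JJ φ σ m ≠ 0) (hfin : ∑' m : Fin r → ℤ, JJ φ σ m ≠ ∞)
    (h0' : ∑' m : Fin r → ℤ, JJ ψ σ m ≠ 0) (hfin' : ∑' m : Fin r → ℤ, JJ ψ σ m ≠ ∞)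
    {Q : Set ℕ} {p : ℕ} (hp : good p) (hpQ : p ∉ Q) (hQ : ∀ q ∈ Q, good q) :
    ∑' m : MZ r Q, JC φ ψ σ m.1 =
      locC (B p) (B' p) ((p : ℝ) ^ (-σ)) * ∑' m : MZ r (insert p Q), JC φ ψ σ m.1 := by
  have hpp := h.prime p hp
  have hp0 : (0 : ℝ) < p := by exact_mod_cast hpp.pos
  have hQp : ∀ q ∈ Q, q.Prime := fun q hq => h.prime q (hQ q hq)
  have hA : Summable fun a => ‖locA (B p) (B' p) ((p : ℝ) ^ (-σ)) a‖ :=
    summable_locA (Real.rpow_pos_of_pos hp0 _) (locF_fin h h0 hfin hp) (locF_fin h' h0' hfin' hp)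
  have hJ : Summable fun m : MZ r (insert p Q) => ‖JC φ ψ σ m.1‖ :=
    (summable_jc h.isP.meas h'.isP.meas hfin hfin').comp_injective Subtype.val_injective
  rw [← (Equiv.ofBijective _ (LPrd_bij (r := r) hpp hpQ hQp)).tsum_eq
    (fun m : MZ r Q => JC φ ψ σ m.1)]
  have h1 : ∀ x : MZ r (insert p Q) × (Fin r → ℕ),
      JC φ ψ σ (Equiv.ofBijective _ (LPrd_bij (r := r) hpp hpQ hQp) x).1 =
      JC φ ψ σ x.1.1 * locA (B p) (B' p) ((p : ℝ) ^ (-σ)) x.2 := fun x => by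
    rw [mul_comm]
    exact jc_pow h.isP h'.isP h.scale h'.scale hpp (h.norm_xi p hp) (h.eig p hp) (h'.eig p hp) σ
      (fun i => (x.1.2 i).2 p (Set.mem_insert _ _)) x.2
  rw [tsum_congr h1, ← tsum_mul_tsum_of_summable_norm hJ hA, mul_comm]
  rfl

theorem sumC_prod (h : IsHeckeForm φ good ξ B) (h' : IsHeckeForm ψ good ξ B')
    (h0 : ∑' m : Fin r → ℤ, JJ φ σ m ≠ 0) (hfin : ∑' m : Fin r → ℤ, JJ φ σ m ≠ ∞)
    (h0' : ∑' m : Fin r → ℤ, JJ ψ σ m ≠ 0) (hfin' : ∑' m : Fin r → ℤ, JJ ψ σ m ≠ ∞)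
    (Q : Finset ℕ) (hQ : ∀ q ∈ Q, good q) :
    ∑' m : Fin r → ℤ, JC φ ψ σ m =
      (∏ p ∈ Q, locC (B p) (B' p) ((p : ℝ) ^ (-σ))) * ∑' m : MZ r (Q : Set ℕ), JC φ ψ σ m.1 := by
  classical
  induction Q using Finset.induction_on with
  | empty =>
    rw [Finset.prod_empty, one_mul]
    symm
    refine Subtype.val_injective.tsum_eq (f := fun m : Fin r → ℤ => JC φ ψ σ m) ?_
    intro m hm
    rw [Subtype.range_val]
    intro i
    refine ⟨fun hi => hm (jc_zero h.cusp σ hi), fun p hp => ?_⟩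
    simp at hp
  | insert p Q hpQ ih =>
    rw [ih fun q hq => hQ q (Finset.mem_insert_of_mem hq), Finset.prod_insert hpQ,
      sumC_split h h' h0 hfin h0' hfin' (hQ p (Finset.mem_insert_self _ _))
        (by exact_mod_cast hpQ)
        (fun q hq => hQ q (Finset.mem_insert_of_mem (by exact_mod_cast hq)))]
    have h1 : ∀ Q' : Set ℕ, Q' = insert p (Q : Set ℕ) →
        ∑' m : MZ r Q', JC φ ψ σ m.1 = ∑' m : MZ r (insert p (Q : Set ℕ)), JC φ ψ σ m.1 := by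
      rintro _ rfl
      rfl
    rw [h1 _ (Finset.coe_insert p Q)]
    ring

end Pool.Agent.GL74
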