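import Pool.Agent.W_7742p_h74.KStm

/-! Definitions for the statement: mean squares. -/

set_option autoImplicit false

noncomputable section

namespace Pool.Agent.H74V

open Filter Topology ComplexConjugate

namespace SatakeSystem

variable {K : Type} [Field K] [NumberField K] {n : ℕ} (π : SatakeSystem K n)

/-- The mean square (in the sense of the Dirichlet density) of the linear combination
`∑ a σ * σ (tr A p)` of the conjugates of the traces `tr A p`, `p` not dividing the level, is at most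
`θ`. -/
def MeanSquareLE (a : (K →+* ℂ) → ℂ) (θ : ℝ) : Prop :=
  ∀ ε : ℝ, 0 < ε → ∀ᶠ s in 𝓝[>] (1 : ℝ),
    (Summable fun p : {p : ℕ // π.Good p} =>
      ‖∑ σ, a σ * σ (π.A p).trace‖ ^ 2 * ((p : ℕ) : ℝ) ^ (-s)) ∧
    ∑' p : {p : ℕ // π.Good p}, ‖∑ σ, a σ * σ (π.A p).trace‖ ^ 2 * ((p : ℕ) : ℝ) ^ (-s) ≤
      (θ + ε) * primeSum (fun _ => True) s

end SatakeSystem

end Pool.Agent.H74V
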