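import Pool.Agent.W_7742p_h74.KWgt

/-! # Bessel's inequality for the conjugate traces, weight `w` -/

set_option autoImplicit false

noncomputable section

namespace Pool.Agent.H74V

open Filter Topology ComplexConjugate Polynomial Pool.Agent.GL74 Pool.Agent.GLForm74
open Pool.Agent.H74E (pk)

namespace SatakeSystem

variable {K : Type} [Field K] [NumberField K] {n : ℕ} {π : SatakeSystem K n}

/-- The scaling factor. -/
def sca (w p : ℕ) : ℂ := ((Real.sqrt p : ℂ) ^ w)⁻¹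

theorem sca_ne {w p : ℕ} (hp : p.Prime) : sca w p ≠ 0 := by
  unfold sca
  have h1 : (Real.sqrt p : ℂ) ≠ 0 := by
    have : (0 : ℝ) < p := by exact_mod_cast hp.pos
    exact_mod_cast (Real.sqrt_pos.2 this).ne'
  exact inv_ne_zero (pow_ne_zero _ h1)

theorem sca_norm {w p : ℕ} : ‖sca w p‖ ^ 2 = 1 / (p : ℝ) ^ w := by
  unfold sca
  rw [norm_inv, norm_pow, Complex.norm_real, Real.norm_of_nonneg (Real.sqrt_nonneg _), inv_pow,
    ← pow_mul, mul_comm w 2, pow_mul, Real.sq_sqrt (Nat.cast_nonneg p), one_div]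

theorem exists_scaled (π : SatakeSystem K n) (w : ℕ) (σ : K →+* ℂ) (p : ℕ) :
    ∃ B : Matrix (Fin n) (Fin n) ℂ, ∀ k ≤ n,
      B.charpoly.coeff (n - k) = σ ((π.A p).charpoly.coeff (n - k)) * sca w p ^ k := by
  have hm : ((π.A p).charpoly.map σ).Monic := (Matrix.charpoly_monic _).map _
  have hd : ((π.A p).charpoly.map σ).natDegree = n := by
    rw [(Matrix.charpoly_monic _).natDegree_map, Matrix.charpoly_natDegree_eq_dim,
      Fintype.card_fin]
  obtain ⟨B, hB⟩ := Pool.Agent.GalMaass.exists_matrix_charpoly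
    (((π.A p).charpoly.map σ).scaleRoots (sca w p)) ((monic_scaleRoots_iff _).2 hm) n
    (by rw [natDegree_scaleRoots, hd])
  refine ⟨B, fun k hk => ?_⟩
  rw [hB, coeff_scaleRoots, hd, Polynomial.coeff_map, Nat.sub_sub_self hk]

open Classical in
theorem bessel_weight (hn : 2 ≤ n) {w : ℕ} (h : π.IsCuspidalFamilyOfWeight w)
    (hg : π.GeneratedByCoeffs) (a : (K →+* ℂ) → ℂ)
    (ha : ∀ σ τ, a σ ≠ 0 → a τ ≠ 0 → ∀ p, π.Good p → σ (π.A p).det = τ (π.A p).det) :
    ∃ C : ℝ, ∀ s : ℝ, 1 < s → s ≤ 2 →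
      (Summable fun p : Nat.Primes => (if π.Good p then
        ‖∑ σ, a σ * σ (π.A p).trace‖ ^ 2 / ((p : ℕ) : ℝ) ^ w else 0) * ((p : ℕ) : ℝ) ^ (-s)) ∧
      ∑' p : Nat.Primes, (if π.Good p then
        ‖∑ σ, a σ * σ (π.A p).trace‖ ^ 2 / ((p : ℕ) : ℝ) ^ w else 0) * ((p : ℕ) : ℝ) ^ (-s) ≤
        (∑ σ, ‖a σ‖ ^ 2) * Real.log (1 / (s - 1)) + C := by
  by_cases hex : ∃ σ₀, a σ₀ ≠ 0
  swap
  · push Not at hex
    refine ⟨0, fun s hs hs2 => ?_⟩
    have h0 : (fun p : Nat.Primes => (if π.Good p then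
        ‖∑ σ, a σ * σ (π.A p).trace‖ ^ 2 / ((p : ℕ) : ℝ) ^ w else 0) * ((p : ℕ) : ℝ) ^ (-s)) =
        fun _ => 0 := by
      funext p
      simp [hex]
    rw [h0]
    exact ⟨summable_zero, by simp [hex]⟩
  obtain ⟨σ₀, hσ₀⟩ := hex
  obtain ⟨s', hs'⟩ : ∃ s, n = s + 2 := ⟨n - 2, by omega⟩
  subst hs'
  obtain ⟨χ, f, h, hW⟩ := h
  choose B hB using fun (σ : K →+* ℂ) (p : ℕ) => exists_scaled π w σ p
  have he : ∀ σ, ∀ p : ℕ, p.Prime → ¬ p ∣ π.level → ∀ k : ℕ, 1 ≤ k → k ≤ s' + 2 → ∀ g,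
      0 < g.det → hecke (χ σ) p k (f σ) g = (Real.sqrt p : ℂ) ^ (k * (s' + 2 - k)) *
        ((-1) ^ k * (B σ p).charpoly.coeff (s' + 2 - k)) * f σ g := by
    intro σ p hp hpN k hk1 hk2 g hg
    rw [(h σ).2.2 p hp hpN k hk1 hk2 g hg, hB σ p k hk2, Polynomial.coeff_map]
    have h1 : sca w p ^ k = ((Real.sqrt p : ℂ) ^ (k * w))⁻¹ := by
      unfold sca
      rw [inv_pow, ← pow_mul, mul_comm w k]
    rw [h1, div_eq_mul_inv]
    ring
  have hdet : ∀ σ, ∀ p : ℕ, p.Prime → ¬ p ∣ π.level →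
      conj (χ σ p) = σ (π.A p).det * sca w p ^ (s' + 2) := by
    intro σ p hp hpN
    rw [← (KWgt_unitary π.level_pos (h σ).1 (h σ).2.1 (he σ) hp hpN).1,
      Matrix.det_eq_sign_charpoly_coeff, Fintype.card_fin]
    have h1 := hB σ p (s' + 2) le_rfl
    rw [Nat.sub_self] at h1
    rw [h1, Matrix.det_eq_sign_charpoly_coeff (π.A p), Fintype.card_fin, map_mul, map_pow,
      map_neg, map_one]
    ring
  have hχ : ∀ σ, a σ ≠ 0 → χ σ = χ σ₀ := by
    intro σ hσ
    refine char_ext π.level_pos fun p hp hpN => ?_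
    have h4 := ha σ σ₀ hσ hσ₀ p ⟨hp, hpN⟩
    have h5 := hdet σ p hp hpN
    rw [h4, ← hdet σ₀ p hp hpN] at h5
    exact (starRingEnd ℂ).injective h5
  obtain ⟨C, hC⟩ := gen_bessel (χ := χ σ₀) (ι := {σ : K →+* ℂ // a σ ≠ 0}) π.level_pos
    (fun i => f i.1) (fun i => hχ i.1 i.2 ▸ (h i.1).1) (fun i => (h i.1).2.1) (fun i => B i.1)
    (fun i => hχ i.1 i.2 ▸ he i.1) (by
      intro i j hij
      obtain ⟨p, l, hp, hl⟩ := exists_coeff hg fun h1 => hij (Subtype.ext h1)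
      have hdeg : (π.A p).charpoly.natDegree = s' + 2 := by
        rw [Matrix.charpoly_natDegree_eq_dim, Fintype.card_fin]
      have hl2 : l < s' + 2 := by
        by_contra hcon
        push Not at hcon
        rcases hcon.eq_or_lt with h5 | h5
        · apply hl
          have h6 : (π.A p).charpoly.coeff l = 1 := by
            have h7 : l = (π.A p).charpoly.natDegree := by
              rw [hdeg]
              exact h5.symm
            rw [h7]
            exact (Matrix.charpoly_monic _).coeff_natDegree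
          rw [h6, map_one, map_one]
        · apply hl
          have h6 : (π.A p).charpoly.coeff l = 0 :=
            Polynomial.coeff_eq_zero_of_natDegree_lt (by rw [hdeg]; exact h5)
          rw [h6, map_zero, map_zero]
      refine ⟨p, hp.1, hp.2, s' + 2 - l, by omega, by omega, ?_⟩
      rw [hB _ _ _ (by omega), hB _ _ _ (by omega)]
      have h7 : s' + 2 - (s' + 2 - l) = l := by omega
      rw [h7]
      intro h8
      exact hl (mul_right_cancel₀ (pow_ne_zero _ (sca_ne hp.1)) h8)) (by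
      intro i j m hm g hg
      exact hW i.1 j.1 m hm g hg) (fun i => a i.1)
  refine ⟨C, fun s hs hs2 => ?_⟩
  obtain ⟨h1, h2⟩ := hC s hs hs2
  have e1 : ∑ i : {σ : K →+* ℂ // a σ ≠ 0}, ‖a i.1‖ ^ 2 = ∑ σ, ‖a σ‖ ^ 2 :=
    KBes_sum a (fun σ => ‖a σ‖ ^ 2) fun σ h0 => by rw [h0, norm_zero]; norm_num
  rw [e1] at h2
  have key : (fun p : Nat.Primes => (if (p : ℕ) ∣ π.level then 0 else
      ‖∑ i : {σ : K →+* ℂ // a σ ≠ 0}, a i.1 * (B i.1 p).trace‖ ^ 2) * ((p : ℕ) : ℝ) ^ (-s)) =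
      fun p : Nat.Primes => (if π.Good p then
        ‖∑ σ, a σ * σ (π.A p).trace‖ ^ 2 / ((p : ℕ) : ℝ) ^ w else 0) * ((p : ℕ) : ℝ) ^ (-s) := by
    funext p
    congr 1
    by_cases hp : (p : ℕ) ∣ π.level
    · rw [if_pos hp, if_neg fun hg : π.Good p => hg.2 hp]
    · rw [if_neg hp, if_pos (show π.Good p from ⟨p.2, hp⟩)]
      have e3 : ∀ σ : K →+* ℂ, (B σ p).trace = sca w p * σ (π.A p).trace := by
        intro σ
        have e4 := hB σ p 1 (by omega)
        rw [Matrix.trace_eq_neg_charpoly_coeff, Matrix.trace_eq_neg_charpoly_coeff,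
          Fintype.card_fin, e4, pow_one, map_neg]
        ring
      have e5 : ∑ i : {σ : K →+* ℂ // a σ ≠ 0}, a i.1 * (B i.1 p).trace =
          sca w p * ∑ σ, a σ * σ (π.A p).trace := by
        rw [← KBes_sum a (fun σ => a σ * σ (π.A p).trace) fun σ h0 => by rw [h0, zero_mul],
          Finset.mul_sum]
        refine Finset.sum_congr rfl fun i _ => ?_
        rw [e3]
        ring
      rw [e5, norm_mul, mul_pow, sca_norm]
      ring
  rw [key] at h1 h2
  exact ⟨h1, h2⟩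

/-- From a bound for the series over all primes to the mean. -/
theorem meanLE_of_le {u : ℕ → ℝ} {θ : ℝ} (hθ : 0 ≤ θ)
    (h : ∃ C : ℝ, ∀ s : ℝ, 1 < s → s ≤ 2 →
      (Summable fun p : Nat.Primes => (open Classical in if π.Good p then u p else 0) *
        ((p : ℕ) : ℝ) ^ (-s)) ∧
      ∑' p : Nat.Primes, (open Classical in if π.Good p then u p else 0) *
        ((p : ℕ) : ℝ) ^ (-s) ≤ θ * Real.log (1 / (s - 1)) + C) : π.MeanLE u θ := by
  classical
  obtain ⟨C, hC⟩ := h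
  intro ε hε
  obtain ⟨C0, hC0⟩ := Maass74.neg_log_le_primes
  filter_upwards [hC0, pS_large ((θ * C0 + C) / ε), lt_two, self_mem_nhdsWithin] with s h1 h2 h3 h4
  have hs : (1 : ℝ) < s := h4
  obtain ⟨hsum, hle⟩ := hC s hs h3.le
  set F : Nat.Primes → ℝ := fun p => (if π.Good p then u p else 0) * ((p : ℕ) : ℝ) ^ (-s) with hF
  let i : {p : ℕ // π.Good p} → Nat.Primes := fun p => ⟨p.1, p.2.1⟩
  have hi : Function.Injective i := fun p q hpq => by
    have h5 : (i p : ℕ) = i q := congrArg Subtype.val hpq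
    exact Subtype.ext h5
  have hzero : ∀ q, q ∉ Set.range i → F q = 0 := by
    intro q hq
    have h5 : ¬ π.Good (q : ℕ) := fun h6 => hq ⟨⟨q, h6⟩, rfl⟩
    rw [hF]
    simp only
    rw [if_neg h5, zero_mul]
  have hFi : ∀ p : {p : ℕ // π.Good p}, F (i p) = u p * ((p : ℕ) : ℝ) ^ (-s) := fun p => by
    rw [hF]
    simp only
    rw [if_pos (show π.Good ((i p : Nat.Primes) : ℕ) from p.2)]
  have e1 : (fun p : {p : ℕ // π.Good p} => u p * ((p : ℕ) : ℝ) ^ (-s)) = F ∘ i := by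
    funext p
    exact (hFi p).symm
  have e2 : Summable (F ∘ i) := (hi.summable_iff hzero).2 hsum
  have e3 : ∑' p, (F ∘ i) p = ∑' q, F q := hi.tsum_eq (f := F) (fun q hq => by
    by_contra hq'
    exact hq (hzero q hq'))
  rw [e1]
  refine ⟨e2, ?_⟩
  rw [show tsum (F ∘ i) = ∑' q, F q from e3]
  rw [one_div, Real.log_inv] at hle
  rw [← pS_true] at h1
  have h6 := mul_le_mul_of_nonneg_left h1 hθ
  have h7 : θ * C0 + C ≤ ε * primeSum (fun _ => True) s := by
    have := mul_le_mul_of_nonneg_left h2 hε.le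
    rwa [mul_div_cancel₀ _ hε.ne'] at this
  linarith

theorem meanSquare_weight (hn : 2 ≤ n) {w : ℕ} (h : π.IsCuspidalFamilyOfWeight w)
    (hg : π.GeneratedByCoeffs) (a : (K →+* ℂ) → ℂ)
    (ha : ∀ σ τ, a σ ≠ 0 → a τ ≠ 0 → ∀ p, π.Good p → σ (π.A p).det = τ (π.A p).det) :
    π.MeanLE (fun p => ‖∑ σ, a σ * σ (π.A p).trace‖ ^ 2 / (p : ℝ) ^ w) (∑ σ, ‖a σ‖ ^ 2) := by
  classical
  refine meanLE_of_le (Finset.sum_nonneg fun σ _ => by positivity) ?_
  obtain ⟨C, hC⟩ := bessel_weight hn h hg a ha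
  exact ⟨C, fun s hs hs2 => hC s hs hs2⟩

/-- The mass of the primes with trace in a subfield. -/
theorem mass_weight (hn : 2 ≤ n) {w : ℕ} (h : π.IsCuspidalFamilyOfWeight w)
    (hg : π.GeneratedByCoeffs) (E : IntermediateField ℚ K)
    (hE : ∀ p, π.Good p → (π.A p).det ∈ E) (σ : K →+* ℂ) :
    π.MeanLE (fun p => open Classical in if (π.A p).trace ∈ E then
      ‖σ (π.A p).trace‖ ^ 2 / (p : ℝ) ^ w else 0) (1 / (Module.finrank E K : ℝ)) := by
  classical
  set m : ℕ := Module.finrank E K with hm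
  have hm0 : (0 : ℝ) < m := by
    have : 0 < Module.finrank E K := Module.finrank_pos
    exact_mod_cast this
  let τ : E →+* ℂ := σ.comp (algebraMap E K)
  let a : (K →+* ℂ) → ℂ := fun ρ => if (∀ z : E, ρ (z : K) = τ z) then ρ 1 else 0
  obtain ⟨C, hC⟩ := bessel_weight hn h hg a (by
    intro ρ ρ' h1 h2 p hp
    have h3 : ∀ z : E, ρ (z : K) = τ z := by
      by_contra hc
      exact h1 (if_neg hc)
    have h4 : ∀ z : E, ρ' (z : K) = τ z := by
      by_contra hc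
      exact h2 (if_neg hc)
    exact (h3 ⟨_, hE p hp⟩).trans (h4 ⟨_, hE p hp⟩).symm)
  have hsum : ∀ p, ∑ ρ, a ρ * ρ (π.A p).trace = τ (Algebra.trace E K (1 * (π.A p).trace)) :=
    fun p => KDns_trace E τ 1 (π.A p).trace
  have hcard : ∑ ρ, ‖a ρ‖ ^ 2 = m := by
    have h1 := KDns_trace E τ 1 1
    have h2 : ∀ ρ : K →+* ℂ, ((‖a ρ‖ ^ 2 : ℝ) : ℂ) = a ρ * ρ 1 := by
      intro ρ
      simp only [a]
      split_ifs <;> simp
    have h3 : ((∑ ρ, ‖a ρ‖ ^ 2 : ℝ) : ℂ) = (m : ℂ) := by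
      rw [Complex.ofReal_sum, Finset.sum_congr rfl fun ρ _ => h2 ρ]
      refine h1.trans ?_
      rw [mul_one]
      have h4 : Algebra.trace E K 1 = (m : E) := by
        have := Algebra.trace_algebraMap (R := E) (S := K) 1
        rw [map_one, nsmul_eq_mul, mul_one] at this
        exact this
      rw [h4, map_natCast]
    exact_mod_cast h3
  refine meanLE_of_le (by positivity) ⟨C / m ^ 2, fun s hs hs2 => ?_⟩
  obtain ⟨h1, h2⟩ := hC s hs hs2
  rw [hcard] at h2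
  have hle : ∀ p : Nat.Primes, (m : ℝ) ^ 2 * ((if π.Good p then (if (π.A p).trace ∈ E then
      ‖σ (π.A p).trace‖ ^ 2 / ((p : ℕ) : ℝ) ^ w else 0) else 0) * ((p : ℕ) : ℝ) ^ (-s)) ≤
      (if π.Good p then ‖∑ ρ, a ρ * ρ (π.A p).trace‖ ^ 2 / ((p : ℕ) : ℝ) ^ w else 0) *
        ((p : ℕ) : ℝ) ^ (-s) := by
    intro p
    have hp0 : (0 : ℝ) ≤ ((p : ℕ) : ℝ) ^ (-s) := Real.rpow_nonneg (Nat.cast_nonneg _) _
    rw [← mul_assoc]
    refine mul_le_mul_of_nonneg_right ?_ hp0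
    by_cases hg : π.Good p
    · rw [if_pos hg, if_pos hg]
      by_cases ht : (π.A p).trace ∈ E
      · rw [if_pos ht, hsum]
        have h5 : Algebra.trace E K (1 * (π.A p).trace) = (m : E) * ⟨(π.A p).trace, ht⟩ := by
          rw [one_mul]
          have := Algebra.trace_algebraMap (R := E) (S := K) (⟨(π.A p).trace, ht⟩ : E)
          rw [nsmul_eq_mul] at this
          exact this
        have h6 : τ ((m : E) * ⟨(π.A p).trace, ht⟩) = (m : ℂ) * σ (π.A p).trace := by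
          rw [map_mul, map_natCast]
          rfl
        rw [h5, h6, norm_mul, Complex.norm_natCast, mul_pow]
        exact le_of_eq (by ring)
      · rw [if_neg ht, mul_zero]
        positivity
    · rw [if_neg hg, if_neg hg, mul_zero]
  have hnn : ∀ p : Nat.Primes, 0 ≤ (m : ℝ) ^ 2 * ((if π.Good p then (if (π.A p).trace ∈ E then
      ‖σ (π.A p).trace‖ ^ 2 / ((p : ℕ) : ℝ) ^ w else 0) else 0) * ((p : ℕ) : ℝ) ^ (-s)) := by
    intro p
    have hp0 : (0 : ℝ) ≤ ((p : ℕ) : ℝ) ^ (-s) := Real.rpow_nonneg (Nat.cast_nonneg _) _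
    refine mul_nonneg (by positivity) (mul_nonneg ?_ hp0)
    split_ifs <;> positivity
  have h3 : Summable fun p : Nat.Primes => (m : ℝ) ^ 2 * ((if π.Good p then
      (if (π.A p).trace ∈ E then ‖σ (π.A p).trace‖ ^ 2 / ((p : ℕ) : ℝ) ^ w else 0) else 0) *
        ((p : ℕ) : ℝ) ^ (-s)) := Summable.of_nonneg_of_le hnn hle h1
  have hm2 : ((m : ℝ) ^ 2) ≠ 0 := by positivity
  have h4 := (summable_mul_left_iff hm2).1 h3
  refine ⟨h4, ?_⟩
  have h5 := h3.tsum_le_tsum hle h1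
  rw [tsum_mul_left] at h5
  have h6 := h5.trans h2
  have h7 : (1 / (m : ℝ) * Real.log (1 / (s - 1)) + C / m ^ 2) =
      ((m : ℝ) * Real.log (1 / (s - 1)) + C) / m ^ 2 := by
    field_simp
  rw [h7, le_div_iff₀ (by positivity), mul_comm]
  exact h6

end SatakeSystem

end Pool.Agent.H74V
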