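import Pool.Agent.W_7742p_h74.KWts
import Pool.Agent.W_7742p_h74.KFin
import Pool.Agent.W_7742g_h15.PowA

/-! # Families of cusp forms with complex Satake classes, and of weight `w` -/

set_option autoImplicit false

noncomputable section

namespace Pool.Agent.GL74

open MeasureTheory ComplexConjugate Set
open Pool.Agent.GLForm74
open Pool.Agent.H74E (pk)

variable {s N : ℕ} {χ : DirichletCharacter ℂ N}

theorem KWgt_norm {p : ℕ} (hp : p.Prime) (hpN : ¬ p ∣ N) : ‖conj (χ p)‖ = 1 := by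
  have hu : IsUnit ((p : ℕ) : ZMod N) := (ZMod.isUnit_iff_coprime p _).2
    ((Nat.Prime.coprime_iff_not_dvd hp).2 hpN)
  obtain ⟨u, hu⟩ := hu
  rw [← hu, Complex.norm_conj]
  exact DirichletCharacter.unit_norm_eq_one χ u

theorem KWgt_unitary (hN : 0 < N) {f : Matrix (Fin (s + 2)) (Fin (s + 2)) ℝ → ℂ}
    (hf : IsCuspForm N χ f) (hne : ∃ g, 0 < g.det ∧ f g ≠ 0)
    {B : ℕ → Matrix (Fin (s + 2)) (Fin (s + 2)) ℂ}
    (he : ∀ p : ℕ, p.Prime → ¬ p ∣ N → ∀ k : ℕ, 1 ≤ k → k ≤ s + 2 → ∀ g, 0 < g.det →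
      hecke χ p k f g =
        (Real.sqrt p : ℂ) ^ (k * (s + 2 - k)) * ((-1) ^ k * (B p).charpoly.coeff (s + 2 - k)) * f g)
    {p : ℕ} (hp : p.Prime) (hpN : ¬ p ∣ N) :
    (B p).det = conj (χ p) ∧ ∀ k : ℕ, ((B p)⁻¹ ^ k).trace = conj ((B p) ^ k).trace := by
  obtain ⟨h1, h2⟩ := adj_rel hN hf hne hp hpN
    (fun k => (-1) ^ k * (B p).charpoly.coeff (s + 2 - k)) (he p hp hpN)
  have hξ := KWgt_norm (χ := χ) hp hpN
  refine ⟨?_, fun k => ?_⟩
  · simp only [Nat.sub_self] at h1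
    rw [← h1, Matrix.det_eq_sign_charpoly_coeff, Fintype.card_fin]
  · have h3 := unitary_trace (B := B p) hξ (by
      unfold emx
      rw [← h1]
      simp) (fun i => by
      have h4 := h2 ((i : ℕ) + 1) (by omega) (by omega)
      unfold emx
      have e1 : ((i.rev.castSucc : Fin (s + 2)) : ℕ) + 1 = s + 2 - ((i : ℕ) + 1) := by
        rw [Fin.val_castSucc, Fin.val_rev]
        omega
      rw [e1, Fin.val_castSucc]
      exact h4) k
    exact h3.symm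

/-- Bessel's inequality for a finite family of cusp forms of the same level and character with the
same Whittaker functions at the bad primes. -/
theorem gen_bessel (hN : 0 < N) {ι : Type} [Fintype ι]
    (f : ι → Matrix (Fin (s + 2)) (Fin (s + 2)) ℝ → ℂ) (hf : ∀ i, IsCuspForm N χ (f i))
    (hne : ∀ i, ∃ g, 0 < g.det ∧ f i g ≠ 0)
    (B : ι → ℕ → Matrix (Fin (s + 2)) (Fin (s + 2)) ℂ)
    (he : ∀ i, ∀ p : ℕ, p.Prime → ¬ p ∣ N → ∀ k : ℕ, 1 ≤ k → k ≤ s + 2 → ∀ g, 0 < g.det →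
      hecke χ p k (f i) g = (Real.sqrt p : ℂ) ^ (k * (s + 2 - k)) *
        ((-1) ^ k * (B i p).charpoly.coeff (s + 2 - k)) * f i g)
    (hd : ∀ i j, i ≠ j → ∃ p : ℕ, p.Prime ∧ ¬ p ∣ N ∧ ∃ k : ℕ, 1 ≤ k ∧ k ≤ s + 2 ∧
      (B i p).charpoly.coeff (s + 2 - k) ≠ (B j p).charpoly.coeff (s + 2 - k))
    (hW : ∀ i j, ∀ m : ℕ → ℤ,
      (∀ l, l + 1 < s + 2 → m l ≠ 0 ∧ ∀ p : ℕ, p.Prime → (p : ℤ) ∣ m l → p ∣ N) →
        ∀ g, 0 < g.det → whittaker (f i) m g = whittaker (f j) m g) (a : ι → ℂ) :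
    ∃ C : ℝ, ∀ x : ℝ, 1 < x → x ≤ 2 →
      (Summable fun p : Nat.Primes => (open Classical in if (p : ℕ) ∣ N then 0 else
        ‖∑ i, a i * (B i p).trace‖ ^ 2) * ((p : ℕ) : ℝ) ^ (-x)) ∧
      ∑' p : Nat.Primes, (open Classical in if (p : ℕ) ∣ N then 0 else
        ‖∑ i, a i * (B i p).trace‖ ^ 2) * ((p : ℕ) : ℝ) ^ (-x) ≤
        (∑ i, ‖a i‖ ^ 2) * Real.log (1 / (x - 1)) + C := by
  classical
  set good : ℕ → Prop := fun p => p.Prime ∧ ¬ p ∣ N with hgood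
  have hdet : ∀ i, ∀ p : ℕ, p.Prime → ¬ p ∣ N → ‖(B i p).det‖ = 1 := fun i p hp hpN => by
    rw [(KWgt_unitary hN (hf i) (hne i) (he i) hp hpN).1]
    exact KWgt_norm hp hpN
  have hone : ∀ i, ∃ C : ℝ, ∀ x : ℝ, 1 < x → x ≤ 2 →
      (Summable fun y => ‖tin good (B i) y‖ ^ 2 * pk x y) ∧
      ∑' y, ‖tin good (B i) y‖ ^ 2 * pk x y ≤ Real.log (1 / (x - 1)) + C := by
    intro i
    have h1 : WeakRS (TT good (B i)) := weakRS hN (hf i) (hne i) (he i)
    have h2 : (fun y => ‖tin good (B i) y‖ ^ 2) = TT good (B i) := funext fun y => tin_tt _ _ y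
    rw [← h2] at h1
    have h0 : ∀ y, 0 ≤ ‖tin good (B i) y‖ ^ 2 := fun y => sq_nonneg _
    obtain ⟨C, hC⟩ := h1.log_le h0
    exact ⟨C, fun x hx hx2 => ⟨h1.summable h0 hx, hC x hx hx2⟩⟩
  have hasy : ∀ i j, i ≠ j → PairAsy (tin good (B i)) (tin good (B j)) := by
    intro i j hij
    refine (pairRS hN (hf i) (hf j) (hne i) (hne j) (he i) (he j) (hd i j hij) ?_).asy
      (div_single (by omega) hN (hdet i)) (div_single (by omega) hN (hdet j))
      (div_pair (by omega) hN (hdet i) (hdet j))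
    intro m hm
    have b1 := isP_tof (hf i)
    have b2 := isP_tof (hf j)
    obtain ⟨C1, hC1⟩ := b1.bdd
    obtain ⟨C2, hC2⟩ := b2.bdd
    refine wh_eq (C := max C1 C2) b1.meas b2.meas (fun g => (hC1 g).trans (le_max_left _ _))
      (fun g => (hC2 g).trans (le_max_right _ _)) (fun g hg => ?_)
    refine hW j i _ (fun l hl => ?_) g hg
    have hl' : l < s + 1 := by omega
    have e1 : ext m l = m ⟨l, hl'⟩ := by
      unfold ext
      rw [dif_pos hl']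
    rw [e1]
    refine ⟨(hm _).1, fun p hp hpm => ?_⟩
    by_contra hcon
    exact (hm ⟨l, hl'⟩).2 p ⟨hp, hcon⟩ hpm
  obtain ⟨C, hC⟩ := moment (fun i => tin good (B i)) hone hasy (fun i => conj (a i))
  refine ⟨C, fun x hx hx2 => ?_⟩
  obtain ⟨h1, h2⟩ := hC x hx hx2
  simp only [RCLike.norm_conj] at h2
  have key : ∀ p : Nat.Primes, ‖∑ i, conj (a i) * tin good (B i) (p, 0)‖ ^ 2 * pk x (p, 0) =
      (if (p : ℕ) ∣ N then 0 else ‖∑ i, a i * (B i p).trace‖ ^ 2) * ((p : ℕ) : ℝ) ^ (-x) := by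
    intro p
    have e2 : pk x (p, 0) = ((p : ℕ) : ℝ) ^ (-x) := by
      rw [Pool.Agent.H74E.pk_eq]
      simp
    rw [e2]
    congr 1
    by_cases hp : (p : ℕ) ∣ N
    · rw [if_pos hp]
      have e4 : ∀ i, tin good (B i) (p, 0) = 0 := fun i => if_neg fun h => h.2 hp
      simp [e4]
    · rw [if_neg hp]
      have e3 : ∑ i, conj (a i) * tin good (B i) (p, 0) = conj (∑ i, a i * (B i p).trace) := by
        rw [map_sum]
        refine Finset.sum_congr rfl fun i _ => ?_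
        have e5 : tin good (B i) (p, 0) = ((B i p)⁻¹ ^ 1).trace := if_pos ⟨p.2, hp⟩
        rw [e5, (KWgt_unitary hN (hf i) (hne i) (he i) p.2 hp).2 1, pow_one, map_mul]
      rw [e3, RCLike.norm_conj]
  have hinj : Function.Injective fun p : Nat.Primes => (p, (0 : ℕ)) := fun p q hpq =>
    (Prod.mk.inj hpq).1
  have h3 := h1.comp_injective hinj
  have e5 : ((fun y : Nat.Primes × ℕ => ‖∑ i, conj (a i) * tin good (B i) y‖ ^ 2 * pk x y) ∘
      fun p : Nat.Primes => (p, (0 : ℕ))) =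
      fun p : Nat.Primes => (if (p : ℕ) ∣ N then 0 else ‖∑ i, a i * (B i p).trace‖ ^ 2) *
        ((p : ℕ) : ℝ) ^ (-x) := funext fun p => key p
  refine ⟨e5 ▸ h3, ?_⟩
  refine le_trans ?_ h2
  rw [← e5]
  exact tsum_comp_le_tsum_of_inj h1
    (fun y => mul_nonneg (sq_nonneg _) (Pool.Agent.H74E.pk_nonneg x y)) hinj

end Pool.Agent.GL74
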