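import Pool.Agent.W_7742x_h74.HPie

/-! # Whittaker functions of eigenforms at the prime powers

`isPieri_whit` and `eq_sch` (SPol) give `whit φ p ξ m t ν = sch ev ν * whit φ p ξ m t 0`, and
`whit φ p ξ m t 0 = Wh φ m t` (`mnu p m 0 = m`, `tnu p t 0 = t`).  For two forms with the same `ξ`,
`|ξ| = 1`, multiply the identity for `φ` by the conjugate of the identity for `ψ`. -/

set_option autoImplicit false

noncomputable section

namespace Pool.Agent.GL74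

open MeasureTheory ComplexConjugate
open scoped ENNReal

theorem whit_eq {r : ℕ} {φ : X (r + 1) → ℂ} (hφ : IsP φ) {p : ℕ} (hp : p.Prime) {ξ : ℂ}
    {ev : Fin (r + 1) → ℂ} (hE : IsEig φ p ξ ev) {m : ℕ → ℤ}
    (hm : ∀ i, i < r → ¬ (p : ℤ) ∣ m i) {t : X (r + 1)} (ht : ∀ i, t i i ≠ 0)
    {ν : Fin (r + 1) → ℕ} (hν : Antitone ν) :
    ξ ^ (ν 0) * (Real.sqrt p : ℂ) ^ (∑ j : Fin (r + 1), (ν j : ℤ) * ((r : ℤ) - 2 * (j : ℕ))) *
        Wh (r + 1) φ (mnu p m ν) (tnu p t ν) =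
      sch ev ν * Wh (r + 1) φ m t := by
  have h1 := eq_sch (isPieri_whit hφ hp hE hm ht) ν
  have h0 : whit φ p ξ m t 0 = Wh (r + 1) φ m t := by
    have ha : Antitone (0 : Fin (r + 1) → ℕ) := fun _ _ _ => le_rfl
    unfold whit
    rw [if_pos ha]
    have e1 : mnu p m (0 : Fin (r + 1) → ℕ) = m := by
      funext i
      unfold mnu
      split_ifs
      · simp
      · rfl
    have e2 : tnu p t (0 : Fin (r + 1) → ℕ) = t := by
      funext i j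
      simp [tnu]
    rw [e1, e2]
    simp
  rw [h0] at h1
  rw [← h1]
  unfold whit
  rw [if_pos hν]

theorem pair_whit {r : ℕ} {φ ψ : X (r + 1) → ℂ} (hφ : IsP φ) (hψ : IsP ψ) {p : ℕ}
    (hp : p.Prime) {ξ : ℂ} (hξ : ‖ξ‖ = 1) {ev ev' : Fin (r + 1) → ℂ} (hE : IsEig φ p ξ ev)
    (hE' : IsEig ψ p ξ ev') {m : ℕ → ℤ} (hm : ∀ i, i < r → ¬ (p : ℤ) ∣ m i) {t : X (r + 1)}
    (ht : ∀ i, t i i ≠ 0) {ν : Fin (r + 1) → ℕ} (hν : Antitone ν) :
    Wh (r + 1) φ (mnu p m ν) (tnu p t ν) * conj (Wh (r + 1) ψ (mnu p m ν) (tnu p t ν)) =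
      sch ev ν * conj (sch ev' ν) *
        (((p : ℝ) ^ (-∑ j : Fin (r + 1), (ν j : ℤ) * ((r : ℤ) - 2 * (j : ℕ))) : ℝ) : ℂ) *
        (Wh (r + 1) φ m t * conj (Wh (r + 1) ψ m t)) := by
  have h1 := whit_eq hφ hp hE hm ht hν
  have h2 := whit_eq hψ hp hE' hm ht hν
  have hp0 : (0 : ℝ) < p := by exact_mod_cast hp.pos
  set E : ℤ := ∑ j : Fin (r + 1), (ν j : ℤ) * ((r : ℤ) - 2 * (j : ℕ)) with hE0
  set a := Wh (r + 1) φ (mnu p m ν) (tnu p t ν)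
  set b := Wh (r + 1) ψ (mnu p m ν) (tnu p t ν)
  have hX : ξ ^ (ν 0) * conj (ξ ^ (ν 0)) = 1 := by
    rw [Complex.mul_conj, Complex.normSq_eq_norm_sq, norm_pow, hξ]
    simp
  have hs : (Real.sqrt p) ^ E * (Real.sqrt p) ^ E = (p : ℝ) ^ E := by
    rw [← mul_zpow, Real.mul_self_sqrt hp0.le]
  have hQ : ((Real.sqrt p : ℂ)) ^ E = (((Real.sqrt p) ^ E : ℝ) : ℂ) := by push_cast; rfl
  have hpE : (p : ℝ) ^ (-E) * (p : ℝ) ^ E = 1 := by
    rw [← zpow_add₀ hp0.ne']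
    simp
  have h3 : conj (ξ ^ (ν 0)) * (((Real.sqrt p) ^ E : ℝ) : ℂ) * conj b =
      conj (sch ev' ν) * conj (Wh (r + 1) ψ m t) := by
    have := congrArg conj h2
    rw [hQ] at this
    simpa only [map_mul, Complex.conj_ofReal] using this
  rw [hQ] at h1
  have h4 : (((p : ℝ) ^ E : ℝ) : ℂ) * (a * conj b) =
      (sch ev ν * Wh (r + 1) φ m t) * (conj (sch ev' ν) * conj (Wh (r + 1) ψ m t)) := by
    rw [← h1, ← h3, ← hs, Complex.ofReal_mul]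
    calc _ = (ξ ^ (ν 0) * conj (ξ ^ (ν 0))) *
          ((((Real.sqrt p) ^ E : ℝ) : ℂ) * (((Real.sqrt p) ^ E : ℝ) : ℂ) * (a * conj b)) := by
            rw [hX, one_mul]
      _ = _ := by ring
  calc a * conj b = ((((p : ℝ) ^ (-E) * (p : ℝ) ^ E : ℝ)) : ℂ) * (a * conj b) := by
        rw [hpE]; simp
    _ = (((p : ℝ) ^ (-E) : ℝ) : ℂ) * ((((p : ℝ) ^ E : ℝ) : ℂ) * (a * conj b)) := by
        rw [Complex.ofReal_mul]; ring
    _ = _ := by rw [h4]; ring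

end Pool.Agent.GL74
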