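import Pool.Agent.W_7742p_h74.KStm

/-! Definitions for the statement: weights, means. -/

set_option autoImplicit false

noncomputable section

namespace Pool.Agent.H74V

open Filter Topology ComplexConjugate

namespace SatakeSystem

variable {K : Type} [Field K] [NumberField K] {n : ℕ} (π : SatakeSystem K n)

/-- For every embedding `σ` there is a nonzero cusp form `f σ` on `GL_n` of level `level` and some
character `χ σ` with the system `p ^ (-w / 2) σ (A p)` of Satake classes, that is, the eigenvalue of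
`T_{p,k}` is `p ^ (k (n - k - w) / 2)` times the `k`-th elementary symmetric function of the eigenvalues
of `σ (A p)`, for `1 ≤ k ≤ n` and all `p` not dividing the level; and the Whittaker functions of `f σ`
with nonzero parameters `m` composed of primes dividing the level do not depend on `σ`. -/
def IsCuspidalFamilyOfWeight (w : ℕ) : Prop :=
  ∃ (χ : (K →+* ℂ) → DirichletCharacter ℂ π.level)
    (f : (K →+* ℂ) → Matrix (Fin n) (Fin n) ℝ → ℂ),
    (∀ σ, GLForm74.IsCuspForm π.level (χ σ) (f σ) ∧ (∃ g, 0 < g.det ∧ f σ g ≠ 0) ∧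
      ∀ p : ℕ, p.Prime → ¬ p ∣ π.level → ∀ k : ℕ, 1 ≤ k → k ≤ n → ∀ g, 0 < g.det →
        GLForm74.hecke (χ σ) p k (f σ) g = (Real.sqrt p : ℂ) ^ (k * (n - k)) *
          ((-1) ^ k * ((π.A p).charpoly.map σ).coeff (n - k)) / (Real.sqrt p : ℂ) ^ (k * w) *
            f σ g) ∧
    ∀ (σ τ : K →+* ℂ) (m : ℕ → ℤ),
      (∀ j, j + 1 < n → m j ≠ 0 ∧ ∀ p : ℕ, p.Prime → (p : ℤ) ∣ m j → p ∣ π.level) →
        ∀ g, 0 < g.det → GLForm74.whittaker (f σ) m g = GLForm74.whittaker (f τ) m g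

/-- The mean (in the sense of the Dirichlet density) of `u p` over the primes `p`, those dividing the
level left out, is at most `θ`. -/
def MeanLE (u : ℕ → ℝ) (θ : ℝ) : Prop :=
  ∀ ε : ℝ, 0 < ε → ∀ᶠ s in 𝓝[>] (1 : ℝ),
    (Summable fun p : {p : ℕ // π.Good p} => u p * ((p : ℕ) : ℝ) ^ (-s)) ∧
    ∑' p : {p : ℕ // π.Good p}, u p * ((p : ℕ) : ℝ) ^ (-s) ≤
      (θ + ε) * primeSum (fun _ => True) s

theorem isCuspidalFamily_of_weight_zero (h : π.IsCuspidalFamilyOfWeight 0) :
    π.IsCuspidalFamily := by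
  obtain ⟨χ, f, h1, h2⟩ := h
  refine ⟨χ, f, fun σ => ⟨(h1 σ).1, (h1 σ).2.1, fun p hp hpN k hk1 hk2 g hg => ?_⟩, h2⟩
  rw [(h1 σ).2.2 p hp hpN k hk1 hk2 g hg, mul_zero, pow_zero, div_one]

end SatakeSystem

end Pool.Agent.H74V
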